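import Mathlib

open MeasureTheory ProbabilityTheory
open scoped ENNReal NNReal

namespace Pool.Agent.Helper83.ConfDim

/-- `f` is quasisymmetric: there is a homeomorphism `η` of `[0, ∞)` such that
`d(x,a) ≤ t d(x,b)` implies `d(f x, f a) ≤ η(t) d(f x, f b)`. -/
def IsQuasisymmetric {X Y : Type*} [MetricSpace X] [MetricSpace Y] (f : X → Y) : Prop :=
  ∃ η : ℝ≥0 ≃ₜ ℝ≥0, ∀ (x a b : X) (t : ℝ≥0),
    dist x a ≤ t * dist x b → dist (f x) (f a) ≤ η t * dist (f x) (f b)

/-- Conformal dimension: the infimum of the Hausdorff dimensions of the metric spaces that are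
images of `X` under a quasisymmetric homeomorphism. -/
noncomputable def confDim (X : Type) [MetricSpace X] : ℝ≥0∞ :=
  ⨅ (Y : Type) (_ : MetricSpace Y) (f : X ≃ₜ Y) (_ : IsQuasisymmetric f), dimH (Set.univ : Set Y)

/-- Standard Brownian motion in `ℝ^n` started at `0`: almost surely continuous paths,
independent increments, and `B (s + t) - B s` is a vector of `n` independent centred Gaussian
variables with variance `t`. -/
structure IsBrownian {Ω : Type*} [MeasurableSpace Ω] (n : ℕ) (P : Measure Ω)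
    (B : ℝ≥0 → Ω → EuclideanSpace ℝ (Fin n)) : Prop where
  measurable : ∀ t, Measurable (B t)
  start : ∀ᵐ ω ∂P, B 0 ω = 0
  cont : ∀ᵐ ω ∂P, Continuous fun t => B t ω
  indep : HasIndepIncrements B P
  law : ∀ s t : ℝ≥0, P.map (fun ω (i : Fin n) => (B (s + t) ω - B s ω) i) =
    Measure.pi fun _ : Fin n => gaussianReal 0 t

/-- The trace `B([0,1])`. -/
def trace {Ω : Type*} {n : ℕ} (B : ℝ≥0 → Ω → EuclideanSpace ℝ (Fin n)) (ω : Ω) :
    Set (EuclideanSpace ℝ (Fin n)) := (fun t => B t ω) '' Set.Icc 0 1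

end Pool.Agent.Helper83.ConfDim
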