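import Pool.Agent.Helper83.ConfDim.Ev4

open MeasureTheory ProbabilityTheory Filter
open scoped ENNReal NNReal Topology

namespace Pool.Agent.Helper83.ConfDim

lemma cross {p : ℕ → ℤ} {Q : ℕ} {b w : ℤ} (h0 : p 0 ≤ b) (hQ : b + w ≤ p Q) (hw : 0 < w)
    (hj : ∀ q < Q, ¬ (p q ≤ b ∧ b + w ≤ p (q + 1))) : ∃ q < Q, b < p q ∧ p q < b + w := by
  classical
  have hex : ∃ q, b < p q := ⟨Q, by omega⟩
  set q0 := Nat.find hex with hq0
  have h1 : b < p q0 := Nat.find_spec hex
  have h2 : q0 ≤ Q := Nat.find_min' hex (by omega)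
  have h3 : q0 ≠ 0 := by
    intro h; rw [h] at h1; omega
  obtain ⟨r, hr⟩ := Nat.exists_eq_succ_of_ne_zero h3
  have h4 : ¬ b < p r := Nat.find_min hex (by omega)
  have h5 := hj r (by omega)
  rw [Nat.succ_eq_add_one] at hr
  rw [← hr] at h5
  have h6 : p q0 < b + w := by
    by_contra hcon
    exact h5 ⟨by omega, by omega⟩
  refine ⟨q0, ?_, h1, h6⟩
  rcases Nat.lt_or_ge q0 Q with h | h
  · exact h
  · have : q0 = Q := le_antisymm h2 h
    rw [this] at h6; omega

lemma card_good {N : ℕ} {p : ℕ → Prop} [DecidablePred p]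
    (h : ¬ N ≤ 2 * ((Finset.range N).filter p).card) :
    N ≤ 2 * ((Finset.range N).filter fun k => ¬ p k).card := by
  have h1 := Finset.card_filter_add_card_filter_not (s := Finset.range N) p
  rw [Finset.card_range] at h1
  omega

variable {F : Type*} [NormedAddCommGroup F] {A E : ℕ} {g V V' : ℝ≥0} {rr : ℝ}

lemma blk_inj {m0 i i' : ℕ} {x : ℤ} (h1 : (blk A E m0 i : ℤ) < x)
    (h2 : x < blk A E m0 i + (A ^ 3 : ℕ)) (h3 : (blk A E m0 i' : ℤ) < x)
    (h4 : x < blk A E m0 i' + (A ^ 3 : ℕ)) : i = i' := by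
  unfold blk at *
  by_contra hne
  rcases Nat.lt_or_gt_of_ne hne with h | h
  · have h5 : (i + 1) * A ^ 3 ≤ i' * A ^ 3 := Nat.mul_le_mul_right _ h
    rw [Nat.add_mul, one_mul] at h5
    omega
  · have h5 : (i' + 1) * A ^ 3 ≤ i * A ^ 3 := Nat.mul_le_mul_right _ h
    rw [Nat.add_mul, one_mul] at h5
    omega

lemma win_inj {q c c' : ℕ} {x : ℤ} (h1 : (win A E q c : ℤ) ≤ x)
    (h2 : x < win A E q c + (4 * A ^ (E + 1) : ℕ)) (h3 : (win A E q c' : ℤ) ≤ x)
    (h4 : x < win A E q c' + (4 * A ^ (E + 1) : ℕ)) : c = c' := by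
  unfold win at *
  by_contra hne
  rcases Nat.lt_or_gt_of_ne hne with h | h
  · have h5 : (c + 1) * (4 * A ^ (E + 1)) ≤ c' * (4 * A ^ (E + 1)) := Nat.mul_le_mul_right _ h
    rw [Nat.add_mul, one_mul] at h5
    omega
  · have h5 : (c' + 1) * (4 * A ^ (E + 1)) ≤ c * (4 * A ^ (E + 1)) := Nat.mul_le_mul_right _ h
    rw [Nat.add_mul, one_mul] at h5
    omega

/-- **crossing a long interval takes many steps** -/
lemma side_cross {γ : ℝ≥0 → F} (hE : 2 ≤ E) (hA : 16 ≤ A) (h4 : 4 ∣ A)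
    (hp : ¬ Poor A E g rr V γ) {p : ℕ → ℤ} {Q k : ℕ}
    (hV : ((k + 1 : ℕ)) * (A ^ (2 * E) * g) ≤ V) (hk : k < A ^ (E + 1))
    (h0 : p 0 ≤ (k * A ^ (2 * E) : ℕ)) (hQ : ((k + 1) * A ^ (2 * E) : ℕ) ≤ p Q)
    (hstep : ∀ q < Q, |p (q + 1) - p q| < (A ^ (E + 1) : ℕ))
    (hclose : ∀ q < Q, 0 ≤ p q → 0 ≤ p (q + 1) →
      ‖γ ((p (q + 1)).toNat * g) - γ ((p q).toNat * g)‖ ≤ 6 * rr) :
    A ^ (2 * E - 3) ≤ 16 * Q := by
  classical
  have hJ : ¬ PoorJ A E g rr γ k := fun h => hp ⟨k, hk, hV, h⟩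
  unfold PoorJ at hJ
  have hG := card_good hJ
  set G := (Finset.range (Nw A E)).filter fun c => ¬ PoorW A E g rr γ (win A E k c) with hGdef
  set H : ℕ → Finset ℕ := fun c => (Finset.range (A ^ (E - 2))).filter
    fun i => ¬ Jump A E g rr γ (win A E k c) (blk A E (win A E k c) i) with hHdef
  have hH : ∀ c ∈ G, A ^ (E - 2) ≤ 2 * (H c).card := by
    intro c hc
    have h1 := (Finset.mem_filter.1 hc).2
    unfold PoorW at h1
    exact card_good h1
  have hA3 : 0 < A ^ 3 := by positivity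
  -- unjumped blocks are visited
  have hvis : ∀ x ∈ G.sigma H, ∃ q < Q, (blk A E (win A E k x.1) x.2 : ℤ) < p q ∧
      p q < blk A E (win A E k x.1) x.2 + (A ^ 3 : ℕ) := by
    rintro ⟨c, i⟩ hx
    rw [Finset.mem_sigma] at hx
    obtain ⟨hc, hi⟩ := hx
    simp only at hc hi ⊢
    have hc' : c < Nw A E := Finset.mem_range.1 (Finset.mem_filter.1 hc).1
    have hi' : i < A ^ (E - 2) := Finset.mem_range.1 (Finset.mem_filter.1 hi).1
    have hi2 : ¬ Jump A E g rr γ (win A E k c) (blk A E (win A E k c) i) :=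
      (Finset.mem_filter.1 hi).2
    have hwl := win_le hE (q := k) hc'
    have hbl := blk_le (m0 := win A E k c) hE hi'
    have hkw : k * A ^ (2 * E) ≤ win A E k c := by unfold win; omega
    have hbm : win A E k c + A ^ (E + 1) ≤ blk A E (win A E k c) i := by unfold blk; omega
    refine cross ?_ ?_ (by exact_mod_cast hA3) ?_
    · have : ((k * A ^ (2 * E) : ℕ) : ℤ) ≤ (blk A E (win A E k c) i : ℤ) := by
        exact_mod_cast (by omega : k * A ^ (2 * E) ≤ blk A E (win A E k c) i)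
      omega
    · have : ((blk A E (win A E k c) i + A ^ 3 : ℕ) : ℤ) ≤ (((k + 1) * A ^ (2 * E) : ℕ) : ℤ) := by
        exact_mod_cast (by omega : blk A E (win A E k c) i + A ^ 3 ≤ (k + 1) * A ^ (2 * E))
      rw [Nat.cast_add] at this
      omega
    · rintro q hq ⟨hq1, hq2⟩
      have hs := abs_lt.1 (hstep q hq)
      have hp0 : 0 ≤ p q := by omega
      have hp1 : 0 ≤ p (q + 1) := by omega
      have hcl := hclose q hq hp0 hp1
      refine hi2 ⟨(p (q + 1)).toNat, by omega, (p q).toNat, by omega, by omega, by omega, ?_⟩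
      exact hcl
  choose! f hf1 hf2 hf3 using hvis
  have hcard : (G.sigma H).card ≤ (Finset.range Q).card := by
    refine Finset.card_le_card_of_injOn f (fun x hx => Finset.mem_range.2 (hf1 x hx)) ?_
    rintro ⟨c, i⟩ hx ⟨c', i'⟩ hx' hff
    have e1 := hf2 _ hx
    have e2 := hf3 _ hx
    have e3 := hf2 _ hx'
    have e4 := hf3 _ hx'
    rw [← hff] at e3 e4
    simp only at e1 e2 e3 e4
    rw [Finset.mem_coe, Finset.mem_sigma] at hx hx'
    have hi' : i < A ^ (E - 2) := Finset.mem_range.1 (Finset.mem_filter.1 hx.2).1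
    have hi2' : i' < A ^ (E - 2) := Finset.mem_range.1 (Finset.mem_filter.1 hx'.2).1
    have hbl := blk_le (m0 := win A E k c) hE hi'
    have hbl' := blk_le (m0 := win A E k c') hE hi2'
    have hbm : win A E k c + A ^ (E + 1) ≤ blk A E (win A E k c) i := by unfold blk; omega
    have hbm' : win A E k c' + A ^ (E + 1) ≤ blk A E (win A E k c') i' := by unfold blk; omega
    have hcc : c = c' := win_inj (A := A) (E := E) (q := k) (x := p (f ⟨c, i⟩)) (by omega) (by omega) (by omega) (by omega)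
    subst hcc
    have hii : i = i' := blk_inj e1 e2 e3 e4
    rw [hii]
  rw [Finset.card_sigma, Finset.card_range] at hcard
  have h1 : G.card * A ^ (E - 2) ≤ 2 * Q := by
    calc G.card * A ^ (E - 2) = ∑ _c ∈ G, A ^ (E - 2) := by rw [Finset.sum_const, smul_eq_mul]
      _ ≤ ∑ c ∈ G, 2 * (H c).card := Finset.sum_le_sum hH
      _ = 2 * ∑ c ∈ G, (H c).card := by rw [Finset.mul_sum]
      _ ≤ 2 * Q := by omega
  have h2 : 4 * Nw A E = A ^ (E - 1) := by
    unfold Nw
    refine Nat.mul_div_cancel' (h4.trans ?_)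
    exact dvd_pow_self A (by omega)
  calc A ^ (2 * E - 3) = A ^ (E - 1) * A ^ (E - 2) := by
        rw [← pow_add]; congr 1; omega
    _ = 4 * Nw A E * A ^ (E - 2) := by rw [h2]
    _ ≤ 4 * (2 * G.card) * A ^ (E - 2) := by gcongr
    _ = 8 * (G.card * A ^ (E - 2)) := by ring
    _ ≤ 8 * (2 * Q) := by gcongr
    _ = 16 * Q := by ring

end Pool.Agent.Helper83.ConfDim
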