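import Pool.Agent.Helper83.ConfDim.Det1

open MeasureTheory ProbabilityTheory Filter
open scoped ENNReal NNReal Topology

namespace Pool.Agent.Helper83.ConfDim

variable {F : Type*} [NormedAddCommGroup F] {A E : ℕ} {g V V' : ℝ≥0} {rr : ℝ}

/-- grid chain on a two-sided path -/
structure GP (A E : ℕ) (g : ℝ≥0) (rr : ℝ) (V V' : ℝ≥0) (γ γ' : ℝ≥0 → F) (p : ℕ → ℤ) (Q : ℕ) :
    Prop where
  bd : ∀ q ≤ Q, |p q| ≤ (A ^ (3 * E + 1) : ℕ)
  v1 : ∀ q ≤ Q, (p q).toNat * g ≤ V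
  v2 : ∀ q ≤ Q, (-p q).toNat * g ≤ V'
  st : ∀ q < Q, |p (q + 1) - p q| < (A ^ (E + 1) : ℕ)
  c1 : ∀ q < Q, 0 ≤ p q → 0 ≤ p (q + 1) →
    ‖γ ((p (q + 1)).toNat * g) - γ ((p q).toNat * g)‖ ≤ 6 * rr
  c2 : ∀ q < Q, p q ≤ 0 → p (q + 1) ≤ 0 →
    ‖γ' ((-p (q + 1)).toNat * g) - γ' ((-p q).toNat * g)‖ ≤ 6 * rr

lemma GP.flip {γ γ' : ℝ≥0 → F} {p : ℕ → ℤ} {Q : ℕ} (h : GP A E g rr V V' γ γ' p Q) :
    GP A E g rr V' V γ' γ (fun q => -p q) Q where
  bd q hq := by rw [abs_neg]; exact h.bd q hq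
  v1 q hq := h.v2 q hq
  v2 q hq := by rw [neg_neg]; exact h.v1 q hq
  st q hq := by
    have := h.st q hq
    rw [show -p (q + 1) - -p q = -(p (q + 1) - p q) by ring, abs_neg]
    exact this
  c1 q hq h1 h2 := h.c2 q hq (by omega) (by omega)
  c2 q hq h1 h2 := by
    rw [neg_neg, neg_neg]
    exact h.c1 q hq (by omega) (by omega)

lemma GP.rev {γ γ' : ℝ≥0 → F} {p : ℕ → ℤ} {Q : ℕ} (h : GP A E g rr V V' γ γ' p Q) :
    GP A E g rr V V' γ γ' (fun q => p (Q - q)) Q where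
  bd q _ := h.bd (Q - q) (by omega)
  v1 q _ := h.v1 (Q - q) (by omega)
  v2 q _ := h.v2 (Q - q) (by omega)
  st q hq := by
    have h1 := h.st (Q - (q + 1)) (by omega)
    rw [show Q - (q + 1) + 1 = Q - q by omega, abs_sub_comm] at h1
    exact h1
  c1 q hq h1 h2 := by
    have h3 := h.c1 (Q - (q + 1)) (by omega) h2 (by
      rw [show Q - (q + 1) + 1 = Q - q by omega]; exact h1)
    rw [show Q - (q + 1) + 1 = Q - q by omega, norm_sub_rev] at h3
    exact h3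
  c2 q hq h1 h2 := by
    have h3 := h.c2 (Q - (q + 1)) (by omega) h2 (by
      rw [show Q - (q + 1) + 1 = Q - q by omega]; exact h1)
    rw [show Q - (q + 1) + 1 = Q - q by omega, norm_sub_rev] at h3
    exact h3

lemma GP.up {γ γ' : ℝ≥0 → F} {p : ℕ → ℤ} {Q k : ℕ} (h : GP A E g rr V V' γ γ' p Q)
    (hE : 2 ≤ E) (hA : 16 ≤ A) (h4 : 4 ∣ A) (hp : ¬ Poor A E g rr V γ)
    (h0 : p 0 ≤ (k * A ^ (2 * E) : ℕ)) (hQ : ((k + 1) * A ^ (2 * E) : ℕ) ≤ p Q) :
    A ^ (2 * E - 3) ≤ 16 * Q := by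
  have hb := (abs_le.1 (h.bd Q le_rfl)).2
  refine side_cross hE hA h4 hp ?_ ?_ h0 hQ h.st h.c1
  · refine le_trans ?_ (h.v1 Q le_rfl)
    have h1 : (k + 1) * A ^ (2 * E) ≤ (p Q).toNat := by omega
    rw [← mul_assoc]
    gcongr
    exact_mod_cast h1
  · have h1 : (k + 1) * A ^ (2 * E) ≤ A ^ (E + 1) * A ^ (2 * E) := by
      rw [← pow_add, show E + 1 + 2 * E = 3 * E + 1 by ring]
      omega
    exact Nat.le_of_mul_le_mul_right h1 (by positivity)

lemma GP.upz {γ γ' : ℝ≥0 → F} {p : ℕ → ℤ} {Q : ℕ} {k : ℤ} (h : GP A E g rr V V' γ γ' p Q)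
    (hE : 2 ≤ E) (hA : 16 ≤ A) (h4 : 4 ∣ A) (hp : ¬ Poor A E g rr V γ)
    (hp' : ¬ Poor A E g rr V' γ')
    (h0 : p 0 ≤ k * (A ^ (2 * E) : ℕ)) (hQ : (k + 1) * (A ^ (2 * E) : ℕ) ≤ p Q) :
    A ^ (2 * E - 3) ≤ 16 * Q := by
  rcases le_or_gt 0 k with hk | hk
  · obtain ⟨k', rfl⟩ := Int.eq_ofNat_of_zero_le hk
    exact h.up (k := k') hE hA h4 hp (by push_cast at h0 ⊢; exact h0) (by push_cast at hQ ⊢; exact hQ)
  · obtain ⟨k', hk'⟩ := Int.eq_ofNat_of_zero_le (a := -(k + 1)) (by omega)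
    have e1 : k + 1 = -(k' : ℤ) := by omega
    have e2 : k = -((k' : ℤ) + 1) := by omega
    refine h.flip.rev.up (k := k') hE hA h4 hp' ?_ ?_
    · simp only [Nat.sub_zero]
      rw [e1] at hQ
      push_cast at hQ ⊢
      linarith
    · simp only [Nat.sub_self]
      rw [e2] at h0
      push_cast at h0 ⊢
      linarith

/-- coarse displacement bound -/
lemma coarse {γ : ℝ≥0 → F} (hγ : Continuous γ) (hrr : 0 ≤ rr) (h4 : 4 ∣ A) (hA : 0 < A)
    (hmc : ¬ Mc A E g rr γ) {m m' : ℕ} (hmm : m ≤ m') (hm' : m' ≤ A ^ (3 * E + 1))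
    (hd : m' < m + 2 * A ^ (2 * E)) :
    ‖γ (m' * g) - γ (m * g)‖ ≤ 3 * (A ^ E * rr) / 32 := by
  set C := 4 * A ^ (2 * E) with hC
  have hCpos : 0 < C := by positivity
  obtain ⟨K, hK⟩ : 4 ∣ A ^ (E + 1) := h4.trans (dvd_pow_self A (by omega))
  have hKC : K * C = A ^ (3 * E + 1) := by
    calc K * C = (4 * K) * A ^ (2 * E) := by rw [hC]; ring
      _ = A ^ (3 * E + 1) := by rw [← hK, ← pow_add]; congr 1; ring
  have hR : 0 ≤ (A : ℝ) ^ E * rr := by positivity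
  have hcell : ∀ c < K, ∀ x : ℕ, c * C ≤ x → x ≤ (c + 1) * C →
      ‖γ (x * g) - γ ((c * C : ℕ) * g)‖ ≤ (A ^ E * rr) / 32 := by
    intro c hc x hx1 hx2
    have h1 : ¬ Chb γ (c * (4 * A ^ (2 * E) * g)) (4 * A ^ (2 * E) * g) (A ^ E * rr / 16) := by
      intro hcb
      refine hmc ⟨c, ?_, ?_, hcb⟩
      · omega
      · omega
    have h2 := chain_all hγ (by positivity) h1 (s := x * g) (by
      have : ((c * C : ℕ) : ℝ≥0) ≤ (x : ℝ≥0) := by exact_mod_cast hx1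
      calc (c : ℝ≥0) * (4 * A ^ (2 * E) * g) = ((c * C : ℕ) : ℝ≥0) * g := by
            rw [hC]; push_cast; ring
        _ ≤ x * g := by gcongr) (by
      have : (x : ℝ≥0) ≤ (((c + 1) * C : ℕ) : ℝ≥0) := by exact_mod_cast hx2
      calc (x : ℝ≥0) * g ≤ (((c + 1) * C : ℕ) : ℝ≥0) * g := by gcongr
        _ = _ := by rw [hC]; push_cast; ring)
    have h3 : (c : ℝ≥0) * (4 * A ^ (2 * E) * g) = ((c * C : ℕ) : ℝ≥0) * g := by
      rw [hC]; push_cast; ring
    rw [h3] at h2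
    linarith
  rcases Nat.lt_or_ge m (K * C) with hmK | hmK
  · set c := m / C with hc
    have hcm : c * C ≤ m := Nat.div_mul_le_self m C
    have hcm' : m < (c + 1) * C := by
      have := Nat.lt_div_mul_add (a := m) hCpos
      rw [← hc] at this
      rw [Nat.add_mul, one_mul]; omega
    have hcK : c < K := by
      by_contra hcon
      push Not at hcon
      have := Nat.mul_le_mul_right C hcon
      omega
    have h1 := hcell c hcK m hcm hcm'.le
    rcases Nat.lt_or_ge ((c + 1) * C) m' with h2 | h2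
    · have hcK' : c + 1 < K := by
        by_contra hcon
        push Not at hcon
        have h3 : (c + 1) = K := by omega
        rw [h3] at h2
        omega
      have h3 := hcell c hcK ((c + 1) * C) (by rw [Nat.add_mul]; omega) le_rfl
      have h4' := hcell (c + 1) hcK' m' h2.le (by
        have : (c + 1 + 1) * C = (c + 1) * C + C := by ring
        rw [this]; omega)
      calc ‖γ (m' * g) - γ (m * g)‖
          = ‖(γ (m' * g) - γ (((c + 1) * C : ℕ) * g)) +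
              (γ (((c + 1) * C : ℕ) * g) - γ ((c * C : ℕ) * g)) +
              (γ ((c * C : ℕ) * g) - γ (m * g))‖ := by congr 1; abel
        _ ≤ ‖γ (m' * g) - γ (((c + 1) * C : ℕ) * g)‖ +
              ‖γ (((c + 1) * C : ℕ) * g) - γ ((c * C : ℕ) * g)‖ +
              ‖γ ((c * C : ℕ) * g) - γ (m * g)‖ := norm_add₃_le
        _ ≤ _ := by
            rw [norm_sub_rev (γ ((c * C : ℕ) * g)) (γ (m * g))]
            linarith
    · have h3 := hcell c hcK m' (hcm.trans hmm) h2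
      calc ‖γ (m' * g) - γ (m * g)‖
          = ‖(γ (m' * g) - γ ((c * C : ℕ) * g)) + (γ ((c * C : ℕ) * g) - γ (m * g))‖ := by
            congr 1; abel
        _ ≤ _ := norm_add_le _ _
        _ ≤ _ := by
            rw [norm_sub_rev (γ ((c * C : ℕ) * g)) (γ (m * g))]
            linarith
  · have : m' = m := by omega
    rw [this, sub_self, norm_zero]
    positivity

/-- two-sided path at a signed grid point -/
noncomputable def Gam (g : ℝ≥0) (γ γ' : ℝ≥0 → F) (p : ℤ) : F :=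
  if 0 ≤ p then γ (p.toNat * g) else γ' ((-p).toNat * g)

lemma Gam_nonneg {γ γ' : ℝ≥0 → F} {p : ℤ} (hp : 0 ≤ p) : Gam g γ γ' p = γ (p.toNat * g) := by
  unfold Gam; rw [if_pos hp]

lemma Gam_nonpos {γ γ' : ℝ≥0 → F} (h0 : γ 0 = 0) (h0' : γ' 0 = 0) {p : ℤ} (hp : p ≤ 0) :
    Gam g γ γ' p = γ' ((-p).toNat * g) := by
  unfold Gam
  by_cases h : 0 ≤ p
  · have : p = 0 := le_antisymm hp h
    subst this
    simp [h0, h0']
  · rw [if_neg h]

lemma Gam_small {γ γ' : ℝ≥0 → F} (hγ : Continuous γ) (hγ' : Continuous γ') (h0 : γ 0 = 0)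
    (h0' : γ' 0 = 0) (hrr : 0 ≤ rr) (h4 : 4 ∣ A) (hA : 0 < A) (hmc : ¬ Mc A E g rr γ)
    (hmc' : ¬ Mc A E g rr γ') {p p' : ℤ} (hpp : p ≤ p') (hp : |p| ≤ (A ^ (3 * E + 1) : ℕ))
    (hp' : |p'| ≤ (A ^ (3 * E + 1) : ℕ)) (hd : p' < p + 2 * (A ^ (2 * E) : ℕ)) :
    ‖Gam g γ γ' p' - Gam g γ γ' p‖ ≤ 6 * (A ^ E * rr) / 32 := by
  have hR : 0 ≤ (A : ℝ) ^ E * rr := by positivity
  have hb := abs_le.1 hp
  have hb' := abs_le.1 hp'
  rcases le_or_gt 0 p with h1 | h1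
  · rw [Gam_nonneg h1, Gam_nonneg (h1.trans hpp)]
    have := coarse hγ hrr h4 hA hmc (m := p.toNat) (m' := p'.toNat) (by omega) (by omega) (by omega)
    linarith
  · rcases le_or_gt p' 0 with h2 | h2
    · rw [Gam_nonpos h0 h0' h2, Gam_nonpos h0 h0' h1.le, norm_sub_rev]
      have := coarse hγ' hrr h4 hA hmc' (m := (-p').toNat) (m' := (-p).toNat) (by omega) (by omega)
        (by omega)
      linarith
    · rw [Gam_nonneg h2.le, Gam_nonpos h0 h0' h1.le]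
      have e1 := coarse hγ hrr h4 hA hmc (m := 0) (m' := p'.toNat) (by omega) (by omega) (by omega)
      have e2 := coarse hγ' hrr h4 hA hmc' (m := 0) (m' := (-p).toNat) (by omega) (by omega)
        (by omega)
      simp only [Nat.cast_zero, zero_mul, h0, h0', sub_zero] at e1 e2
      refine (norm_sub_le _ _).trans ?_
      linarith

/-- **single scale, grid chain** -/
lemma grid_long {γ γ' : ℝ≥0 → F} (hγ : Continuous γ) (hγ' : Continuous γ') (h0 : γ 0 = 0)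
    (h0' : γ' 0 = 0) (hrr : 0 < rr) (hE : 2 ≤ E) (hA : 16 ≤ A) (h4 : 4 ∣ A)
    (hmc : ¬ Mc A E g rr γ) (hmc' : ¬ Mc A E g rr γ') (hlr : ¬ Lr A E g rr V γ)
    (hlr' : ¬ Lr A E g rr V' γ') (hx : ¬ Lrx A E g rr V V' γ γ')
    (hp : ¬ Poor A E g rr V γ) (hp' : ¬ Poor A E g rr V' γ') {p : ℕ → ℤ} {Q : ℕ}
    (bd : ∀ q ≤ Q, |p q| ≤ (A ^ (3 * E + 1) : ℕ))
    (v1 : ∀ q ≤ Q, (p q).toNat * g ≤ V)
    (v2 : ∀ q ≤ Q, (-p q).toNat * g ≤ V')
    (hs : ∀ q < Q, ‖Gam g γ γ' (p (q + 1)) - Gam g γ γ' (p q)‖ ≤ 6 * rr)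
    (hdis : A ^ E * rr / 2 ≤ ‖Gam g γ γ' (p Q) - Gam g γ γ' (p 0)‖) :
    A ^ (2 * E - 3) ≤ 16 * Q := by
  have hApos : 0 < A := by omega
  have hR : 0 < (A : ℝ) ^ E * rr := by positivity
  have hlr1 : ∀ {γ : ℝ≥0 → F} {V : ℝ≥0}, ¬ Lr A E g rr V γ → ∀ m m' : ℕ, m ≤ m' →
      m' ≤ A ^ (3 * E + 1) → m' * g ≤ V → ‖γ (m' * g) - γ (m * g)‖ ≤ 6 * rr →
      m' - m < A ^ (E + 1) := by
    intro γ V hlr m m' hmm hm' hV' hcl
    by_contra hcon
    push Not at hcon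
    have hpos : 0 < A ^ (E + 1) := by positivity
    exact hlr ⟨m', by omega, m, by omega, hcon, hV', hcl⟩
  have hGP : GP A E g rr V V' γ γ' p Q := by
    refine ⟨bd, v1, v2, ?_, ?_, ?_⟩
    · intro q hq
      have hs' := hs q hq
      have b1 := abs_le.1 (bd q hq.le)
      have b2 := abs_le.1 (bd (q + 1) hq)
      rw [abs_lt]
      rcases le_or_gt 0 (p q) with h1 | h1
      · rcases le_or_gt 0 (p (q + 1)) with h2 | h2
        · rw [Gam_nonneg h1, Gam_nonneg h2] at hs'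
          rcases le_total (p q) (p (q + 1)) with h3 | h3
          · have := hlr1 hlr (p q).toNat (p (q + 1)).toNat (by omega) (by omega)
              (v1 (q + 1) hq) hs'
            constructor <;> omega
          · rw [norm_sub_rev] at hs'
            have := hlr1 hlr (p (q + 1)).toNat (p q).toNat (by omega) (by omega)
              (v1 q hq.le) hs'
            constructor <;> omega
        · rw [Gam_nonneg h1, Gam_nonpos h0 h0' h2.le, norm_sub_rev] at hs'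
          by_contra hcon
          exact hx ⟨(p q).toNat, by omega, (-p (q + 1)).toNat, by omega, by omega, v1 q hq.le,
            v2 (q + 1) hq, hs'⟩
      · rcases le_or_gt (p (q + 1)) 0 with h2 | h2
        · rw [Gam_nonpos h0 h0' h1.le, Gam_nonpos h0 h0' h2] at hs'
          rcases le_total (p q) (p (q + 1)) with h3 | h3
          · rw [norm_sub_rev] at hs'
            have := hlr1 hlr' (-p (q + 1)).toNat (-p q).toNat (by omega) (by omega)
              (v2 q hq.le) hs'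
            constructor <;> omega
          · have := hlr1 hlr' (-p q).toNat (-p (q + 1)).toNat (by omega) (by omega)
              (v2 (q + 1) hq) hs'
            constructor <;> omega
        · rw [Gam_nonneg h2.le, Gam_nonpos h0 h0' h1.le] at hs'
          by_contra hcon
          exact hx ⟨(p (q + 1)).toNat, by omega, (-p q).toNat, by omega, by omega, v1 (q + 1) hq,
            v2 q hq.le, hs'⟩
    · intro q hq h1 h2
      have hs' := hs q hq
      rw [Gam_nonneg h1, Gam_nonneg h2] at hs'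
      exact hs'
    · intro q hq h1 h2
      have hs' := hs q hq
      rw [Gam_nonpos h0 h0' h1, Gam_nonpos h0 h0' h2] at hs'
      exact hs'
  -- separation
  have hsep : ∀ x y : ℤ, x ≤ y → |x| ≤ (A ^ (3 * E + 1) : ℕ) → |y| ≤ (A ^ (3 * E + 1) : ℕ) →
      A ^ E * rr / 2 ≤ ‖Gam g γ γ' y - Gam g γ γ' x‖ →
      ∃ k : ℤ, x ≤ k * (A ^ (2 * E) : ℕ) ∧ (k + 1) * (A ^ (2 * E) : ℕ) ≤ y := by
    intro x y hxy hxb hyb hd
    have hM : (0 : ℤ) < (A ^ (2 * E) : ℕ) := by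
      exact_mod_cast (by positivity : 0 < A ^ (2 * E))
    have h1 : x + 2 * (A ^ (2 * E) : ℕ) ≤ y := by
      by_contra hcon
      push Not at hcon
      have := Gam_small hγ hγ' h0 h0' hrr.le h4 hApos hmc hmc' hxy hxb hyb hcon
      linarith
    set M : ℤ := ((A ^ (2 * E) : ℕ) : ℤ) with hMdef
    refine ⟨-((-x) / M), ?_, ?_⟩
    · have h2 : M * (-x / M) ≤ -x := Int.mul_ediv_self_le (by omega)
      have h3 : -(-x / M) * M = -(M * (-x / M)) := by ring
      rw [h3]; omega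
    · have h2 : -x < M * (-x / M) + M := Int.lt_mul_ediv_self_add hM
      have h3 : (-(-x / M) + 1) * M = -(M * (-x / M)) + M := by ring
      rw [h3]; omega
  rcases le_total (p 0) (p Q) with h | h
  · obtain ⟨k, hk1, hk2⟩ := hsep _ _ h (bd 0 (by omega)) (bd Q le_rfl) hdis
    exact hGP.upz hE hA h4 hp hp' hk1 hk2
  · rw [norm_sub_rev] at hdis
    obtain ⟨k, hk1, hk2⟩ := hsep _ _ h (bd Q le_rfl) (bd 0 (by omega)) hdis
    exact hGP.rev.upz hE hA h4 hp hp' (by simpa using hk1) (by simpa using hk2)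

end Pool.Agent.Helper83.ConfDim
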