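import Pool.Agent.Helper83.ConfDim.Det2

open MeasureTheory ProbabilityTheory Filter
open scoped ENNReal NNReal Topology

namespace Pool.Agent.Helper83.ConfDim

variable {F : Type*} [NormedAddCommGroup F] {A E : ℕ} {g V V' : ℝ≥0} {rr : ℝ}

/-- path after a time -/
def pl (b : ℝ≥0 → F) (c x : ℝ≥0) : F := b (c + x) - b c

/-- path before a time -/
def mn (b : ℝ≥0 → F) (c x : ℝ≥0) : F := b (c - x) - b c

lemma continuous_pl {b : ℝ≥0 → F} (hb : Continuous b) (c : ℝ≥0) : Continuous (pl b c) := by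
  unfold pl; fun_prop

lemma continuous_mn {b : ℝ≥0 → F} (hb : Continuous b) (c : ℝ≥0) : Continuous (mn b c) := by
  unfold mn
  exact (hb.comp (continuous_const.sub continuous_id)).sub continuous_const

/-- one-sided event -/
def One (A E : ℕ) (g : ℝ≥0) (rr : ℝ) (V : ℝ≥0) (γ : ℝ≥0 → F) : Prop :=
  Osc A E g rr γ ∨ Mc A E g rr γ ∨ Lr A E g rr V γ ∨ Poor A E g rr V γ

/-- local event -/
def LocE (A E : ℕ) (g : ℝ≥0) (rr : ℝ) (b : ℝ≥0 → F) (c c' : ℝ≥0) : Prop :=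
  One A E g rr (A ^ (3 * E + 1) * g) (pl b c) ∨ One A E g rr c' (mn b c') ∨
    Lrx A E g rr (A ^ (3 * E + 1) * g) c' (pl b c) (mn b c')

lemma round_one {γ : ℝ≥0 → F} (hγ : Continuous γ) (hrr : 0 ≤ rr) (hg : 0 < g)
    (ho : ¬ Osc A E g rr γ) {x : ℝ≥0} (hx : x ≤ A ^ (3 * E + 1) * g) :
    ∃ m : ℕ, m ≤ A ^ (3 * E + 1) ∧ m * g ≤ x ∧ ‖γ x - γ (m * g)‖ ≤ rr / 2 := by
  set m := ⌊x / g⌋₊ with hm
  have h1 : (m : ℝ≥0) * g ≤ x := by
    have := Nat.floor_le (zero_le : 0 ≤ x / g)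
    rw [← hm, le_div_iff₀ hg] at this
    exact this
  have h2 : x < (m + 1) * g := by
    have := Nat.lt_floor_add_one (x / g)
    rw [← hm, div_lt_iff₀ hg] at this
    exact this
  have h3 : m ≤ A ^ (3 * E + 1) := by
    have h4 : (m : ℝ≥0) ≤ ((A ^ (3 * E + 1) : ℕ) : ℝ≥0) := by
      push_cast
      exact le_of_mul_le_mul_right (h1.trans hx) hg
    exact_mod_cast h4
  refine ⟨m, h3, h1, ?_⟩
  rcases Nat.lt_or_ge m (A ^ (3 * E + 1)) with h | h
  · have h4 : ¬ Chb γ (m * g) g rr := fun hc => ho ⟨m, h, hc⟩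
    refine chain_all hγ hrr h4 h1 ?_
    calc x ≤ (m + 1) * g := h2.le
      _ = m * g + g := by ring
  · have h5 : m = A ^ (3 * E + 1) := le_antisymm h3 h
    have h6 : x = m * g := by
      refine le_antisymm ?_ h1
      rw [h5]; push_cast; exact hx
    rw [← h6, sub_self, norm_zero]
    positivity

lemma round_pt {b : ℝ≥0 → F} (hb : Continuous b) {t c c' : ℝ≥0} (hc' : c' ≤ t) (hc : t ≤ c)
    (hrr : 0 < rr) (hg : 0 < g)
    (hgap : ∀ s, c' ≤ s → s ≤ c → ‖b s - b t‖ ≤ rr / 4)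
    (ho : ¬ Osc A E g rr (pl b c)) (ho' : ¬ Osc A E g rr (mn b c')) {s : ℝ≥0}
    (hs1 : s ≤ t + A ^ (3 * E + 1) * g) (hs2 : t ≤ s + A ^ (3 * E + 1) * g) :
    ∃ p : ℤ, |p| ≤ (A ^ (3 * E + 1) : ℕ) ∧ p.toNat * g ≤ A ^ (3 * E + 1) * g ∧
      (-p).toNat * g ≤ c' ∧ ‖(b s - b t) - Gam g (pl b c) (mn b c') p‖ ≤ 3 * rr / 4 := by
  have h0 : pl b c 0 = 0 := by unfold pl; rw [add_zero, sub_self]
  have h0' : mn b c' 0 = 0 := by unfold mn; rw [tsub_zero, sub_self]
  rcases le_or_gt c s with h1 | h1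
  · obtain ⟨m, hm1, hm2, hm3⟩ := round_one (continuous_pl hb c) hrr.le hg ho (x := s - c) (by
      rw [tsub_le_iff_right]
      calc s ≤ t + A ^ (3 * E + 1) * g := hs1
        _ ≤ c + A ^ (3 * E + 1) * g := by gcongr
        _ = _ := add_comm _ _)
    refine ⟨m, ?_, ?_, ?_, ?_⟩
    · rw [abs_of_nonneg (by positivity)]; exact_mod_cast hm1
    · have : ((m : ℤ).toNat : ℝ≥0) ≤ ((A ^ (3 * E + 1) : ℕ) : ℝ≥0) := by
        rw [Int.toNat_natCast]; exact_mod_cast hm1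
      push_cast at this
      gcongr
    · have : (-(m : ℤ)).toNat = 0 := by omega
      rw [this]; simp
    · rw [Gam_nonneg (by positivity), Int.toNat_natCast]
      have e1 : b s - b t - pl b c (m * g) = (pl b c (s - c) - pl b c (m * g)) + (b c - b t) := by
        unfold pl
        rw [add_tsub_cancel_of_le h1]; abel
      rw [e1]
      have e2 := hgap c (hc'.trans hc) le_rfl
      refine (norm_add_le _ _).trans ?_
      linarith
  · rcases le_or_gt s c' with h2 | h2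
    · obtain ⟨m, hm1, hm2, hm3⟩ := round_one (continuous_mn hb c') hrr.le hg ho' (x := c' - s) (by
        rw [tsub_le_iff_right, add_comm]
        exact hc'.trans hs2)
      refine ⟨-m, ?_, ?_, ?_, ?_⟩
      · rw [abs_neg, abs_of_nonneg (by positivity)]; exact_mod_cast hm1
      · have : (-(m : ℤ)).toNat = 0 := by omega
        rw [this]; simp
      · rw [neg_neg, Int.toNat_natCast]
        exact hm2.trans tsub_le_self
      · rw [Gam_nonpos h0 h0' (by simp), neg_neg, Int.toNat_natCast]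
        have e1 : b s - b t - mn b c' (m * g) =
            (mn b c' (c' - s) - mn b c' (m * g)) + (b c' - b t) := by
          unfold mn
          rw [tsub_tsub_cancel_of_le h2]; abel
        rw [e1]
        have e2 := hgap c' le_rfl (hc'.trans hc)
        refine (norm_add_le _ _).trans ?_
        linarith
    · refine ⟨0, by positivity, by simp, by simp, ?_⟩
      rw [Gam_nonneg le_rfl]
      simp only [Int.toNat_zero, Nat.cast_zero, zero_mul, h0, sub_zero]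
      have := hgap s h2.le h1.le
      linarith

/-- **single scale** -/
lemma single_scale {b : ℝ≥0 → F} (hb : Continuous b) {t c c' : ℝ≥0} (hc' : c' ≤ t) (hc : t ≤ c)
    (hrr : 0 < rr) (hg : 0 < g) (hE : 2 ≤ E) (hA : 16 ≤ A) (h4 : 4 ∣ A)
    (hgap : ∀ s, c' ≤ s → s ≤ c → ‖b s - b t‖ ≤ rr / 4)
    (hloc : ¬ LocE A E g rr b c c') {s : ℕ → ℝ≥0} {Q : ℕ}
    (hs1 : ∀ q ≤ Q, s q ≤ t + A ^ (3 * E + 1) * g) (hs2 : ∀ q ≤ Q, t ≤ s q + A ^ (3 * E + 1) * g)
    (hst : ∀ q < Q, ‖b (s (q + 1)) - b (s q)‖ ≤ 2 * rr)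
    (hdis : (A ^ E - 1) * rr ≤ ‖b (s Q) - b (s 0)‖) : A ^ (2 * E - 4) ≤ Q := by
  unfold LocE One at hloc
  push Not at hloc
  obtain ⟨⟨ho, hm, hl, hp⟩, ⟨ho', hm', hl', hp'⟩, hx⟩ := hloc
  have h0 : pl b c 0 = 0 := by unfold pl; rw [add_zero, sub_self]
  have h0' : mn b c' 0 = 0 := by unfold mn; rw [tsub_zero, sub_self]
  have hex : ∀ q, ∃ p : ℤ, q ≤ Q → (|p| ≤ (A ^ (3 * E + 1) : ℕ) ∧ p.toNat * g ≤ A ^ (3 * E + 1) * g ∧
      (-p).toNat * g ≤ c' ∧ ‖(b (s q) - b t) - Gam g (pl b c) (mn b c') p‖ ≤ 3 * rr / 4) := by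
    intro q
    by_cases hq : q ≤ Q
    · obtain ⟨p, hp⟩ := round_pt hb hc' hc hrr hg hgap ho ho' (hs1 q hq) (hs2 q hq)
      exact ⟨p, fun _ => hp⟩
    · exact ⟨0, fun h => absurd h hq⟩
  choose p hpq using hex
  have hkey := grid_long (p := p) (Q := Q) (continuous_pl hb c) (continuous_mn hb c') h0 h0' hrr hE
    hA h4 hm hm' hl hl' hx hp hp' (fun q hq => (hpq q hq).1) (fun q hq => (hpq q hq).2.1)
    (fun q hq => (hpq q hq).2.2.1) ?_ ?_
  · have h1 : A ^ (2 * E - 3) = A ^ (2 * E - 4) * A := by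
      rw [← pow_succ]; congr 1; omega
    rw [h1] at hkey
    have h2 : A ^ (2 * E - 4) * 16 ≤ A ^ (2 * E - 4) * A := Nat.mul_le_mul_left _ hA
    omega
  · intro q hq
    have e1 := (hpq q hq.le).2.2.2
    have e2 := (hpq (q + 1) hq).2.2.2
    have e3 := hst q hq
    have e4 : Gam g (pl b c) (mn b c') (p (q + 1)) - Gam g (pl b c) (mn b c') (p q) =
        -((b (s (q + 1)) - b t) - Gam g (pl b c) (mn b c') (p (q + 1))) +
        (b (s (q + 1)) - b (s q)) + ((b (s q) - b t) - Gam g (pl b c) (mn b c') (p q)) := by abel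
    rw [e4]
    refine norm_add₃_le.trans ?_
    rw [norm_neg]
    linarith
  · have e1 := (hpq 0 (by omega)).2.2.2
    have e2 := (hpq Q le_rfl).2.2.2
    have e4 : b (s Q) - b (s 0) = ((b (s Q) - b t) - Gam g (pl b c) (mn b c') (p Q)) +
        (Gam g (pl b c) (mn b c') (p Q) - Gam g (pl b c) (mn b c') (p 0)) +
        -((b (s 0) - b t) - Gam g (pl b c) (mn b c') (p 0)) := by abel
    have e5 : ‖b (s Q) - b (s 0)‖ ≤ 3 * rr / 4 +
        ‖Gam g (pl b c) (mn b c') (p Q) - Gam g (pl b c) (mn b c') (p 0)‖ + 3 * rr / 4 := by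
      rw [e4]
      refine norm_add₃_le.trans ?_
      rw [norm_neg]
      gcongr
    have e6 : (16 : ℝ) ≤ (A : ℝ) ^ E := by
      have h1 : (16 : ℝ) ≤ A := by exact_mod_cast hA
      calc (16 : ℝ) ≤ A := h1
        _ ≤ (A : ℝ) ^ E := le_self_pow₀ (by linarith) (by omega)
    nlinarith

end Pool.Agent.Helper83.ConfDim
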