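import Pool.Agent.Helper83.ConfDim.Defs

open MeasureTheory ProbabilityTheory
open scoped ENNReal NNReal

namespace Pool.Agent.Helper83.ConfDim

/-- admissible parameters -/
structure Adm (a N : ℕ) : Prop where
  ha : 9 ≤ a
  hN : a ≤ 2 * N
  hs : 2 * N ≤ (a - 1) * 2 ^ (a - 1)

variable {X : Type*} [MetricSpace X] {a N : ℕ}

/-- inverse scale -/
noncomputable def al (a : ℕ) : ℝ := (a : ℝ)⁻¹

lemma Adm.a_cast (h : Adm a N) : (9 : ℝ) ≤ a := by exact_mod_cast h.ha

lemma Adm.al_pos (h : Adm a N) : 0 < al a := by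
  unfold al; have := h.a_cast; positivity

lemma Adm.a_mul_al (h : Adm a N) : (a : ℝ) * al a = 1 := by
  unfold al; have := h.a_cast; rw [mul_inv_cancel₀]; positivity

lemma Adm.al_lt (h : Adm a N) : al a < 1 := by
  have h1 := h.a_mul_al; have h2 := h.a_cast; have h3 := h.al_pos; nlinarith

/-- points from which a short chain starts -/
def Bad (X : Type*) [MetricSpace X] (a N k : ℕ) : Set X :=
  {x | ∃ (Q : ℕ) (z : ℕ → X), Q < N ∧ z 0 = x ∧
    (∀ q < Q, dist (z q) (z (q + 1)) ≤ 2 * al a ^ (k + 1)) ∧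
    (1 - al a) * al a ^ k ≤ dist (z 0) (z Q)}

/-- cutoff near the bad set -/
noncomputable def cut (a N k : ℕ) (x : X) : ℝ :=
  ⨆ y : Bad X a N k, max 0 (min 1 (2 - (a : ℝ) ^ k * dist x y))

lemma cut_bdd (k : ℕ) (x : X) :
    BddAbove (Set.range fun y : Bad X a N k => max 0 (min 1 (2 - (a : ℝ) ^ k * dist x y))) := by
  refine ⟨1, ?_⟩
  rintro _ ⟨y, rfl⟩
  exact max_le zero_le_one (min_le_left _ _)

lemma cut_nonneg (k : ℕ) (x : X) : 0 ≤ cut a N k x := by
  unfold cut
  exact Real.iSup_nonneg fun y => le_max_left _ _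

lemma cut_le_one (k : ℕ) (x : X) : cut a N k x ≤ 1 := by
  unfold cut
  exact Real.iSup_le (fun y => max_le zero_le_one (min_le_left _ _)) zero_le_one

lemma cut_eq_one (h : Adm a N) {k : ℕ} {x y : X} (hy : y ∈ Bad X a N k)
    (hxy : dist x y ≤ al a ^ k) : cut a N k x = 1 := by
  refine le_antisymm (cut_le_one k x) ?_
  have h1 := le_ciSup (cut_bdd (a := a) (N := N) k x) ⟨y, hy⟩
  refine le_trans ?_ h1
  refine le_max_of_le_right (le_min le_rfl ?_)
  have h2 : (a : ℝ) ^ k * al a ^ k = 1 := by rw [← mul_pow, h.a_mul_al, one_pow]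
  have h3 : (a : ℝ) ^ k * dist x y ≤ (a : ℝ) ^ k * al a ^ k := by gcongr
  show (1 : ℝ) ≤ 2 - (a : ℝ) ^ k * dist x y
  linarith

lemma cut_eq_zero (h : Adm a N) {k : ℕ} {x : X}
    (hx : ∀ y ∈ Bad X a N k, 2 * al a ^ k ≤ dist x y) : cut a N k x = 0 := by
  refine le_antisymm ?_ (cut_nonneg k x)
  unfold cut
  refine Real.iSup_le (fun y => ?_) le_rfl
  refine max_le le_rfl ((min_le_right _ _).trans ?_)
  have h2 : (a : ℝ) ^ k * al a ^ k = 1 := by rw [← mul_pow, h.a_mul_al, one_pow]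
  have h3 : (a : ℝ) ^ k * (2 * al a ^ k) ≤ (a : ℝ) ^ k * dist x y := by
    gcongr
    exact hx y y.2
  nlinarith

lemma cut_lip_aux (k : ℕ) (x x' : X) : cut a N k x ≤ cut a N k x' + (a : ℝ) ^ k * dist x x' := by
  unfold cut
  refine Real.iSup_le (fun y => ?_) ?_
  · have h1 := le_ciSup (cut_bdd (a := a) (N := N) k x') y
    refine le_trans ?_ (add_le_add_left h1 _)
    have h2 : dist x' (y : X) ≤ dist x x' + dist x y := by
      rw [dist_comm x x']; exact dist_triangle _ _ _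
    have h3 : (a : ℝ) ^ k * dist x' (y : X) ≤ (a : ℝ) ^ k * dist x x' + (a : ℝ) ^ k * dist x y := by
      rw [← mul_add]; gcongr
    have h4 : (0 : ℝ) ≤ (a : ℝ) ^ k * dist x x' := by positivity
    refine max_le ?_ ?_
    · have := le_max_left (0 : ℝ) (min 1 (2 - (a : ℝ) ^ k * dist x' (y : X)))
      linarith
    · rcases le_total (1 : ℝ) (2 - (a : ℝ) ^ k * dist x' (y : X)) with h5 | h5
      · have h6 := le_max_right (0 : ℝ) (min 1 (2 - (a : ℝ) ^ k * dist x' (y : X)))
        rw [min_eq_left h5] at h6 ⊢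
        have := min_le_left (1 : ℝ) (2 - (a : ℝ) ^ k * dist x (y : X))
        linarith
      · have h6 := le_max_right (0 : ℝ) (min 1 (2 - (a : ℝ) ^ k * dist x' (y : X)))
        rw [min_eq_right h5] at h6 ⊢
        have := min_le_right (1 : ℝ) (2 - (a : ℝ) ^ k * dist x (y : X))
        linarith
  · have h1 : (0 : ℝ) ≤ ⨆ y : Bad X a N k, max 0 (min 1 (2 - (a : ℝ) ^ k * dist x' y)) :=
      cut_nonneg k x'
    positivity

/-- exponent of a good scale -/
noncomputable def lg (N : ℕ) : ℝ := Real.log (N / 2)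

/-- exponent of a bad scale -/
noncomputable def lb (a : ℕ) : ℝ := Real.log ((a - 1) / 4)

lemma Adm.lb_pos (h : Adm a N) : 0 < lb a := by
  unfold lb
  refine Real.log_pos ?_
  have := h.a_cast
  linarith

lemma Adm.lb_le_lg (h : Adm a N) : lb a ≤ lg N := by
  unfold lb lg
  have h1 := h.a_cast
  have h2 : (a : ℝ) ≤ 2 * N := by exact_mod_cast h.hN
  refine Real.log_le_log (by linarith) ?_
  linarith

lemma Adm.diff_le (h : Adm a N) : lg N - lb a ≤ (a - 1) * Real.log 2 := by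
  unfold lb lg
  have h1 := h.a_cast
  have h2 : (a : ℝ) ≤ 2 * N := by exact_mod_cast h.hN
  rw [← Real.log_div (by linarith) (by linarith)]
  have h3 : ((2 * N : ℕ) : ℝ) ≤ (((a - 1) * 2 ^ (a - 1) : ℕ) : ℝ) := by exact_mod_cast h.hs
  have h4 : ((a - 1 : ℕ) : ℝ) = (a : ℝ) - 1 := by
    rw [Nat.cast_sub (by have := h.ha; omega)]; simp
  push_cast [h4] at h3
  have h5 : (N : ℝ) / 2 / ((a - 1) / 4) ≤ 2 ^ (a - 1) := by
    rw [div_le_iff₀ (by linarith)]
    nlinarith
  calc Real.log ((N : ℝ) / 2 / ((a - 1) / 4)) ≤ Real.log (2 ^ (a - 1)) :=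
        Real.log_le_log (by apply div_pos <;> linarith) h5
    _ = ((a - 1 : ℕ) : ℝ) * Real.log 2 := by rw [Real.log_pow]
    _ = _ := by rw [h4]

/-- local exponent -/
noncomputable def ue (a N k : ℕ) (x : X) : ℝ := lg N - cut a N k x * (lg N - lb a)

lemma Adm.ue_ge (h : Adm a N) (k : ℕ) (x : X) : lb a ≤ ue a N k x := by
  unfold ue
  have h1 := cut_le_one (a := a) (N := N) k x
  have h2 := h.lb_le_lg
  nlinarith

lemma Adm.ue_le (h : Adm a N) (k : ℕ) (x : X) : ue a N k x ≤ lg N := by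
  unfold ue
  have h1 := cut_nonneg (a := a) (N := N) k x
  have h2 := h.lb_le_lg
  nlinarith

lemma Adm.ue_lip (h : Adm a N) (k : ℕ) (x y : X) :
    ue a N k x ≤ ue a N k y + (lg N - lb a) * ((a : ℝ) ^ k * dist x y) := by
  unfold ue
  have h1 := cut_lip_aux (a := a) (N := N) k y x
  rw [dist_comm] at h1
  have h2 := h.lb_le_lg
  nlinarith

/-- cumulative exponent -/
noncomputable def Ue (a N k : ℕ) (x : X) : ℝ := ∑ j ∈ Finset.range k, ue a N j x

lemma Ue_succ (k : ℕ) (x : X) : Ue a N (k + 1) x = Ue a N k x + ue a N k x := by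
  unfold Ue; rw [Finset.sum_range_succ]

lemma Adm.Ue_mono (h : Adm a N) {k l : ℕ} (hkl : k ≤ l) (x : X) : Ue a N k x ≤ Ue a N l x := by
  unfold Ue
  exact Finset.sum_le_sum_of_subset_of_nonneg (Finset.range_mono hkl) fun j _ _ =>
    h.lb_pos.le.trans (h.ue_ge j x)

lemma Adm.Ue_add_le (h : Adm a N) (k m : ℕ) (x : X) : Ue a N (k + m) x ≤ Ue a N k x + m * lg N := by
  induction m with
  | zero => simp
  | succ m ih =>
    rw [← add_assoc, Ue_succ]
    have := h.ue_le (k + m) x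
    push_cast
    linarith

lemma Adm.Ue_add_ge (h : Adm a N) (k m : ℕ) (x : X) : Ue a N k x + m * lb a ≤ Ue a N (k + m) x := by
  induction m with
  | zero => simp
  | succ m ih =>
    rw [← add_assoc, Ue_succ]
    have := h.ue_ge (k + m) x
    push_cast
    linarith

lemma Adm.geom (h : Adm a N) (k : ℕ) :
    ((a : ℝ) - 1) * ∑ j ∈ Finset.range k, (a : ℝ) ^ j ≤ (a : ℝ) ^ k := by
  rw [mul_comm, geom_sum_mul]
  linarith

lemma Adm.Ue_lip (h : Adm a N) {k : ℕ} {x y : X} (hxy : dist x y ≤ al a ^ k) :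
    Ue a N k x ≤ Ue a N k y + Real.log 2 := by
  have h1 : Ue a N k x ≤ Ue a N k y + (lg N - lb a) * ((∑ j ∈ Finset.range k, (a : ℝ) ^ j) *
      dist x y) := by
    unfold Ue
    rw [Finset.sum_mul, Finset.mul_sum, ← Finset.sum_add_distrib]
    exact Finset.sum_le_sum fun j _ => h.ue_lip j x y
  have h2 := h.geom k
  have h3 := h.diff_le
  have h4 : (a : ℝ) ^ k * al a ^ k = 1 := by rw [← mul_pow, h.a_mul_al, one_pow]
  have h5 : 0 ≤ ∑ j ∈ Finset.range k, (a : ℝ) ^ j := Finset.sum_nonneg fun _ _ => by positivity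
  have h6 : 0 ≤ lg N - lb a := by linarith [h.lb_le_lg]
  have h7 : (a : ℝ) ^ k * dist x y ≤ 1 := by
    rw [← h4]; gcongr
  have h8 : (lg N - lb a) * ((∑ j ∈ Finset.range k, (a : ℝ) ^ j) * dist x y) ≤ Real.log 2 := by
    calc (lg N - lb a) * ((∑ j ∈ Finset.range k, (a : ℝ) ^ j) * dist x y)
        ≤ ((a - 1) * Real.log 2) * ((∑ j ∈ Finset.range k, (a : ℝ) ^ j) * dist x y) := by
          gcongr
      _ = Real.log 2 * (((a : ℝ) - 1) * (∑ j ∈ Finset.range k, (a : ℝ) ^ j)) * dist x y := by ring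
      _ ≤ Real.log 2 * ((a : ℝ) ^ k) * dist x y := by
          have := Real.log_pos (by norm_num : (1 : ℝ) < 2)
          gcongr
      _ = Real.log 2 * ((a : ℝ) ^ k * dist x y) := by ring
      _ ≤ Real.log 2 * 1 := by
          have := Real.log_pos (by norm_num : (1 : ℝ) < 2)
          gcongr
      _ = Real.log 2 := mul_one _
  linarith

lemma Adm.exp_Ue_ge (h : Adm a N) {k : ℕ} {x y : X} (hxy : dist x y ≤ al a ^ k) :
    Real.exp (-Ue a N k x) / 2 ≤ Real.exp (-Ue a N k y) := by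
  have h1 := h.Ue_lip (k := k) (x := y) (y := x) (by rwa [dist_comm])
  have h2 : Real.exp (-Ue a N k x) / 2 = Real.exp (-Ue a N k x - Real.log 2) := by
    rw [Real.exp_sub, Real.exp_log (by norm_num)]
  rw [h2]
  apply Real.exp_le_exp.2
  linarith

lemma Adm.exp_lg (h : Adm a N) : (N : ℝ) * Real.exp (-lg N) = 2 := by
  have h1 := h.a_cast
  have h2 : (a : ℝ) ≤ 2 * N := by exact_mod_cast h.hN
  have h3 : (0 : ℝ) < N := by linarith
  unfold lg
  rw [Real.exp_neg, Real.exp_log (by positivity)]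
  field_simp

lemma Adm.exp_lb (h : Adm a N) : ((a : ℝ) - 1) / 2 * Real.exp (-lb a) = 2 := by
  have h1 := h.a_cast
  unfold lb
  rw [Real.exp_neg, Real.exp_log (by linarith)]
  have : (a : ℝ) - 1 ≠ 0 := by linarith
  field_simp
  norm_num

lemma dist_le_chain (z : ℕ → X) (Q : ℕ) {c : ℝ} (h : ∀ q < Q, dist (z q) (z (q + 1)) ≤ c) :
    dist (z 0) (z Q) ≤ Q * c := by
  refine (dist_le_range_sum_dist z Q).trans ?_
  calc ∑ i ∈ Finset.range Q, dist (z i) (z (i + 1)) ≤ ∑ _i ∈ Finset.range Q, c :=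
        Finset.sum_le_sum fun i hi => h i (Finset.mem_range.1 hi)
    _ = Q * c := by simp

/-- **admissibility** of the weights -/
lemma Adm.admiss (h : Adm a N) (k : ℕ) (y : ℕ → X) (Q : ℕ)
    (hstep : ∀ q < Q, dist (y q) (y (q + 1)) ≤ 2 * al a ^ (k + 1))
    (hdis : (1 - al a) * al a ^ k ≤ dist (y 0) (y Q))
    (hnear : ∀ q < Q, dist (y 0) (y q) ≤ al a ^ k) :
    2 ≤ ∑ q ∈ Finset.range Q, Real.exp (-ue a N k (y q)) := by
  have hal := h.al_pos
  by_cases hb : y 0 ∈ Bad X a N k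
  · have h1 : ∀ q ∈ Finset.range Q, Real.exp (-ue a N k (y q)) = Real.exp (-lb a) := by
      intro q hq
      have h2 : cut a N k (y q) = 1 := by
        refine cut_eq_one h hb ?_
        rw [dist_comm]; exact hnear q (Finset.mem_range.1 hq)
      unfold ue
      rw [h2]; congr 1; ring
    rw [Finset.sum_congr rfl h1, Finset.sum_const, Finset.card_range, nsmul_eq_mul]
    have h3 := dist_le_chain y Q hstep
    have h4 : (1 - al a) * al a ^ k ≤ Q * (2 * al a ^ (k + 1)) := hdis.trans h3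
    rw [pow_succ] at h4
    have h5 : (1 - al a) ≤ Q * (2 * al a) := by
      have h6 : (0 : ℝ) < al a ^ k := by positivity
      nlinarith
    have h7 : ((a : ℝ) - 1) / 2 ≤ Q := by
      have h8 := h.a_mul_al
      have h9 := h.a_cast
      have : (a : ℝ) * (1 - al a) ≤ a * (Q * (2 * al a)) := by gcongr
      nlinarith
    calc (2 : ℝ) = ((a : ℝ) - 1) / 2 * Real.exp (-lb a) := h.exp_lb.symm
      _ ≤ Q * Real.exp (-lb a) := by gcongr
  · have h1 : N ≤ Q := by
      by_contra hcon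
      exact hb ⟨Q, y, not_le.1 hcon, rfl, hstep, hdis⟩
    calc (2 : ℝ) = N * Real.exp (-lg N) := h.exp_lg.symm
      _ ≤ Q * Real.exp (-lg N) := by
        have : (N : ℝ) ≤ Q := by exact_mod_cast h1
        gcongr
      _ = ∑ _q ∈ Finset.range Q, Real.exp (-lg N) := by simp
      _ ≤ _ := by
        refine Finset.sum_le_sum fun q _ => ?_
        apply Real.exp_le_exp.2
        have := h.ue_le k (y q)
        linarith

end Pool.Agent.Helper83.ConfDim
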