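import Pool.Agent.Helper83.ConfDim.Det3
import Pool.Agent.Helper83.ConfDim.Geo1

open MeasureTheory ProbabilityTheory Filter
open scoped ENNReal NNReal Topology

namespace Pool.Agent.Helper83.ConfDim

/-! scales -/

/-- space scale -/
noncomputable def Rs (A E j : ℕ) : ℝ := ((A : ℝ)⁻¹) ^ (E * j)

/-- long time scale -/
noncomputable def Ts (A E l : ℕ) : ℝ≥0 := (A : ℝ≥0) ^ E * ((A : ℝ≥0)⁻¹) ^ (2 * E * l)

/-- grid scale -/
noncomputable def gs (A E j : ℕ) : ℝ≥0 := ((A : ℝ≥0)⁻¹) ^ (2 * E * (j + 1) + 1)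

/-- size of the window at scale `l`, with truncation after `k + 1` -/
noncomputable def Us (A E k l : ℕ) : ℝ≥0 := if l ≤ k + 1 then 2 * Ts A E l else 0

/-- cell size for the far return event -/
noncomputable def cs (A E l j : ℕ) : ℝ≥0 := ((A : ℝ≥0)⁻¹) ^ (2 * E * j + (j - l + 1))

/-- number of cells -/
def Ms (A E l j : ℕ) : ℕ := A ^ (E + 2 * E * (j - l) + (j - l + 1))

/-- oscillation threshold -/
noncomputable def ls (A E l j : ℕ) : ℝ := Rs A E (j + 1) / 2 ^ (l - j)

section scales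
variable {A E : ℕ}

lemma Rs_pos (hA : 0 < A) (j : ℕ) : 0 < Rs A E j := by
  unfold Rs
  have : (0 : ℝ) < A := by exact_mod_cast hA
  positivity

lemma gs_pos (hA : 0 < A) (j : ℕ) : 0 < gs A E j := by
  unfold gs
  have : (0 : ℝ≥0) < A := by exact_mod_cast hA
  positivity

lemma Ts_pos (hA : 0 < A) (j : ℕ) : 0 < Ts A E j := by
  unfold Ts
  have : (0 : ℝ≥0) < A := by exact_mod_cast hA
  positivity

lemma Rs_succ (hA : 0 < A) (j : ℕ) : (A : ℝ) ^ E * Rs A E (j + 1) = Rs A E j := by
  unfold Rs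
  have : (A : ℝ) ≠ 0 := by exact_mod_cast hA.ne'
  rw [show E * (j + 1) = E + E * j by ring, pow_add, ← mul_assoc, ← mul_pow, mul_inv_cancel₀ this,
    one_pow, one_mul]

lemma Rs_sq (hA : 0 < A) (j : ℕ) : Rs A E (j + 1) ^ 2 = A * gs A E j := by
  unfold Rs gs
  have : (A : ℝ) ≠ 0 := by exact_mod_cast hA.ne'
  push_cast
  rw [← pow_mul, show E * (j + 1) * 2 = 2 * E * (j + 1) by ring, pow_succ _ (2 * E * (j + 1)),
    mul_left_comm, mul_inv_cancel₀ this, mul_one]

lemma T_eq (hA : 0 < A) (j : ℕ) : (A : ℝ≥0) ^ (3 * E + 1) * gs A E j = Ts A E j := by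
  unfold Ts gs
  have : (A : ℝ≥0) ≠ 0 := by exact_mod_cast hA.ne'
  rw [show 2 * E * (j + 1) + 1 = (2 * E + 1) + 2 * E * j by ring, pow_add _ (2 * E + 1),
    show 3 * E + 1 = E + (2 * E + 1) by ring, pow_add]
  calc (A : ℝ≥0) ^ E * (A : ℝ≥0) ^ (2 * E + 1) * ((A : ℝ≥0)⁻¹ ^ (2 * E + 1) *
        (A : ℝ≥0)⁻¹ ^ (2 * E * j))
      = (A : ℝ≥0) ^ E * ((A : ℝ≥0) * (A : ℝ≥0)⁻¹) ^ (2 * E + 1) * (A : ℝ≥0)⁻¹ ^ (2 * E * j) := by
        rw [mul_pow]; ring
    _ = _ := by rw [mul_inv_cancel₀ this, one_pow, mul_one]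

lemma Ms_hs (hA : 0 < A) {l j : ℕ} (hlj : l ≤ j) :
    (Ms A E l j : ℝ≥0) * cs A E l j = Ts A E l := by
  unfold Ms cs Ts
  have : (A : ℝ≥0) ≠ 0 := by exact_mod_cast hA.ne'
  obtain ⟨d, rfl⟩ := Nat.exists_eq_add_of_le hlj
  rw [Nat.add_sub_cancel_left]
  push_cast
  rw [show 2 * E * (l + d) + (d + 1) = (2 * E * d + (d + 1)) + 2 * E * l by ring,
    pow_add _ (2 * E * d + (d + 1)),
    show E + 2 * E * d + (d + 1) = E + (2 * E * d + (d + 1)) by ring, pow_add]
  calc (A : ℝ≥0) ^ E * (A : ℝ≥0) ^ (2 * E * d + (d + 1)) * ((A : ℝ≥0)⁻¹ ^ (2 * E * d + (d + 1)) *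
        (A : ℝ≥0)⁻¹ ^ (2 * E * l))
      = (A : ℝ≥0) ^ E * ((A : ℝ≥0) * (A : ℝ≥0)⁻¹) ^ (2 * E * d + (d + 1)) *
          (A : ℝ≥0)⁻¹ ^ (2 * E * l) := by
        rw [mul_pow]; ring
    _ = _ := by rw [mul_inv_cancel₀ this, one_pow, mul_one]

lemma al_pow (j : ℕ) : al (A ^ E) ^ j = Rs A E j := by
  unfold al Rs
  push_cast
  rw [← inv_pow, ← pow_mul]

lemma Ts_zero : Ts A E 0 = (A : ℝ≥0) ^ E := by unfold Ts; simp

lemma Ts_succ (hA : 0 < A) (l : ℕ) : (A : ℝ≥0) ^ (2 * E) * Ts A E (l + 1) = Ts A E l := by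
  unfold Ts
  have : (A : ℝ≥0) ≠ 0 := by exact_mod_cast hA.ne'
  rw [show 2 * E * (l + 1) = 2 * E + 2 * E * l by ring, pow_add]
  calc (A : ℝ≥0) ^ (2 * E) * ((A : ℝ≥0) ^ E * ((A : ℝ≥0)⁻¹ ^ (2 * E) * (A : ℝ≥0)⁻¹ ^ (2 * E * l)))
      = ((A : ℝ≥0) * (A : ℝ≥0)⁻¹) ^ (2 * E) * ((A : ℝ≥0) ^ E * (A : ℝ≥0)⁻¹ ^ (2 * E * l)) := by
        rw [mul_pow]; ring
    _ = _ := by rw [mul_inv_cancel₀ this, one_pow, one_mul]

lemma four_Ts_succ (hA : 4 ≤ A) (hE : 1 ≤ E) (l : ℕ) : 4 * Ts A E (l + 1) ≤ Ts A E l := by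
  rw [← Ts_succ (by omega) l]
  gcongr
  have h1 : (4 : ℝ≥0) ≤ A := by exact_mod_cast hA
  have h2 : (1 : ℝ≥0) ≤ A := le_trans (by norm_num) h1
  exact h1.trans (le_self_pow₀ h2 (by omega))

lemma Us_of_le {k l : ℕ} (h : l ≤ k + 1) : Us A E k l = 2 * Ts A E l := by
  unfold Us; rw [if_pos h]

lemma Us_of_gt {k l : ℕ} (h : k + 1 < l) : Us A E k l = 0 := by
  unfold Us; rw [if_neg (by omega)]

lemma Us_succ_le (hA : 4 ≤ A) (hE : 1 ≤ E) (k l : ℕ) : Us A E k (l + 1) ≤ Us A E k l := by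
  rcases Nat.lt_or_ge (k + 1) (l + 1) with h | h
  · rw [Us_of_gt h]; exact zero_le
  · rw [Us_of_le h, Us_of_le (by omega)]
    have h1 := four_Ts_succ hA hE l
    have h2 : Ts A E (l + 1) ≤ 4 * Ts A E (l + 1) := le_mul_of_one_le_left' (by norm_num)
    exact mul_le_mul_right (h2.trans h1) 2

lemma Us_anti (hA : 4 ≤ A) (hE : 1 ≤ E) (k : ℕ) : Antitone (Us A E k) :=
  antitone_nat_of_succ_le fun l => Us_succ_le hA hE k l

end scales

variable {F : Type*} [NormedAddCommGroup F] {A E : ℕ}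

/-- far return, after -/
def FRp (A E l j : ℕ) (b : ℝ≥0 → F) (t : ℝ≥0) : Prop :=
  ∃ m < Ms A E l j,
    Chb (pl b (t + Ts A E (l + 1))) (m * cs A E l j) (cs A E l j) (Rs A E j) ∨
    ‖b (t + Ts A E (l + 1) + m * cs A E l j) - b t‖ ≤ 5 * Rs A E j

/-- far return, before -/
def FRm (A E l j : ℕ) (b : ℝ≥0 → F) (t : ℝ≥0) : Prop :=
  ∃ m < Ms A E l j,
    Chb (mn b (t - Ts A E (l + 1))) (m * cs A E l j) (cs A E l j) (Rs A E j) ∨
    (Ts A E (l + 1) + m * cs A E l j ≤ t ∧
      ‖b (t - Ts A E (l + 1) - m * cs A E l j) - b t‖ ≤ 5 * Rs A E j)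

/-- inner oscillation -/
def Wev (A E k l j : ℕ) (b : ℝ≥0 → F) (t : ℝ≥0) : Prop :=
  Chb (pl b (t + Us A E k (l + 1))) 0 (Us A E k l - Us A E k (l + 1)) (ls A E l j) ∨
  Chb (mn b (t - Us A E k (l + 1))) 0 (Us A E k l - Us A E k (l + 1)) (ls A E l j)

/-- the event of type `(l, j)` -/
def Dev (A E k l j : ℕ) (b : ℝ≥0 → F) (t : ℝ≥0) : Prop :=
  (l < j ∧ (FRp A E l j b t ∨ FRm A E l j b t)) ∨
  (l = j ∧ LocE A E (gs A E j) (Rs A E (j + 1)) b (t + Us A E k (j + 2)) (t - Us A E k (j + 2))) ∨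
  (j + 2 ≤ l ∧ Wev A E k l j b t)

/-- gap estimate -/
lemma gap {k j : ℕ} {b : ℝ≥0 → F} {t : ℝ≥0} (hb : Continuous b) (hA : 4 ≤ A) (hE : 1 ≤ E)
    (h : ∀ l ≤ k + 1, j + 2 ≤ l → ¬ Wev A E k l j b t) :
    ∀ d l, l + d = k + 2 → j + 2 ≤ l → ∀ s, t - Us A E k l ≤ s → s ≤ t + Us A E k l →
      ‖b s - b t‖ ≤ Rs A E (j + 1) / 2 ^ (l - j) := by
  have hA0 : 0 < A := by omega
  have hR := Rs_pos (E := E) hA0 (j + 1)
  intro d
  induction d with
  | zero =>
    intro l hl _ s hs1 hs2
    rw [Us_of_gt (by omega)] at hs1 hs2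
    rw [tsub_zero] at hs1
    rw [add_zero] at hs2
    rw [le_antisymm hs2 hs1, sub_self, norm_zero]
    positivity
  | succ d ih =>
    intro l hl hjl s hs1 hs2
    have ih' := ih (l + 1) (by omega) (by omega)
    have hW := h l (by omega) hjl
    unfold Wev at hW
    push Not at hW
    obtain ⟨hW1, hW2⟩ := hW
    have hU := Us_succ_le hA hE k l
    have hls : 0 < ls A E l j := by unfold ls; positivity
    have hsum : ls A E l j / 2 + Rs A E (j + 1) / 2 ^ (l + 1 - j) = Rs A E (j + 1) / 2 ^ (l - j) := by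
      unfold ls
      rw [show l + 1 - j = (l - j) + 1 by omega, pow_succ]
      field_simp
      norm_num
    rw [← hsum]
    rcases le_total s t with hst | hst
    · rcases le_total s (t - Us A E k (l + 1)) with h1 | h1
      · set c := t - Us A E k (l + 1) with hc
        have hct : c ≤ t := tsub_le_self
        have e1 := chain_all (continuous_mn hb c) hls.le hW2 (s := c - s) zero_le (by
          rw [zero_add, tsub_le_iff_right, hc, tsub_le_iff_right, add_assoc, add_comm s, ← add_assoc,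
            tsub_add_cancel_of_le hU]
          rw [tsub_le_iff_right] at hs1
          rwa [add_comm])
        have e2 := ih' c le_rfl (hct.trans le_self_add)
        have e3 : mn b c 0 = 0 := by unfold mn; rw [tsub_zero, sub_self]
        rw [e3, sub_zero] at e1
        have e4 : b s - b t = mn b c (c - s) + (b c - b t) := by
          unfold mn
          rw [tsub_tsub_cancel_of_le h1]; abel
        rw [e4]
        exact (norm_add_le _ _).trans (add_le_add e1 e2)
      · have e2 := ih' s h1 (hst.trans le_self_add)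
        linarith
    · rcases le_total (t + Us A E k (l + 1)) s with h1 | h1
      · set c := t + Us A E k (l + 1) with hc
        have hct : t ≤ c := le_self_add
        have e1 := chain_all (continuous_pl hb c) hls.le hW1 (s := s - c) zero_le (by
          rw [zero_add, tsub_le_iff_right, hc, add_comm t, ← add_assoc, tsub_add_cancel_of_le hU]
          rwa [add_comm])
        have e2 := ih' c (tsub_le_self.trans hct) le_rfl
        have e3 : pl b c 0 = 0 := by unfold pl; rw [add_zero, sub_self]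
        rw [e3, sub_zero] at e1
        have e4 : b s - b t = pl b c (s - c) + (b c - b t) := by
          unfold pl
          rw [add_tsub_cancel_of_le h1]; abel
        rw [e4]
        exact (norm_add_le _ _).trans (add_le_add e1 e2)
      · have e2 := ih' s (tsub_le_self.trans hst) h1
        linarith

/-- no far returns -/
lemma near {j : ℕ} {b : ℝ≥0 → F} {t s : ℝ≥0} (hb : Continuous b) (hA : 4 ≤ A) (hE : 1 ≤ E)
    (h : ∀ l < j, ¬ FRp A E l j b t ∧ ¬ FRm A E l j b t) (ht : t ≤ 1) (hs : s ≤ 1)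
    (hd : ‖b s - b t‖ ≤ 4 * Rs A E j) :
    ∀ l ≤ j, s ≤ t + Ts A E l ∧ t ≤ s + Ts A E l := by
  have hA0 : 0 < A := by omega
  have hR := Rs_pos (E := E) hA0 j
  intro l
  induction l with
  | zero =>
    intro _
    have h1 : (1 : ℝ≥0) ≤ Ts A E 0 := by
      rw [Ts_zero]
      exact one_le_pow₀ (by exact_mod_cast (by omega : 1 ≤ A))
    constructor
    · exact hs.trans (h1.trans le_add_self)
    · exact ht.trans (h1.trans le_add_self)
  | succ l ih =>
    intro hl
    obtain ⟨ih1, ih2⟩ := ih (by omega)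
    obtain ⟨hp, hm⟩ := h l (by omega)
    have hh : 0 < cs A E l j := by
      unfold cs
      have : (0 : ℝ≥0) < A := by exact_mod_cast hA0
      positivity
    have hMh := Ms_hs (E := E) hA0 (show l ≤ j by omega)
    have hT := Ts_pos (E := E) hA0 (l + 1)
    constructor
    · by_contra hcon
      push Not at hcon
      set u := t + Ts A E (l + 1) with hu
      set x := s - u with hx
      set m := ⌊x / cs A E l j⌋₊ with hm'
      have h1 : (m : ℝ≥0) * cs A E l j ≤ x := by
        have := Nat.floor_le (zero_le : 0 ≤ x / cs A E l j)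
        rw [← hm', le_div_iff₀ hh] at this
        exact this
      have h2 : x < (m + 1) * cs A E l j := by
        have := Nat.lt_floor_add_one (x / cs A E l j)
        rw [← hm', div_lt_iff₀ hh] at this
        exact this
      have hxT : x < Ts A E l := by
        rw [hx, tsub_lt_iff_right hcon.le, hu, add_comm (Ts A E l), add_assoc,
          add_comm (Ts A E (l + 1)), ← add_assoc]
        exact lt_of_le_of_lt ih1 (lt_add_of_pos_right _ hT)
      have hmM : m < Ms A E l j := by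
        have h3 : (m : ℝ≥0) * cs A E l j < Ms A E l j * cs A E l j := by
          rw [hMh]; exact lt_of_le_of_lt h1 hxT
        have h4 : (m : ℝ≥0) < (Ms A E l j : ℝ≥0) := lt_of_mul_lt_mul_right h3 zero_le
        exact_mod_cast h4
      unfold FRp at hp
      push Not at hp
      obtain ⟨hp1, hp2⟩ := hp m hmM
      have e1 := chain_all (continuous_pl hb u) hR.le hp1 (s := x) h1 (by
        calc x ≤ (m + 1) * cs A E l j := h2.le
          _ = _ := by ring)
      have e2 : pl b u x = b s - b u := by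
        unfold pl; rw [hx, add_tsub_cancel_of_le hcon.le]
      have e3 : pl b u (m * cs A E l j) = b (u + m * cs A E l j) - b u := rfl
      rw [e2, e3] at e1
      have e4 : b (u + m * cs A E l j) - b t = (b s - b t) -
          (b s - b u - (b (u + m * cs A E l j) - b u)) := by abel
      have e5 : ‖b (u + m * cs A E l j) - b t‖ ≤ 4 * Rs A E j + Rs A E j / 2 := by
        rw [e4]; exact (norm_sub_le _ _).trans (add_le_add hd e1)
      linarith
    · by_contra hcon
      push Not at hcon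
      have hTt : Ts A E (l + 1) ≤ t := le_trans le_add_self hcon.le
      set u := t - Ts A E (l + 1) with hu
      have hsu : s ≤ u := by
        rw [hu]; exact le_tsub_of_add_le_right hcon.le
      set x := u - s with hx
      set m := ⌊x / cs A E l j⌋₊ with hm'
      have h1 : (m : ℝ≥0) * cs A E l j ≤ x := by
        have := Nat.floor_le (zero_le : 0 ≤ x / cs A E l j)
        rw [← hm', le_div_iff₀ hh] at this
        exact this
      have h2 : x < (m + 1) * cs A E l j := by
        have := Nat.lt_floor_add_one (x / cs A E l j)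
        rw [← hm', div_lt_iff₀ hh] at this
        exact this
      have hut : u + Ts A E (l + 1) = t := tsub_add_cancel_of_le hTt
      have hxT : x < Ts A E l := by
        rw [hx, tsub_lt_iff_right hsu]
        have h3 : u < u + Ts A E (l + 1) := lt_add_of_pos_right _ hT
        rw [hut] at h3
        refine lt_of_lt_of_le h3 ?_
        rw [add_comm]; exact ih2
      have hmM : m < Ms A E l j := by
        have h3 : (m : ℝ≥0) * cs A E l j < Ms A E l j * cs A E l j := by
          rw [hMh]; exact lt_of_le_of_lt h1 hxT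
        have h4 : (m : ℝ≥0) < (Ms A E l j : ℝ≥0) := lt_of_mul_lt_mul_right h3 zero_le
        exact_mod_cast h4
      unfold FRm at hm
      push Not at hm
      obtain ⟨hp1, hp2⟩ := hm m hmM
      have hmt : Ts A E (l + 1) + m * cs A E l j ≤ t := by
        rw [← hut, add_comm]
        gcongr
        exact h1.trans tsub_le_self
      have hp3 := hp2 hmt
      have e1 := chain_all (continuous_mn hb u) hR.le hp1 (s := x) h1 (by
        calc x ≤ (m + 1) * cs A E l j := h2.le
          _ = _ := by ring)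
      have e2 : mn b u x = b s - b u := by
        unfold mn; rw [hx, tsub_tsub_cancel_of_le hsu]
      have e3 : mn b u (m * cs A E l j) = b (u - m * cs A E l j) - b u := rfl
      rw [e2, e3] at e1
      have e4 : b (u - m * cs A E l j) - b t = (b s - b t) -
          (b s - b u - (b (u - m * cs A E l j) - b u)) := by abel
      have e5 : ‖b (u - m * cs A E l j) - b t‖ ≤ 4 * Rs A E j + Rs A E j / 2 := by
        rw [e4]; exact (norm_sub_le _ _).trans (add_le_add hd e1)
      linarith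

end Pool.Agent.Helper83.ConfDim
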