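import Pool.Agent.Helper83.ConfDim.Det4

open MeasureTheory ProbabilityTheory Filter
open scoped ENNReal NNReal Topology

namespace Pool.Agent.Helper83.ConfDim

variable {F : Type*} [NormedAddCommGroup F] {A E : ℕ}

/-- **multi scale**: without bad events the point is far from the bad set -/
lemma multi {b : ℝ≥0 → F} (hb : Continuous b) (hA : 16 ≤ A) (h4 : 4 ∣ A) (hE : 2 ≤ E) {k j : ℕ}
    (hj : j < k) {t : ℝ≥0} (ht : t ≤ 1) (h : ∀ l ≤ k + 1, ¬ Dev A E k l j b t)
    (x : (b '' Set.Icc 0 1 : Set F)) (hx : (x : F) = b t) :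
    ∀ y ∈ Bad (b '' Set.Icc 0 1 : Set F) (A ^ E) (A ^ (2 * E - 4)) j,
      2 * al (A ^ E) ^ j ≤ dist x y := by
  have hA0 : 0 < A := by omega
  have hA1 : (16 : ℝ) ≤ A := by exact_mod_cast hA
  have hAE : (16 : ℝ) ≤ (A : ℝ) ^ E := hA1.trans (le_self_pow₀ (by linarith) (by omega))
  intro y hy
  by_contra hcon
  push Not at hcon
  obtain ⟨Q, z, hQN, hz0, hstep, hdis⟩ := hy
  rw [al_pow] at hcon hdis
  simp only [al_pow] at hstep
  have hR := Rs_pos (E := E) hA0 j
  have hR1 := Rs_pos (E := E) hA0 (j + 1)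
  have hRs := Rs_succ (E := E) hA0 j
  have hal : al (A ^ E) * Rs A E j = Rs A E (j + 1) := by
    rw [← al_pow, ← al_pow, pow_succ]; ring
  have hdis' : Rs A E j - Rs A E (j + 1) ≤ dist (z 0) (z Q) := by
    have : (1 - al (A ^ E)) * Rs A E j = Rs A E j - Rs A E (j + 1) := by
      rw [sub_mul, one_mul, hal]
    linarith
  -- times
  have htime : ∀ q, ∃ s : ℝ≥0, s ≤ 1 ∧ b s = (z q : F) := by
    intro q
    obtain ⟨s, hs, hs'⟩ := (z q).2
    exact ⟨s, hs.2, hs'⟩
  choose s hs1 hs2 using htime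
  have hdist : ∀ q q', dist (z q) (z q') = ‖b (s q') - b (s q)‖ := by
    intro q q'
    rw [Subtype.dist_eq, dist_eq_norm, hs2, hs2, norm_sub_rev]
  -- first exit
  classical
  have hex : ∃ q, Rs A E j - Rs A E (j + 1) ≤ dist (z 0) (z q) := ⟨Q, hdis'⟩
  set q1 := Nat.find hex with hq1
  have hq1s : Rs A E j - Rs A E (j + 1) ≤ dist (z 0) (z q1) := Nat.find_spec hex
  have hq1Q : q1 ≤ Q := Nat.find_min' hex hdis'
  have hq1min : ∀ q < q1, dist (z 0) (z q) < Rs A E j - Rs A E (j + 1) := fun q hq =>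
    not_le.1 (Nat.find_min hex hq)
  have hnear : ∀ q ≤ q1, dist (z 0) (z q) ≤ 2 * Rs A E j := by
    intro q hq
    rcases Nat.lt_or_ge q q1 with h1 | h1
    · have := hq1min q h1; linarith
    · have hqe : q = q1 := le_antisymm hq h1
      rcases Nat.eq_zero_or_pos q with h0 | h0
      · rw [h0, dist_self]; linarith
      · obtain ⟨r, hr⟩ := Nat.exists_eq_succ_of_ne_zero h0.ne'
        rw [Nat.succ_eq_add_one] at hr
        have e1 := hq1min r (by omega)
        have e2 := hstep r (by omega)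
        rw [hr]
        have e3 := dist_triangle (z 0) (z r) (z (r + 1))
        nlinarith
  have hfar : ∀ l < j, ¬ FRp A E l j b t ∧ ¬ FRm A E l j b t := by
    intro l hl
    have h1 := h l (by omega)
    unfold Dev at h1
    push Not at h1
    exact h1.1 hl
  have hloc : ¬ LocE A E (gs A E j) (Rs A E (j + 1)) b (t + Us A E k (j + 2))
      (t - Us A E k (j + 2)) := by
    have h1 := h j (by omega)
    unfold Dev at h1
    push Not at h1
    exact h1.2.1 rfl
  have hW : ∀ l ≤ k + 1, j + 2 ≤ l → ¬ Wev A E k l j b t := by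
    intro l hl hl'
    have h1 := h l hl
    unfold Dev at h1
    push Not at h1
    exact h1.2.2 hl'
  have hgap : ∀ u, t - Us A E k (j + 2) ≤ u → u ≤ t + Us A E k (j + 2) →
      ‖b u - b t‖ ≤ Rs A E (j + 1) / 4 := by
    intro u hu1 hu2
    have h1 := gap hb (by omega) (by omega) hW (k - j) (j + 2) (by omega) le_rfl u hu1 hu2
    rw [Nat.add_sub_cancel_left] at h1
    norm_num at h1
    exact h1
  have hin : ∀ q ≤ q1, s q ≤ t + Ts A E j ∧ t ≤ s q + Ts A E j := by
    intro q hq
    refine near hb (by omega) (by omega) hfar ht (hs1 q) ?_ j le_rfl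
    have e1 := hnear q hq
    have e2 : dist x y ≤ 2 * Rs A E j := hcon.le
    rw [← hz0] at e2
    have e3 := dist_triangle x (z 0) (z q)
    have e4 : dist x (z q) = ‖b (s q) - b t‖ := by
      rw [Subtype.dist_eq, dist_eq_norm, hs2, hx, norm_sub_rev]
    rw [← e4]
    linarith
  have hkey := single_scale (s := s) (Q := q1) hb (c := t + Us A E k (j + 2))
    (c' := t - Us A E k (j + 2)) (t := t) tsub_le_self le_self_add hR1 (gs_pos hA0 j) hE hA h4
    hgap hloc (fun q hq => by rw [T_eq hA0]; exact (hin q hq).1)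
    (fun q hq => by rw [T_eq hA0]; exact (hin q hq).2)
    (fun q hq => by rw [← hdist]; exact hstep q (by omega))
    (by
      rw [← hdist, sub_mul, one_mul, hRs]
      exact hq1s)
  omega

end Pool.Agent.Helper83.ConfDim
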