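import Pool.Agent.Helper83.ConfDim.Prob4

open MeasureTheory ProbabilityTheory Filter
open scoped ENNReal NNReal Topology

namespace Pool.Agent.Helper83.ConfDim

/-! events of a one-sided path, in grid units -/

section defs
variable {F : Type*} [NormedAddCommGroup F]

/-- two grid points are close -/
def Close (g : ℝ≥0) (rr : ℝ) (γ : ℝ≥0 → F) (m m' : ℕ) : Prop :=
  ‖γ (m' * g) - γ (m * g)‖ ≤ 6 * rr

/-- large oscillation in a grid cell -/
def Osc (A E : ℕ) (g : ℝ≥0) (rr : ℝ) (γ : ℝ≥0 → F) : Prop :=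
  ∃ m < A ^ (3 * E + 1), Chb γ (m * g) g rr

/-- large oscillation at the coarse scale -/
def Mc (A E : ℕ) (g : ℝ≥0) (rr : ℝ) (γ : ℝ≥0 → F) : Prop :=
  ∃ m < A ^ (E + 1), 4 * (m + 1) ≤ A ^ (E + 1) ∧
    Chb γ (m * (4 * A ^ (2 * E) * g)) (4 * A ^ (2 * E) * g) (A ^ E * rr / 16)

/-- long range near self-intersection -/
def Lr (A E : ℕ) (g : ℝ≥0) (rr : ℝ) (V : ℝ≥0) (γ : ℝ≥0 → F) : Prop :=
  ∃ m' < A ^ (3 * E + 1) + 1, ∃ m < m', A ^ (E + 1) ≤ m' - m ∧ m' * g ≤ V ∧ Close g rr γ m m'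

/-- the block starting at `b` is jumped over inside the window starting at `m0` -/
def Jump (A E : ℕ) (g : ℝ≥0) (rr : ℝ) (γ : ℝ≥0 → F) (m0 b : ℕ) : Prop :=
  ∃ m' < m0 + 4 * A ^ (E + 1) + 1, ∃ m < b + 1, m0 ≤ m ∧ b + A ^ 3 ≤ m' ∧ Close g rr γ m m'

/-- start of a block -/
def blk (A E m0 i : ℕ) : ℕ := m0 + A ^ (E + 1) + i * A ^ 3

open Classical in
/-- at least half of the blocks of the window are jumped -/
def PoorW (A E : ℕ) (g : ℝ≥0) (rr : ℝ) (γ : ℝ≥0 → F) (m0 : ℕ) : Prop :=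
  A ^ (E - 2) ≤ 2 * ((Finset.range (A ^ (E - 2))).filter
    fun i => Jump A E g rr γ m0 (blk A E m0 i)).card

/-- number of windows in a long interval -/
def Nw (A E : ℕ) : ℕ := A ^ (E - 1) / 4

/-- start of a window -/
def win (A E q c : ℕ) : ℕ := q * A ^ (2 * E) + c * (4 * A ^ (E + 1))

open Classical in
/-- at least half of the windows of the long interval are poor -/
def PoorJ (A E : ℕ) (g : ℝ≥0) (rr : ℝ) (γ : ℝ≥0 → F) (q : ℕ) : Prop :=
  Nw A E ≤ 2 * ((Finset.range (Nw A E)).filter fun c => PoorW A E g rr γ (win A E q c)).card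

/-- some long interval is poor -/
def Poor (A E : ℕ) (g : ℝ≥0) (rr : ℝ) (V : ℝ≥0) (γ : ℝ≥0 → F) : Prop :=
  ∃ q < A ^ (E + 1), (q + 1 : ℕ) * (A ^ (2 * E) * g) ≤ V ∧ PoorJ A E g rr γ q

end defs

/-! measurability -/

section meas
variable {Ω : Type*} {m : MeasurableSpace Ω} {n : ℕ} {γ : ℝ≥0 → Ω → EuclideanSpace ℝ (Fin n)}
  {A E : ℕ} {g V W : ℝ≥0} {rr : ℝ}

lemma meas_exists_lt {N : ℕ} {p : ℕ → Ω → Prop} (h : ∀ k < N, MeasurableSet[m] {ω | p k ω}) :
    MeasurableSet[m] {ω | ∃ k < N, p k ω} := by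
  have : {ω | ∃ k < N, p k ω} = ⋃ k ∈ Finset.range N, {ω | p k ω} := by
    ext ω; simp
  rw [this]
  exact MeasurableSet.biUnion (Finset.countable_toSet _) fun k hk => h k (Finset.mem_range.1 hk)

lemma meas_and_const {q : Prop} {p : Ω → Prop} (h : q → MeasurableSet[m] {ω | p ω}) :
    MeasurableSet[m] {ω | q ∧ p ω} := by
  by_cases hq : q
  · simp only [hq, true_and]; exact h hq
  · simp only [hq, false_and]; exact MeasurableSet.empty

lemma meas_close (hm : ∀ s t, s ≤ W → t ≤ W → Measurable[m] fun ω => γ s ω - γ t ω) {k k' : ℕ}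
    (hk : k * g ≤ W) (hk' : k' * g ≤ W) :
    MeasurableSet[m] {ω | Close g rr (fun v => γ v ω) k k'} := by
  have h1 : Measurable[m] fun ω => ‖γ (k' * g) ω - γ (k * g) ω‖ := (hm _ _ hk' hk).norm
  exact h1 measurableSet_Iic

lemma meas_osc (hm : ∀ s t, s ≤ W → t ≤ W → Measurable[m] fun ω => γ s ω - γ t ω)
    (hW : A ^ (3 * E + 1) * g ≤ W) : MeasurableSet[m] {ω | Osc A E g rr (fun v => γ v ω)} := by
  refine meas_exists_lt fun k hk => meas_chb (V := W) ?_ hm rr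
  refine le_trans ?_ hW
  have h1 : ((k + 1 : ℕ) : ℝ≥0) ≤ ((A ^ (3 * E + 1) : ℕ) : ℝ≥0) := by exact_mod_cast hk
  push_cast at h1
  calc (k : ℝ≥0) * g + g = (k + 1) * g := by ring
    _ ≤ _ := by gcongr

lemma meas_mc (hm : ∀ s t, s ≤ W → t ≤ W → Measurable[m] fun ω => γ s ω - γ t ω)
    (hW : A ^ (3 * E + 1) * g ≤ W) : MeasurableSet[m] {ω | Mc A E g rr (fun v => γ v ω)} := by
  refine meas_exists_lt fun k _ => meas_and_const fun hk => meas_chb (V := W) ?_ hm _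
  refine le_trans ?_ hW
  have h1 : ((4 * (k + 1) : ℕ) : ℝ≥0) ≤ ((A ^ (E + 1) : ℕ) : ℝ≥0) := by exact_mod_cast hk
  push_cast at h1
  calc (k : ℝ≥0) * (4 * A ^ (2 * E) * g) + 4 * A ^ (2 * E) * g
      = (4 * (k + 1)) * (A ^ (2 * E) * g) := by ring
    _ ≤ A ^ (E + 1) * (A ^ (2 * E) * g) := by gcongr
    _ = A ^ (3 * E + 1) * g := by
        rw [← mul_assoc, ← pow_add]; congr 2; ring

lemma meas_lr (hm : ∀ s t, s ≤ W → t ≤ W → Measurable[m] fun ω => γ s ω - γ t ω)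
    (hW : A ^ (3 * E + 1) * g ≤ W) : MeasurableSet[m] {ω | Lr A E g rr V (fun v => γ v ω)} := by
  refine meas_exists_lt fun k' hk' => meas_exists_lt fun k hk => meas_and_const fun _ =>
    meas_and_const fun _ => ?_
  have h1 : (k' : ℝ≥0) ≤ ((A ^ (3 * E + 1) : ℕ) : ℝ≥0) := by exact_mod_cast Nat.lt_succ_iff.1 hk'
  push_cast at h1
  have h2 : (k' : ℝ≥0) * g ≤ W := le_trans (by gcongr) hW
  refine meas_close hm (le_trans ?_ h2) h2
  gcongr
  

lemma meas_jump (hm : ∀ s t, s ≤ W → t ≤ W → Measurable[m] fun ω => γ s ω - γ t ω) {m0 b : ℕ}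
    (hb : b ≤ m0 + 4 * A ^ (E + 1))
    (hW : (m0 + 4 * A ^ (E + 1) : ℕ) * g ≤ W) :
    MeasurableSet[m] {ω | Jump A E g rr (fun v => γ v ω) m0 b} := by
  refine meas_exists_lt fun k' hk' => meas_exists_lt fun k hk => meas_and_const fun _ =>
    meas_and_const fun _ => ?_
  have h1 : (k' : ℝ≥0) ≤ ((m0 + 4 * A ^ (E + 1) : ℕ) : ℝ≥0) := by
    exact_mod_cast Nat.lt_succ_iff.1 hk'
  have h2 : (k : ℝ≥0) ≤ ((m0 + 4 * A ^ (E + 1) : ℕ) : ℝ≥0) := by
    exact_mod_cast (Nat.lt_succ_iff.1 hk).trans hb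
  exact meas_close hm (le_trans (by gcongr) hW) (le_trans (by gcongr) hW)

/-- counting statements are measurable -/
lemma meas_count {N K : ℕ} {p : ℕ → Ω → Prop} (h : ∀ k < N, MeasurableSet[m] {ω | p k ω}) :
    MeasurableSet[m] {ω | K ≤ 2 * (@Finset.filter ℕ (fun k => p k ω)
      (fun _ => Classical.propDecidable _) (Finset.range N)).card} := by
  classical
  have h1 : ∀ ω, (@Finset.filter ℕ (fun k => p k ω) (fun _ => Classical.propDecidable _)
      (Finset.range N)).card = ∑ k ∈ Finset.range N, {ω | p k ω}.indicator (fun _ => 1) ω := by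
    intro ω
    rw [Finset.card_filter]
    refine Finset.sum_congr rfl fun k _ => ?_
    simp only [Set.indicator_apply, Set.mem_ofPred_eq]
  have h2 : Measurable[m] fun ω => 2 * ∑ k ∈ Finset.range N, {ω | p k ω}.indicator (fun _ => 1) ω := by
    refine Measurable.const_mul ?_ 2
    refine Finset.measurable_fun_sum _ fun k hk => ?_
    exact (@measurable_const _ _ _ m (1 : ℕ)).indicator (h k (Finset.mem_range.1 hk))
  simp only [h1]
  exact h2 measurableSet_Ici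

lemma blk_le {m0 i : ℕ} (hE : 2 ≤ E) (hi : i < A ^ (E - 2)) :
    blk A E m0 i + A ^ 3 ≤ m0 + 2 * A ^ (E + 1) := by
  unfold blk
  have h1 : (i + 1) * A ^ 3 ≤ A ^ (E - 2) * A ^ 3 := Nat.mul_le_mul_right _ hi
  rw [← pow_add, show E - 2 + 3 = E + 1 by omega] at h1
  nlinarith

lemma meas_poorW (hE : 2 ≤ E) (hm : ∀ s t, s ≤ W → t ≤ W → Measurable[m] fun ω => γ s ω - γ t ω)
    {m0 : ℕ} (hW : (m0 + 4 * A ^ (E + 1) : ℕ) * g ≤ W) :
    MeasurableSet[m] {ω | PoorW A E g rr (fun v => γ v ω) m0} := by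
  unfold PoorW
  exact meas_count fun i hi => meas_jump hm (by have := blk_le (m0 := m0) hE hi; omega) hW

lemma win_le (hE : 2 ≤ E) {q c : ℕ} (hc : c < Nw A E) :
    win A E q c + 4 * A ^ (E + 1) ≤ (q + 1) * A ^ (2 * E) := by
  unfold win
  unfold Nw at hc
  have h1 : (c + 1) * 4 ≤ A ^ (E - 1) := by
    have := Nat.div_mul_le_self (A ^ (E - 1)) 4
    calc (c + 1) * 4 ≤ (A ^ (E - 1) / 4) * 4 := Nat.mul_le_mul_right 4 hc
      _ ≤ A ^ (E - 1) := this
  have h2 : (c + 1) * 4 * A ^ (E + 1) ≤ A ^ (E - 1) * A ^ (E + 1) := Nat.mul_le_mul_right _ h1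
  rw [← pow_add, show E - 1 + (E + 1) = 2 * E by omega] at h2
  nlinarith

lemma meas_poor (hE : 2 ≤ E) (hm : ∀ s t, s ≤ W → t ≤ W → Measurable[m] fun ω => γ s ω - γ t ω)
    (hW : A ^ (3 * E + 1) * g ≤ W) : MeasurableSet[m] {ω | Poor A E g rr V (fun v => γ v ω)} := by
  refine meas_exists_lt fun q hq => meas_and_const fun _ => ?_
  unfold PoorJ
  refine meas_count fun c hc => meas_poorW hE hm ?_
  refine le_trans ?_ hW
  have h1 := win_le hE (q := q) hc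
  have h2 : (q + 1) * A ^ (2 * E) ≤ A ^ (E + 1) * A ^ (2 * E) := Nat.mul_le_mul_right _ hq
  rw [← pow_add, show E + 1 + 2 * E = 3 * E + 1 by ring] at h2
  have h3 : ((win A E q c + 4 * A ^ (E + 1) : ℕ) : ℝ≥0) ≤ ((A ^ (3 * E + 1) : ℕ) : ℝ≥0) := by
    exact_mod_cast h1.trans h2
  push_cast at h3 ⊢
  gcongr

end meas

end Pool.Agent.Helper83.ConfDim
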