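import Pool.Agent.Helper83.ConfDim.Ev1

open MeasureTheory ProbabilityTheory Filter
open scoped ENNReal NNReal Topology

namespace Pool.Agent.Helper83.ConfDim

variable {Ω : Type*} [mΩ : MeasurableSpace Ω] {n : ℕ} {P : Measure Ω}
  {γ : ℝ≥0 → Ω → EuclideanSpace ℝ (Fin n)} {A E : ℕ} {g V : ℝ≥0} {rr : ℝ}

lemma g_pos (hrr : 0 < rr) (hg : rr ^ 2 = A * g) : (0 : ℝ) < g := by
  by_contra hcon
  push Not at hcon
  have h1 : (g : ℝ) = 0 := le_antisymm hcon (NNReal.coe_nonneg g)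
  rw [h1, mul_zero] at hg
  have := pow_pos hrr 2
  linarith

/-- union bound over a finite range -/
lemma prob_exists_lt {N : ℕ} {p : ℕ → Ω → Prop} {c : ℝ}
    (h : ∀ k < N, P {ω | p k ω} ≤ ENNReal.ofReal c) :
    P {ω | ∃ k < N, p k ω} ≤ ENNReal.ofReal (N * c) := by
  have h1 : {ω | ∃ k < N, p k ω} = ⋃ k ∈ Finset.range N, {ω | p k ω} := by
    ext ω; simp
  rw [h1]
  calc P (⋃ k ∈ Finset.range N, {ω | p k ω}) ≤ ∑ k ∈ Finset.range N, P {ω | p k ω} :=
        measure_biUnion_finset_le _ _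
    _ ≤ ∑ _k ∈ Finset.range N, ENNReal.ofReal c :=
        Finset.sum_le_sum fun k hk => h k (Finset.mem_range.1 hk)
    _ = ENNReal.ofReal (N * c) := by
        rw [Finset.sum_const, Finset.card_range, nsmul_eq_mul, ENNReal.ofReal_mul (by positivity),
          ENNReal.ofReal_natCast]

lemma prob_and_const {q : Prop} {p : Ω → Prop} {c : ℝ≥0∞} (h : q → P {ω | p ω} ≤ c) :
    P {ω | q ∧ p ω} ≤ c := by
  by_cases hq : q
  · simp only [hq, true_and]; exact h hq
  · simp only [hq, false_and]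
    have : {ω : Ω | False} = ∅ := rfl
    rw [this, measure_empty]; exact zero_le

lemma prob_osc (hγ : Side n P V γ) (hA : 1 ≤ A) (hrr : 0 < rr) (hg : rr ^ 2 = A * g) {q : ℕ}
    (hq : 12 ≤ q) : P {ω | Osc A E g rr (fun v => γ v ω)} ≤
      ENNReal.ofReal ((A : ℝ) ^ (3 * E + 1) * (2 * Ct n q * (64 / A) ^ q)) := by
  have hC := Ct_nonneg n q
  have hA0 : (0 : ℝ) < A := by exact_mod_cast hA
  have h1 := prob_exists_lt (P := P) (N := A ^ (3 * E + 1))
    (p := fun k ω => Chb (fun v => γ v ω) (k * g) g rr)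
    (c := 2 * Ct n q * (64 / A) ^ q) fun k _ => by
      refine (hγ.chb (k * g) g hrr hq).trans (ENNReal.ofReal_le_ofReal (le_of_eq ?_))
      have hg0 := g_pos hrr hg
      congr 2
      rw [hg]
      field_simp
  push_cast at h1
  exact h1

lemma prob_mc (hγ : Side n P V γ) (hA : 1 ≤ A) (hrr : 0 < rr) (hg : rr ^ 2 = A * g) {q : ℕ}
    (hq : 12 ≤ q) : P {ω | Mc A E g rr (fun v => γ v ω)} ≤
      ENNReal.ofReal ((A : ℝ) ^ (E + 1) * (2 * Ct n q * (65536 / A) ^ q)) := by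
  have hC := Ct_nonneg n q
  have hA0 : (0 : ℝ) < A := by exact_mod_cast hA
  have h1 := prob_exists_lt (P := P) (N := A ^ (E + 1))
    (p := fun k ω => 4 * (k + 1) ≤ A ^ (E + 1) ∧ Chb (fun v => γ v ω)
      (k * (4 * A ^ (2 * E) * g)) (4 * A ^ (2 * E) * g) (A ^ E * rr / 16))
    (c := 2 * Ct n q * (65536 / A) ^ q) fun k _ => prob_and_const fun _ => by
      refine (hγ.chb _ _ (by positivity) hq).trans (ENNReal.ofReal_le_ofReal (le_of_eq ?_))
      have hg0 := g_pos hrr hg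
      congr 2
      rw [div_pow, mul_pow, hg, ← pow_mul, mul_comm E 2]
      push_cast
      field_simp
      norm_num
  push_cast at h1
  exact h1

lemma prob_close (hγ : Side n P V γ) (hrr : 0 < rr) (hg : rr ^ 2 = A * g) {m m' : ℕ}
    (hmm : m < m') (hV : m' * g ≤ V) :
    P {ω | Close g rr (fun v => γ v ω) m m'} ≤
      ENNReal.ofReal ((36 * A / ((m' : ℝ) - m)) ^ 30) := by
  have hg0 := g_pos hrr hg
  have hg0' : 0 < g := by exact_mod_cast hg0
  have hmm' : (m : ℝ) < m' := by exact_mod_cast hmm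
  have h1 := hγ.ball (s := m * g) (t := m' * g) (by
    have : (m : ℝ≥0) < m' := by exact_mod_cast hmm
    exact mul_lt_mul_of_pos_right this hg0') hV 0 (R := 6 * rr) (by positivity)
  simp only [sub_zero] at h1
  refine h1.trans (ENNReal.ofReal_le_ofReal (le_of_eq ?_))
  congr 1
  rw [mul_pow, hg]
  push_cast
  have : (m' : ℝ) - m ≠ 0 := by linarith
  have h2 : (m' : ℝ) * g - m * g = (m' - m) * g := by ring
  rw [h2]
  field_simp
  norm_num
  ring

lemma prob_lr (hγ : Side n P V γ) (hA : 1 ≤ A) (hrr : 0 < rr) (hg : rr ^ 2 = A * g) :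
    P {ω | Lr A E g rr V (fun v => γ v ω)} ≤
      ENNReal.ofReal (((A : ℝ) ^ (3 * E + 1) + 1) ^ 2 * (36 / (A : ℝ) ^ E) ^ 30) := by
  have hA0 : (0 : ℝ) < A := by exact_mod_cast hA
  have h1 := prob_exists_lt (P := P) (N := A ^ (3 * E + 1) + 1)
    (p := fun m' ω => ∃ m < m', A ^ (E + 1) ≤ m' - m ∧ m' * g ≤ V ∧
      Close g rr (fun v => γ v ω) m m')
    (c := ((A : ℝ) ^ (3 * E + 1) + 1) * (36 / (A : ℝ) ^ E) ^ 30) fun m' hm' => by
      have h2 := prob_exists_lt (P := P) (N := m')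
        (p := fun m ω => A ^ (E + 1) ≤ m' - m ∧ m' * g ≤ V ∧ Close g rr (fun v => γ v ω) m m')
        (c := (36 / (A : ℝ) ^ E) ^ 30) fun m hm =>
          prob_and_const fun hd => prob_and_const fun hV => by
            refine (prob_close hγ hrr hg hm hV).trans (ENNReal.ofReal_le_ofReal ?_)
            have h3 : ((A : ℝ)) ^ (E + 1) ≤ (m' : ℝ) - m := by
              have : ((A ^ (E + 1) : ℕ) : ℝ) ≤ ((m' - m : ℕ) : ℝ) := by exact_mod_cast hd
              rw [Nat.cast_sub hm.le] at this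
              push_cast at this
              exact this
            have h4 : 36 * A / ((m' : ℝ) - m) ≤ 36 / (A : ℝ) ^ E := by
              have h5 : (0 : ℝ) < (m' : ℝ) - m := lt_of_lt_of_le (by positivity) h3
              rw [div_le_div_iff₀ h5 (by positivity)]
              rw [pow_succ] at h3
              nlinarith
            have h6 : 0 ≤ 36 * A / ((m' : ℝ) - m) := by
              have : (m : ℝ) < m' := by exact_mod_cast hm
              apply div_nonneg (by positivity); linarith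
            gcongr
      refine h2.trans (ENNReal.ofReal_le_ofReal ?_)
      have h3 : (m' : ℝ) ≤ (A : ℝ) ^ (3 * E + 1) + 1 := by exact_mod_cast hm'.le
      gcongr
  refine h1.trans (le_of_eq ?_)
  congr 1
  push_cast
  ring

/-- sum of inverse squares -/
lemma sum_inv_sq {K : ℕ} (hK : 2 ≤ K) (N : ℕ) :
    ∑ x ∈ Finset.range N, 1 / ((K : ℝ) + x) ^ 2 ≤ 2 / (K : ℝ) := by
  have hK' : (2 : ℝ) ≤ K := by exact_mod_cast hK
  have h1 : ∀ N : ℕ, ∑ x ∈ Finset.range N, 1 / ((K : ℝ) + x) ^ 2 ≤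
      1 / ((K : ℝ) - 1) - 1 / ((K : ℝ) + N - 1) := by
    intro N
    induction N with
    | zero => simp
    | succ N ih =>
      rw [Finset.sum_range_succ]
      have h2 : (0 : ℝ) ≤ N := by positivity
      have h3 : 1 / ((K : ℝ) + N) ^ 2 ≤ 1 / ((K : ℝ) + N - 1) - 1 / ((K : ℝ) + (N + 1 : ℕ) - 1) := by
        push_cast
        have h4 : (K : ℝ) + (N + 1) - 1 = K + N := by ring
        rw [h4, div_sub_div _ _ (by linarith) (by linarith), div_le_div_iff₀ (by positivity)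
          (mul_pos (by linarith) (by linarith))]
        nlinarith
      linarith
  have h2 := h1 N
  have h3 : (0 : ℝ) ≤ 1 / ((K : ℝ) + N - 1) := by
    have : (0 : ℝ) ≤ N := by positivity
    apply div_nonneg zero_le_one; linarith
  have h4 : 1 / ((K : ℝ) - 1) ≤ 2 / (K : ℝ) := by
    rw [div_le_div_iff₀ (by linarith) (by linarith)]
    linarith
  linarith

/-- a numerical constant -/
noncomputable def c30 : ℝ := 36 ^ 30

lemma c30_pos : 0 < c30 := by unfold c30; positivity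

/-- the bound for the probability that a block is jumped -/
noncomputable def pj (A : ℕ) : ℝ := 4 * c30 / (A : ℝ) ^ 54

lemma pj_nonneg (A : ℕ) : 0 ≤ pj A := by unfold pj; have := c30_pos; positivity

omit mΩ in
lemma aux1 {a x y : ℝ} (ha : 0 < a) (hx : 0 ≤ x) (hy : 0 ≤ y) :
    a ^ 26 * ((a + x) ^ 2 * (a + y) ^ 2) ≤ (a + x + y) ^ 30 := by
  have h1 : a ≤ a + x + y := by linarith
  have h2 : a + x ≤ a + x + y := by linarith
  have h3 : a + y ≤ a + x + y := by linarith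
  have h0 : 0 ≤ a + x := by linarith
  have h0' : 0 ≤ a + y := by linarith
  calc a ^ 26 * ((a + x) ^ 2 * (a + y) ^ 2)
      ≤ (a + x + y) ^ 26 * ((a + x + y) ^ 2 * (a + x + y) ^ 2) :=
        mul_le_mul (pow_le_pow_left₀ ha.le h1 26)
          (mul_le_mul (pow_le_pow_left₀ h0 h2 2) (pow_le_pow_left₀ h0' h3 2) (by positivity)
            (by positivity)) (by positivity) (by positivity)
    _ = (a + x + y) ^ 30 := by rw [← pow_add, ← pow_add]

omit mΩ in
lemma aux2 (a D : ℝ) : (36 * a / D) ^ 30 = c30 * (a ^ 30 / D ^ 30) := by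
  rw [div_pow, mul_pow, mul_div_assoc, c30]

omit mΩ in
lemma aux3 {a X Y : ℝ} (ha : 0 < a) (hX : 0 < X) (hY : 0 < Y) :
    a ^ 30 / ((a ^ 3) ^ 26 * (X ^ 2 * Y ^ 2)) = 1 / a ^ 48 * (1 / X ^ 2 * (1 / Y ^ 2)) := by
  have h7 : (a ^ 3) ^ 26 = a ^ 30 * a ^ 48 := by rw [← pow_mul, ← pow_add]
  rw [h7, mul_assoc, div_mul_eq_div_div, div_self (by positivity), one_div_mul_one_div,
    one_div_mul_one_div]

omit mΩ in
lemma close_bound (hA : 1 ≤ A) (x y : ℕ) :
    (36 * (A : ℝ) / ((A : ℝ) ^ 3 + x + y)) ^ 30 ≤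
      c30 / (A : ℝ) ^ 48 * (1 / ((A : ℝ) ^ 3 + x) ^ 2 * (1 / ((A : ℝ) ^ 3 + y) ^ 2)) := by
  have hA0 : (0 : ℝ) < A := by exact_mod_cast hA
  have hx : (0 : ℝ) ≤ x := by positivity
  have hy : (0 : ℝ) ≤ y := by positivity
  have h1 := aux1 (a := (A : ℝ) ^ 3) (by positivity) hx hy
  rw [aux2]
  have h2 : (A : ℝ) ^ 30 / ((A : ℝ) ^ 3 + x + y) ^ 30 ≤ (A : ℝ) ^ 30 /
      (((A : ℝ) ^ 3) ^ 26 * (((A : ℝ) ^ 3 + x) ^ 2 * ((A : ℝ) ^ 3 + y) ^ 2)) :=
    div_le_div_of_nonneg_left (by positivity) (by positivity) h1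
  refine (mul_le_mul_of_nonneg_left h2 c30_pos.le).trans (le_of_eq ?_)
  rw [aux3 hA0 (by positivity) (by positivity), ← mul_assoc, mul_one_div]

lemma prob_jump (hγ : Side n P V γ) (hA : 2 ≤ A) (hrr : 0 < rr) (hg : rr ^ 2 = A * g) {m0 b : ℕ}
    (hb : m0 ≤ b) (hV : (m0 + 4 * A ^ (E + 1) : ℕ) * g ≤ V) :
    P {ω | Jump A E g rr (fun v => γ v ω) m0 b} ≤ ENNReal.ofReal (pj A) := by
  have hA0 : (0 : ℝ) < A := by exact_mod_cast (by omega : 0 < A)
  have hc := c30_pos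
  have hA3 : 2 ≤ A ^ 3 := le_trans hA (Nat.le_self_pow (by norm_num) A)
  set N := m0 + 4 * A ^ (E + 1) with hN
  set S : Finset ℕ := Finset.range (b - m0 + 1) with hS
  set S' : Finset ℕ := Finset.range (N - (b + A ^ 3) + 1) with hS'
  have hsub : {ω | Jump A E g rr (fun v => γ v ω) m0 b} ⊆ ⋃ x ∈ S, ⋃ y ∈ S',
      {ω | (b + A ^ 3 + y) * g ≤ V ∧ Close g rr (fun v => γ v ω) (b - x) (b + A ^ 3 + y)} := by
    rintro ω ⟨m', hm', m, hm, h1, h2, h3⟩
    simp only [Set.mem_iUnion, exists_prop]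
    refine ⟨b - m, Finset.mem_range.2 (by omega), m' - (b + A ^ 3),
      Finset.mem_range.2 (by omega), ?_, ?_⟩
    · have e1 : ((b + A ^ 3 + (m' - (b + A ^ 3)) : ℕ) : ℝ≥0) ≤ ((N : ℕ) : ℝ≥0) := by
        exact_mod_cast (by omega : b + A ^ 3 + (m' - (b + A ^ 3)) ≤ N)
      refine le_trans ?_ hV
      push_cast at e1 ⊢
      gcongr
    · have e1 : b - (b - m) = m := by omega
      have e2 : b + A ^ 3 + (m' - (b + A ^ 3)) = m' := by omega
      rw [e1, e2]
      exact h3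
  have hpair : ∀ x ∈ S, ∀ y ∈ S', P {ω | (b + A ^ 3 + y) * g ≤ V ∧
      Close g rr (fun v => γ v ω) (b - x) (b + A ^ 3 + y)} ≤
      ENNReal.ofReal (c30 / (A : ℝ) ^ 48 *
        (1 / ((A : ℝ) ^ 3 + x) ^ 2 * (1 / ((A : ℝ) ^ 3 + y) ^ 2))) := by
    intro x hx y _
    refine prob_and_const fun hV' => ?_
    have hx' : x ≤ b := by rw [hS, Finset.mem_range] at hx; omega
    refine (prob_close hγ hrr hg (by omega) (by push_cast; exact hV')).trans
      (ENNReal.ofReal_le_ofReal ?_)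
    refine le_trans (le_of_eq ?_) (close_bound (by omega : 1 ≤ A) x y)
    congr 2
    rw [Nat.cast_sub hx']
    push_cast
    ring
  refine (measure_mono hsub).trans ?_
  calc P (⋃ x ∈ S, ⋃ y ∈ S', _) ≤ ∑ x ∈ S, P (⋃ y ∈ S', _) := measure_biUnion_finset_le _ _
    _ ≤ ∑ x ∈ S, ∑ y ∈ S', ENNReal.ofReal (c30 / (A : ℝ) ^ 48 *
        (1 / ((A : ℝ) ^ 3 + x) ^ 2 * (1 / ((A : ℝ) ^ 3 + y) ^ 2))) := by
        refine Finset.sum_le_sum fun x hx => ?_
        refine (measure_biUnion_finset_le _ _).trans ?_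
        exact Finset.sum_le_sum fun y hy => hpair x hx y hy
    _ = ENNReal.ofReal (∑ x ∈ S, ∑ y ∈ S', c30 / (A : ℝ) ^ 48 *
        (1 / ((A : ℝ) ^ 3 + x) ^ 2 * (1 / ((A : ℝ) ^ 3 + y) ^ 2))) := by
        rw [ENNReal.ofReal_sum_of_nonneg fun x _ => Finset.sum_nonneg fun y _ => by positivity]
        refine Finset.sum_congr rfl fun x _ => ?_
        rw [ENNReal.ofReal_sum_of_nonneg fun y _ => by positivity]
    _ ≤ ENNReal.ofReal (pj A) := by
        apply ENNReal.ofReal_le_ofReal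
        have e1 : ∑ x ∈ S, ∑ y ∈ S', c30 / (A : ℝ) ^ 48 *
            (1 / ((A : ℝ) ^ 3 + x) ^ 2 * (1 / ((A : ℝ) ^ 3 + y) ^ 2)) =
            c30 / (A : ℝ) ^ 48 * ((∑ x ∈ S, 1 / ((A : ℝ) ^ 3 + x) ^ 2) *
              ∑ y ∈ S', 1 / ((A : ℝ) ^ 3 + y) ^ 2) := by
          rw [Finset.sum_mul_sum, Finset.mul_sum]
          refine Finset.sum_congr rfl fun x _ => ?_
          rw [Finset.mul_sum]
        have e2 := sum_inv_sq hA3 (b - m0 + 1)
        have e3 := sum_inv_sq hA3 (N - (b + A ^ 3) + 1)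
        push_cast at e2 e3
        rw [e1]
        have e4 : (0 : ℝ) ≤ ∑ y ∈ S', 1 / ((A : ℝ) ^ 3 + y) ^ 2 :=
          Finset.sum_nonneg fun y _ => by positivity
        calc c30 / (A : ℝ) ^ 48 * ((∑ x ∈ S, 1 / ((A : ℝ) ^ 3 + x) ^ 2) *
              ∑ y ∈ S', 1 / ((A : ℝ) ^ 3 + y) ^ 2)
            ≤ c30 / (A : ℝ) ^ 48 * (2 / (A : ℝ) ^ 3 * (2 / (A : ℝ) ^ 3)) := by
              gcongr
          _ = pj A := by
              unfold pj
              field_simp
              ring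

end Pool.Agent.Helper83.ConfDim
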