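import Pool.Agent.Helper83.ConfDim.Ev2

open MeasureTheory ProbabilityTheory Filter
open scoped ENNReal NNReal Topology

namespace Pool.Agent.Helper83.ConfDim

section meas
variable {Ω : Type*} {m : MeasurableSpace Ω} {n : ℕ} {γ : ℝ≥0 → Ω → EuclideanSpace ℝ (Fin n)}
  {A E : ℕ} {g V W U : ℝ≥0} {rr : ℝ}

lemma meas_close2 (hm : ∀ s t, U ≤ s → s ≤ W → U ≤ t → t ≤ W →
    Measurable[m] fun ω => γ s ω - γ t ω) {k k' : ℕ}
    (hk0 : U ≤ k * g) (hk : k * g ≤ W) (hk0' : U ≤ k' * g) (hk' : k' * g ≤ W) :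
    MeasurableSet[m] {ω | Close g rr (fun v => γ v ω) k k'} := by
  have h1 : Measurable[m] fun ω => ‖γ (k' * g) ω - γ (k * g) ω‖ := (hm _ _ hk0' hk' hk0 hk).norm
  exact h1 measurableSet_Iic

lemma meas_jump2 (hm : ∀ s t, U ≤ s → s ≤ W → U ≤ t → t ≤ W →
    Measurable[m] fun ω => γ s ω - γ t ω) {m0 b : ℕ}
    (hb : b ≤ m0 + 4 * A ^ (E + 1)) (hb0 : m0 ≤ b)
    (hU : U ≤ m0 * g)
    (hW : (m0 + 4 * A ^ (E + 1) : ℕ) * g ≤ W) :
    MeasurableSet[m] {ω | Jump A E g rr (fun v => γ v ω) m0 b} := by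
  refine meas_exists_lt fun k' hk' => meas_exists_lt fun k hk => meas_and_const fun h0 =>
    meas_and_const fun h3 => ?_
  have h1 : (k' : ℝ≥0) ≤ ((m0 + 4 * A ^ (E + 1) : ℕ) : ℝ≥0) := by
    exact_mod_cast Nat.lt_succ_iff.1 hk'
  have h2 : (k : ℝ≥0) ≤ ((m0 + 4 * A ^ (E + 1) : ℕ) : ℝ≥0) := by
    exact_mod_cast (Nat.lt_succ_iff.1 hk).trans hb
  have h4 : (m0 : ℝ≥0) ≤ (k : ℝ≥0) := by exact_mod_cast h0
  have h5 : (m0 : ℝ≥0) ≤ (k' : ℝ≥0) := by exact_mod_cast (by omega : m0 ≤ k')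
  exact meas_close2 hm (hU.trans (by gcongr)) (le_trans (by gcongr) hW) (hU.trans (by gcongr))
    (le_trans (by gcongr) hW)

lemma meas_poorW2 (hE : 2 ≤ E) (hm : ∀ s t, U ≤ s → s ≤ W → U ≤ t → t ≤ W →
    Measurable[m] fun ω => γ s ω - γ t ω)
    {m0 : ℕ} (hU : U ≤ m0 * g) (hW : (m0 + 4 * A ^ (E + 1) : ℕ) * g ≤ W) :
    MeasurableSet[m] {ω | PoorW A E g rr (fun v => γ v ω) m0} := by
  unfold PoorW
  refine meas_count fun i hi => meas_jump2 hm (by have := blk_le (m0 := m0) hE hi; omega) ?_ hU hW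
  unfold blk; omega

end meas

variable {Ω : Type*} [mΩ : MeasurableSpace Ω] {n : ℕ} {P : Measure Ω}
  {γ : ℝ≥0 → Ω → EuclideanSpace ℝ (Fin n)} {A E : ℕ} {g V : ℝ≥0} {rr : ℝ}

/-- Markov inequality for counting -/
lemma prob_count {N : ℕ} (hN : 0 < N) {p : ℕ → Ω → Prop}
    (hm : ∀ k < N, MeasurableSet {ω | p k ω}) {c : ℝ} (hc : 0 ≤ c)
    (h : ∀ k < N, P {ω | p k ω} ≤ ENNReal.ofReal c) :
    P {ω | N ≤ 2 * (@Finset.filter ℕ (fun k => p k ω)
      (fun _ => Classical.propDecidable _) (Finset.range N)).card} ≤ ENNReal.ofReal (2 * c) := by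
  classical
  set f : Ω → ℝ≥0∞ := fun ω => ∑ k ∈ Finset.range N, {ω | p k ω}.indicator (fun _ => 1) ω with hf
  have h1 : ∀ ω, ((@Finset.filter ℕ (fun k => p k ω) (fun _ => Classical.propDecidable _)
      (Finset.range N)).card : ℝ≥0∞) = f ω := by
    intro ω
    rw [Finset.card_filter]
    push_cast
    refine Finset.sum_congr rfl fun k _ => ?_
    simp only [Set.indicator_apply, Set.mem_ofPred_eq]
  have hfm : Measurable f := Finset.measurable_fun_sum _ fun k hk =>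
    measurable_const.indicator (hm k (Finset.mem_range.1 hk))
  have h2 : ∫⁻ ω, f ω ∂P ≤ N * ENNReal.ofReal c := by
    rw [hf, lintegral_finsetSum _ fun k hk =>
      measurable_const.indicator (hm k (Finset.mem_range.1 hk))]
    calc ∑ k ∈ Finset.range N, ∫⁻ ω, {ω | p k ω}.indicator (fun _ => (1 : ℝ≥0∞)) ω ∂P
        ≤ ∑ _k ∈ Finset.range N, ENNReal.ofReal c := by
          refine Finset.sum_le_sum fun k hk => ?_
          rw [lintegral_indicator (hm k (Finset.mem_range.1 hk)), setLIntegral_one]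
          exact h k (Finset.mem_range.1 hk)
      _ = N * ENNReal.ofReal c := by simp
  have h3 : {ω | N ≤ 2 * (@Finset.filter ℕ (fun k => p k ω)
      (fun _ => Classical.propDecidable _) (Finset.range N)).card} ⊆ {ω | (N : ℝ≥0∞) ≤ 2 * f ω} := by
    intro ω hω
    rw [Set.mem_ofPred_eq] at hω ⊢
    rw [← h1 ω]
    exact_mod_cast hω
  have h4 := mul_meas_ge_le_lintegral₀ (μ := P) (hfm.const_mul 2).aemeasurable (N : ℝ≥0∞)
  have h5 : ∫⁻ ω, 2 * f ω ∂P = 2 * ∫⁻ ω, f ω ∂P := lintegral_const_mul _ hfm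
  rw [h5] at h4
  have hN0 : (N : ℝ≥0∞) ≠ 0 := by exact_mod_cast hN.ne'
  have hN1 : (N : ℝ≥0∞) ≠ ∞ := ENNReal.natCast_ne_top N
  refine (measure_mono h3).trans ?_
  have h6 : (N : ℝ≥0∞) * P {ω | (N : ℝ≥0∞) ≤ 2 * f ω} ≤ N * ENNReal.ofReal (2 * c) := by
    refine h4.trans ((mul_le_mul_right h2 2).trans (le_of_eq ?_))
    rw [ENNReal.ofReal_mul (by norm_num : (0 : ℝ) ≤ 2)]
    simp only [ENNReal.ofReal_ofNat]
    ring
  exact (ENNReal.mul_le_mul_iff_right hN0 hN1).1 h6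

lemma prob_poorW (hγ : Side n P V γ) (hA : 2 ≤ A) (hE : 2 ≤ E) (hrr : 0 < rr)
    (hg : rr ^ 2 = A * g) {m0 : ℕ} (hV : (m0 + 4 * A ^ (E + 1) : ℕ) * g ≤ V) :
    P {ω | PoorW A E g rr (fun v => γ v ω) m0} ≤ ENNReal.ofReal (2 * pj A) := by
  unfold PoorW
  refine prob_count (by positivity) (fun i hi => ?_) (pj_nonneg A) fun i hi => ?_
  · exact meas_jump (W := V) (fun s t _ _ => (hγ.meas s).sub (hγ.meas t))
      (by have := blk_le (m0 := m0) hE hi; omega) hV
  · exact prob_jump hγ hA hrr hg (by unfold blk; omega) hV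

lemma prob_poor_inter [IsProbabilityMeasure P] (hγ : Side n P V γ) (hA : 2 ≤ A) (hE : 2 ≤ E)
    (hrr : 0 < rr)
    (hg : rr ^ 2 = A * g) {q : ℕ} (hV : (q + 1 : ℕ) * (A ^ (2 * E) * g) ≤ V) (S : Finset ℕ)
    (hS : ∀ c ∈ S, c < Nw A E) :
    P {ω | ∀ c ∈ S, PoorW A E g rr (fun v => γ v ω) (win A E q c)} ≤
      ENNReal.ofReal (2 * pj A) ^ S.card := by
  induction S using Finset.induction_on_max with
  | empty => simp
  | insert c S hmax ih =>
    have hc : c < Nw A E := hS c (Finset.mem_insert_self c S)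
    have ih' := ih fun c' hc' => hS c' (Finset.mem_insert_of_mem hc')
    have hnot : c ∉ S := fun h => lt_irrefl _ (hmax c h)
    rw [Finset.card_insert_of_notMem hnot, pow_succ]
    have hwin := win_le hE (q := q) hc
    have hW : ((win A E q c + 4 * A ^ (E + 1) : ℕ) : ℝ≥0) * g ≤ V := by
      refine le_trans ?_ hV
      rw [← mul_assoc]
      gcongr
      exact_mod_cast hwin
    set u : ℝ≥0 := win A E q c * g with hu
    set v : ℝ≥0 := ((win A E q c + 4 * A ^ (E + 1) : ℕ) : ℝ≥0) * g with hv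
    have huv : u ≤ v := by
      rw [hu, hv]; gcongr; omega
    have hind := indep_mIn_mOut hγ.meas hγ.indep huv
    have h1 : MeasurableSet[mIn γ u v] {ω | PoorW A E g rr (fun v => γ v ω) (win A E q c)} :=
      meas_poorW2 hE (U := u) (W := v) (fun s t hs1 hs2 ht1 ht2 => meas_in hs1 hs2 ht1 ht2)
        le_rfl le_rfl
    have h2 : MeasurableSet[mOut γ u v]
        {ω | ∀ c' ∈ S, PoorW A E g rr (fun v => γ v ω) (win A E q c')} := by
      have e1 : {ω | ∀ c' ∈ S, PoorW A E g rr (fun v => γ v ω) (win A E q c')} =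
          ⋂ c' ∈ S, {ω | PoorW A E g rr (fun v => γ v ω) (win A E q c')} := by
        ext ω; simp
      rw [e1]
      refine MeasurableSet.biInter (Finset.countable_toSet _) fun c' hc' => ?_
      refine meas_poorW hE (W := u) (fun s t hs ht => meas_out_minus hs ht) ?_
      have h3 : win A E q c' + 4 * A ^ (E + 1) ≤ win A E q c := by
        have h4 : c' < c := hmax c' hc'
        unfold win
        have h5 : (c' + 1) * (4 * A ^ (E + 1)) ≤ c * (4 * A ^ (E + 1)) :=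
          Nat.mul_le_mul_right _ h4
        nlinarith
      rw [hu]
      gcongr
    have h3 : {ω | ∀ c' ∈ insert c S, PoorW A E g rr (fun v => γ v ω) (win A E q c')} =
        {ω | PoorW A E g rr (fun v => γ v ω) (win A E q c)} ∩
        {ω | ∀ c' ∈ S, PoorW A E g rr (fun v => γ v ω) (win A E q c')} := by
      ext ω
      simp only [Set.mem_ofPred_eq, Set.mem_inter_iff, Finset.mem_insert, forall_eq_or_imp]
    rw [h3, (ProbabilityTheory.Indep_iff _ _ _).1 hind _ _ h1 h2, mul_comm]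
    exact mul_le_mul' ih' (prob_poorW hγ hA hE hrr hg hW)

lemma prob_poorJ [IsProbabilityMeasure P] (hγ : Side n P V γ) (hA : 2 ≤ A) (hE : 2 ≤ E)
    (hrr : 0 < rr)
    (hg : rr ^ 2 = A * g) (hpj : 2 * pj A ≤ 1 / 64) {q : ℕ}
    (hV : (q + 1 : ℕ) * (A ^ (2 * E) * g) ≤ V) :
    P {ω | PoorJ A E g rr (fun v => γ v ω) q} ≤ ENNReal.ofReal ((1 / 4) ^ Nw A E) := by
  classical
  set F : Finset (Finset ℕ) := (Finset.range (Nw A E)).powerset.filter
    fun S => Nw A E ≤ 2 * S.card with hF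
  have hsub : {ω | PoorJ A E g rr (fun v => γ v ω) q} ⊆ ⋃ S ∈ F,
      {ω | ∀ c ∈ S, PoorW A E g rr (fun v => γ v ω) (win A E q c)} := by
    intro ω hω
    rw [Set.mem_ofPred_eq] at hω
    unfold PoorJ at hω
    simp only [Set.mem_iUnion, exists_prop]
    refine ⟨(Finset.range (Nw A E)).filter fun c => PoorW A E g rr (fun v => γ v ω) (win A E q c),
      ?_, ?_⟩
    · rw [hF, Finset.mem_filter, Finset.mem_powerset]
      exact ⟨Finset.filter_subset _ _, hω⟩
    · rw [Set.mem_ofPred_eq]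
      intro c hc
      exact (Finset.mem_filter.1 hc).2
  refine (measure_mono hsub).trans ((measure_biUnion_finset_le _ _).trans ?_)
  have h1 : ∀ S ∈ F, P {ω | ∀ c ∈ S, PoorW A E g rr (fun v => γ v ω) (win A E q c)} ≤
      ENNReal.ofReal ((1 / 8) ^ Nw A E) := by
    intro S hS
    rw [hF, Finset.mem_filter, Finset.mem_powerset] at hS
    refine (prob_poor_inter hγ hA hE hrr hg hV S fun c hc => Finset.mem_range.1 (hS.1 hc)).trans ?_
    rw [← ENNReal.ofReal_pow (by have := pj_nonneg A; positivity)]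
    apply ENNReal.ofReal_le_ofReal
    calc (2 * pj A) ^ S.card ≤ (1 / 64) ^ S.card := by
          have := pj_nonneg A
          gcongr
      _ = (1 / 8) ^ (2 * S.card) := by rw [pow_mul]; norm_num
      _ ≤ (1 / 8) ^ Nw A E := pow_le_pow_of_le_one (by norm_num) (by norm_num) hS.2
  calc ∑ S ∈ F, P {ω | ∀ c ∈ S, PoorW A E g rr (fun v => γ v ω) (win A E q c)}
      ≤ ∑ _S ∈ F, ENNReal.ofReal ((1 / 8) ^ Nw A E) := Finset.sum_le_sum h1
    _ = F.card * ENNReal.ofReal ((1 / 8) ^ Nw A E) := by rw [Finset.sum_const, nsmul_eq_mul]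
    _ ≤ ENNReal.ofReal (2 ^ Nw A E) * ENNReal.ofReal ((1 / 8) ^ Nw A E) := by
        gcongr
        rw [← ENNReal.ofReal_natCast]
        apply ENNReal.ofReal_le_ofReal
        have h2 : F.card ≤ 2 ^ Nw A E := by
          refine (Finset.card_filter_le _ _).trans ?_
          rw [Finset.card_powerset, Finset.card_range]
        exact_mod_cast h2
    _ = ENNReal.ofReal ((1 / 4) ^ Nw A E) := by
        rw [← ENNReal.ofReal_mul (by positivity), ← mul_pow]
        norm_num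

lemma prob_poor [IsProbabilityMeasure P] (hγ : Side n P V γ) (hA : 2 ≤ A) (hE : 2 ≤ E)
    (hrr : 0 < rr) (hg : rr ^ 2 = A * g) (hpj : 2 * pj A ≤ 1 / 64) :
    P {ω | Poor A E g rr V (fun v => γ v ω)} ≤
      ENNReal.ofReal ((A : ℝ) ^ (E + 1) * (1 / 4) ^ Nw A E) := by
  have h1 := prob_exists_lt (P := P) (N := A ^ (E + 1))
    (p := fun q ω => (q + 1 : ℕ) * (A ^ (2 * E) * g) ≤ V ∧ PoorJ A E g rr (fun v => γ v ω) q)
    (c := (1 / 4) ^ Nw A E) fun q _ => prob_and_const fun hV => prob_poorJ hγ hA hE hrr hg hpj hV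
  have h2 : ((A ^ (E + 1) : ℕ) : ℝ) = (A : ℝ) ^ (E + 1) := by push_cast; rfl
  rw [h2] at h1
  exact h1

end Pool.Agent.Helper83.ConfDim
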