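import Pool.Agent.Helper83.ConfDim.Ev3

open MeasureTheory ProbabilityTheory Filter
open scoped ENNReal NNReal Topology

namespace Pool.Agent.Helper83.ConfDim

/-- near intersection of the two sides -/
def Lrx {F : Type*} [NormedAddCommGroup F] (A E : ℕ) (g : ℝ≥0) (rr : ℝ) (V V' : ℝ≥0)
    (γ γ' : ℝ≥0 → F) : Prop :=
  ∃ m < A ^ (3 * E + 1) + 1, ∃ m' < A ^ (3 * E + 1) + 1, A ^ (E + 1) ≤ m + m' ∧ m * g ≤ V ∧
    m' * g ≤ V' ∧ ‖γ (m * g) - γ' (m' * g)‖ ≤ 6 * rr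

lemma meas_lrx {Ω : Type*} {m : MeasurableSpace Ω} {n : ℕ}
    {γ γ' : ℝ≥0 → Ω → EuclideanSpace ℝ (Fin n)} {A E : ℕ} {g V V' W : ℝ≥0} {rr : ℝ}
    (hm : ∀ s ≤ W, Measurable[m] (γ s)) (hm' : ∀ s ≤ W, Measurable[m] (γ' s))
    (hW : A ^ (3 * E + 1) * g ≤ W) :
    MeasurableSet[m] {ω | Lrx A E g rr V V' (fun v => γ v ω) (fun v => γ' v ω)} := by
  have hle : ∀ k < A ^ (3 * E + 1) + 1, (k : ℝ≥0) * g ≤ W := by
    intro k hk
    refine le_trans ?_ hW
    have h1 : (k : ℝ≥0) ≤ ((A ^ (3 * E + 1) : ℕ) : ℝ≥0) := by exact_mod_cast Nat.lt_succ_iff.1 hk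
    push_cast at h1
    gcongr
  refine meas_exists_lt fun k hk => meas_exists_lt fun k' hk' => meas_and_const fun _ =>
    meas_and_const fun _ => meas_and_const fun _ => ?_
  have h1 : Measurable[m] fun ω => ‖γ (k * g) ω - γ' (k' * g) ω‖ :=
    ((hm _ (hle k hk)).sub (hm' _ (hle k' hk'))).norm
  exact h1 measurableSet_Iic

variable {Ω : Type*} [mΩ : MeasurableSpace Ω] {n : ℕ} {P : Measure Ω}
  {B : ℝ≥0 → Ω → EuclideanSpace ℝ (Fin n)} {A E : ℕ} {g V : ℝ≥0} {rr : ℝ}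

omit mΩ in
lemma pls_zero (B : ℝ≥0 → Ω → EuclideanSpace ℝ (Fin n)) (c : ℝ≥0) (ω : Ω) : pls B c 0 ω = 0 := by
  unfold pls; rw [add_zero, sub_self]

omit mΩ in
lemma mns_zero (B : ℝ≥0 → Ω → EuclideanSpace ℝ (Fin n)) (c : ℝ≥0) (ω : Ω) : mns B c 0 ω = 0 := by
  unfold mns; rw [tsub_zero, sub_self]

/-- small ball estimate from the origin of a side -/
lemma side_ball0 {γ : ℝ≥0 → Ω → EuclideanSpace ℝ (Fin n)} (hγ : Side n P V γ)
    (h0 : ∀ ω, γ 0 ω = 0) (hrr : 0 < rr) (hg : rr ^ 2 = A * g) (hA : 1 ≤ A) {m : ℕ}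
    (hm : A ^ (E + 1) ≤ 2 * m) (hV : m * g ≤ V) (y : EuclideanSpace ℝ (Fin n)) :
    P {ω | ‖γ (m * g) ω + y‖ ≤ 6 * rr} ≤ ENNReal.ofReal ((72 / (A : ℝ) ^ E) ^ 30) := by
  have hA0 : (0 : ℝ) < A := by exact_mod_cast hA
  have hg0 := g_pos hrr hg
  have hg0' : 0 < g := by exact_mod_cast hg0
  have hm0 : 0 < m := by
    have : 0 < A ^ (E + 1) := by positivity
    omega
  have h1 := hγ.ball (s := 0) (t := m * g) (by positivity) hV (-y) (R := 6 * rr) (by positivity)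
  have h2 : ∀ ω, γ (m * g) ω - γ 0 ω - -y = γ (m * g) ω + y := fun ω => by
    rw [h0 ω]; abel
  simp only [h2] at h1
  refine h1.trans (ENNReal.ofReal_le_ofReal ?_)
  have h3 : (A : ℝ) ^ (E + 1) ≤ 2 * m := by exact_mod_cast hm
  have h4 : (6 * rr) ^ 2 / ((m * g : ℝ≥0) - ((0 : ℝ≥0) : ℝ)) ≤ 72 / (A : ℝ) ^ E := by
    push_cast
    have hm0' : (0 : ℝ) < m := by exact_mod_cast hm0
    rw [sub_zero, div_le_div_iff₀ (by positivity) (by positivity), mul_pow, hg]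
    rw [pow_succ] at h3
    have h5 : (A : ℝ) ^ E * A * g ≤ 2 * m * g := by gcongr
    nlinarith
  have h6 : 0 ≤ (6 * rr) ^ 2 / ((m * g : ℝ≥0) - ((0 : ℝ≥0) : ℝ)) := by
    push_cast
    rw [sub_zero]
    positivity
  gcongr

lemma prob_lrx [IsProbabilityMeasure P] (hB : IsBrownian n P B) (hn : 60 ≤ n) (hA : 1 ≤ A)
    (hrr : 0 < rr) (hg : rr ^ 2 = A * g) {c c' : ℝ≥0} (hcc : c' ≤ c) :
    P {ω | Lrx A E g rr V c' (fun v => pls B c v ω) (fun v => mns B c' v ω)} ≤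
      ENNReal.ofReal (((A : ℝ) ^ (3 * E + 1) + 1) ^ 2 * (72 / (A : ℝ) ^ E) ^ 30) := by
  have hA0 : (0 : ℝ) < A := by exact_mod_cast hA
  have hpair : ∀ m m' : ℕ, A ^ (E + 1) ≤ m + m' → m * g ≤ V → m' * g ≤ c' →
      P {ω | ‖pls B c (m * g) ω - mns B c' (m' * g) ω‖ ≤ 6 * rr} ≤
        ENNReal.ofReal ((72 / (A : ℝ) ^ E) ^ 30) := by
    intro m m' hmm hV hV'
    have hind := indep_mIn_mOut hB.measurable hB.indep (zero_le : (0 : ℝ≥0) ≤ c)
    have hp : Measurable[mOut B 0 c] (pls B c (m * g)) := by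
      unfold pls
      exact meas_out_plus le_self_add le_rfl
    have hq : Measurable[mIn B 0 c] fun ω => -mns B c' (m' * g) ω := by
      have h1 : (fun ω => -mns B c' (m' * g) ω) = fun ω => B c' ω - B (c' - m' * g) ω := by
        funext ω; unfold mns; abel
      rw [h1]
      exact meas_in zero_le hcc zero_le (tsub_le_self.trans hcc)
    have hset : ∀ ω, pls B c (m * g) ω - mns B c' (m' * g) ω =
        pls B c (m * g) ω + -mns B c' (m' * g) ω := fun ω => sub_eq_add_neg _ _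
    have hset' : ∀ ω, pls B c (m * g) ω - mns B c' (m' * g) ω =
        -mns B c' (m' * g) ω + pls B c (m * g) ω := fun ω => by abel
    have hms : MeasurableSet {ω | ‖pls B c (m * g) ω - mns B c' (m' * g) ω‖ ≤ 6 * rr} := by
      have h1 : Measurable fun ω => ‖pls B c (m * g) ω - mns B c' (m' * g) ω‖ :=
        ((side_pls hB hn c V).meas _ |>.sub ((side_mns hB hn c').meas _)).norm
      exact h1 measurableSet_Iic
    rcases le_total m' m with h | h
    · have hK := K2 hind (mIn_le hB.measurable 0 c) (mOut_le hB.measurable 0 c) hp hq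
        (G := fun _ => 1) (@measurable_const _ _ _ (mIn B 0 c) (1 : ℝ≥0∞)) (R := 6 * rr)
        (c := ENNReal.ofReal ((72 / (A : ℝ) ^ E) ^ 30)) (fun y =>
          side_ball0 (side_pls hB hn c V) (pls_zero B c) hrr hg hA (by omega) hV y)
      simp only [mul_one, ← hset] at hK
      rw [lintegral_indicator hms, setLIntegral_one] at hK
      simpa using hK
    · have hK := K2 hind.symm (mOut_le hB.measurable 0 c) (mIn_le hB.measurable 0 c) hq hp
        (G := fun _ => 1) (@measurable_const _ _ _ (mOut B 0 c) (1 : ℝ≥0∞)) (R := 6 * rr)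
        (c := ENNReal.ofReal ((72 / (A : ℝ) ^ E) ^ 30)) (fun y => by
          have h1 := side_ball0 (side_mns hB hn c') (mns_zero B c') hrr hg hA
            (E := E) (m := m') (by omega) hV' (-y)
          have h2 : ∀ ω, ‖-mns B c' (m' * g) ω + y‖ = ‖mns B c' (m' * g) ω + -y‖ := fun ω => by
            rw [← norm_neg]; congr 1; abel
          simp only [h2]
          exact h1)
      simp only [mul_one, ← hset'] at hK
      rw [lintegral_indicator hms, setLIntegral_one] at hK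
      simpa using hK
  have h1 := prob_exists_lt (P := P) (N := A ^ (3 * E + 1) + 1)
    (p := fun m ω => ∃ m' < A ^ (3 * E + 1) + 1, A ^ (E + 1) ≤ m + m' ∧ m * g ≤ V ∧
      m' * g ≤ c' ∧ ‖pls B c (m * g) ω - mns B c' (m' * g) ω‖ ≤ 6 * rr)
    (c := ((A : ℝ) ^ (3 * E + 1) + 1) * (72 / (A : ℝ) ^ E) ^ 30) fun m _ => by
      have h2 := prob_exists_lt (P := P) (N := A ^ (3 * E + 1) + 1)
        (p := fun m' ω => A ^ (E + 1) ≤ m + m' ∧ m * g ≤ V ∧
          m' * g ≤ c' ∧ ‖pls B c (m * g) ω - mns B c' (m' * g) ω‖ ≤ 6 * rr)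
        (c := (72 / (A : ℝ) ^ E) ^ 30) fun m' _ => prob_and_const fun h1 =>
          prob_and_const fun h2 => prob_and_const fun h3 => hpair m m' h1 h2 h3
      refine h2.trans (le_of_eq ?_)
      push_cast
      rfl
  refine h1.trans (le_of_eq ?_)
  congr 1
  push_cast
  ring

end Pool.Agent.Helper83.ConfDim
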