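import Pool.Agent.Helper83.ConfDim.Geo1

open MeasureTheory ProbabilityTheory
open scoped ENNReal NNReal

namespace Pool.Agent.Helper83.ConfDim

variable {X : Type*} [MetricSpace X] {a N : ℕ}

/-- scale of a pair -/
noncomputable def sc (a : ℕ) (x y : X) : ℕ := sInf {k : ℕ | al a ^ (k + 1) < dist x y}

lemma sc_comm (x y : X) : sc a x y = sc a y x := by unfold sc; rw [dist_comm]

lemma Adm.exists_sc (h : Adm a N) {x y : X} (hxy : x ≠ y) : ∃ k : ℕ, al a ^ (k + 1) < dist x y := by
  obtain ⟨k, hk⟩ := exists_pow_lt_of_lt_one (dist_pos.2 hxy) h.al_lt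
  refine ⟨k, lt_of_le_of_lt ?_ hk⟩
  exact pow_le_pow_of_le_one h.al_pos.le h.al_lt.le (Nat.le_succ k)

lemma Adm.sc_lt (h : Adm a N) {x y : X} (hxy : x ≠ y) : al a ^ (sc a x y + 1) < dist x y := by
  have h1 : sc a x y ∈ {k : ℕ | al a ^ (k + 1) < dist x y} := Nat.sInf_mem (h.exists_sc hxy)
  exact h1

lemma sc_le {k : ℕ} {x y : X} (hk : al a ^ (k + 1) < dist x y) : sc a x y ≤ k := Nat.sInf_le hk

lemma dist_le_sc {x y : X} (h0 : sc a x y ≠ 0) : dist x y ≤ al a ^ sc a x y := by
  by_contra hcon
  push Not at hcon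
  have h1 : sc a x y - 1 + 1 = sc a x y := by omega
  have h2 : sc a x y ≤ sc a x y - 1 := sc_le (by rw [h1]; exact hcon)
  omega

open Classical in
/-- weight of a pair -/
noncomputable def wg (a N : ℕ) (x y : X) : ℝ :=
  if x = y then 0 else Real.exp (-Ue a N (sc a x y) x) + Real.exp (-Ue a N (sc a x y) y)

lemma wg_self (x : X) : wg a N x x = 0 := by simp [wg]

lemma wg_of_ne {x y : X} (h : x ≠ y) :
    wg a N x y = Real.exp (-Ue a N (sc a x y) x) + Real.exp (-Ue a N (sc a x y) y) := by
  simp [wg, h]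

lemma wg_comm (x y : X) : wg a N x y = wg a N y x := by
  by_cases h : x = y
  · rw [h]
  · rw [wg_of_ne h, wg_of_ne (Ne.symm h), sc_comm, add_comm]

lemma wg_nonneg (x y : X) : 0 ≤ wg a N x y := by
  by_cases h : x = y
  · rw [h, wg_self]
  · rw [wg_of_ne h]; positivity

lemma Adm.wg_ge (h : Adm a N) {x y : X} {k : ℕ} (hxy : x ≠ y) (hk : sc a x y ≤ k) :
    Real.exp (-Ue a N k x) ≤ wg a N x y := by
  rw [wg_of_ne hxy]
  have h1 : Real.exp (-Ue a N k x) ≤ Real.exp (-Ue a N (sc a x y) x) := by
    apply Real.exp_le_exp.2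
    have := h.Ue_mono hk x
    linarith
  have h2 := Real.exp_pos (-Ue a N (sc a x y) y)
  linarith

/-- property `P(k)` of the chain lemma -/
def PK (a N : ℕ) (z : ℕ → X) (k : ℕ) : Prop :=
  ∀ i j : ℕ, i ≤ j → al a ^ k ≤ dist (z i) (z j) →
    (1 / 2) * Real.exp (-Ue a N k (z i)) ≤ ∑ l ∈ Finset.Ico i j, wg a N (z l) (z (l + 1))

/-- greedy coarsening of a chain -/
lemma Adm.greedy (h : Adm a N) (z : ℕ → X) {k i j : ℕ} (hP : PK a N z (k + 1))
    (hstep : ∀ l, i ≤ l → l < j → dist (z l) (z (l + 1)) ≤ al a ^ (k + 1)) :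
    ∀ (n p : ℕ), i ≤ p → p ≤ j → j - p ≤ n → ∃ (Q : ℕ) (f : ℕ → ℕ), f 0 = p ∧
      (∀ q < Q, dist (z (f q)) (z (f (q + 1))) ≤ 2 * al a ^ (k + 1)) ∧
      dist (z (f Q)) (z j) < al a ^ (k + 1) ∧ (∀ q < Q, i ≤ f q ∧ f q < j) ∧
      (1 / 2) * ∑ q ∈ Finset.range Q, Real.exp (-Ue a N (k + 1) (z (f q))) ≤
        ∑ l ∈ Finset.Ico p j, wg a N (z l) (z (l + 1)) := by
  have hal := h.al_pos
  intro n
  induction n with
  | zero =>
    intro p hip hpj hn
    have hp : p = j := by omega
    subst hp
    refine ⟨0, fun _ => p, rfl, fun q hq => absurd hq (Nat.not_lt_zero q), ?_,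
      fun q hq => absurd hq (Nat.not_lt_zero q), by simp⟩
    rw [dist_self]; positivity
  | succ n ih =>
    intro p hip hpj hn
    by_cases hd : dist (z p) (z j) < al a ^ (k + 1)
    · refine ⟨0, fun _ => p, rfl, fun q hq => absurd hq (Nat.not_lt_zero q), hd,
        fun q hq => absurd hq (Nat.not_lt_zero q), ?_⟩
      simp only [Finset.range_zero, Finset.sum_empty, mul_zero]
      exact Finset.sum_nonneg fun l _ => wg_nonneg _ _
    · push Not at hd
      classical
      have hex : ∃ l, p ≤ l ∧ al a ^ (k + 1) ≤ dist (z p) (z l) := ⟨j, hpj, hd⟩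
      set l := Nat.find hex with hl
      obtain ⟨hpl, hdl⟩ := Nat.find_spec hex
      rw [← hl] at hpl hdl
      have hlj : l ≤ j := Nat.find_min' hex ⟨hpj, hd⟩
      have hlp : l ≠ p := by
        intro he
        rw [he, dist_self] at hdl
        have : 0 < al a ^ (k + 1) := by positivity
        linarith
      have hpl' : p < l := lt_of_le_of_ne hpl (Ne.symm hlp)
      have hprev : dist (z p) (z (l - 1)) < al a ^ (k + 1) := by
        by_contra hcon
        push Not at hcon
        have := Nat.find_min' hex ⟨(by omega : p ≤ l - 1), hcon⟩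
        omega
      have hst : dist (z (l - 1)) (z l) ≤ al a ^ (k + 1) := by
        have := hstep (l - 1) (by omega) (by omega)
        rwa [show l - 1 + 1 = l by omega] at this
      have hdist : dist (z p) (z l) ≤ 2 * al a ^ (k + 1) := by
        calc dist (z p) (z l) ≤ dist (z p) (z (l - 1)) + dist (z (l - 1)) (z l) :=
              dist_triangle _ _ _
          _ ≤ _ := by linarith
      obtain ⟨Q, f, hf0, hfs, hfe, hfr, hfsum⟩ := ih l (by omega) hlj (by omega)
      refine ⟨Q + 1, fun q => if q = 0 then p else f (q - 1), by simp, ?_, ?_, ?_, ?_⟩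
      · intro q hq
        rcases Nat.eq_zero_or_pos q with h0 | h0
        · subst h0
          simp only [if_true, zero_add, one_ne_zero, if_false, Nat.sub_self, hf0]
          exact hdist
        · have h1 : q ≠ 0 := by omega
          have h2 : q + 1 ≠ 0 := by omega
          simp only [h1, h2, if_false]
          have h3 := hfs (q - 1) (by omega)
          rwa [show q - 1 + 1 = q + 1 - 1 by omega] at h3
      · simp only [Nat.succ_ne_zero, if_false, Nat.add_sub_cancel]
        exact hfe
      · intro q hq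
        rcases Nat.eq_zero_or_pos q with h0 | h0
        · subst h0
          simp only [if_true]
          exact ⟨hip, by omega⟩
        · have h1 : q ≠ 0 := by omega
          simp only [h1, if_false]
          exact hfr (q - 1) (by omega)
      · rw [Finset.sum_range_succ']
        simp only [Nat.succ_ne_zero, if_false, if_true, Nat.add_sub_cancel]
        rw [← Finset.sum_Ico_consecutive _ hpl hlj, mul_add, add_comm]
        exact add_le_add (hP p l hpl hdl) hfsum

/-- inductive step of the chain lemma -/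
lemma Adm.PK_step (h : Adm a N) (z : ℕ → X) (k : ℕ) (hP : PK a N z (k + 1)) : PK a N z k := by
  have hal := h.al_pos
  intro i j0 hij0 hd0
  classical
  have hex : ∃ l, i ≤ l ∧ al a ^ k ≤ dist (z i) (z l) := ⟨j0, hij0, hd0⟩
  set j := Nat.find hex with hj
  obtain ⟨hij, hd⟩ := Nat.find_spec hex
  rw [← hj] at hij hd
  have hjj0 : j ≤ j0 := Nat.find_min' hex ⟨hij0, hd0⟩
  have hmin : ∀ l, i ≤ l → l < j → dist (z i) (z l) < al a ^ k := by
    intro l h1 h2
    by_contra hcon
    push Not at hcon
    have := Nat.find_min' hex ⟨h1, hcon⟩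
    omega
  have hsub : ∑ l ∈ Finset.Ico i j, wg a N (z l) (z (l + 1)) ≤
      ∑ l ∈ Finset.Ico i j0, wg a N (z l) (z (l + 1)) :=
    Finset.sum_le_sum_of_subset_of_nonneg (Finset.Ico_subset_Ico_right hjj0) fun _ _ _ =>
      wg_nonneg _ _
  refine le_trans ?_ hsub
  by_cases hbig : ∃ l, i ≤ l ∧ l < j ∧ al a ^ (k + 1) < dist (z l) (z (l + 1))
  · obtain ⟨l, hil, hlj, hl⟩ := hbig
    have hne : z l ≠ z (l + 1) := by
      intro he; rw [he, dist_self] at hl
      have : 0 < al a ^ (k + 1) := by positivity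
      linarith
    have h1 : wg a N (z l) (z (l + 1)) ≤ ∑ l ∈ Finset.Ico i j, wg a N (z l) (z (l + 1)) :=
      Finset.single_le_sum (f := fun l => wg a N (z l) (z (l + 1))) (fun _ _ => wg_nonneg _ _)
        (Finset.mem_Ico.2 ⟨hil, hlj⟩)
    have h2 := h.wg_ge hne (sc_le hl)
    have h3 := h.exp_Ue_ge (k := k) (x := z i) (y := z l) (hmin l hil hlj).le
    linarith
  · push Not at hbig
    obtain ⟨Q, f, hf0, hfs, hfe, hfr, hfsum⟩ := h.greedy z hP (i := i) (j := j)
      (fun l h1 h2 => hbig l h1 h2) (j - i) i le_rfl hij le_rfl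
    refine le_trans ?_ hfsum
    have h1 := h.admiss k (fun q => z (f q)) Q hfs (by
      have h2 : dist (z i) (z j) ≤ dist (z (f 0)) (z (f Q)) + dist (z (f Q)) (z j) := by
        rw [hf0]; exact dist_triangle _ _ _
      have h3 : al a ^ (k + 1) = al a * al a ^ k := by rw [pow_succ]; ring
      rw [h3] at hfe
      show (1 - al a) * al a ^ k ≤ dist (z (f 0)) (z (f Q))
      linarith) (by
      intro q hq
      have h2 := hmin (f q) (hfr q hq).1 (hfr q hq).2
      show dist (z (f 0)) (z (f q)) ≤ al a ^ k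
      rw [hf0]; exact h2.le)
    have h2 : Real.exp (-Ue a N k (z i)) / 2 * ∑ q ∈ Finset.range Q, Real.exp (-ue a N k (z (f q))) ≤
        ∑ q ∈ Finset.range Q, Real.exp (-Ue a N (k + 1) (z (f q))) := by
      rw [Finset.mul_sum]
      refine Finset.sum_le_sum fun q hq => ?_
      rw [Ue_succ, neg_add, Real.exp_add]
      have h3 := hfr q (Finset.mem_range.1 hq)
      have h4 := h.exp_Ue_ge (k := k) (x := z i) (y := z (f q)) (hmin _ h3.1 h3.2).le
      gcongr
    have h3 : Real.exp (-Ue a N k (z i)) / 2 * 2 ≤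
        Real.exp (-Ue a N k (z i)) / 2 * ∑ q ∈ Finset.range Q, Real.exp (-ue a N k (z (f q))) := by
      gcongr
    linarith

lemma Adm.PK_base (h : Adm a N) (z : ℕ → X) (K : ℕ)
    (hK : ∀ l, z l ≠ z (l + 1) → al a ^ K ≤ dist (z l) (z (l + 1))) {k : ℕ} (hk : K ≤ k) :
    PK a N z k := by
  have hal := h.al_pos
  intro i j hij hd
  classical
  have hex : ∃ l, i ≤ l ∧ z l ≠ z (l + 1) := by
    by_contra hcon
    push Not at hcon
    have h1 : ∀ m, z (i + m) = z i := by
      intro m
      induction m with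
      | zero => rfl
      | succ m ih => rw [← add_assoc, ← hcon (i + m) (by omega), ih]
    have h2 := h1 (j - i)
    rw [show i + (j - i) = j by omega] at h2
    rw [h2, dist_self] at hd
    have : 0 < al a ^ k := by positivity
    linarith
  set l := Nat.find hex with hl
  obtain ⟨hil, hne⟩ := Nat.find_spec hex
  rw [← hl] at hil hne
  have hmin : ∀ m, i ≤ m → m < l → z m = z (m + 1) := by
    intro m h1 h2
    by_contra hcon
    have := Nat.find_min' hex ⟨h1, hcon⟩
    omega
  have heq : ∀ m, i + m ≤ l → z (i + m) = z i := by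
    intro m
    induction m with
    | zero => intro _; rfl
    | succ m ih =>
      intro h1
      rw [← add_assoc, ← hmin (i + m) (by omega) (by omega), ih (by omega)]
  have hzl : z l = z i := by
    have := heq (l - i) (by omega)
    rwa [show i + (l - i) = l by omega] at this
  have hlj : l < j := by
    by_contra hcon
    have h1 := heq (j - i) (by omega)
    rw [show i + (j - i) = j by omega] at h1
    rw [h1, dist_self] at hd
    have : 0 < al a ^ k := by positivity
    linarith
  have h1 : wg a N (z l) (z (l + 1)) ≤ ∑ l ∈ Finset.Ico i j, wg a N (z l) (z (l + 1)) :=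
    Finset.single_le_sum (f := fun l => wg a N (z l) (z (l + 1))) (fun _ _ => wg_nonneg _ _)
      (Finset.mem_Ico.2 ⟨hil, hlj⟩)
  have h2 : sc a (z l) (z (l + 1)) ≤ k := by
    refine sc_le ?_
    have h3 : al a ^ (k + 1) < al a ^ K :=
      pow_lt_pow_right_of_lt_one₀ hal h.al_lt (by omega)
    exact lt_of_lt_of_le h3 (hK l hne)
  have h3 := h.wg_ge hne h2
  rw [hzl] at h3 h1
  have h4 := Real.exp_pos (-Ue a N k (z i))
  linarith

lemma Adm.PK_all (h : Adm a N) (z : ℕ → X) (K : ℕ)
    (hK : ∀ l, z l ≠ z (l + 1) → al a ^ K ≤ dist (z l) (z (l + 1))) : ∀ k, PK a N z k := by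
  have h1 : ∀ n k, K ≤ k + n → PK a N z k := by
    intro n
    induction n with
    | zero => intro k hk; exact h.PK_base z K hK hk
    | succ n ih => intro k hk; exact h.PK_step z k (ih (k + 1) (by omega))
  exact fun k => h1 K k (by omega)

/-- **chain lemma** -/
lemma Adm.chain (h : Adm a N) (z : ℕ → X) (m k : ℕ) (hd : al a ^ k ≤ dist (z 0) (z m)) :
    (1 / 2) * Real.exp (-Ue a N k (z 0)) ≤ ∑ l ∈ Finset.range m, wg a N (z l) (z (l + 1)) := by
  set z' : ℕ → X := fun l => z (min l m) with hz'
  -- a lower bound for the non trivial steps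
  obtain ⟨K, hK⟩ : ∃ K : ℕ, ∀ l < m, z l ≠ z (l + 1) → al a ^ K ≤ dist (z l) (z (l + 1)) := by
    clear hd hz' z'
    induction m with
    | zero => exact ⟨0, fun l hl => absurd hl (Nat.not_lt_zero l)⟩
    | succ m ih =>
      obtain ⟨K, hK⟩ := ih
      by_cases hm : z m = z (m + 1)
      · refine ⟨K, fun l hl hne => ?_⟩
        rcases Nat.lt_succ_iff_lt_or_eq.1 hl with h1 | h1
        · exact hK l h1 hne
        · subst h1; exact absurd hm hne
      · obtain ⟨K', hK'⟩ := exists_pow_lt_of_lt_one (dist_pos.2 hm) h.al_lt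
        refine ⟨max K K', fun l hl hne => ?_⟩
        rcases Nat.lt_succ_iff_lt_or_eq.1 hl with h1 | h1
        · exact (pow_le_pow_of_le_one h.al_pos.le h.al_lt.le (le_max_left _ _)).trans (hK l h1 hne)
        · subst h1
          exact (pow_le_pow_of_le_one h.al_pos.le h.al_lt.le (le_max_right _ _)).trans hK'.le
  have hK' : ∀ l, z' l ≠ z' (l + 1) → al a ^ K ≤ dist (z' l) (z' (l + 1)) := by
    intro l hne
    by_cases hl : l < m
    · have h1 : z' l = z l := by simp only [hz']; rw [min_eq_left hl.le]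
      have h2 : z' (l + 1) = z (l + 1) := by simp only [hz']; rw [min_eq_left hl]
      rw [h1, h2] at hne ⊢
      exact hK l hl hne
    · exfalso
      apply hne
      simp only [hz']
      rw [min_eq_right (not_lt.1 hl), min_eq_right (by omega)]
  have h1 := h.PK_all z' K hK' k 0 m (Nat.zero_le _) (by
    have h2 : z' 0 = z 0 := by simp [hz']
    have h3 : z' m = z m := by simp [hz']
    rw [h2, h3]; exact hd)
  have h2 : z' 0 = z 0 := by simp [hz']
  rw [h2] at h1
  refine h1.trans (le_of_eq ?_)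
  rw [Finset.range_eq_Ico]
  refine Finset.sum_congr rfl fun l hl => ?_
  rw [Finset.mem_Ico] at hl
  have h4 : z' l = z l := by simp only [hz']; rw [min_eq_left hl.2.le]
  have h5 : z' (l + 1) = z (l + 1) := by simp only [hz']; rw [min_eq_left hl.2]
  rw [h4, h5]

/-- costs of chains from `x` to `y` -/
def costs (a N : ℕ) (x y : X) : Set ℝ :=
  {c | ∃ (m : ℕ) (z : ℕ → X), z 0 = x ∧ z m = y ∧
    c = ∑ l ∈ Finset.range m, wg a N (z l) (z (l + 1))}

/-- the new metric -/
noncomputable def th (a N : ℕ) (x y : X) : ℝ := sInf (costs a N x y)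

lemma costs_bdd (x y : X) : BddBelow (costs a N x y) :=
  ⟨0, by
    rintro c ⟨m, z, _, _, rfl⟩
    exact Finset.sum_nonneg fun _ _ => wg_nonneg _ _⟩

lemma wg_mem_costs (x y : X) : wg a N x y ∈ costs a N x y :=
  ⟨1, fun l => if l = 0 then x else y, by simp, by simp, by simp⟩

lemma th_le_wg (x y : X) : th a N x y ≤ wg a N x y := csInf_le (costs_bdd x y) (wg_mem_costs x y)

lemma th_nonneg (x y : X) : 0 ≤ th a N x y := by
  refine le_csInf ⟨_, wg_mem_costs x y⟩ ?_
  rintro c ⟨m, z, _, _, rfl⟩
  exact Finset.sum_nonneg fun _ _ => wg_nonneg _ _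

lemma th_self (x : X) : th a N x x = 0 :=
  le_antisymm ((th_le_wg x x).trans (wg_self x).le) (th_nonneg x x)

lemma costs_comm_aux (x y : X) {c : ℝ} (hc : c ∈ costs a N x y) : c ∈ costs a N y x := by
  obtain ⟨m, z, h0, hm, rfl⟩ := hc
  refine ⟨m, fun l => z (m - l), by simpa using hm, by simpa using h0, ?_⟩
  rw [← Finset.sum_range_reflect]
  refine Finset.sum_congr rfl fun l hl => ?_
  rw [Finset.mem_range] at hl
  rw [wg_comm]
  congr 2 <;> omega

lemma th_comm (x y : X) : th a N x y = th a N y x := by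
  unfold th
  congr 1
  ext c
  exact ⟨costs_comm_aux x y, costs_comm_aux y x⟩

lemma th_triangle (x y w : X) : th a N x w ≤ th a N x y + th a N y w := by
  have h1 : ∀ c ∈ costs a N x y, ∀ c' ∈ costs a N y w, th a N x w ≤ c + c' := by
    rintro c ⟨m, z, h0, hm, rfl⟩ c' ⟨m', z', h0', hm', rfl⟩
    refine csInf_le (costs_bdd x w) ⟨m + m', fun l => if l ≤ m then z l else z' (l - m), ?_, ?_, ?_⟩
    · simp [h0]
    · by_cases hm0 : m' = 0
      · subst hm0
        simp only [add_zero, le_refl, if_true]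
        rw [hm, ← hm', h0']
      · have : ¬ (m + m' ≤ m) := by omega
        simp only [this, if_false, Nat.add_sub_cancel_left, hm']
    · rw [Finset.sum_range_add]
      congr 1
      · refine Finset.sum_congr rfl fun l hl => ?_
        rw [Finset.mem_range] at hl
        have e1 : l ≤ m := hl.le
        have e2 : l + 1 ≤ m := hl
        simp only [e1, e2, if_true]
      · refine Finset.sum_congr rfl fun l hl => ?_
        have e2 : ¬ (m + l + 1 ≤ m) := by omega
        have e3 : m + l + 1 - m = l + 1 := by omega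
        simp only [e2, if_false, e3]
        by_cases hl0 : l = 0
        · subst hl0
          simp only [add_zero, le_refl, if_true]
          rw [hm, h0']
        · have e1 : ¬ (m + l ≤ m) := by omega
          simp only [e1, if_false, Nat.add_sub_cancel_left]
  have h2 : ∀ c ∈ costs a N x y, th a N x w - c ≤ th a N y w := by
    intro c hc
    refine le_csInf ⟨_, wg_mem_costs y w⟩ fun c' hc' => ?_
    have := h1 c hc c' hc'
    linarith
  have h3 : th a N x w - th a N y w ≤ th a N x y := by
    refine le_csInf ⟨_, wg_mem_costs x y⟩ fun c hc => ?_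
    have := h2 c hc
    linarith
  linarith

/-- lower bound of the new metric -/
lemma Adm.th_ge (h : Adm a N) {x y : X} {k : ℕ} (hk : al a ^ k ≤ dist x y) :
    (1 / 2) * Real.exp (-Ue a N k x) ≤ th a N x y := by
  refine le_csInf ⟨_, wg_mem_costs x y⟩ ?_
  rintro c ⟨m, z, h0, hm, rfl⟩
  have := h.chain z m k (by rw [h0, hm]; exact hk)
  rwa [h0] at this

end Pool.Agent.Helper83.ConfDim
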