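import Pool.Agent.Helper83.ConfDim.Geo2

open MeasureTheory ProbabilityTheory Filter
open scoped ENNReal NNReal Topology

namespace Pool.Agent.Helper83.ConfDim

variable {X : Type*} [MetricSpace X] {a N : ℕ}

lemma sc_ge {x y : X} (h : Adm a N) (hxy : x ≠ y) {k : ℕ} (hk : dist x y ≤ al a ^ k) :
    k ≤ sc a x y := by
  have h1 := h.sc_lt hxy
  by_contra hcon
  push Not at hcon
  have h2 : al a ^ k ≤ al a ^ (sc a x y + 1) :=
    pow_le_pow_of_le_one h.al_pos.le h.al_lt.le (by omega)
  linarith

lemma Adm.wg_le (h : Adm a N) {x y : X} (hxy : x ≠ y) :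
    wg a N x y ≤ 3 * Real.exp (-Ue a N (sc a x y) x) := by
  rw [wg_of_ne hxy]
  by_cases h0 : sc a x y = 0
  · rw [h0]
    simp only [Ue, Finset.range_zero, Finset.sum_empty, neg_zero, Real.exp_zero]
    norm_num
  · have h1 := dist_le_sc (a := a) h0
    have h2 := h.exp_Ue_ge (k := sc a x y) (x := y) (y := x) (by rwa [dist_comm])
    linarith

lemma Adm.wg_le' (h : Adm a N) {x y z : X} {k : ℕ} (hxy : dist x y ≤ al a ^ k)
    (hxz : dist x z ≤ al a ^ k) (hyz : dist y z ≤ al a ^ k) :
    wg a N x y ≤ 4 * Real.exp (-Ue a N k z) := by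
  by_cases hne : x = y
  · rw [hne, wg_self]; positivity
  · have h1 := sc_ge h hne hxy
    rw [wg_of_ne hne]
    have h2 := h.exp_Ue_ge hxz
    have h3 := h.exp_Ue_ge hyz
    have h4 : Real.exp (-Ue a N (sc a x y) x) ≤ Real.exp (-Ue a N k x) := by
      apply Real.exp_le_exp.2; have := h.Ue_mono h1 x; linarith
    have h5 : Real.exp (-Ue a N (sc a x y) y) ≤ Real.exp (-Ue a N k y) := by
      apply Real.exp_le_exp.2; have := h.Ue_mono h1 y; linarith
    linarith

lemma Adm.th_pos (h : Adm a N) {x y : X} (hxy : x ≠ y) : 0 < th a N x y := by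
  have h1 := h.th_ge (h.sc_lt hxy).le
  have h2 := Real.exp_pos (-Ue a N (sc a x y + 1) x)
  linarith

/-- the space with the new metric -/
structure NewSp (X : Type*) (a N : ℕ) where
  /-- underlying point -/
  pt : X

/-- the new metric space structure -/
@[reducible] noncomputable def Adm.metric (h : Adm a N) : MetricSpace (NewSp X a N) where
  dist x y := th a N x.pt y.pt
  dist_self x := th_self x.pt
  dist_comm x y := th_comm x.pt y.pt
  dist_triangle x y z := th_triangle x.pt y.pt z.pt
  eq_of_dist_eq_zero := by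
    rintro ⟨x⟩ ⟨y⟩ hxy
    by_contra hne
    refine absurd hxy (h.th_pos (X := X) (x := x) (y := y) ?_).ne'
    rintro rfl
    exact hne rfl

/-- the function `C (t^p + t^q)` as a homeomorphism of `[0,∞)` -/
lemma exists_eta {C p q : ℝ} (hC : 0 < C) (hp : 0 < p) (hq : 0 < q) :
    ∃ η : ℝ≥0 ≃ₜ ℝ≥0, ∀ t : ℝ≥0, ((η t : ℝ≥0) : ℝ) = C * ((t : ℝ) ^ p + (t : ℝ) ^ q) := by
  set C' : ℝ≥0 := C.toNNReal with hC'
  have hC'0 : 0 < C' := by simpa [hC'] using hC
  set f : ℝ≥0 → ℝ≥0 := fun t => C' * (t ^ p + t ^ q) with hf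
  have hmono : StrictMono f := by
    intro s t hst
    simp only [hf]
    have h1 := NNReal.rpow_lt_rpow hst hp
    have h2 := NNReal.rpow_lt_rpow hst hq
    exact mul_lt_mul_of_pos_left (add_lt_add h1 h2) hC'0
  have hcont : Continuous f := by
    simp only [hf]
    exact continuous_const.mul ((NNReal.continuous_rpow_const hp.le).add
      (NNReal.continuous_rpow_const hq.le))
  have hsurj : Function.Surjective f := by
    intro y
    have h0 : f 0 = 0 := by
      simp only [hf]
      rw [NNReal.zero_rpow hp.ne', NNReal.zero_rpow hq.ne']; simp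
    have h1 : y ≤ f ((y / C') ^ (1 / p)) := by
      simp only [hf]
      rw [← NNReal.rpow_mul, one_div, inv_mul_cancel₀ hp.ne', NNReal.rpow_one]
      calc y = C' * (y / C') := by field_simp
        _ ≤ _ := by gcongr; exact le_self_add
    have h2 := intermediate_value_Icc (zero_le : (0 : ℝ≥0) ≤ (y / C') ^ (1 / p)) hcont.continuousOn
    obtain ⟨t, _, ht⟩ := h2 (show y ∈ Set.Icc (f 0) _ from ⟨by rw [h0]; exact zero_le, h1⟩)
    exact ⟨t, ht⟩
  refine ⟨(hmono.orderIsoOfSurjective f hsurj).toHomeomorph, fun t => ?_⟩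
  show ((f t : ℝ≥0) : ℝ) = _
  simp only [hf, hC']
  push_cast
  rw [Real.coe_toNNReal _ hC.le]

/-- comparison of exponents of two scales -/
lemma Adm.exp_compare (h : Adm a N) {D : ℝ} (hD1 : 1 ≤ D) (hD : ∀ x y : X, dist x y ≤ D)
    {x u v : X} {t : ℝ} (hxu : x ≠ u) (ht : 0 < t) (hle : dist x u ≤ t * dist x v) :
    Real.exp (-Ue a N (sc a x u) x) ≤ Real.exp (-Ue a N (sc a x v) x) *
      ((Real.exp (lg N) + Real.exp (lb a) * D ^ (lb a / Real.log a)) *
        (t ^ (lb a / Real.log a) + t ^ (lg N / Real.log a))) := by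
  set k := sc a x u with hk
  set l := sc a x v with hl
  have hk1 := h.sc_lt hxu
  rw [← hk] at hk1
  have hlogpos : 0 < Real.log a := Real.log_pos (by have := h.a_cast; linarith)
  have hlb := h.lb_pos
  have hlg : 0 < lg N := lt_of_lt_of_le hlb h.lb_le_lg
  have hal := h.al_pos
  have hala : al a = (a : ℝ)⁻¹ := rfl
  have hloga : Real.log (al a) = -Real.log a := by rw [hala, Real.log_inv]
  have hE1 : 0 < Real.exp (lg N) := Real.exp_pos _
  have hE2 : 0 < Real.exp (lb a) * D ^ (lb a / Real.log a) := by positivity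
  have ht1 : 0 < t ^ (lb a / Real.log a) := by positivity
  have ht2 : 0 < t ^ (lg N / Real.log a) := by positivity
  have hU : 0 < Real.exp (-Ue a N l x) := Real.exp_pos _
  rcases lt_or_ge k l with hkl | hkl
  · -- `k < l`
    obtain ⟨m, hm⟩ : ∃ m, l = k + m + 1 := ⟨l - k - 1, by omega⟩
    have h1 : dist x v ≤ al a ^ l := dist_le_sc (by omega)
    have h2 : al a ^ (k + 1) < t * al a ^ l := by
      calc al a ^ (k + 1) < dist x u := hk1
        _ ≤ t * dist x v := hle
        _ ≤ t * al a ^ l := by gcongr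
    have h3 : 1 < t * al a ^ m := by
      rw [hm, show k + m + 1 = (k + 1) + m by ring, pow_add _ (k + 1) m] at h2
      have h4 : 0 < al a ^ (k + 1) := by positivity
      nlinarith
    have h5 : (m : ℝ) * Real.log a ≤ Real.log t := by
      have h6 := Real.log_pos h3
      rw [Real.log_mul ht.ne' (by positivity), Real.log_pow, hloga] at h6
      linarith
    have h6 : Real.exp (m * lg N) ≤ t ^ (lg N / Real.log a) := by
      rw [Real.rpow_def_of_pos ht]
      apply Real.exp_le_exp.2
      calc (m : ℝ) * lg N = ((m : ℝ) * Real.log a) * (lg N / Real.log a) := by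
            field_simp
        _ ≤ Real.log t * (lg N / Real.log a) := by gcongr
    have h7 := h.Ue_add_le k (m + 1) x
    rw [← add_assoc, ← hm] at h7
    push_cast at h7
    calc Real.exp (-Ue a N k x) ≤ Real.exp (-Ue a N l x + (lg N + m * lg N)) := by
          apply Real.exp_le_exp.2; linarith
      _ = Real.exp (-Ue a N l x) * (Real.exp (lg N) * Real.exp (m * lg N)) := by
          rw [Real.exp_add, Real.exp_add]
      _ ≤ Real.exp (-Ue a N l x) * (Real.exp (lg N) * t ^ (lg N / Real.log a)) := by gcongr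
      _ ≤ _ := by
        gcongr
        · linarith
        · linarith
  · obtain ⟨m, hm⟩ : ∃ m, k = l + m := ⟨k - l, by omega⟩
    have h1 : dist x v ≤ D * al a ^ l := by
      by_cases h0 : l = 0
      · rw [h0, pow_zero, mul_one]; exact hD x v
      · have h2 : dist x v ≤ al a ^ l := dist_le_sc h0
        have h3 : 0 < al a ^ l := by positivity
        nlinarith
    have h2 : al a ^ (k + 1) < t * (D * al a ^ l) := by
      calc al a ^ (k + 1) < dist x u := hk1
        _ ≤ t * dist x v := hle
        _ ≤ t * (D * al a ^ l) := by gcongr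
    have h3 : al a ^ (m + 1) < t * D := by
      rw [hm, show l + m + 1 = (m + 1) + l by ring, pow_add _ (m + 1) l] at h2
      have h4 : 0 < al a ^ l := by positivity
      nlinarith
    have htD : 0 < t * D := by positivity
    have h5 : -((m + 1 : ℕ) : ℝ) * Real.log a ≤ Real.log (t * D) := by
      have h6 := Real.log_le_log (by positivity) h3.le
      rw [Real.log_pow, hloga] at h6
      linarith
    have h6 : Real.exp (-(m * lb a)) ≤ Real.exp (lb a) * (t * D) ^ (lb a / Real.log a) := by
      rw [Real.rpow_def_of_pos htD, ← Real.exp_add]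
      apply Real.exp_le_exp.2
      have h7 : (-((m + 1 : ℕ) : ℝ) * Real.log a) * (lb a / Real.log a) ≤
          Real.log (t * D) * (lb a / Real.log a) := by gcongr
      have h8 : (-((m + 1 : ℕ) : ℝ) * Real.log a) * (lb a / Real.log a) = -((m : ℝ) + 1) * lb a := by
        push_cast
        field_simp
      rw [h8] at h7
      linarith
    have h7 := h.Ue_add_ge l m x
    rw [← hm] at h7
    rw [Real.mul_rpow ht.le (by linarith)] at h6
    calc Real.exp (-Ue a N k x) ≤ Real.exp (-Ue a N l x + -(m * lb a)) := by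
          apply Real.exp_le_exp.2; linarith
      _ = Real.exp (-Ue a N l x) * Real.exp (-(m * lb a)) := by rw [Real.exp_add]
      _ ≤ Real.exp (-Ue a N l x) * (Real.exp (lb a) *
            (t ^ (lb a / Real.log a) * D ^ (lb a / Real.log a))) := by gcongr
      _ = Real.exp (-Ue a N l x) * ((Real.exp (lb a) * D ^ (lb a / Real.log a)) *
            t ^ (lb a / Real.log a)) := by ring
      _ ≤ _ := by
        gcongr
        · linarith
        · linarith

/-- the identity map is quasisymmetric -/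
lemma Adm.quasi (h : Adm a N) {D : ℝ} (hD1 : 1 ≤ D) (hD : ∀ x y : X, dist x y ≤ D) :
    ∃ η : ℝ≥0 ≃ₜ ℝ≥0, ∀ (x u v : X) (t : ℝ≥0),
      dist x u ≤ t * dist x v → th a N x u ≤ η t * th a N x v := by
  have hlogpos : 0 < Real.log a := Real.log_pos (by have := h.a_cast; linarith)
  have hlb := h.lb_pos
  have hlg : 0 < lg N := lt_of_lt_of_le hlb h.lb_le_lg
  set C0 := Real.exp (lg N) + Real.exp (lb a) * D ^ (lb a / Real.log a) with hC0
  have hC0p : 0 < C0 := by positivity
  obtain ⟨η, hη⟩ := exists_eta (C := 6 * Real.exp (lg N) * C0) (p := lb a / Real.log a)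
    (q := lg N / Real.log a) (by positivity) (by positivity) (by positivity)
  refine ⟨η, fun x u v t hle => ?_⟩
  rw [hη]
  by_cases hxu : x = u
  · rw [hxu, th_self]
    have := th_nonneg (a := a) (N := N) u v
    positivity
  have hd : 0 < dist x u := dist_pos.2 hxu
  have ht : (0 : ℝ) < t := by
    rcases eq_or_lt_of_le (NNReal.coe_nonneg t) with h0 | h0
    · rw [← h0, zero_mul] at hle; linarith
    · exact h0
  have hxv : x ≠ v := by
    rintro rfl
    rw [dist_self, mul_zero] at hle; linarith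
  have h1 := (th_le_wg (a := a) (N := N) x u).trans (h.wg_le hxu)
  have h2 := h.exp_compare hD1 hD hxu ht hle
  have h3 := h.th_ge (h.sc_lt hxv).le
  have h4 : Real.exp (-Ue a N (sc a x v) x) ≤ Real.exp (lg N) * (2 * th a N x v) := by
    have h5 := h.Ue_add_le (sc a x v) 1 x
    have h6 : Real.exp (-Ue a N (sc a x v) x) ≤
        Real.exp (lg N) * Real.exp (-Ue a N (sc a x v + 1) x) := by
      rw [← Real.exp_add]
      apply Real.exp_le_exp.2
      push_cast at h5
      linarith
    refine h6.trans ?_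
    gcongr
    linarith
  have hT : 0 ≤ (t : ℝ) ^ (lb a / Real.log a) + (t : ℝ) ^ (lg N / Real.log a) := by positivity
  calc th a N x u ≤ 3 * Real.exp (-Ue a N (sc a x u) x) := h1
    _ ≤ 3 * (Real.exp (-Ue a N (sc a x v) x) *
        (C0 * ((t : ℝ) ^ (lb a / Real.log a) + (t : ℝ) ^ (lg N / Real.log a)))) := by gcongr
    _ ≤ 3 * ((Real.exp (lg N) * (2 * th a N x v)) *
        (C0 * ((t : ℝ) ^ (lb a / Real.log a) + (t : ℝ) ^ (lg N / Real.log a)))) := by gcongr
    _ = _ := by ring

lemma Adm.small (h : Adm a N) {ε : ℝ} (hε : 0 < ε) :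
    ∃ δ > 0, ∀ x y : X, dist x y < δ → th a N x y < ε := by
  have hlb := h.lb_pos
  have hlim : Tendsto (fun k : ℕ => 3 * Real.exp (-(k * lb a))) atTop (𝓝 (3 * 0)) := by
    refine Tendsto.const_mul _ (Real.tendsto_exp_neg_atTop_nhds_zero.comp ?_)
    exact tendsto_natCast_atTop_atTop.atTop_mul_const hlb
  rw [mul_zero] at hlim
  obtain ⟨K, hK⟩ := (hlim.eventually_lt_const hε).exists
  refine ⟨al a ^ K, pow_pos h.al_pos K, fun x y hxy => ?_⟩
  by_cases hne : x = y
  · rw [hne, th_self]; exact hε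
  · have h1 := (th_le_wg (a := a) (N := N) x y).trans (h.wg_le hne)
    have h2 := sc_ge h hne hxy.le
    have h3 := h.Ue_mono h2 x
    have h4 := h.Ue_add_ge 0 K x
    rw [zero_add] at h4
    have h5 : Ue a N 0 x = 0 := by simp [Ue]
    rw [h5, zero_add] at h4
    have h6 : Real.exp (-Ue a N (sc a x y) x) ≤ Real.exp (-(K * lb a)) := by
      apply Real.exp_le_exp.2; linarith
    linarith

lemma Adm.small' (h : Adm a N) {ε : ℝ} (hε : 0 < ε) :
    ∃ δ > 0, ∀ x y : X, th a N x y < δ → dist x y < ε := by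
  obtain ⟨K, hK⟩ := exists_pow_lt_of_lt_one hε h.al_lt
  refine ⟨(1 / 2) * Real.exp (-(K * lg N)), by positivity, fun x y hxy => ?_⟩
  by_contra hcon
  push Not at hcon
  have h1 := h.th_ge (k := K) (hK.le.trans hcon)
  have h2 := h.Ue_add_le 0 K x
  rw [zero_add] at h2
  have h5 : Ue a N 0 x = 0 := by simp [Ue]
  rw [h5, zero_add] at h2
  have h6 : Real.exp (-(K * lg N)) ≤ Real.exp (-Ue a N K x) := by
    apply Real.exp_le_exp.2; linarith
  linarith

end Pool.Agent.Helper83.ConfDim
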