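import Pool.Agent.Helper83.ConfDim.Geo3

open MeasureTheory ProbabilityTheory Filter
open scoped ENNReal NNReal Topology

namespace Pool.Agent.Helper83.ConfDim

/-- the identity as a homeomorphism -/
lemma Adm.exists_homeo {X : Type} [MetricSpace X] {a N : ℕ} (h : Adm a N) {D : ℝ} (hD1 : 1 ≤ D)
    (hD : ∀ x y : X, dist x y ≤ D) :
    let _ := h.metric (X := X)
    ∃ f : X ≃ₜ NewSp X a N, IsQuasisymmetric f := by
  let _ := h.metric (X := X)
  have hc1 : Continuous (fun x : X => (⟨x⟩ : NewSp X a N)) := by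
    rw [Metric.continuous_iff]
    intro x ε hε
    obtain ⟨δ, hδ, h1⟩ := h.small (X := X) hε
    exact ⟨δ, hδ, fun y hy => h1 y x hy⟩
  have hc2 : Continuous (fun x : NewSp X a N => x.pt) := by
    rw [Metric.continuous_iff]
    intro x ε hε
    obtain ⟨δ, hδ, h1⟩ := h.small' (X := X) hε
    exact ⟨δ, hδ, fun y hy => h1 y.pt x.pt hy⟩
  refine ⟨⟨⟨fun x => ⟨x⟩, fun x => x.pt, fun _ => rfl, fun _ => rfl⟩, hc1, hc2⟩, ?_⟩
  obtain ⟨η, hη⟩ := h.quasi hD1 hD
  exact ⟨η, fun x u v t hle => hη x u v t hle⟩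

theorem Adm.dimH_le {X : Type} [MetricSpace X] {a N : ℕ} (h : Adm a N) (p : ℝ≥0)
    (m : ℕ → ℕ) (T : ∀ n, Fin (m n) → Set X) (z : ∀ n, Fin (m n) → X)
    (hc : ∀ᶠ n in atTop, ∀ i, (∀ x ∈ T n i, dist x (z n i) ≤ al a ^ n) ∧
      (∀ x ∈ T n i, ∀ y ∈ T n i, dist x y ≤ al a ^ n))
    (hcov : ∀ᶠ n in atTop, ∀ x, ∃ i, x ∈ T n i)
    (hs : ∀ᶠ n in atTop, ∑ i, Real.exp (-(p * Ue a N n (z n i))) ≤ 1) :
    let _ := h.metric (X := X)
    dimH (Set.univ : Set (NewSp X a N)) ≤ p := by
  let _ := h.metric (X := X)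
  borelize (NewSp X a N)
  refine dimH_le_of_hausdorffMeasure_ne_top ?_
  have hlb := h.lb_pos
  set T' : ∀ n, Fin (m n) → Set (NewSp X a N) := fun n i => {x | x.pt ∈ T n i} with hT'
  have hdiam : ∀ᶠ n in atTop, ∀ i, Metric.ediam (T' n i) ≤
      ENNReal.ofReal (4 * Real.exp (-Ue a N n (z n i))) := by
    filter_upwards [hc] with n hn i
    refine Metric.ediam_le fun x hx y hy => ?_
    rw [edist_dist]
    apply ENNReal.ofReal_le_ofReal
    exact (th_le_wg x.pt y.pt).trans (h.wg_le' ((hn i).2 x.pt hx y.pt hy) ((hn i).1 x.pt hx)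
      ((hn i).1 y.pt hy))
  have hr : Tendsto (fun n : ℕ => ENNReal.ofReal (4 * Real.exp (-(n * lb a)))) atTop (𝓝 0) := by
    have hlim : Tendsto (fun k : ℕ => 4 * Real.exp (-(k * lb a))) atTop (𝓝 (4 * 0)) := by
      refine Tendsto.const_mul _ (Real.tendsto_exp_neg_atTop_nhds_zero.comp ?_)
      exact tendsto_natCast_atTop_atTop.atTop_mul_const hlb
    have := ENNReal.tendsto_ofReal hlim
    simpa using this
  have hle := Measure.hausdorffMeasure_le_liminf_sum (X := NewSp X a N) (p : ℝ) (Set.univ)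
    (l := atTop) (fun n : ℕ => ENNReal.ofReal (4 * Real.exp (-(n * lb a)))) hr
    T' ?_ ?_
  · refine ne_top_of_le_ne_top (b := (4 : ℝ≥0∞) ^ (p : ℝ)) ?_ (hle.trans ?_)
    · exact ENNReal.rpow_ne_top_of_nonneg p.2 (by simp)
    · refine liminf_le_of_frequently_le' (Eventually.frequently ?_)
      filter_upwards [hdiam, hs] with n hn hsn
      calc ∑ i, Metric.ediam (T' n i) ^ (p : ℝ)
          ≤ ∑ i, ENNReal.ofReal (4 * Real.exp (-Ue a N n (z n i))) ^ (p : ℝ) :=
            Finset.sum_le_sum fun i _ => ENNReal.rpow_le_rpow (hn i) p.2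
        _ = ∑ i, 4 ^ (p : ℝ) * ENNReal.ofReal (Real.exp (-(p * Ue a N n (z n i)))) := by
            refine Finset.sum_congr rfl fun i _ => ?_
            have e1 : Real.exp (-Ue a N n (z n i)) ^ (p : ℝ) =
                Real.exp (-(p * Ue a N n (z n i))) := by
              rw [← Real.exp_mul]; congr 1; ring
            rw [ENNReal.ofReal_mul (by norm_num), ENNReal.mul_rpow_of_nonneg _ _ (NNReal.coe_nonneg p),
              ENNReal.ofReal_rpow_of_pos (Real.exp_pos _), e1]
            congr 2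
            simp
        _ = 4 ^ (p : ℝ) * ENNReal.ofReal (∑ i, Real.exp (-(p * Ue a N n (z n i)))) := by
            rw [← Finset.mul_sum, ENNReal.ofReal_sum_of_nonneg fun i _ => (Real.exp_pos _).le]
        _ ≤ 4 ^ (p : ℝ) * 1 := by
            gcongr
            rw [← ENNReal.ofReal_one]
            exact ENNReal.ofReal_le_ofReal hsn
        _ = 4 ^ (p : ℝ) := mul_one _
  · filter_upwards [hdiam] with n hn i
    refine (hn i).trans (ENNReal.ofReal_le_ofReal ?_)
    have h4 := h.Ue_add_ge 0 n (z n i)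
    rw [zero_add] at h4
    have h5 : Ue a N 0 (z n i) = 0 := by simp [Ue]
    rw [h5, zero_add] at h4
    have : Real.exp (-Ue a N n (z n i)) ≤ Real.exp (-(n * lb a)) := by
      apply Real.exp_le_exp.2; linarith
    linarith
  · filter_upwards [hcov] with n hn x _
    obtain ⟨i, hi⟩ := hn x.pt
    exact Set.mem_iUnion.2 ⟨i, hi⟩

theorem Adm.confDim_le {X : Type} [MetricSpace X] {a N : ℕ} (h : Adm a N) {D : ℝ}
    (hD : ∀ x y : X, dist x y ≤ D) (p : ℝ≥0)
    (m : ℕ → ℕ) (T : ∀ n, Fin (m n) → Set X) (z : ∀ n, Fin (m n) → X)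
    (hc : ∀ᶠ n in atTop, ∀ i, (∀ x ∈ T n i, dist x (z n i) ≤ al a ^ n) ∧
      (∀ x ∈ T n i, ∀ y ∈ T n i, dist x y ≤ al a ^ n))
    (hcov : ∀ᶠ n in atTop, ∀ x, ∃ i, x ∈ T n i)
    (hs : ∀ᶠ n in atTop, ∑ i, Real.exp (-(p * Ue a N n (z n i))) ≤ 1) :
    confDim X ≤ p := by
  obtain ⟨f, hf⟩ := h.exists_homeo (X := X) (le_max_left 1 D)
    (fun x y => (hD x y).trans (le_max_right 1 D))
  have h1 := h.dimH_le p m T z hc hcov hs
  unfold confDim
  exact (iInf_le_of_le (NewSp X a N) (iInf_le_of_le (h.metric (X := X)) (iInf_le_of_le f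
    (iInf_le_of_le hf h1))))

/-- a connected space with two points has conformal dimension at least one -/
theorem one_le_confDim {X : Type} [MetricSpace X] [ConnectedSpace X] [Nontrivial X] :
    1 ≤ confDim X := by
  unfold confDim
  refine le_iInf fun Y => le_iInf fun mY => le_iInf fun f => le_iInf fun _ => ?_
  obtain ⟨x, x', hxx⟩ := exists_pair_ne X
  have hY : IsConnected (Set.univ : Set Y) := by
    have h1 : IsConnected (Set.univ : Set X) := isConnected_univ
    have h2 := h1.image f f.continuous.continuousOn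
    rwa [Set.image_univ, f.surjective.range_eq] at h2
  set y := f x
  set y' := f x'
  have hyy : y ≠ y' := fun he => hxx (f.injective he)
  have hd : 0 < dist y y' := dist_pos.2 hyy
  have hl : LipschitzWith 1 (fun w : Y => dist y w) := LipschitzWith.dist_right y
  have h3 : (Set.Icc 0 (dist y y') : Set ℝ) ⊆ (fun w : Y => dist y w) '' Set.univ := by
    have h4 : IsPreconnected ((fun w : Y => dist y w) '' Set.univ) :=
      hY.isPreconnected.image _ hl.continuous.continuousOn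
    exact h4.Icc_subset ⟨y, Set.mem_univ _, dist_self y⟩ ⟨y', Set.mem_univ _, rfl⟩
  calc (1 : ℝ≥0∞) = dimH (Set.Icc 0 (dist y y') : Set ℝ) := by
        rw [Real.dimH_of_nonempty_interior]
        · simp
        · rw [interior_Icc]; exact Set.nonempty_Ioo.2 hd
    _ ≤ dimH ((fun w : Y => dist y w) '' Set.univ) := dimH_mono h3
    _ ≤ dimH (Set.univ : Set Y) := hl.dimH_image_le _

end Pool.Agent.Helper83.ConfDim
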