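import Pool.Agent.Helper83.ConfDim.Prob10
import Pool.Agent.Helper83.ConfDim.Geo4

open MeasureTheory ProbabilityTheory Filter
open scoped ENNReal NNReal Topology

namespace Pool.Agent.Helper83.ConfDim

section arith
variable {A E : ℕ}

lemma arith1 (hA : 3 ≤ A) (hE : 4 ≤ E) : 2 * A ^ (2 * E - 4) + A ^ E ≤ A ^ E * A ^ E := by
  have h1 : A ^ (2 * E - 4) ≤ A ^ (2 * E - 1) := Nat.pow_le_pow_right (by omega) (by omega)
  have h2 : A ^ E ≤ A ^ (2 * E - 1) := Nat.pow_le_pow_right (by omega) (by omega)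
  have h3 : A ^ E * A ^ E = A ^ (2 * E - 1) * A := by
    rw [← pow_add, ← pow_succ]; congr 1; omega
  rw [h3]
  have h4 : A ^ (2 * E - 1) * 3 ≤ A ^ (2 * E - 1) * A := Nat.mul_le_mul_left _ hA
  omega

lemma adm (hA : 16 ≤ A) (hE : 4 ≤ E) : Adm (A ^ E) (A ^ (2 * E - 4)) where
  ha := by
    have : A ≤ A ^ E := Nat.le_self_pow (by omega) A
    omega
  hN := by
    have : A ^ E ≤ A ^ (2 * E - 4) := Nat.pow_le_pow_right (by omega) (by omega)
    omega
  hs := by
    have h1 := arith1 (A := A) (by omega) hE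
    have h2 : A ^ E - 1 < 2 ^ (A ^ E - 1) := Nat.lt_two_pow_self
    have h3 : A ^ E ≤ 2 ^ (A ^ E - 1) := by omega
    calc 2 * A ^ (2 * E - 4) ≤ A ^ E * A ^ E - A ^ E := by omega
      _ = (A ^ E - 1) * A ^ E := by rw [Nat.sub_mul, one_mul]
      _ ≤ (A ^ E - 1) * 2 ^ (A ^ E - 1) := Nat.mul_le_mul_left _ h3

/-- the exponent -/
noncomputable def pE (E : ℕ) : ℝ≥0 := (2 * E + 2) / ((2 * E - 4 : ℕ) : ℝ≥0)

lemma pE_mul (hE : 5 ≤ E) : (pE E : ℝ) * ((2 * E - 4 : ℕ) : ℝ) = 2 * E + 2 := by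
  unfold pE
  rw [NNReal.coe_div, NNReal.coe_natCast]
  push_cast
  have h1 : ((2 * E - 4 : ℕ) : ℝ) ≠ 0 := by
    have : 0 < 2 * E - 4 := by omega
    positivity
  rw [div_mul_cancel₀ _ h1]

lemma pE_le (hE : 5 ≤ E) : (pE E : ℝ) ≤ 2 := by
  have h1 := pE_mul hE
  have h2 : (6 : ℝ) ≤ ((2 * E - 4 : ℕ) : ℝ) := by exact_mod_cast (by omega : 6 ≤ 2 * E - 4)
  have h3 : ((2 * E - 4 : ℕ) : ℝ) = 2 * E - 4 := by
    rw [Nat.cast_sub (by omega)]; push_cast; ring
  have h4 : (5 : ℝ) ≤ E := by exact_mod_cast hE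
  rw [h3] at h1 h2
  by_contra hcon
  push Not at hcon
  nlinarith

lemma exp_lg_le (hA : 1 ≤ A) (hE : 5 ≤ E) :
    Real.exp (-(pE E * lg (A ^ (2 * E - 4)))) ≤ 4 * ((A : ℝ)⁻¹) ^ (2 * E + 2) := by
  have hA0 : (0 : ℝ) < A := by exact_mod_cast hA
  have h1 := pE_mul hE
  have h2 := pE_le hE
  have h3 : lg (A ^ (2 * E - 4)) = (2 * E - 4 : ℕ) * Real.log A - Real.log 2 := by
    unfold lg
    push_cast
    rw [Real.log_div (by positivity) (by norm_num), Real.log_pow]
  have h4 : -(pE E * lg (A ^ (2 * E - 4))) = -((2 * E + 2) * Real.log A) + pE E * Real.log 2 := by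
    rw [h3, ← h1]; ring
  have h5 : (0 : ℝ) ≤ Real.log 2 := Real.log_nonneg (by norm_num)
  have h6 : -(pE E * lg (A ^ (2 * E - 4))) ≤
      Real.log (4 * ((A : ℝ)⁻¹) ^ (2 * E + 2)) := by
    rw [h4, Real.log_mul (by norm_num) (by positivity), Real.log_pow, Real.log_inv]
    have h7 : Real.log 4 = 2 * Real.log 2 := by
      rw [show (4 : ℝ) = 2 ^ 2 by norm_num, Real.log_pow]; push_cast; ring
    rw [h7]
    push_cast
    nlinarith
  calc Real.exp (-(pE E * lg (A ^ (2 * E - 4)))) ≤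
        Real.exp (Real.log (4 * ((A : ℝ)⁻¹) ^ (2 * E + 2))) := Real.exp_le_exp.2 h6
    _ = _ := Real.exp_log (by positivity)

lemma exp_diff_le (hA : 16 ≤ A) (hE : 5 ≤ E) :
    Real.exp (pE E * (lg (A ^ (2 * E - 4)) - lb (A ^ E))) ≤ (A : ℝ) ^ (2 * E) := by
  have hA0 : (16 : ℝ) ≤ A := by exact_mod_cast hA
  have hadm := adm (A := A) (E := E) hA (by omega)
  have h0 := hadm.lb_le_lg
  have h2 := pE_le hE
  have h9 := hadm.a_cast
  have h3 : lg (A ^ (2 * E - 4)) - lb (A ^ E) ≤ E * Real.log A := by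
    unfold lg lb
    rw [← Real.log_div (by positivity) (by linarith), ← Real.log_pow]
    apply Real.log_le_log
    · apply div_pos (by positivity); linarith
    · rw [div_le_iff₀ (by linarith)]
      have h4 := arith1 (A := A) (E := E) (by omega) (by omega)
      have h5 : (2 : ℝ) * (A : ℝ) ^ (2 * E - 4) + (A : ℝ) ^ E ≤ (A : ℝ) ^ E * (A : ℝ) ^ E := by
        exact_mod_cast h4
      push_cast at h9 ⊢
      nlinarith
  have h6 : pE E * (lg (A ^ (2 * E - 4)) - lb (A ^ E)) ≤ Real.log ((A : ℝ) ^ (2 * E)) := by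
    rw [Real.log_pow]
    push_cast
    have h7 : (0 : ℝ) ≤ pE E := NNReal.coe_nonneg _
    calc pE E * (lg (A ^ (2 * E - 4)) - lb (A ^ E)) ≤ 2 * (E * Real.log A) := by
          apply mul_le_mul h2 h3 (by linarith) (by norm_num)
      _ = _ := by ring
  calc Real.exp (pE E * (lg (A ^ (2 * E - 4)) - lb (A ^ E))) ≤
        Real.exp (Real.log ((A : ℝ) ^ (2 * E))) := Real.exp_le_exp.2 h6
    _ = _ := Real.exp_log (by positivity)

end arith

variable {Ω : Type*} {n : ℕ} {B : ℝ≥0 → Ω → EuclideanSpace ℝ (Fin n)} {A E k : ℕ} {t : ℝ≥0}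

/-- the good rate -/
noncomputable def rate (A E : ℕ) : ℝ := Real.exp (-(pE E * lg (A ^ (2 * E - 4))))

lemma exp_Ue_le (hA : 16 ≤ A) (h4 : 4 ∣ A) (hE : 5 ≤ E) {ω : Ω}
    (hb : Continuous fun s => B s ω) (ht : t ≤ 1) (x : trace B ω) (hx : (x : _) = B t ω) :
    ENNReal.ofReal (Real.exp (-(pE E * Ue (A ^ E) (A ^ (2 * E - 4)) k x))) ≤
      ENNReal.ofReal (rate A E) ^ k * VV A E k B t ω := by
  classical
  have hadm := adm (A := A) (E := E) hA (by omega)
  have h0 := hadm.lb_le_lg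
  have hp : (0 : ℝ) ≤ pE E := NNReal.coe_nonneg _
  have hA0 : (16 : ℝ) ≤ A := by exact_mod_cast hA
  set LG := lg (A ^ (2 * E - 4)) with hLG
  set LB := lb (A ^ E) with hLB
  have hue : ∀ j ∈ Finset.range k, LG - (if ∃ l ≤ k + 1, Dev A E k l j (fun s => B s ω) t then 1
      else 0) * (LG - LB) ≤ ue (A ^ E) (A ^ (2 * E - 4)) j x := by
    intro j hj
    by_cases h : ∃ l ≤ k + 1, Dev A E k l j (fun s => B s ω) t
    · rw [if_pos h, one_mul]
      have := hadm.ue_ge j x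
      linarith
    · rw [if_neg h, zero_mul, sub_zero]
      push Not at h
      have h1 := multi hb hA h4 (by omega) (Finset.mem_range.1 hj) ht h x hx
      have h2 : cut (X := trace B ω) (A ^ E) (A ^ (2 * E - 4)) j x = 0 := cut_eq_zero hadm h1
      unfold ue
      rw [h2, zero_mul, sub_zero]
  have hUe : k * LG - nb A E k B t ω * (LG - LB) ≤ Ue (A ^ E) (A ^ (2 * E - 4)) k x := by
    unfold Ue
    refine le_trans (le_of_eq ?_) (Finset.sum_le_sum hue)
    rw [Finset.sum_sub_distrib, Finset.sum_const, Finset.card_range, nsmul_eq_mul, ← Finset.sum_mul]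
    congr 2
    unfold nb
    rw [Finset.card_filter]
    push_cast
    rfl
  have h1 : Real.exp (-(pE E * Ue (A ^ E) (A ^ (2 * E - 4)) k x)) ≤
      rate A E ^ k * ((A : ℝ) ^ (2 * E)) ^ nb A E k B t ω := by
    have h2 : -(pE E * Ue (A ^ E) (A ^ (2 * E - 4)) k x) ≤
        k * (-(pE E * LG)) + nb A E k B t ω * (pE E * (LG - LB)) := by
      have := mul_le_mul_of_nonneg_left hUe hp
      linarith
    calc Real.exp (-(pE E * Ue (A ^ E) (A ^ (2 * E - 4)) k x)) ≤
          Real.exp (k * (-(pE E * LG)) + nb A E k B t ω * (pE E * (LG - LB))) :=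
          Real.exp_le_exp.2 h2
      _ = rate A E ^ k * (Real.exp (pE E * (LG - LB))) ^ nb A E k B t ω := by
          unfold rate
          rw [Real.exp_add, ← Real.exp_nat_mul, ← Real.exp_nat_mul]
      _ ≤ _ := by
          have h3 := exp_diff_le (A := A) (E := E) hA hE
          have h4 : 0 ≤ rate A E := (Real.exp_pos _).le
          gcongr
  refine (ENNReal.ofReal_le_ofReal h1).trans ?_
  have hr : 0 ≤ rate A E := (Real.exp_pos _).le
  rw [ENNReal.ofReal_mul (pow_nonneg hr _), ENNReal.ofReal_pow hr]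
  refine mul_le_mul_right ?_ _
  refine le_trans (le_of_eq ?_) (nb_bound (by omega) ω)
  unfold Zc
  rw [ENNReal.ofReal_pow (by positivity), ENNReal.ofReal_pow (by positivity),
    ENNReal.ofReal_natCast]

end Pool.Agent.Helper83.ConfDim
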