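import Pool.Agent.Helper83.ConfDim.Main1

open MeasureTheory ProbabilityTheory Filter
open scoped ENNReal NNReal Topology

namespace Pool.Agent.Helper83.ConfDim

variable {Ω : Type*} {n : ℕ} {B : ℝ≥0 → Ω → EuclideanSpace ℝ (Fin n)} {A E k : ℕ} {t : ℝ≥0}

/-- number of time cells at level `k` -/
def mk (A E k : ℕ) : ℕ := A ^ ((2 * E + 1) * k)

/-- time grid -/
noncomputable def tg (A E k i : ℕ) : ℝ≥0 := i / (mk A E k : ℝ≥0)

/-- oscillation event at level `k` -/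
def Ok (A E k : ℕ) (b : ℝ≥0 → EuclideanSpace ℝ (Fin n)) : Prop :=
  ∃ i < mk A E k, Chb (pl b (tg A E k i)) 0 (1 / (mk A E k : ℝ≥0)) (Rs A E k)

/-- the random sum at level `k` -/
noncomputable def Sk (A E k : ℕ) (B : ℝ≥0 → Ω → EuclideanSpace ℝ (Fin n)) (ω : Ω) : ℝ≥0∞ :=
  ∑ i ∈ Finset.range (mk A E k), ENNReal.ofReal (rate A E) ^ k * VV A E k B (tg A E k i) ω

lemma mk_pos (hA : 1 ≤ A) : 0 < mk A E k := by unfold mk; positivity

lemma tg_le (hA : 1 ≤ A) {i : ℕ} (hi : i < mk A E k) : tg A E k i ≤ 1 := by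
  unfold tg
  have h1 : (0 : ℝ≥0) < mk A E k := by exact_mod_cast mk_pos hA
  rw [div_le_one₀ h1]
  exact_mod_cast hi.le

lemma prob_Ok [mΩ : MeasurableSpace Ω] {P : Measure Ω} [IsProbabilityMeasure P]
    (hB : IsBrownian n P B) (hn : 60 ≤ n) (hA : 16 ≤ A) (k : ℕ) :
    P {ω | Ok A E k (fun s => B s ω)} ≤
      ENNReal.ofReal (2 * Ct n (2 * E + 12) * 64 ^ (2 * E + 12) * (1 / 2) ^ k) := by
  obtain ⟨h1, h2, h3⟩ := inv_facts (A := A) (by omega)
  have hC := Ct_nonneg n (2 * E + 12)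
  have hR := Rs_pos (A := A) (E := E) (by omega) k
  have hx : (A : ℝ)⁻¹ ≤ 1 / 2 := by
    have hA0 : (16 : ℝ) ≤ A := by exact_mod_cast hA
    rw [inv_eq_one_div]
    exact one_div_le_one_div_of_le (by norm_num) (by linarith)
  have hratio : 64 * (((1 / (mk A E k : ℝ≥0) : ℝ≥0) : ℝ) / Rs A E k ^ 2) =
      64 * ((A : ℝ)⁻¹) ^ k := by
    congr 1
    unfold mk Rs
    push_cast
    rw [one_div, ← inv_pow, ← pow_mul, show (2 * E + 1) * k = k + E * k * 2 by ring, pow_add,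
      mul_div_assoc, div_self (by positivity), mul_one]
  have h4 := prob_exists_lt (P := P) (N := mk A E k)
    (p := fun i ω => Chb (pl (fun s => B s ω) (tg A E k i)) 0 (1 / (mk A E k : ℝ≥0)) (Rs A E k))
    (c := 2 * Ct n (2 * E + 12) * (64 * ((A : ℝ)⁻¹) ^ k) ^ (2 * E + 12)) fun i _ => by
      refine (prob_chb_pl hB hn _ 0 _ hR (q := 2 * E + 12) (by omega)).trans (le_of_eq ?_)
      rw [hratio]
  refine h4.trans (ENNReal.ofReal_le_ofReal ?_)
  have h5 : (mk A E k : ℝ) = (A : ℝ) ^ ((2 * E + 1) * k) := by unfold mk; push_cast; rfl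
  have h6 : ((A : ℝ)⁻¹ ^ k) ^ (2 * E + 12) = (A : ℝ)⁻¹ ^ ((2 * E + 1) * k) * (A : ℝ)⁻¹ ^ (11 * k) := by
    rw [← pow_mul, ← pow_add]; congr 1; ring
  rw [h5, mul_pow, h6]
  calc (A : ℝ) ^ ((2 * E + 1) * k) * (2 * Ct n (2 * E + 12) * (64 ^ (2 * E + 12) *
        ((A : ℝ)⁻¹ ^ ((2 * E + 1) * k) * (A : ℝ)⁻¹ ^ (11 * k))))
      = ((A : ℝ) * (A : ℝ)⁻¹) ^ ((2 * E + 1) * k) * (2 * Ct n (2 * E + 12) * 64 ^ (2 * E + 12) *
          (A : ℝ)⁻¹ ^ (11 * k)) := by rw [mul_pow]; ring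
    _ = 2 * Ct n (2 * E + 12) * 64 ^ (2 * E + 12) * (A : ℝ)⁻¹ ^ (11 * k) := by
        rw [h3, one_pow, one_mul]
    _ ≤ 2 * Ct n (2 * E + 12) * 64 ^ (2 * E + 12) * (1 / 2) ^ k := by
        have h7 : (A : ℝ)⁻¹ ^ (11 * k) ≤ (1 / 2) ^ k := by
          calc (A : ℝ)⁻¹ ^ (11 * k) ≤ (A : ℝ)⁻¹ ^ k :=
                pow_le_pow_of_le_one h1.le h2 (by omega)
            _ ≤ (1 / 2) ^ k := by gcongr
        gcongr

lemma meas_Sk [mΩ : MeasurableSpace Ω] {P : Measure Ω} (hB : IsBrownian n P B) (hA : 4 ≤ A)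
    (hE : 2 ≤ E) : Measurable (Sk A E k B) :=
  Finset.measurable_fun_sum _ fun _ _ => (meas_VV hB hA hE).const_mul _

lemma int_Sk [mΩ : MeasurableSpace Ω] {P : Measure Ω} [IsProbabilityMeasure P]
    (hB : IsBrownian n P B) (hn : 60 ≤ n) (hN : Num n E A) (k : ℕ) :
    ∫⁻ ω, Sk A E k B ω ∂P ≤ ENNReal.ofReal (8 * (1 / 2) ^ k) := by
  have hA := hN.hA
  have hE := hN.hE
  obtain ⟨h1, h2, h3⟩ := inv_facts (A := A) (by omega)
  unfold Sk
  rw [lintegral_finsetSum _ fun i _ => (meas_VV hB (by omega) (by omega)).const_mul _]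
  have h4 : ∀ i ∈ Finset.range (mk A E k), ∫⁻ ω, ENNReal.ofReal (rate A E) ^ k *
      VV A E k B (tg A E k i) ω ∂P ≤ ENNReal.ofReal (rate A E) ^ k * 2 ^ (k + 3) := by
    intro i _
    rw [lintegral_const_mul _ (meas_VV hB (by omega) (by omega))]
    gcongr
    exact VV_le hB hn hN
  refine (Finset.sum_le_sum h4).trans ?_
  rw [Finset.sum_const, Finset.card_range, nsmul_eq_mul]
  have hr : 0 ≤ rate A E := (Real.exp_pos _).le
  have e1 : (mk A E k : ℝ≥0∞) * (ENNReal.ofReal (rate A E) ^ k * 2 ^ (k + 3)) =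
      ENNReal.ofReal ((mk A E k : ℝ) * (rate A E ^ k * 2 ^ (k + 3))) := by
    rw [ENNReal.ofReal_mul (by positivity), ENNReal.ofReal_mul (by positivity),
      ENNReal.ofReal_pow hr, ENNReal.ofReal_pow (by norm_num), ENNReal.ofReal_natCast]
    norm_num
  rw [e1]
  apply ENNReal.ofReal_le_ofReal
  have h5 : (mk A E k : ℝ) = ((A : ℝ) ^ (2 * E + 1)) ^ k := by
    unfold mk; push_cast; rw [pow_mul]
  have h6 : rate A E ≤ 4 * ((A : ℝ)⁻¹) ^ (2 * E + 2) := exp_lg_le (by omega) hE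
  have h7 : (A : ℝ) ^ (2 * E + 1) * (rate A E * 2) ≤ 1 / 2 := by
    have hx : (A : ℝ)⁻¹ ≤ 1 / 16 := by
      have hA0 : (16 : ℝ) ≤ A := by exact_mod_cast hA
      rw [inv_eq_one_div]
      exact one_div_le_one_div_of_le (by norm_num) hA0
    calc (A : ℝ) ^ (2 * E + 1) * (rate A E * 2)
        ≤ (A : ℝ) ^ (2 * E + 1) * ((4 * ((A : ℝ)⁻¹) ^ (2 * E + 2)) * 2) := by gcongr
      _ = ((A : ℝ) * (A : ℝ)⁻¹) ^ (2 * E + 1) * (8 * (A : ℝ)⁻¹) := by
          rw [mul_pow, pow_succ _ (2 * E + 1)]; ring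
      _ = 8 * (A : ℝ)⁻¹ := by rw [h3, one_pow, one_mul]
      _ ≤ 1 / 2 := by linarith
  calc (mk A E k : ℝ) * (rate A E ^ k * 2 ^ (k + 3))
      = 8 * ((A : ℝ) ^ (2 * E + 1) * (rate A E * 2)) ^ k := by
        rw [h5, mul_pow, mul_pow, pow_add]; ring
    _ ≤ 8 * (1 / 2) ^ k := by gcongr

/-- deterministic conclusion -/
lemma conf_of_events {B : ℝ≥0 → Ω → EuclideanSpace ℝ (Fin n)} (hA : 16 ≤ A) (h4 : 4 ∣ A)
    (hE : 5 ≤ E) {ω : Ω} (hb : Continuous fun s => B s ω)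
    (h1 : ∀ᶠ k in atTop, ¬ Ok A E k (fun s => B s ω)) (h2 : ∀ᶠ k in atTop, ¬ 1 ≤ Sk A E k B ω) :
    confDim (trace B ω) ≤ pE E := by
  have hadm := adm (A := A) (E := E) hA (by omega)
  have hA0 : 0 < A := by omega
  -- boundedness
  have hcomp : IsCompact (trace B ω) := by
    unfold trace
    exact isCompact_Icc.image hb
  obtain ⟨D, hD⟩ := Metric.isBounded_iff.1 hcomp.isBounded
  have hmem : ∀ k, ∀ i : Fin (mk A E k), B (tg A E k i) ω ∈ trace B ω := fun k i =>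
    ⟨_, ⟨zero_le, tg_le hA0 i.2⟩, rfl⟩
  set z : ∀ k, Fin (mk A E k) → trace B ω := fun k i => ⟨B (tg A E k i) ω, hmem k i⟩ with hz
  set T : ∀ k, Fin (mk A E k) → Set (trace B ω) := fun k i =>
    {x | ∃ s : ℝ≥0, tg A E k i ≤ s ∧ s ≤ tg A E k i + 1 / (mk A E k : ℝ≥0) ∧ B s ω = x} with hT
  refine hadm.confDim_le (X := trace B ω) (D := D) (fun x y => hD x.2 y.2) (pE E) (mk A E) T z ?_ ?_ ?_
  · filter_upwards [h1] with k hk i
    have hR := Rs_pos (A := A) (E := E) hA0 k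
    have hnc : ¬ Chb (pl (fun s => B s ω) (tg A E k i)) 0 (1 / (mk A E k : ℝ≥0)) (Rs A E k) :=
      fun h => hk ⟨i, i.2, h⟩
    have key : ∀ s : ℝ≥0, tg A E k i ≤ s → s ≤ tg A E k i + 1 / (mk A E k : ℝ≥0) →
        ‖B s ω - B (tg A E k i) ω‖ ≤ Rs A E k / 2 := by
      intro s hs1 hs2
      have e1 := chain_all (continuous_pl hb (tg A E k i)) hR.le hnc (s := s - tg A E k i)
        zero_le (by rw [zero_add]; exact tsub_le_iff_left.2 hs2)
      unfold pl at e1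
      rw [add_tsub_cancel_of_le hs1, add_zero, sub_self, sub_zero] at e1
      exact e1
    rw [al_pow]
    constructor
    · rintro x ⟨s, hs1, hs2, hsx⟩
      rw [Subtype.dist_eq, dist_eq_norm, ← hsx]
      have := key s hs1 hs2
      show ‖B s ω - B (tg A E k i) ω‖ ≤ _
      linarith
    · rintro x ⟨s, hs1, hs2, hsx⟩ y ⟨u, hu1, hu2, huy⟩
      rw [Subtype.dist_eq, dist_eq_norm, ← hsx, ← huy]
      have e1 := key s hs1 hs2
      have e2 := key u hu1 hu2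
      have e3 : B s ω - B u ω = (B s ω - B (tg A E k i) ω) - (B u ω - B (tg A E k i) ω) := by abel
      rw [e3]
      refine (norm_sub_le _ _).trans ?_
      linarith
  · refine Eventually.of_forall fun k x => ?_
    obtain ⟨s, ⟨_, hs⟩, hsx⟩ := x.2
    have hm := mk_pos (E := E) (k := k) hA0
    have hm' : (0 : ℝ≥0) < mk A E k := by exact_mod_cast hm
    have hm'' : (mk A E k : ℝ≥0) ≠ 0 := hm'.ne'
    rcases lt_or_eq_of_le hs with h | h
    · have hlt : ⌊s * mk A E k⌋₊ < mk A E k := by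
        rw [Nat.floor_lt zero_le]
        calc s * mk A E k < 1 * mk A E k := by gcongr
          _ = mk A E k := one_mul _
      refine ⟨⟨⌊s * mk A E k⌋₊, hlt⟩, s, ?_, ?_, hsx⟩
      · unfold tg
        rw [div_le_iff₀ hm']
        exact Nat.floor_le zero_le
      · unfold tg
        rw [← add_div, le_div_iff₀ hm']
        exact (Nat.lt_floor_add_one _).le
    · refine ⟨⟨mk A E k - 1, by omega⟩, s, ?_, ?_, hsx⟩
      · rw [h]; exact tg_le hA0 (by show mk A E k - 1 < mk A E k; omega)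
      · unfold tg
        rw [← add_div, le_div_iff₀ hm', h, one_mul]
        have : ((mk A E k - 1 : ℕ) : ℝ≥0) + 1 = mk A E k := by
          exact_mod_cast Nat.sub_add_cancel hm
        exact this.symm.le
  · filter_upwards [h2] with k hk
    have h5 : ENNReal.ofReal (∑ i : Fin (mk A E k),
        Real.exp (-(pE E * Ue (A ^ E) (A ^ (2 * E - 4)) k (z k i)))) ≤ ENNReal.ofReal 1 := by
      rw [ENNReal.ofReal_sum_of_nonneg fun _ _ => (Real.exp_pos _).le, ENNReal.ofReal_one]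
      refine le_trans ?_ (not_le.1 hk).le
      unfold Sk
      rw [Finset.sum_range]
      exact Finset.sum_le_sum fun i _ => exp_Ue_le hA h4 hE hb (tg_le hA0 i.2) (z k i) rfl
    exact (ENNReal.ofReal_le_ofReal_iff zero_le_one).1 h5

/-- **almost sure bound for a fixed exponent** -/
theorem conf_le_pE [mΩ : MeasurableSpace Ω] {P : Measure Ω} [IsProbabilityMeasure P]
    (hB : IsBrownian n P B) (hn : 60 ≤ n) (hN : Num n E A) :
    ∀ᵐ ω ∂P, confDim (trace B ω) ≤ pE E := by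
  have hA := hN.hA
  have hE := hN.hE
  have hsum : ∀ c : ℝ, 0 ≤ c → ∑' k : ℕ, ENNReal.ofReal (c * (1 / 2) ^ k) ≠ ∞ := by
    intro c hc
    rw [← ENNReal.ofReal_tsum_of_nonneg (fun k => by positivity)
      ((summable_geometric_of_lt_one (by norm_num) (by norm_num)).mul_left c)]
    exact ENNReal.ofReal_ne_top
  have h1 : ∀ᵐ ω ∂P, ∀ᶠ k in atTop, ω ∉ {ω | Ok A E k (fun s => B s ω)} := by
    refine ae_eventually_notMem (ne_top_of_le_ne_top (hsum _ ?_)
      (ENNReal.tsum_le_tsum fun k => prob_Ok hB hn hA k))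
    have := Ct_nonneg n (2 * E + 12)
    positivity
  have h2 : ∀ᵐ ω ∂P, ∀ᶠ k in atTop, ω ∉ {ω | 1 ≤ Sk A E k B ω} := by
    refine ae_eventually_notMem (ne_top_of_le_ne_top (hsum 8 (by norm_num))
      (ENNReal.tsum_le_tsum fun k => ?_))
    have h3 := mul_meas_ge_le_lintegral₀ (μ := P)
      (meas_Sk (A := A) (E := E) (k := k) hB (by omega) (by omega)).aemeasurable 1
    rw [one_mul] at h3
    exact h3.trans (int_Sk hB hn hN k)
  filter_upwards [hB.cont, h1, h2] with ω hω hω1 hω2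
  exact conf_of_events hA hN.h4 hE hω hω1 hω2

end Pool.Agent.Helper83.ConfDim
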