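import Pool.Agent.Helper83.ConfDim.Num1

open MeasureTheory ProbabilityTheory Filter
open scoped ENNReal NNReal Topology

namespace Pool.Agent.Helper83.ConfDim

/-- a numerical constant -/
noncomputable def c72 : ℝ := 72 ^ 30

lemma c72_pos : 0 < c72 := by unfold c72; positivity

lemma ev_inv (K : ℝ) : ∀ᶠ m : ℕ in atTop, K * ((4 * m : ℕ) : ℝ)⁻¹ ≤ 1 := by
  have h1 : Tendsto (fun m : ℕ => ((4 * m : ℕ) : ℝ)) atTop atTop := by
    refine tendsto_natCast_atTop_atTop.comp ?_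
    exact tendsto_id.const_mul_atTop' (by norm_num)
  have h2 : Tendsto (fun m : ℕ => K * ((4 * m : ℕ) : ℝ)⁻¹) atTop (𝓝 (K * 0)) :=
    (tendsto_inv_atTop_zero.comp h1).const_mul K
  rw [mul_zero] at h2
  exact h2.eventually (Iic_mem_nhds zero_lt_one)

lemma ev_exp (p : ℕ) : ∀ᶠ m : ℕ in atTop, ((4 * m : ℕ) : ℝ) ^ p * (1 / 4) ^ m ≤ 1 := by
  have h1 := tendsto_pow_const_mul_const_pow_of_abs_lt_one p (r := (1 / 4 : ℝ)) (by
    rw [abs_of_pos (by norm_num)]; norm_num)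
  have h2 : Tendsto (fun m : ℕ => (4 : ℝ) ^ p * ((m : ℝ) ^ p * (1 / 4) ^ m)) atTop (𝓝 (4 ^ p * 0)) :=
    h1.const_mul _
  rw [mul_zero] at h2
  filter_upwards [h2.eventually (Iic_mem_nhds zero_lt_one)] with m hm
  have hm' : (4 : ℝ) ^ p * ((m : ℝ) ^ p * (1 / 4) ^ m) ≤ 1 := hm
  push_cast
  rw [mul_pow, mul_assoc]
  exact hm'

/-- terms of the local bound -/
lemma term_a {x A C K : ℝ} {E : ℕ} (hAx : A * x = 1) :
    A ^ (3 * E + 1) * (2 * C * (K * x) ^ (14 * E + 2)) =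
      x ^ (11 * E) * x * (2 * C * K ^ (14 * E + 2)) := by
  have e1 : x ^ (14 * E + 2) = x ^ (3 * E + 1) * (x ^ (11 * E) * x) := by
    rw [← pow_succ, ← pow_add]; congr 1; ring
  calc A ^ (3 * E + 1) * (2 * C * (K * x) ^ (14 * E + 2))
      = (A * x) ^ (3 * E + 1) * (x ^ (11 * E) * x * (2 * C * K ^ (14 * E + 2))) := by
        rw [mul_pow K, e1, mul_pow A]; ring
    _ = _ := by rw [hAx, one_pow, one_mul]

lemma term_b {x A C K : ℝ} {E : ℕ} (hx : 0 < x) (hx1 : x ≤ 1) (hAx : A * x = 1) (hC : 0 ≤ C)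
    (hK : 0 ≤ K) :
    A ^ (E + 1) * (2 * C * (K * x) ^ (14 * E + 2)) ≤
      x ^ (11 * E) * x * (2 * C * K ^ (14 * E + 2)) := by
  have e1 : x ^ (14 * E + 2) = x ^ (E + 1) * (x ^ (11 * E) * x * x ^ (2 * E)) := by
    rw [← pow_succ, ← pow_add, ← pow_add]; congr 1; ring
  have e2 : x ^ (2 * E) ≤ 1 := pow_le_one₀ hx.le hx1
  calc A ^ (E + 1) * (2 * C * (K * x) ^ (14 * E + 2))
      = (A * x) ^ (E + 1) * (x ^ (11 * E) * x * x ^ (2 * E) * (2 * C * K ^ (14 * E + 2))) := by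
        rw [mul_pow K, e1, mul_pow A]; ring
    _ = (x ^ (11 * E) * x * x ^ (2 * E) * (2 * C * K ^ (14 * E + 2))) := by
        rw [hAx, one_pow, one_mul]
    _ ≤ (x ^ (11 * E) * x * 1 * (2 * C * K ^ (14 * E + 2))) := by gcongr
    _ = _ := by rw [mul_one]

lemma term_c {x A c : ℝ} {E : ℕ} (hx : 0 < x) (hx1 : x ≤ 1) (hA1 : 1 ≤ A) (hAx : A * x = 1)
    (hE : 1 ≤ E) (hc : 0 ≤ c) :
    (A ^ (3 * E + 1) + 1) ^ 2 * (c * (x ^ E) ^ 30) ≤ x ^ (11 * E) * x * (4 * c) := by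
  obtain ⟨r, hr⟩ : ∃ r, 24 * E = 11 * E + 1 + 2 + r := Nat.exists_eq_add_of_le (by omega)
  have e1 : (x ^ E) ^ 30 = x ^ (6 * E + 2) * (x ^ (11 * E) * x * x ^ r) := by
    rw [← pow_mul, ← pow_succ, ← pow_add, ← pow_add]; congr 1; omega
  have e2 : x ^ r ≤ 1 := pow_le_one₀ hx.le hx1
  have e3 : (A ^ (3 * E + 1) + 1) ^ 2 ≤ 4 * A ^ (6 * E + 2) := by
    have h1 : 1 ≤ A ^ (3 * E + 1) := one_le_pow₀ hA1
    have h2 : A ^ (6 * E + 2) = (A ^ (3 * E + 1)) ^ 2 := by rw [← pow_mul]; congr 1; ring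
    rw [h2]
    nlinarith
  calc (A ^ (3 * E + 1) + 1) ^ 2 * (c * (x ^ E) ^ 30)
      ≤ (4 * A ^ (6 * E + 2)) * (c * (x ^ E) ^ 30) := by gcongr
    _ = (A * x) ^ (6 * E + 2) * (x ^ (11 * E) * x * x ^ r * (4 * c)) := by
        rw [e1, mul_pow A]; ring
    _ = x ^ (11 * E) * x * x ^ r * (4 * c) := by rw [hAx, one_pow, one_mul]
    _ ≤ x ^ (11 * E) * x * 1 * (4 * c) := by gcongr
    _ = _ := by rw [mul_one]

lemma term_d {x A y : ℝ} {E : ℕ} (hx : 0 < x) (hAx : A * x = 1)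
    (h : A ^ (12 * E + 2) * y ≤ 1) : A ^ (E + 1) * y ≤ x ^ (11 * E) * x := by
  have e1 : A ^ (E + 1) * y = (x ^ (11 * E) * x) * (A ^ (12 * E + 2) * y) := by
    have e2 : A ^ (12 * E + 2) = A ^ (11 * E + 1) * A ^ (E + 1) := by
      rw [← pow_add]; congr 1; ring
    calc A ^ (E + 1) * y = (A * x) ^ (11 * E + 1) * (A ^ (E + 1) * y) := by
          rw [hAx, one_pow, one_mul]
      _ = _ := by rw [e2, mul_pow, pow_succ x]; ring
  rw [e1]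
  calc (x ^ (11 * E) * x) * (A ^ (12 * E + 2) * y) ≤ (x ^ (11 * E) * x) * 1 := by gcongr
    _ = _ := mul_one _

/-- **existence of parameters** -/
theorem exists_num (n E : ℕ) (hE : 5 ≤ E) : ∃ A, Num n E A := by
  set q := 14 * E + 2 with hq
  have hC := Ct_nonneg n q
  set K : ℝ := 2 * (2 * Ct n q * 64 ^ q + 2 * Ct n q * 65536 ^ q + 4 * c30 + 1) + 4 * c72 with hK
  have h1 := ev_inv K
  have h2 := ev_inv ((4 * Ct n 36 + 1) * 128 ^ 36)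
  have h3 := ev_inv (8 * Ct n q * 64 ^ q)
  have h4 := ev_inv (4 * c50)
  have h5 := ev_inv (64 * (2 * (4 * c30)))
  have h6 := ev_exp (12 * E + 2)
  obtain ⟨m, hm1, hm2, hm3, hm4, hm5, hm6, hm7⟩ :=
    (h1.and (h2.and (h3.and (h4.and (h5.and (h6.and (eventually_ge_atTop 4))))))).exists
  have hA4 : 16 ≤ 4 * m := by omega
  set A := 4 * m with hA
  have hAr : (1 : ℝ) ≤ A := by exact_mod_cast (by omega : 1 ≤ A)
  have hx : 0 < (A : ℝ)⁻¹ := by positivity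
  have hx1 : (A : ℝ)⁻¹ ≤ 1 := inv_le_one_of_one_le₀ hAr
  have hAx : (A : ℝ) * (A : ℝ)⁻¹ = 1 := mul_inv_cancel₀ (by positivity)
  have hc30 := c30_pos
  have hc72 := c72_pos
  refine ⟨A, hA4, ⟨m, rfl⟩, hE, ?_, ?_, hm2, hm3, hm4⟩
  · unfold pj
    have e1 : 4 * c30 / (A : ℝ) ^ 54 ≤ 4 * c30 * (A : ℝ)⁻¹ := by
      rw [div_eq_mul_inv]
      gcongr
      exact le_self_pow₀ hAr (by norm_num)
    linarith
  · have eA := term_a (x := (A : ℝ)⁻¹) (A := (A : ℝ)) (C := Ct n q) (K := 64) (E := E) hAx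
    have eB := term_b (x := (A : ℝ)⁻¹) (A := (A : ℝ)) (C := Ct n q) (K := 65536) (E := E) hx hx1 hAx
      hC (by norm_num)
    have eC := term_c (x := (A : ℝ)⁻¹) (A := (A : ℝ)) (c := c30) (E := E) hx hx1 hAr hAx
      (by omega) hc30.le
    have eC' := term_c (x := (A : ℝ)⁻¹) (A := (A : ℝ)) (c := c72) (E := E) hx hx1 hAr hAx
      (by omega) hc72.le
    have hNw : m ≤ Nw A E := by
      unfold Nw
      have e1 : A ≤ A ^ (E - 1) := Nat.le_self_pow (by omega) A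
      have e2 : A / 4 ≤ A ^ (E - 1) / 4 := Nat.div_le_div_right e1
      omega
    have eD := term_d (x := (A : ℝ)⁻¹) (A := (A : ℝ)) (y := (1 / 4) ^ Nw A E) (E := E) hx hAx (by
      refine le_trans ?_ hm6
      gcongr (A : ℝ) ^ (12 * E + 2) * ?_
      exact pow_le_pow_of_le_one (by norm_num) (by norm_num) hNw)
    have d1 : (64 : ℝ) / A = 64 * (A : ℝ)⁻¹ := div_eq_mul_inv _ _
    have d2 : (65536 : ℝ) / A = 65536 * (A : ℝ)⁻¹ := div_eq_mul_inv _ _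
    have d3 : (36 / (A : ℝ) ^ E) ^ 30 = c30 * (((A : ℝ)⁻¹) ^ E) ^ 30 := by
      rw [div_eq_mul_inv, ← inv_pow, mul_pow 36, c30]
    have d4 : (72 / (A : ℝ) ^ E) ^ 30 = c72 * (((A : ℝ)⁻¹) ^ E) ^ 30 := by
      rw [div_eq_mul_inv, ← inv_pow, mul_pow 72, c72]
    rw [d1, d2, d3, d4]
    have hy : 0 ≤ ((A : ℝ)⁻¹) ^ (11 * E) := by positivity
    have hfin : ((A : ℝ)⁻¹) ^ (11 * E) * (A : ℝ)⁻¹ * K ≤ ((A : ℝ)⁻¹) ^ (11 * E) := by
      calc ((A : ℝ)⁻¹) ^ (11 * E) * (A : ℝ)⁻¹ * K = ((A : ℝ)⁻¹) ^ (11 * E) * (K * (A : ℝ)⁻¹) := by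
            ring
        _ ≤ ((A : ℝ)⁻¹) ^ (11 * E) * 1 := by gcongr
        _ = _ := mul_one _
    rw [← hq] at eA eB ⊢
    have hK2 : ((A : ℝ)⁻¹) ^ (11 * E) * (A : ℝ)⁻¹ * K =
        2 * (((A : ℝ)⁻¹) ^ (11 * E) * (A : ℝ)⁻¹ * (2 * Ct n q * 64 ^ q) +
        ((A : ℝ)⁻¹) ^ (11 * E) * (A : ℝ)⁻¹ * (2 * Ct n q * 65536 ^ q) +
        ((A : ℝ)⁻¹) ^ (11 * E) * (A : ℝ)⁻¹ * (4 * c30) +
        ((A : ℝ)⁻¹) ^ (11 * E) * (A : ℝ)⁻¹) +
        ((A : ℝ)⁻¹) ^ (11 * E) * (A : ℝ)⁻¹ * (4 * c72) := by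
      rw [hK]; ring
    rw [hK2] at hfin
    linarith

end Pool.Agent.Helper83.ConfDim
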