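import Pool.Agent.Helper83.ConfDim.Main2
import Pool.Agent.Helper83.ConfDim.Num2
import Pool.Agent.Helper14.BMDim
import Pool.Agent.Helper59.ExistsBM

open MeasureTheory ProbabilityTheory Filter
open scoped ENNReal NNReal Topology

namespace Pool.Agent.Helper83.ConfDim

variable {Ω : Type*} [mΩ : MeasurableSpace Ω] {n : ℕ} {P : Measure Ω} [IsProbabilityMeasure P]
  {B : ℝ≥0 → Ω → EuclideanSpace ℝ (Fin n)}

lemma tendsto_pE : Tendsto (fun E => (pE E : ℝ≥0∞)) atTop (𝓝 1) := by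
  rw [← ENNReal.coe_one, ENNReal.tendsto_coe, ← NNReal.tendsto_coe]
  have h1 : Tendsto (fun E : ℕ => 1 + 6 / (2 * (E : ℝ) - 4)) atTop (𝓝 (1 + 0)) := by
    refine tendsto_const_nhds.add ?_
    refine Tendsto.const_div_atTop ?_ 6
    refine tendsto_atTop_add_const_right _ _ ?_
    exact tendsto_natCast_atTop_atTop.const_mul_atTop (by norm_num)
  rw [add_zero] at h1
  refine h1.congr' ?_
  filter_upwards [eventually_ge_atTop 5] with E hE
  have h2 := pE_mul hE
  have h3 : ((2 * E - 4 : ℕ) : ℝ) = 2 * E - 4 := by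
    rw [Nat.cast_sub (by omega)]; push_cast; ring
  rw [h3] at h2
  have h4 : (5 : ℝ) ≤ E := by exact_mod_cast hE
  have h5 : (2 * (E : ℝ) - 4) ≠ 0 := by linarith
  have h6 : (pE E : ℝ) = (2 * E + 2) / (2 * E - 4) := by
    rw [eq_div_iff h5]; exact h2
  rw [h6]
  field_simp
  ring

/-- upper bound -/
theorem conf_le_one (hB : IsBrownian n P B) (hn : 60 ≤ n) :
    ∀ᵐ ω ∂P, confDim (trace B ω) ≤ 1 := by
  have h1 : ∀ᵐ ω ∂P, ∀ E : ℕ, 5 ≤ E → confDim (trace B ω) ≤ pE E := by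
    rw [ae_all_iff]
    intro E
    by_cases hE : 5 ≤ E
    · obtain ⟨A, hA⟩ := exists_num n E hE
      filter_upwards [conf_le_pE hB hn hA] with ω hω _
      exact hω
    · exact ae_of_all _ fun ω h => absurd h hE
  filter_upwards [h1] with ω hω
  exact ge_of_tendsto tendsto_pE ((eventually_ge_atTop 5).mono fun E hE => hω E hE)

/-- lower bound -/
theorem one_le_conf (hB : IsBrownian n P B) (hn : 60 ≤ n) :
    ∀ᵐ ω ∂P, 1 ≤ confDim (trace B ω) := by
  have h1 : ∀ᵐ ω ∂P, B 1 ω ≠ B 0 ω := by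
    have h2 := bm_ball hB hn (s := 0) (t := 1) zero_lt_one 0 (R := 0) le_rfl
    have h3 : P {ω | ‖B 1 ω - B 0 ω - 0‖ ≤ 0} = 0 := by
      refine le_antisymm (h2.trans (le_of_eq ?_)) zero_le
      simp
    rw [ae_iff]
    refine measure_mono_null ?_ h3
    intro ω hω
    simp only [ne_eq, Set.mem_ofPred_eq, not_not] at hω
    rw [Set.mem_ofPred_eq, hω]
    simp
  filter_upwards [hB.cont, h1] with ω hω hne
  have hconn : IsConnected (trace B ω) := by
    unfold trace
    have h2 : IsConnected (Set.Icc (0 : ℝ≥0) 1) := isConnected_Icc zero_le_one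
    exact h2.image _ hω.continuousOn
  haveI : ConnectedSpace (trace B ω) := isConnected_iff_connectedSpace.1 hconn
  haveI : Nontrivial (trace B ω) := by
    refine ⟨⟨B 1 ω, 1, ⟨zero_le, le_rfl⟩, rfl⟩, ⟨B 0 ω, 0, ⟨le_rfl, zero_le⟩, rfl⟩, ?_⟩
    intro h
    exact hne (congrArg Subtype.val h)
  exact one_le_confDim

/-- **main theorem** -/
theorem conf_eq_one (hB : IsBrownian n P B) (hn : 60 ≤ n) :
    ∀ᵐ ω ∂P, confDim (trace B ω) = 1 ∧ confDim (trace B ω) < dimH (trace B ω) := by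
  filter_upwards [conf_le_one hB hn, one_le_conf hB hn,
    Pool.Agent.Helper14.BMDim.dimH_trace_ge (by omega) hB] with ω h1 h2 h3
  have h4 : confDim (trace B ω) = 1 := le_antisymm h1 h2
  refine ⟨h4, ?_⟩
  rw [h4]
  exact lt_of_lt_of_le (by norm_num) h3

end Pool.Agent.Helper83.ConfDim
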