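import Pool.Agent.Helper83.ConfDim.Prob6

open MeasureTheory ProbabilityTheory Filter
open scoped ENNReal NNReal Topology

namespace Pool.Agent.Helper83.ConfDim

/-! numerical inequalities -/

/-- a numerical constant -/
noncomputable def c50 : ℝ := 50 ^ 30

lemma c50_pos : 0 < c50 := by unfold c50; positivity

lemma num_w {x C : ℝ} {E d q : ℕ} (hx : 0 < x) (hx1 : x ≤ 1) (hC : 0 ≤ C) (hd : 2 ≤ d)
    (hq : 36 ≤ q) (hE : 1 ≤ E) (h : (C + 1) * 128 ^ q * x ≤ 1) :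
    C * (128 * 4 ^ d * x ^ (E * (2 * d - 3))) ^ q ≤ (x ^ (11 * E)) ^ (d + 1) := by
  have h1 : (128 : ℝ) * 4 ^ d ≤ 128 ^ (d + 1) := by
    rw [pow_succ, mul_comm]
    gcongr
    norm_num
  have h2 : (x ^ (E * (2 * d - 3))) ^ q ≤ x ^ (12 * E * (d + 1)) := by
    rw [← pow_mul]
    refine pow_le_pow_of_le_one hx.le hx1 ?_
    obtain ⟨e, rfl⟩ := Nat.exists_eq_add_of_le hd
    have h3 : 2 * (2 + e) - 3 = 2 * e + 1 := by omega
    rw [h3]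
    calc 12 * E * (2 + e + 1) = E * (12 * e + 36) := by ring
      _ ≤ E * ((2 * e + 1) * 36) := by
          apply Nat.mul_le_mul_left; omega
      _ ≤ E * ((2 * e + 1) * q) := by gcongr
      _ = E * (2 * e + 1) * q := by ring
  have h3 : (128 : ℝ) ^ q * (C + 1) * x ^ E ≤ 1 := by
    have h4 : x ^ E ≤ x := by
      calc x ^ E ≤ x ^ 1 := pow_le_pow_of_le_one hx.le hx1 hE
        _ = x := pow_one x
    calc (128 : ℝ) ^ q * (C + 1) * x ^ E ≤ 128 ^ q * (C + 1) * x := by gcongr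
      _ = (C + 1) * 128 ^ q * x := by ring
      _ ≤ 1 := h
  calc C * (128 * 4 ^ d * x ^ (E * (2 * d - 3))) ^ q
      = C * ((128 * 4 ^ d) ^ q * (x ^ (E * (2 * d - 3))) ^ q) := by rw [mul_pow]
    _ ≤ (C + 1) ^ (d + 1) * ((128 ^ (d + 1)) ^ q * x ^ (12 * E * (d + 1))) := by
        have h5 : C ≤ (C + 1) ^ (d + 1) := by
          calc C ≤ C + 1 := by linarith
            _ ≤ (C + 1) ^ (d + 1) := le_self_pow₀ (by linarith) (by omega)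
        gcongr
    _ = ((128 : ℝ) ^ q * (C + 1) * x ^ E) ^ (d + 1) * (x ^ (11 * E)) ^ (d + 1) := by
        have e1 : x ^ (12 * E * (d + 1)) = (x ^ E) ^ (d + 1) * (x ^ (11 * E)) ^ (d + 1) := by
          rw [← pow_mul, ← pow_mul, ← pow_add]; congr 1; ring
        have e2 : ((128 : ℝ) ^ (d + 1)) ^ q = (128 ^ q) ^ (d + 1) := by
          rw [← pow_mul, ← pow_mul, mul_comm]
        rw [e1, e2, mul_pow, mul_pow]; ring
    _ ≤ 1 ^ (d + 1) * (x ^ (11 * E)) ^ (d + 1) := by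
        gcongr
    _ = _ := by rw [one_pow, one_mul]

lemma num_f1 {x A C K : ℝ} {E d : ℕ} (hx : 0 < x) (hx1 : x ≤ 1) (hAx : A * x = 1) (hC : 0 ≤ C)
    (hK : K = 64 ^ (14 * E + 2)) (h : 8 * C * K * x ≤ 1) :
    A ^ (E + 2 * E * d + (d + 1)) * (2 * C * (64 * x ^ (d + 1)) ^ (14 * E + 2)) ≤
      (x ^ (11 * E)) ^ (d + 1) / 4 := by
  have hK0 : 0 ≤ K := by rw [hK]; positivity
  have e1 : (x ^ (d + 1)) ^ (14 * E + 2) =
      x ^ (E + 2 * E * d + (d + 1)) * ((x ^ (11 * E)) ^ (d + 1) * x ^ (d + 1 + E * (d + 2))) := by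
    rw [← pow_mul, ← pow_mul, ← pow_add, ← pow_add]; congr 1; ring
  have e2 : x ^ (d + 1 + E * (d + 2)) ≤ x := by
    calc x ^ (d + 1 + E * (d + 2)) ≤ x ^ 1 := pow_le_pow_of_le_one hx.le hx1 (by omega)
      _ = x := pow_one x
  calc A ^ (E + 2 * E * d + (d + 1)) * (2 * C * (64 * x ^ (d + 1)) ^ (14 * E + 2))
      = (A * x) ^ (E + 2 * E * d + (d + 1)) *
          (2 * C * K * x ^ (d + 1 + E * (d + 2)) * (x ^ (11 * E)) ^ (d + 1)) := by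
        rw [mul_pow 64, e1, hK, mul_pow A]; ring
    _ = (2 * C * K * x ^ (d + 1 + E * (d + 2)) * (x ^ (11 * E)) ^ (d + 1)) := by
        rw [hAx, one_pow, one_mul]
    _ ≤ 2 * C * K * x * (x ^ (11 * E)) ^ (d + 1) := by gcongr
    _ = (8 * C * K * x) * (x ^ (11 * E)) ^ (d + 1) / 4 := by ring
    _ ≤ 1 * (x ^ (11 * E)) ^ (d + 1) / 4 := by gcongr
    _ = _ := by rw [one_mul]

lemma num_f2 {x A : ℝ} {E d : ℕ} (hx : 0 < x) (hx1 : x ≤ 1) (hAx : A * x = 1) (hE : 1 ≤ E)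
    (hd : 1 ≤ d) (h : 4 * c50 * x ≤ 1) :
    A ^ (E + 2 * E * d + (d + 1)) * (50 * x ^ (E * (2 * d - 1))) ^ 30 ≤
      (x ^ (11 * E)) ^ (d + 1) / 4 := by
  have hc := c50_pos
  obtain ⟨e, rfl⟩ := Nat.exists_eq_add_of_le hd
  have h3 : 2 * (1 + e) - 1 = 2 * e + 1 := by omega
  rw [h3]
  obtain ⟨r, hr⟩ : ∃ r, E * (47 * e + 5) = (1 + e + 1) + 1 + r := by
    refine Nat.exists_eq_add_of_le ?_
    nlinarith
  have e1 : (x ^ (E * (2 * e + 1))) ^ 30 =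
      x ^ (E + 2 * E * (1 + e) + (1 + e + 1)) * ((x ^ (11 * E)) ^ (1 + e + 1) * x ^ (1 + r)) := by
    rw [← pow_mul, ← pow_mul, ← pow_add, ← pow_add]; congr 1
    calc E * (2 * e + 1) * 30 = E + 2 * E * (1 + e) + (11 * E * (1 + e + 1)) + E * (47 * e + 5) := by
          ring
      _ = _ := by rw [hr]; ring
  have e2 : x ^ (1 + r) ≤ x := by
    calc x ^ (1 + r) ≤ x ^ 1 := pow_le_pow_of_le_one hx.le hx1 (by omega)
      _ = x := pow_one x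
  have e3 : (50 * x ^ (E * (2 * e + 1))) ^ 30 = c50 * (x ^ (E * (2 * e + 1))) ^ 30 := by
    rw [mul_pow, c50]
  rw [e3, e1]
  calc A ^ (E + 2 * E * (1 + e) + (1 + e + 1)) * (c50 *
        (x ^ (E + 2 * E * (1 + e) + (1 + e + 1)) * ((x ^ (11 * E)) ^ (1 + e + 1) * x ^ (1 + r))))
      = (A * x) ^ (E + 2 * E * (1 + e) + (1 + e + 1)) *
          (c50 * x ^ (1 + r) * (x ^ (11 * E)) ^ (1 + e + 1)) := by
        rw [mul_pow A]; ring
    _ = (c50 * x ^ (1 + r) * (x ^ (11 * E)) ^ (1 + e + 1)) := by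
        rw [hAx, one_pow, one_mul]
    _ ≤ c50 * x * (x ^ (11 * E)) ^ (1 + e + 1) := by gcongr
    _ = (4 * c50 * x) * (x ^ (11 * E)) ^ (1 + e + 1) / 4 := by ring
    _ ≤ 1 * (x ^ (11 * E)) ^ (1 + e + 1) / 4 := by gcongr
    _ = _ := by rw [one_mul]

/-- numerical requirements on the parameters -/
structure Num (n E A : ℕ) : Prop where
  hA : 16 ≤ A
  h4 : 4 ∣ A
  hE : 5 ≤ E
  hpj : 2 * pj A ≤ 1 / 64
  hloc : 2 * ((A : ℝ) ^ (3 * E + 1) * (2 * Ct n (14 * E + 2) * (64 / A) ^ (14 * E + 2)) +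
      (A : ℝ) ^ (E + 1) * (2 * Ct n (14 * E + 2) * (65536 / A) ^ (14 * E + 2)) +
      ((A : ℝ) ^ (3 * E + 1) + 1) ^ 2 * (36 / (A : ℝ) ^ E) ^ 30 +
      (A : ℝ) ^ (E + 1) * (1 / 4) ^ Nw A E) +
      ((A : ℝ) ^ (3 * E + 1) + 1) ^ 2 * (72 / (A : ℝ) ^ E) ^ 30 ≤ ((A : ℝ)⁻¹) ^ (11 * E)
  hw : (4 * Ct n 36 + 1) * 128 ^ 36 * (A : ℝ)⁻¹ ≤ 1
  hf1 : 8 * Ct n (14 * E + 2) * 64 ^ (14 * E + 2) * (A : ℝ)⁻¹ ≤ 1
  hf2 : 4 * c50 * (A : ℝ)⁻¹ ≤ 1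

end Pool.Agent.Helper83.ConfDim
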