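import Pool.Agent.Helper83.ConfDim.Defs

open MeasureTheory ProbabilityTheory Filter
open scoped ENNReal NNReal Topology

namespace Pool.Agent.Helper83.ConfDim

/-! one-dimensional Gaussian estimates -/

lemma gauss_ball {v : ℝ≥0} (hv : v ≠ 0) (y : ℝ) {R : ℝ} :
    gaussianReal 0 v {x | |x - y| ≤ R} ≤ ENNReal.ofReal (R / Real.sqrt v) := by
  rw [gaussianReal_apply 0 hv]
  have hv' : (0 : ℝ) < v := by positivity
  have h1 : ∀ x, gaussianPDF 0 v x ≤ ENNReal.ofReal (1 / (2 * Real.sqrt v)) := by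
    intro x
    unfold gaussianPDF gaussianPDFReal
    apply ENNReal.ofReal_le_ofReal
    have h2 : Real.exp (-(x - 0) ^ 2 / (2 * v)) ≤ 1 := by
      apply Real.exp_le_one_iff.2
      apply div_nonpos_of_nonpos_of_nonneg
      · nlinarith [sq_nonneg (x - 0)]
      · positivity
    have h3 : 2 * Real.sqrt v ≤ Real.sqrt (2 * Real.pi * v) := by
      rw [show (2 : ℝ) = Real.sqrt 4 by
        rw [show (4 : ℝ) = 2 ^ 2 by norm_num]; rw [Real.sqrt_sq (by norm_num)]]
      rw [← Real.sqrt_mul (by norm_num)]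
      apply Real.sqrt_le_sqrt
      have h4 : Real.sqrt 4 = 2 := by
        rw [show (4 : ℝ) = 2 ^ 2 by norm_num]; rw [Real.sqrt_sq (by norm_num)]
      rw [h4]
      have := Real.pi_gt_three
      nlinarith
    have h5 : 0 < 2 * Real.sqrt v := by positivity
    calc (Real.sqrt (2 * Real.pi * v))⁻¹ * Real.exp (-(x - 0) ^ 2 / (2 * v))
        ≤ (Real.sqrt (2 * Real.pi * v))⁻¹ * 1 := by gcongr
      _ = (Real.sqrt (2 * Real.pi * v))⁻¹ := mul_one _
      _ ≤ (2 * Real.sqrt v)⁻¹ := by gcongr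
      _ = 1 / (2 * Real.sqrt v) := by rw [one_div]
  calc ∫⁻ x in {x | |x - y| ≤ R}, gaussianPDF 0 v x
      ≤ ∫⁻ _ in {x | |x - y| ≤ R}, ENNReal.ofReal (1 / (2 * Real.sqrt v)) := lintegral_mono h1
    _ = ENNReal.ofReal (1 / (2 * Real.sqrt v)) * volume {x : ℝ | |x - y| ≤ R} := by
        rw [lintegral_const, Measure.restrict_apply_univ]
    _ = ENNReal.ofReal (1 / (2 * Real.sqrt v)) * ENNReal.ofReal (2 * R) := by
        congr 1
        have : {x : ℝ | |x - y| ≤ R} = Metric.closedBall y R := by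
          ext x; simp [Real.dist_eq]
        rw [this, Real.volume_closedBall]
    _ = ENNReal.ofReal (R / Real.sqrt v) := by
        rw [← ENNReal.ofReal_mul (by positivity)]
        congr 1
        field_simp

lemma gauss_upper {v : ℝ≥0} {l h : ℝ} (hl : 0 < l) (hh : (v : ℝ) ≤ h) (q : ℕ) :
    gaussianReal 0 v {x | l ≤ x} ≤ ENNReal.ofReal (q.factorial * (2 * h / l ^ 2) ^ q) := by
  by_cases hv : v = 0
  · subst hv
    have hms : MeasurableSet {x : ℝ | l ≤ x} := measurableSet_le measurable_const measurable_id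
    rw [gaussianReal_zero_var, Measure.dirac_apply' _ hms]
    rw [Set.indicator_of_notMem]
    · exact zero_le
    · simp only [Set.mem_ofPred_eq, not_le]; exact hl
  · have hv' : (0 : ℝ) < v := by positivity
    have h1 := measure_ge_le_exp_mul_mgf (μ := gaussianReal 0 v) (X := id) (t := l / v) l
      (by positivity) (by
        have := integrable_exp_mul_gaussianReal (μ := 0) (v := v) (l / v)
        simpa using this)
    have h2 : mgf id (gaussianReal 0 v) (l / v) = Real.exp (0 * (l / v) + v * (l / v) ^ 2 / 2) :=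
      mgf_gaussianReal (p := gaussianReal 0 v) (X := id) (by simp) (l / v)
    rw [h2, ← Real.exp_add] at h1
    have h3 : -(l / v) * l + (0 * (l / v) + v * (l / v) ^ 2 / 2) = -(l ^ 2 / (2 * v)) := by
      field_simp; ring
    rw [h3] at h1
    have h4 : Real.exp (-(l ^ 2 / (2 * v))) ≤ q.factorial * (2 * h / l ^ 2) ^ q := by
      have h5 := Real.pow_div_factorial_le_exp (x := l ^ 2 / (2 * v)) (by positivity) q
      rw [Real.exp_neg]
      have h6 : 0 < (l ^ 2 / (2 * v)) ^ q / (q.factorial : ℝ) := by positivity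
      calc (Real.exp (l ^ 2 / (2 * v)))⁻¹ ≤ ((l ^ 2 / (2 * v)) ^ q / (q.factorial : ℝ))⁻¹ := by
            gcongr
        _ = q.factorial * (2 * v / l ^ 2) ^ q := by
            rw [inv_div, ← inv_div (l ^ 2) (2 * (v : ℝ)), inv_pow]; field_simp
        _ ≤ q.factorial * (2 * h / l ^ 2) ^ q := by gcongr
    have h7 : gaussianReal 0 v {x | l ≤ x} = ENNReal.ofReal ((gaussianReal 0 v).real {x | l ≤ id x}) := by
      rw [measureReal_def, ENNReal.ofReal_toReal (measure_ne_top _ _)]; rfl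
    rw [h7]
    exact ENNReal.ofReal_le_ofReal (h1.trans h4)

lemma gauss_tail {v : ℝ≥0} {l h : ℝ} (hl : 0 < l) (hh : (v : ℝ) ≤ h) (q : ℕ) :
    gaussianReal 0 v {x | l ≤ |x|} ≤ ENNReal.ofReal (2 * (q.factorial * (2 * h / l ^ 2) ^ q)) := by
  have h1 : {x : ℝ | l ≤ |x|} = {x | l ≤ x} ∪ {x | l ≤ -x} := by
    ext x; simp only [Set.mem_ofPred_eq, Set.mem_union]; exact le_abs
  have hh0 : 0 ≤ h := (NNReal.coe_nonneg v).trans hh
  have h2 : gaussianReal 0 v {x | l ≤ -x} = gaussianReal 0 v {x | l ≤ x} := by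
    have h3 := gaussianReal_map_neg (μ := 0) (v := v)
    rw [neg_zero] at h3
    conv_rhs => rw [← h3]
    have hms : MeasurableSet {x : ℝ | l ≤ x} := measurableSet_le measurable_const measurable_id
    have hmn : Measurable fun x : ℝ => -x := measurable_neg
    rw [Measure.map_apply hmn hms]
    rfl
  rw [h1]
  refine (measure_union_le _ _).trans ?_
  rw [h2, two_mul, ENNReal.ofReal_add (by positivity) (by positivity)]
  exact add_le_add (gauss_upper hl hh q) (gauss_upper hl hh q)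

variable {Ω : Type*} [MeasurableSpace Ω] {n : ℕ} {P : Measure Ω}
  {B : ℝ≥0 → Ω → EuclideanSpace ℝ (Fin n)}

/-- constant of the tail bound -/
noncomputable def Ct (n q : ℕ) : ℝ := n * (2 * (q.factorial * (2 * n) ^ q))

lemma Ct_nonneg (n q : ℕ) : 0 ≤ Ct n q := by unfold Ct; positivity

lemma law_sub (hB : IsBrownian n P B) {s t : ℝ≥0} (h : s ≤ t) :
    P.map (fun ω (i : Fin n) => (B t ω - B s ω) i) =
      Measure.pi fun _ : Fin n => gaussianReal 0 (t - s) := by
  have := hB.law s (t - s)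
  rwa [add_tsub_cancel_of_le h] at this

lemma measurable_inc (hB : IsBrownian n P B) (s t : ℝ≥0) :
    Measurable fun ω (i : Fin n) => (B t ω - B s ω) i := by
  refine measurable_pi_lambda _ fun i => ?_
  have h1 : Measurable fun ω => B t ω - B s ω := (hB.measurable t).sub (hB.measurable s)
  have h2 : Measurable fun v : EuclideanSpace ℝ (Fin n) => v i := by fun_prop
  exact h2.comp h1

/-- small ball estimate -/
lemma bm_ball (hB : IsBrownian n P B) (hn : 60 ≤ n) {s t : ℝ≥0} (hst : s < t)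
    (y : EuclideanSpace ℝ (Fin n)) {R : ℝ} (hR : 0 ≤ R) [IsProbabilityMeasure P] :
    P {ω | ‖B t ω - B s ω - y‖ ≤ R} ≤ ENNReal.ofReal ((R ^ 2 / (t - s)) ^ 30) := by
  have hts : (0 : ℝ) < t - s := by
    have : (s : ℝ) < t := by exact_mod_cast hst
    linarith
  have hv : t - s ≠ 0 := (tsub_pos_of_lt hst).ne'
  have hcoe : ((t - s : ℝ≥0) : ℝ) = t - s := NNReal.coe_sub hst.le
  set r : ℝ := R / Real.sqrt (t - s) with hr
  have hr0 : 0 ≤ r := by positivity
  have hr2 : r ^ 2 = R ^ 2 / (t - s) := by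
    rw [hr, div_pow, Real.sq_sqrt hts.le]
  have h1 : P {ω | ‖B t ω - B s ω - y‖ ≤ R} ≤ ENNReal.ofReal r ^ n := by
    have h2 : {ω | ‖B t ω - B s ω - y‖ ≤ R} ⊆ (fun ω (i : Fin n) => (B t ω - B s ω) i) ⁻¹'
        (Set.univ.pi fun i => {x : ℝ | |x - y i| ≤ R}) := by
      intro ω hω
      simp only [Set.mem_preimage, Set.mem_pi, Set.mem_univ, Set.mem_ofPred_eq, forall_true_left]
      intro i
      have h3 : ‖(B t ω - B s ω - y) i‖ ≤ ‖B t ω - B s ω - y‖ := PiLp.norm_apply_le _ i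
      have h4 : ‖B t ω - B s ω - y‖ ≤ R := hω
      calc |(B t ω - B s ω) i - y i| = ‖(B t ω - B s ω - y) i‖ := by simp [Real.norm_eq_abs]
        _ ≤ R := h3.trans h4
    have hms : ∀ i : Fin n, MeasurableSet {x : ℝ | |x - y i| ≤ R} := fun i =>
      measurableSet_le (measurable_id.sub_const _).abs measurable_const
    calc P {ω | ‖B t ω - B s ω - y‖ ≤ R} ≤ _ := measure_mono h2
      _ = (P.map (fun ω (i : Fin n) => (B t ω - B s ω) i))
          (Set.univ.pi fun i => {x : ℝ | |x - y i| ≤ R}) := by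
          rw [Measure.map_apply (measurable_inc hB s t)
            (MeasurableSet.pi Set.countable_univ fun i _ => hms i)]
      _ = ∏ i : Fin n, gaussianReal 0 (t - s) {x : ℝ | |x - y i| ≤ R} := by
          rw [law_sub hB hst.le, Measure.pi_pi]
      _ ≤ ∏ _i : Fin n, ENNReal.ofReal r := by
          refine Finset.prod_le_prod' fun i _ => ?_
          have := gauss_ball hv (y i) (R := R)
          rwa [hcoe] at this
      _ = ENNReal.ofReal r ^ n := by simp
  rcases le_total r 1 with h5 | h5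
  · calc P {ω | ‖B t ω - B s ω - y‖ ≤ R} ≤ ENNReal.ofReal r ^ n := h1
      _ ≤ ENNReal.ofReal r ^ 60 := by
          refine pow_le_pow_of_le_one zero_le ?_ hn
          rw [← ENNReal.ofReal_one]; exact ENNReal.ofReal_le_ofReal h5
      _ = ENNReal.ofReal ((R ^ 2 / (t - s)) ^ 30) := by
          rw [← hr2, ← pow_mul, ENNReal.ofReal_pow hr0]
  · calc P {ω | ‖B t ω - B s ω - y‖ ≤ R} ≤ 1 := prob_le_one
      _ ≤ ENNReal.ofReal ((R ^ 2 / (t - s)) ^ 30) := by
          rw [← hr2, ← ENNReal.ofReal_one]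
          apply ENNReal.ofReal_le_ofReal
          exact one_le_pow₀ (one_le_pow₀ h5)

/-- tail estimate -/
lemma bm_tail (hB : IsBrownian n P B) (hn : 1 ≤ n) {s t : ℝ≥0} (hst : s ≤ t) {h l : ℝ}
    (hh : (t : ℝ) - s ≤ h) (hl : 0 < l) (q : ℕ) :
    P {ω | l ≤ ‖B t ω - B s ω‖} ≤ ENNReal.ofReal (Ct n q * (h / l ^ 2) ^ q) := by
  have hn0 : (0 : ℝ) < n := by exact_mod_cast hn
  set l' : ℝ := l / Real.sqrt n with hl'
  have hl'0 : 0 < l' := by positivity
  have hl'2 : l' ^ 2 = l ^ 2 / n := by rw [hl', div_pow, Real.sq_sqrt hn0.le]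
  have hcoe : ((t - s : ℝ≥0) : ℝ) ≤ h := by rw [NNReal.coe_sub hst]; exact hh
  have hh0 : 0 ≤ h := (NNReal.coe_nonneg _).trans hcoe
  have h2 : {ω | l ≤ ‖B t ω - B s ω‖} ⊆ ⋃ i : Fin n, (fun ω (i : Fin n) => (B t ω - B s ω) i) ⁻¹'
      {x | l' ≤ |x i|} := by
    intro ω hω
    have hω' : l ≤ ‖B t ω - B s ω‖ := hω
    by_contra hcon
    simp only [Set.mem_iUnion, Set.mem_preimage, Set.mem_ofPred_eq, not_exists, not_le] at hcon
    have h3 : ‖B t ω - B s ω‖ ^ 2 < l ^ 2 := by
      rw [EuclideanSpace.norm_sq_eq]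
      calc ∑ i, ‖(B t ω - B s ω) i‖ ^ 2 < ∑ _i : Fin n, l' ^ 2 := by
            refine Finset.sum_lt_sum_of_nonempty ⟨⟨0, hn⟩, Finset.mem_univ _⟩ fun i _ => ?_
            rw [Real.norm_eq_abs]
            exact pow_lt_pow_left₀ (hcon i) (abs_nonneg _) (by norm_num)
        _ = l ^ 2 := by
            rw [Finset.sum_const, Finset.card_univ, Fintype.card_fin, nsmul_eq_mul, hl'2]
            field_simp
    have h4 : ‖B t ω - B s ω‖ < l := lt_of_pow_lt_pow_left₀ 2 hl.le h3
    linarith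
  have hms : ∀ i : Fin n, MeasurableSet {x : Fin n → ℝ | l' ≤ |x i|} := fun i =>
    measurableSet_le measurable_const (measurable_pi_apply i).abs
  have h3 : ∀ i : Fin n, P ((fun ω (i : Fin n) => (B t ω - B s ω) i) ⁻¹' {x | l' ≤ |x i|}) ≤
      ENNReal.ofReal (2 * (q.factorial * (2 * h / l' ^ 2) ^ q)) := by
    intro i
    rw [← Measure.map_apply (measurable_inc hB s t) (hms i), law_sub hB hst]
    have h4 := (measurePreserving_eval (fun _ : Fin n => gaussianReal 0 (t - s)) i)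
    have h5 : {x : Fin n → ℝ | l' ≤ |x i|} = Function.eval i ⁻¹' {x : ℝ | l' ≤ |x|} := rfl
    have hms1 : MeasurableSet {x : ℝ | l' ≤ |x|} :=
      measurableSet_le measurable_const measurable_id.abs
    rw [h5, h4.measure_preimage hms1.nullMeasurableSet]
    exact gauss_tail hl'0 hcoe q
  calc P {ω | l ≤ ‖B t ω - B s ω‖} ≤ _ := measure_mono h2
    _ ≤ ∑ i : Fin n, P ((fun ω (i : Fin n) => (B t ω - B s ω) i) ⁻¹' {x | l' ≤ |x i|}) :=
        measure_iUnion_fintype_le _ _
    _ ≤ ∑ _i : Fin n, ENNReal.ofReal (2 * (q.factorial * (2 * h / l' ^ 2) ^ q)) :=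
        Finset.sum_le_sum fun i _ => h3 i
    _ = n * ENNReal.ofReal (2 * (q.factorial * (2 * h / l' ^ 2) ^ q)) := by simp
    _ = ENNReal.ofReal (Ct n q * (h / l ^ 2) ^ q) := by
        rw [← ENNReal.ofReal_natCast, ← ENNReal.ofReal_mul (by positivity)]
        congr 1
        unfold Ct
        rw [hl'2]
        have : 2 * h / (l ^ 2 / n) = (2 * n) * (h / l ^ 2) := by field_simp
        rw [this, mul_pow]
        ring

end Pool.Agent.Helper83.ConfDim
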