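import Pool.Agent.Helper83.ConfDim.Prob9

open MeasureTheory ProbabilityTheory Filter
open scoped ENNReal NNReal Topology

namespace Pool.Agent.Helper83.ConfDim

lemma prod_even_odd (g : ℕ → ℝ≥0∞) (r : ℕ) : ∏ l ∈ Finset.range (2 * r), g l =
    (∏ i ∈ Finset.range r, g (0 + 2 * i)) * ∏ i ∈ Finset.range r, g (1 + 2 * i) := by
  induction r with
  | zero => simp
  | succ r ih =>
    rw [show 2 * (r + 1) = 2 * r + 1 + 1 by ring, Finset.prod_range_succ, Finset.prod_range_succ, ih,
      Finset.prod_range_succ, Finset.prod_range_succ, zero_add, add_comm 1 (2 * r)]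
    ring

lemma mul_le_sq_add (X Y : ℝ≥0∞) : X * Y ≤ X ^ 2 + Y ^ 2 := by
  rcases le_total X Y with h | h
  · calc X * Y ≤ Y * Y := by gcongr
      _ = Y ^ 2 := (sq Y).symm
      _ ≤ _ := le_add_self
  · calc X * Y ≤ X * X := by gcongr
      _ = X ^ 2 := (sq X).symm
      _ ≤ _ := le_self_add

/-- a set of indices is controlled by its farthest point -/
lemma far_card {S : Finset ℕ} {l δ : ℕ} (h : ∀ j ∈ S, dl l j ≤ δ) : S.card ≤ 2 * δ + 1 := by
  have h1 : S ⊆ Finset.Icc (l - δ) (l + δ) := by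
    intro j hj
    have := h j hj
    unfold dl at this
    rw [Finset.mem_Icc]
    omega
  refine (Finset.card_le_card h1).trans ?_
  rw [Nat.card_Icc]
  omega

variable {Ω : Type*} {n : ℕ} {B : ℝ≥0 → Ω → EuclideanSpace ℝ (Fin n)} {A E k : ℕ} {t : ℝ≥0}

open Classical in
/-- number of bad scales -/
noncomputable def nb (A E k : ℕ) (B : ℝ≥0 → Ω → EuclideanSpace ℝ (Fin n)) (t : ℝ≥0) (ω : Ω) : ℕ :=
  ((Finset.range k).filter fun j => ∃ l ≤ k + 1, Dev A E k l j (fun s => B s ω) t).card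

/-- the majorant -/
noncomputable def VV (A E k : ℕ) (B : ℝ≥0 → Ω → EuclideanSpace ℝ (Fin n)) (t : ℝ≥0) (ω : Ω) :
    ℝ≥0∞ := PF A E k B t (k + 2) 0 ω + PF A E k B t (k + 2) 1 ω

lemma nb_bound (hA : 1 ≤ A) (ω : Ω) : Zc A E ^ nb A E k B t ω ≤ VV A E k B t ω := by
  classical
  have hZ := one_le_Zc (E := E) hA
  set S : ℕ → Finset ℕ := fun l => (Finset.range k).filter fun j => ω ∈ DS A E k B t l j with hS
  set g : ℕ → ℝ≥0∞ := fun l => Zc A E ^ (S l).card with hg
  have hg1 : ∀ l, 1 ≤ g l := fun l => one_le_pow₀ hZ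
  have hnb : nb A E k B t ω ≤ ∑ l ∈ Finset.range (k + 2), (S l).card := by
    have hsub : ((Finset.range k).filter fun j => ∃ l ≤ k + 1, Dev A E k l j (fun s => B s ω) t) ⊆
        (Finset.range (k + 2)).biUnion S := by
      intro j hj
      rw [Finset.mem_filter] at hj
      obtain ⟨hj1, l, hl, hD⟩ := hj
      rw [Finset.mem_biUnion]
      refine ⟨l, Finset.mem_range.2 (by omega), ?_⟩
      rw [hS]
      exact Finset.mem_filter.2 ⟨hj1, hl, hD⟩
    have h1 := (Finset.card_le_card hsub).trans Finset.card_biUnion_le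
    unfold nb
    convert h1
  have hgf : ∀ l, g l ^ 2 ≤ ff A E k B t l ω := by
    intro l
    rcases (S l).eq_empty_or_nonempty with h | h
    · have : g l = 1 := by simp only [hg, h, Finset.card_empty, pow_zero]
      rw [this]
      unfold ff
      simp
    · obtain ⟨j, hj, hmax⟩ := Finset.exists_max_image (S l) (dl l) h
      have h1 := far_card hmax
      have hj' := Finset.mem_filter.1 hj
      have h2 : g l ^ 2 ≤ Zc A E ^ (4 * (dl l j + 1)) := by
        simp only [hg]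
        rw [← pow_mul]
        exact pow_le_pow_right₀ hZ (by omega)
      refine h2.trans ?_
      unfold ff
      refine le_trans ?_ le_add_self
      have h3 : Zc A E ^ (4 * (dl l j + 1)) = (DS A E k B t l j).indicator
          (fun _ => Zc A E ^ (4 * (dl l j + 1))) ω := by
        rw [Set.indicator_of_mem hj'.2]
      rw [h3]
      exact Finset.single_le_sum (f := fun j => (DS A E k B t l j).indicator
          (fun _ => Zc A E ^ (4 * (dl l j + 1))) ω) (fun _ _ => zero_le) hj'.1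
  have hsq : ∀ c, (∏ i ∈ Finset.range (k + 2), g (c + 2 * i)) ^ 2 ≤
      PF A E k B t (k + 2) c ω := by
    intro c
    rw [← Finset.prod_pow]
    unfold PF
    exact Finset.prod_le_prod' fun i _ => hgf _
  calc Zc A E ^ nb A E k B t ω ≤ Zc A E ^ ∑ l ∈ Finset.range (k + 2), (S l).card :=
        pow_le_pow_right₀ hZ hnb
    _ = ∏ l ∈ Finset.range (k + 2), g l := by rw [← Finset.prod_pow_eq_pow_sum]
    _ ≤ ∏ l ∈ Finset.range (2 * (k + 2)), g l :=
        Finset.prod_le_prod_of_subset_of_one_le' (Finset.range_mono (by omega)) fun l _ _ => hg1 l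
    _ = (∏ i ∈ Finset.range (k + 2), g (0 + 2 * i)) * ∏ i ∈ Finset.range (k + 2), g (1 + 2 * i) :=
        prod_even_odd g (k + 2)
    _ ≤ (∏ i ∈ Finset.range (k + 2), g (0 + 2 * i)) ^ 2 +
        (∏ i ∈ Finset.range (k + 2), g (1 + 2 * i)) ^ 2 := mul_le_sq_add _ _
    _ ≤ VV A E k B t ω := add_le_add (hsq 0) (hsq 1)

lemma meas_VV [mΩ : MeasurableSpace Ω] {P : Measure Ω} (hB : IsBrownian n P B) (hA : 4 ≤ A)
    (hE : 2 ≤ E) : Measurable (VV A E k B t) := by
  have h0 : Measurable (PF A E k B t (k + 2) 0) :=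
    (meas_PF hA hE (k + 2) 0).mono (mIn_le hB.measurable _ _) le_rfl
  have h1 : Measurable (PF A E k B t (k + 2) 1) :=
    (meas_PF hA hE (k + 2) 1).mono (mIn_le hB.measurable _ _) le_rfl
  exact h0.add h1

lemma VV_le [mΩ : MeasurableSpace Ω] {P : Measure Ω} [IsProbabilityMeasure P]
    (hB : IsBrownian n P B) (hn : 60 ≤ n) (hN : Num n E A) :
    ∫⁻ ω, VV A E k B t ω ∂P ≤ 2 ^ (k + 3) := by
  have hA := hN.hA
  have hE := hN.hE
  have h0 : Measurable (PF A E k B t (k + 2) 0) :=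
    (meas_PF (by omega) (by omega) (k + 2) 0).mono (mIn_le hB.measurable _ _) le_rfl
  unfold VV
  rw [lintegral_add_left h0]
  calc _ ≤ (2 : ℝ≥0∞) ^ (k + 2) + 2 ^ (k + 2) :=
        add_le_add (PF_le hB hn hN _ _) (PF_le hB hn hN _ _)
    _ = 2 ^ (k + 3) := by rw [pow_succ _ (k + 2)]; ring

end Pool.Agent.Helper83.ConfDim
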