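import Pool.Agent.Helper83.ConfDim.Prob1

open MeasureTheory ProbabilityTheory Filter
open scoped ENNReal NNReal Topology

namespace Pool.Agent.Helper83.ConfDim

/-- chaining event: the path has a large dyadic increment on `[u, u+H]` -/
def Chb {E : Type*} [NormedAddCommGroup E] (γ : ℝ≥0 → E) (u H : ℝ≥0) (l : ℝ) : Prop :=
  ∃ i : ℕ, ∃ m < 2 ^ i, l * ((3 / 4) ^ i / 8) ≤
    ‖γ (u + (m + 1 : ℕ) * (H / 2 ^ i)) - γ (u + (m : ℕ) * (H / 2 ^ i))‖

section chain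
variable {E : Type*} [NormedAddCommGroup E] {γ : ℝ≥0 → E} {u H : ℝ≥0} {l : ℝ}

lemma chain_dyadic (hl : 0 ≤ l) (h : ¬ Chb γ u H l) (M : ℕ) : ∀ m ≤ 2 ^ M,
    ‖γ (u + (m : ℕ) * (H / 2 ^ M)) - γ u‖ ≤ l * ∑ i ∈ Finset.range (M + 1), (3 / 4 : ℝ) ^ i / 8 := by
  unfold Chb at h
  push Not at h
  induction M with
  | zero =>
    intro m hm
    rw [pow_zero] at hm
    rcases Nat.le_one_iff_eq_zero_or_eq_one.1 hm with h0 | h0
    · subst h0
      simp only [Nat.cast_zero, zero_mul, add_zero, sub_self, norm_zero]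
      positivity
    · subst h0
      have h1 := h 0 0 (by norm_num)
      simp only [Nat.cast_zero, zero_mul, add_zero, zero_add] at h1
      simp only [zero_add, Finset.range_one, Finset.sum_singleton]
      exact h1.le
  | succ M ih =>
    intro m hm
    rw [Finset.sum_range_succ, mul_add]
    have hpos : 0 ≤ l * ((3 / 4 : ℝ) ^ (M + 1) / 8) := by positivity
    have hhalf : ∀ m' : ℕ, ((2 * m' : ℕ) : ℝ≥0) * (H / 2 ^ (M + 1)) = (m' : ℝ≥0) * (H / 2 ^ M) := by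
      intro m'
      push_cast
      rw [pow_succ]
      field_simp
    rcases Nat.even_or_odd' m with ⟨m', hm' | hm'⟩
    · have h1 := ih m' (by rw [pow_succ] at hm; omega)
      rw [hm', hhalf m']
      linarith
    · have h2 : m' < 2 ^ M := by rw [pow_succ] at hm; omega
      have h1 := ih m' h2.le
      have h3 := h (M + 1) (2 * m') (by rw [pow_succ]; omega)
      rw [hhalf m'] at h3
      rw [hm']
      calc ‖γ (u + ((2 * m' + 1 : ℕ) : ℝ≥0) * (H / 2 ^ (M + 1))) - γ u‖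
          = ‖(γ (u + ((2 * m' + 1 : ℕ) : ℝ≥0) * (H / 2 ^ (M + 1))) -
              γ (u + (m' : ℝ≥0) * (H / 2 ^ M))) + (γ (u + (m' : ℝ≥0) * (H / 2 ^ M)) - γ u)‖ := by
            congr 1; abel
        _ ≤ _ + _ := norm_add_le _ _
        _ ≤ l * ((3 / 4 : ℝ) ^ (M + 1) / 8) +
            l * ∑ i ∈ Finset.range (M + 1), (3 / 4 : ℝ) ^ i / 8 := add_le_add h3.le h1
        _ = _ := by ring

lemma sum_chain_le (M : ℕ) : ∑ i ∈ Finset.range M, (3 / 4 : ℝ) ^ i / 8 ≤ 1 / 2 := by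
  have h1 : ∑ i ∈ Finset.range M, (3 / 4 : ℝ) ^ i ≤ 4 := by
    have h2 := geom_sum_mul (3 / 4 : ℝ) M
    have h3 : (0 : ℝ) ≤ (3 / 4) ^ M := by positivity
    nlinarith
  rw [← Finset.sum_div]
  linarith

/-- **chaining** -/
lemma chain_all (hγ : Continuous γ) (hl : 0 ≤ l) (h : ¬ Chb γ u H l) {s : ℝ≥0} (hs1 : u ≤ s)
    (hs2 : s ≤ u + H) : ‖γ s - γ u‖ ≤ l / 2 := by
  by_cases hH : H = 0
  · subst hH
    rw [add_zero] at hs2
    have : s = u := le_antisymm hs2 hs1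
    rw [this, sub_self, norm_zero]; positivity
  have hH' : 0 < H := pos_iff_ne_zero.2 hH
  set x : ℝ≥0 := s - u with hx
  have hxs : s = u + x := (add_tsub_cancel_of_le hs1).symm
  have hxH : x ≤ H := by rw [hx]; exact tsub_le_iff_left.2 hs2
  set f : ℕ → ℝ≥0 := fun M => u + (⌊x / H * 2 ^ M⌋₊ : ℝ≥0) * (H / 2 ^ M) with hf
  have hlim : Tendsto f atTop (𝓝 s) := by
    have h1 : Tendsto (fun M : ℕ => (⌊x / H * 2 ^ M⌋₊ : ℝ≥0) / 2 ^ M) atTop (𝓝 (x / H)) := by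
      have h2 := tendsto_nat_floor_mul_div_atTop (R := ℝ) (a := (x / H : ℝ≥0)) (NNReal.coe_nonneg _)
      have h3 : Tendsto (fun M : ℕ => (2 : ℝ) ^ M) atTop atTop :=
        tendsto_pow_atTop_atTop_of_one_lt (by norm_num)
      have h4 := h2.comp h3
      rw [← NNReal.tendsto_coe]
      refine h4.congr fun M => ?_
      simp only [Function.comp]
      push_cast
      congr 1
    have h2 : Tendsto (fun M : ℕ => u + H * ((⌊x / H * 2 ^ M⌋₊ : ℝ≥0) / 2 ^ M)) atTop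
        (𝓝 (u + H * (x / H))) := tendsto_const_nhds.add (h1.const_mul H)
    have h3 : u + H * (x / H) = s := by rw [mul_div_cancel₀ x hH, ← hxs]
    rw [h3] at h2
    refine h2.congr fun M => ?_
    simp only [hf]
    congr 1
    ring
  have hlim2 : Tendsto (fun M => ‖γ (f M) - γ u‖) atTop (𝓝 ‖γ s - γ u‖) :=
    (((hγ.tendsto s).comp hlim).sub_const _).norm
  refine le_of_tendsto hlim2 (Eventually.of_forall fun M => ?_)
  have h1 : ⌊x / H * 2 ^ M⌋₊ ≤ 2 ^ M := by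
    apply Nat.floor_le_of_le
    have h2 : x / H ≤ 1 := (div_le_one₀ hH').2 hxH
    calc x / H * 2 ^ M ≤ 1 * 2 ^ M := by gcongr
      _ = ((2 ^ M : ℕ) : ℝ≥0) := by push_cast; ring
  have h2 := chain_dyadic hl h M _ h1
  have h3 := sum_chain_le (M + 1)
  calc ‖γ (f M) - γ u‖ ≤ _ := h2
    _ ≤ l * (1 / 2) := by gcongr
    _ = l / 2 := by ring

end chain

variable {Ω : Type*} [mΩ : MeasurableSpace Ω] {n : ℕ} {P : Measure Ω}

/-- One-sided Gaussian process with independent increments, as seen on `[0, V]`. -/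
structure Side (n : ℕ) (P : Measure Ω) (V : ℝ≥0) (γ : ℝ≥0 → Ω → EuclideanSpace ℝ (Fin n)) :
    Prop where
  meas : ∀ v, Measurable (γ v)
  tail : ∀ {s t : ℝ≥0}, s ≤ t → ∀ {h l : ℝ}, (t : ℝ) - s ≤ h → 0 < l → ∀ q : ℕ,
    P {ω | l ≤ ‖γ t ω - γ s ω‖} ≤ ENNReal.ofReal (Ct n q * (h / l ^ 2) ^ q)
  ball : ∀ {s t : ℝ≥0}, s < t → t ≤ V → ∀ (y : EuclideanSpace ℝ (Fin n)) {R : ℝ}, 0 ≤ R →
    P {ω | ‖γ t ω - γ s ω - y‖ ≤ R} ≤ ENNReal.ofReal ((R ^ 2 / (t - s)) ^ 30)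
  indep : HasIndepIncrements γ P

/-- probability of the chaining event -/
lemma Side.chb {V : ℝ≥0} {γ : ℝ≥0 → Ω → EuclideanSpace ℝ (Fin n)} (hγ : Side n P V γ)
    (u H : ℝ≥0) {l : ℝ} (hl : 0 < l) {q : ℕ} (hq : 12 ≤ q) :
    P {ω | Chb (fun v => γ v ω) u H l} ≤ ENNReal.ofReal (2 * Ct n q * (64 * (H / l ^ 2)) ^ q) := by
  have hsub : {ω | Chb (fun v => γ v ω) u H l} = ⋃ i : ℕ, ⋃ m ∈ Finset.range (2 ^ i),
      {ω | l * ((3 / 4) ^ i / 8) ≤ ‖γ (u + (m + 1 : ℕ) * (H / 2 ^ i)) ω -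
        γ (u + (m : ℕ) * (H / 2 ^ i)) ω‖} := by
    ext ω
    simp only [Chb, Set.mem_ofPred_eq, Set.mem_iUnion, Finset.mem_range, exists_prop]
  have hC := Ct_nonneg n q
  have h89 : (2 : ℝ) * (8 / 9) ^ q ≤ 1 / 2 := by
    calc (2 : ℝ) * (8 / 9) ^ q ≤ 2 * (8 / 9) ^ 12 := by
          gcongr 2 * ?_
          exact pow_le_pow_of_le_one (by norm_num) (by norm_num) hq
      _ ≤ 1 / 2 := by norm_num
  have h1 : ∀ (i m : ℕ), P {ω | l * ((3 / 4) ^ i / 8) ≤ ‖γ (u + (m + 1 : ℕ) * (H / 2 ^ i)) ω -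
        γ (u + (m : ℕ) * (H / 2 ^ i)) ω‖} ≤
      ENNReal.ofReal (Ct n q * (64 * (H / l ^ 2)) ^ q * ((8 / 9) ^ q) ^ i) := by
    intro i m
    have hle : u + (m : ℕ) * (H / 2 ^ i) ≤ u + (m + 1 : ℕ) * (H / 2 ^ i) := by
      gcongr
      exact_mod_cast Nat.le_succ m
    have h2 := hγ.tail hle (h := (H : ℝ) / 2 ^ i) (l := l * ((3 / 4) ^ i / 8)) (by
      push_cast; ring_nf; exact le_rfl) (by positivity) q
    refine h2.trans (ENNReal.ofReal_le_ofReal (le_of_eq ?_))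
    rw [mul_assoc]
    congr 1
    rw [← pow_mul, mul_comm q i, pow_mul, ← mul_pow]
    congr 1
    have e1 : ((8 : ℝ) / 9) ^ i = (1 / 2) ^ i / ((3 / 4) ^ i) ^ 2 := by
      rw [← pow_mul, mul_comm i 2, pow_mul, ← div_pow]
      norm_num
    rw [e1]
    have e2 : ((1 : ℝ) / 2) ^ i = 1 / 2 ^ i := by rw [one_div, one_div, inv_pow]
    rw [e2]
    field_simp
    norm_num
  rw [hsub]
  calc P (⋃ i : ℕ, ⋃ m ∈ Finset.range (2 ^ i), _) ≤ ∑' i : ℕ, P (⋃ m ∈ Finset.range (2 ^ i), _) :=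
        measure_iUnion_le _
    _ ≤ ∑' i : ℕ, ENNReal.ofReal (Ct n q * (64 * (H / l ^ 2)) ^ q * (1 / 2) ^ i) := by
        refine ENNReal.tsum_le_tsum fun i => ?_
        calc P (⋃ m ∈ Finset.range (2 ^ i), _) ≤ ∑ m ∈ Finset.range (2 ^ i), P _ :=
              measure_biUnion_finset_le _ _
          _ ≤ ∑ _m ∈ Finset.range (2 ^ i),
              ENNReal.ofReal (Ct n q * (64 * (H / l ^ 2)) ^ q * ((8 / 9) ^ q) ^ i) :=
              Finset.sum_le_sum fun m _ => h1 i m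
          _ = ENNReal.ofReal (2 ^ i * (Ct n q * (64 * (H / l ^ 2)) ^ q * ((8 / 9) ^ q) ^ i)) := by
              have e3 : ENNReal.ofReal ((2 : ℝ) ^ i) = ((2 ^ i : ℕ) : ℝ≥0∞) := by
                rw [ENNReal.ofReal_pow (by norm_num)]; simp
              rw [Finset.sum_const, Finset.card_range, nsmul_eq_mul,
                ENNReal.ofReal_mul (by positivity : (0 : ℝ) ≤ 2 ^ i), e3]
          _ ≤ ENNReal.ofReal (Ct n q * (64 * (H / l ^ 2)) ^ q * (1 / 2) ^ i) := by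
              apply ENNReal.ofReal_le_ofReal
              calc (2 : ℝ) ^ i * (Ct n q * (64 * (H / l ^ 2)) ^ q * ((8 / 9) ^ q) ^ i)
                  = Ct n q * (64 * (H / l ^ 2)) ^ q * (2 * (8 / 9) ^ q) ^ i := by
                    rw [mul_pow]; ring
                _ ≤ _ := by gcongr
    _ = ENNReal.ofReal (2 * Ct n q * (64 * (H / l ^ 2)) ^ q) := by
        rw [← ENNReal.ofReal_tsum_of_nonneg (fun i => by positivity)]
        · congr 1
          rw [tsum_mul_left, tsum_geometric_of_lt_one (by norm_num) (by norm_num)]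
          norm_num
          ring
        · exact (summable_geometric_of_lt_one (by norm_num) (by norm_num)).mul_left _

omit mΩ in
/-- measurability of the chaining event with respect to a `σ`-algebra -/
lemma meas_chb {m : MeasurableSpace Ω} {γ : ℝ≥0 → Ω → EuclideanSpace ℝ (Fin n)} {u H V : ℝ≥0}
    (hV : u + H ≤ V) (hm : ∀ s t, s ≤ V → t ≤ V → Measurable[m] fun ω => γ s ω - γ t ω) (l : ℝ) :
    MeasurableSet[m] {ω | Chb (fun v => γ v ω) u H l} := by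
  have hsub : {ω | Chb (fun v => γ v ω) u H l} = ⋃ i : ℕ, ⋃ m ∈ Finset.range (2 ^ i),
      {ω | l * ((3 / 4) ^ i / 8) ≤ ‖γ (u + (m + 1 : ℕ) * (H / 2 ^ i)) ω -
        γ (u + (m : ℕ) * (H / 2 ^ i)) ω‖} := by
    ext ω
    simp only [Chb, Set.mem_ofPred_eq, Set.mem_iUnion, Finset.mem_range, exists_prop]
  rw [hsub]
  refine MeasurableSet.iUnion fun i => MeasurableSet.biUnion (Finset.countable_toSet _) fun k hk => ?_
  have hk' : k < 2 ^ i := Finset.mem_range.1 hk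
  have hle : ∀ k' : ℕ, k' ≤ 2 ^ i → u + (k' : ℝ≥0) * (H / 2 ^ i) ≤ V := by
    intro k' hk'
    refine le_trans ?_ hV
    gcongr
    calc (k' : ℝ≥0) * (H / 2 ^ i) ≤ ((2 ^ i : ℕ) : ℝ≥0) * (H / 2 ^ i) := by
          gcongr
      _ = H := by push_cast; field_simp
  have h1 : Measurable[m] fun ω => ‖γ (u + (k + 1 : ℕ) * (H / 2 ^ i)) ω -
      γ (u + (k : ℕ) * (H / 2 ^ i)) ω‖ := (hm _ _ (hle (k + 1) hk') (hle k hk'.le)).norm
  exact h1 measurableSet_Ici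

end Pool.Agent.Helper83.ConfDim
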