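import Pool.Agent.Helper83.ConfDim.Prob2

open MeasureTheory ProbabilityTheory Filter
open scoped ENNReal NNReal Topology

namespace Pool.Agent.Helper83.ConfDim

/-- enumeration of a finite set of times -/
lemma exists_enum (S : Finset ℝ≥0) : ∃ τ : ℕ → ℝ≥0, Monotone τ ∧ ∀ s ∈ S, ∃ i, τ i = s := by
  rcases S.eq_empty_or_nonempty with hS | hS
  · subst hS
    exact ⟨fun _ => 0, fun _ _ _ => le_rfl, fun s hs => absurd hs (Finset.notMem_empty s)⟩
  refine ⟨fun i => if h : i < S.card then S.orderEmbOfFin rfl ⟨i, h⟩ else S.max' hS, ?_, ?_⟩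
  · intro i j hij
    simp only
    by_cases hj : j < S.card
    · have hi : i < S.card := lt_of_le_of_lt hij hj
      rw [dif_pos hi, dif_pos hj]
      exact (S.orderEmbOfFin rfl).monotone hij
    · rw [dif_neg hj]
      by_cases hi : i < S.card
      · rw [dif_pos hi]
        exact S.le_max' _ (S.orderEmbOfFin_mem rfl _)
      · rw [dif_neg hi]
  · intro s hs
    have h1 : s ∈ Set.range (S.orderEmbOfFin rfl) := by
      rw [Finset.range_orderEmbOfFin]; exact hs
    obtain ⟨i, hi⟩ := h1
    refine ⟨i, ?_⟩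
    simp only [i.2, dif_pos]
    exact hi

variable {Ω : Type*} [mΩ : MeasurableSpace Ω] {n : ℕ} {P : Measure Ω}
  {B : ℝ≥0 → Ω → EuclideanSpace ℝ (Fin n)}

/-- sum over an interval of coordinates of a finite tuple -/
noncomputable def isum (D : Finset ℕ) (a b : ℕ) (x : D → EuclideanSpace ℝ (Fin n)) :
    EuclideanSpace ℝ (Fin n) := ∑ k : D, if a ≤ (k : ℕ) ∧ (k : ℕ) < b then x k else 0

lemma measurable_isum (D : Finset ℕ) (a b : ℕ) : Measurable (isum (n := n) D a b) := by
  unfold isum
  refine Finset.measurable_fun_sum _ fun k _ => ?_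
  by_cases h : a ≤ (k : ℕ) ∧ (k : ℕ) < b
  · simp only [h, and_self, if_true]; exact measurable_pi_apply k
  · simp only [h, if_false]; exact measurable_const

lemma isum_eq {D : Finset ℕ} {a b : ℕ} (h : Finset.Ico a b ⊆ D)
    (f : ℕ → EuclideanSpace ℝ (Fin n)) :
    isum D a b (fun k => f k) = ∑ k ∈ Finset.Ico a b, f k := by
  unfold isum
  rw [Finset.sum_coe_sort D (fun k => if a ≤ k ∧ k < b then f k else 0)]
  rw [← Finset.sum_filter]
  refine Finset.sum_congr ?_ fun _ _ => rfl
  ext k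
  simp only [Finset.mem_filter, Finset.mem_Ico]
  exact ⟨fun h1 => h1.2, fun h1 => ⟨h (Finset.mem_Ico.2 h1), h1⟩⟩

/-- inner increments -/
def inP (B : ℝ≥0 → Ω → EuclideanSpace ℝ (Fin n)) (u v : ℝ≥0) (s : ℝ≥0) (ω : Ω) :
    EuclideanSpace ℝ (Fin n) := B (min v (max u s)) ω - B u ω

/-- outer increments -/
def outP (B : ℝ≥0 → Ω → EuclideanSpace ℝ (Fin n)) (u v : ℝ≥0) (p : Bool × ℝ≥0) (ω : Ω) :
    EuclideanSpace ℝ (Fin n) :=
  if p.1 = true then B (v + p.2) ω - B v ω else B (u - p.2) ω - B u ω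

lemma measurable_inP (hB : ∀ t, Measurable (B t)) (u v s : ℝ≥0) : Measurable (inP B u v s) :=
  (hB _).sub (hB _)

lemma measurable_outP (hB : ∀ t, Measurable (B t)) (u v : ℝ≥0) (p : Bool × ℝ≥0) :
    Measurable (outP B u v p) := by
  unfold outP
  by_cases h : p.1 = true
  · simp only [h, if_true]; exact (hB _).sub (hB _)
  · simp only [h]; exact (hB _).sub (hB _)

/-- independence of inner and outer increments -/
lemma indep_processes [IsProbabilityMeasure P] (hm : ∀ t, Measurable (B t))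
    (hi : HasIndepIncrements B P) {u v : ℝ≥0} (huv : u ≤ v) :
    IndepFun (fun ω s => inP B u v s ω) (fun ω p => outP B u v p ω) P := by
  refine IndepFun.process_indepFun_process (measurable_inP hm u v) (measurable_outP hm u v)
    fun I J => ?_
  classical
  set S : Finset ℝ≥0 := {u, v} ∪ I.image (fun s => min v (max u s)) ∪
    J.image (fun p => if p.1 = true then v + p.2 else u - p.2) with hS
  obtain ⟨τ, hτ, hex⟩ := exists_enum S
  choose! idx hidx using hex
  have huS : u ∈ S := by simp [hS]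
  have hvS : v ∈ S := by simp [hS]
  have hIS : ∀ s ∈ I, min v (max u s) ∈ S := fun s hs => by
    simp only [hS, Finset.mem_union, Finset.mem_image]
    exact Or.inl (Or.inr ⟨s, hs, rfl⟩)
  have hJS : ∀ p ∈ J, (if p.1 = true then v + p.2 else u - p.2) ∈ S := fun p hp => by
    simp only [hS, Finset.mem_union, Finset.mem_image]
    exact Or.inr ⟨p, hp, rfl⟩
  set ξ : ℕ → Ω → EuclideanSpace ℝ (Fin n) := fun k ω => B (τ (k + 1)) ω - B (τ k) ω with hξ
  have hξi : iIndepFun ξ P := hi.nat hτ
  have hξm : ∀ k, Measurable (ξ k) := fun k => (hm _).sub (hm _)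
  -- monotonicity of indices
  have hmono : ∀ p ∈ S, ∀ q ∈ S, p ≤ q → idx p ≤ idx q := by
    intro p hp q hq hpq
    rcases eq_or_lt_of_le hpq with h | h
    · rw [h]
    · by_contra hcon
      push Not at hcon
      have := hτ hcon.le
      rw [hidx p hp, hidx q hq] at this
      exact absurd h (not_lt.2 this)
  have htel : ∀ p ∈ S, ∀ q ∈ S, p ≤ q → ∀ ω, B q ω - B p ω =
      ∑ k ∈ Finset.Ico (idx p) (idx q), ξ k ω := by
    intro p hp q hq hpq ω
    have h1 := Finset.sum_Ico_sub (fun k => B (τ k) ω) (hmono p hp q hq hpq)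
    rw [hidx p hp, hidx q hq] at h1
    exact h1.symm
  set M := S.sup idx with hM
  have hidxM : ∀ p ∈ S, idx p ≤ M := fun p hp => Finset.le_sup hp
  set D : Finset ℕ := Finset.Ico (idx u) (idx v) with hD
  set D' : Finset ℕ := Finset.range M \ D with hD'
  have hdisj : Disjoint D D' := Finset.disjoint_sdiff
  have hind := iIndepFun.indepFun_finset D D' hdisj hξi hξm
  have h1 : (fun ω (i : I) => inP B u v i ω) =
      (fun (x : D → EuclideanSpace ℝ (Fin n)) (i : I) =>
        isum D (idx u) (idx (min v (max u i))) x) ∘ fun ω (k : D) => ξ k ω := by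
    funext ω i
    simp only [Function.comp, inP]
    have hc1 : u ≤ min v (max u (i : ℝ≥0)) := le_min huv (le_max_left _ _)
    have hc2 : min v (max u (i : ℝ≥0)) ≤ v := min_le_left _ _
    have hcS := hIS i i.2
    rw [htel u huS _ hcS hc1 ω]
    have hsub : Finset.Ico (idx u) (idx (min v (max u (i : ℝ≥0)))) ⊆ D :=
      Finset.Ico_subset_Ico_right (hmono _ hcS _ hvS hc2)
    exact (isum_eq hsub (fun k => ξ k ω)).symm
  have h2 : (fun ω (j : J) => outP B u v j ω) =
      (fun (x : D' → EuclideanSpace ℝ (Fin n)) (j : J) =>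
        if (j : Bool × ℝ≥0).1 = true then isum D' (idx v) (idx (v + (j : Bool × ℝ≥0).2)) x
        else -isum D' (idx (u - (j : Bool × ℝ≥0).2)) (idx u) x) ∘ fun ω (k : D') => ξ k ω := by
    funext ω j
    simp only [Function.comp, outP]
    have hjS := hJS j j.2
    by_cases hb : (j : Bool × ℝ≥0).1 = true
    · simp only [hb, if_true] at hjS ⊢
      rw [htel v hvS _ hjS (le_self_add) ω]
      have hsub : Finset.Ico (idx v) (idx (v + (j : Bool × ℝ≥0).2)) ⊆ D' := by
        intro k hk
        rw [Finset.mem_Ico] at hk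
        simp only [hD', hD, Finset.mem_sdiff, Finset.mem_range, Finset.mem_Ico, not_and, not_lt]
        exact ⟨lt_of_lt_of_le hk.2 (hidxM _ hjS), fun _ => hk.1⟩
      exact (isum_eq hsub (fun k => ξ k ω)).symm
    · simp only [hb] at hjS ⊢
      simp only [Bool.false_eq_true, if_false] at hjS ⊢
      have h3 : B (u - (j : Bool × ℝ≥0).2) ω - B u ω = -(B u ω - B (u - (j : Bool × ℝ≥0).2) ω) := by
        abel
      rw [h3, htel _ hjS u huS tsub_le_self ω]
      have hsub : Finset.Ico (idx (u - (j : Bool × ℝ≥0).2)) (idx u) ⊆ D' := by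
        intro k hk
        rw [Finset.mem_Ico] at hk
        simp only [hD', hD, Finset.mem_sdiff, Finset.mem_range, Finset.mem_Ico, not_and, not_lt]
        exact ⟨lt_of_lt_of_le hk.2 (hidxM _ huS), fun h4 => absurd hk.2 (not_lt.2 h4)⟩
      rw [isum_eq hsub (fun k => ξ k ω)]
  rw [h1, h2]
  refine hind.comp ?_ ?_
  · exact measurable_pi_lambda _ fun i => measurable_isum _ _ _
  · refine measurable_pi_lambda _ fun j => ?_
    by_cases hb : (j : Bool × ℝ≥0).1 = true
    · simp only [hb, if_true]; exact measurable_isum _ _ _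
    · simp only [hb]; exact (measurable_isum _ _ _).neg

/-- inner `σ`-algebra -/
@[instance_reducible] def mIn (B : ℝ≥0 → Ω → EuclideanSpace ℝ (Fin n)) (u v : ℝ≥0) : MeasurableSpace Ω :=
  MeasurableSpace.comap (fun ω s => inP B u v s ω) MeasurableSpace.pi

/-- outer `σ`-algebra -/
@[instance_reducible] def mOut (B : ℝ≥0 → Ω → EuclideanSpace ℝ (Fin n)) (u v : ℝ≥0) : MeasurableSpace Ω :=
  MeasurableSpace.comap (fun ω p => outP B u v p ω) MeasurableSpace.pi

lemma indep_mIn_mOut [IsProbabilityMeasure P] (hm : ∀ t, Measurable (B t))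
    (hi : HasIndepIncrements B P) {u v : ℝ≥0} (huv : u ≤ v) : Indep (mIn B u v) (mOut B u v) P :=
  indep_processes hm hi huv

lemma mIn_le (hm : ∀ t, Measurable (B t)) (u v : ℝ≥0) : mIn B u v ≤ mΩ :=
  (measurable_pi_lambda _ fun s => measurable_inP hm u v s).comap_le

lemma mOut_le (hm : ∀ t, Measurable (B t)) (u v : ℝ≥0) : mOut B u v ≤ mΩ :=
  (measurable_pi_lambda _ fun p => measurable_outP hm u v p).comap_le

omit mΩ in
lemma meas_inP (u v s : ℝ≥0) : Measurable[mIn B u v] (inP B u v s) := by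
  have h1 : Measurable[mIn B u v] fun ω s => inP B u v s ω := comap_measurable _
  exact (measurable_pi_apply s).comp h1

omit mΩ in
lemma meas_outP (u v : ℝ≥0) (p : Bool × ℝ≥0) : Measurable[mOut B u v] (outP B u v p) := by
  have h1 : Measurable[mOut B u v] fun ω p => outP B u v p ω := comap_measurable _
  exact (measurable_pi_apply p).comp h1

omit mΩ in
/-- increments inside the window are inner measurable -/
lemma meas_in {u v s t : ℝ≥0} (hs : u ≤ s) (hs' : s ≤ v) (ht : u ≤ t) (ht' : t ≤ v) :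
    Measurable[mIn B u v] fun ω => B s ω - B t ω := by
  have h1 : (fun ω => B s ω - B t ω) = fun ω => inP B u v s ω - inP B u v t ω := by
    funext ω
    unfold inP
    rw [max_eq_right hs, max_eq_right ht, min_eq_right hs', min_eq_right ht']
    abel
  rw [h1]
  exact (meas_inP u v s).sub (meas_inP u v t)

omit mΩ in
lemma meas_out_plus {u v s t : ℝ≥0} (hs : v ≤ s) (ht : v ≤ t) :
    Measurable[mOut B u v] fun ω => B s ω - B t ω := by
  have h1 : (fun ω => B s ω - B t ω) = fun ω => outP B u v (true, s - v) ω -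
      outP B u v (true, t - v) ω := by
    funext ω
    unfold outP
    simp only [if_true]
    rw [add_tsub_cancel_of_le hs, add_tsub_cancel_of_le ht]
    abel
  rw [h1]
  exact (meas_outP u v _).sub (meas_outP u v _)

omit mΩ in
lemma meas_out_minus {u v s t : ℝ≥0} (hs : s ≤ u) (ht : t ≤ u) :
    Measurable[mOut B u v] fun ω => B s ω - B t ω := by
  have h1 : (fun ω => B s ω - B t ω) = fun ω => outP B u v (false, u - s) ω -
      outP B u v (false, u - t) ω := by
    funext ω
    unfold outP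
    simp only [Bool.false_eq_true, if_false]
    rw [tsub_tsub_cancel_of_le hs, tsub_tsub_cancel_of_le ht]
    abel
  rw [h1]
  exact (meas_outP u v _).sub (meas_outP u v _)

omit mΩ in
lemma mIn_mono {u v u' v' : ℝ≥0} (h1 : u ≤ u') (h2 : u' ≤ v') (h3 : v' ≤ v) :
    mIn B u' v' ≤ mIn B u v := by
  have h4 : Measurable[mIn B u v] fun ω s => inP B u' v' s ω := by
    refine @measurable_pi_lambda _ _ _ (mIn B u v) _ _ fun s => ?_
    unfold inP
    exact meas_in (h1.trans (le_min h2 (le_max_left _ _))) ((min_le_left _ _).trans h3) h1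
      (h2.trans h3)
  exact h4.comap_le

omit mΩ in
lemma mOut_mono {u v u' v' : ℝ≥0} (h1 : u' ≤ u) (h3 : v ≤ v') :
    mOut B u' v' ≤ mOut B u v := by
  have h4 : Measurable[mOut B u v] fun ω p => outP B u' v' p ω := by
    refine @measurable_pi_lambda _ _ _ (mOut B u v) _ _ fun p => ?_
    unfold outP
    by_cases hb : p.1 = true
    · simp only [hb, if_true]
      exact meas_out_plus (h3.trans le_self_add) h3
    · simp only [hb]
      exact meas_out_minus (tsub_le_self.trans h1) h1
  exact h4.comap_le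

section K

variable {Ω : Type*} {m1 m2 : MeasurableSpace Ω} [mΩ : MeasurableSpace Ω] {n : ℕ} {P : Measure Ω}

/-- outer events factor -/
lemma K1 (h : Indep m1 m2 P) (h1 : m1 ≤ mΩ) (h2 : m2 ≤ mΩ)
    {e : Set Ω} (he : MeasurableSet[m2] e) {G : Ω → ℝ≥0∞} (hG : Measurable[m1] G) :
    ∫⁻ ω, e.indicator (fun _ => 1) ω * G ω ∂P = P e * ∫⁻ ω, G ω ∂P := by
  have hc : Measurable[m2] (e.indicator fun _ => (1 : ℝ≥0∞)) :=
    (@measurable_const _ _ _ m2 (1 : ℝ≥0∞)).indicator he
  rw [lintegral_mul_eq_lintegral_mul_lintegral_of_independent_measurableSpace h2 h1 h.symm hc hG,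
    lintegral_indicator (h2 _ he)]
  simp

/-- small ball events have small conditional probability -/
lemma K2 [IsProbabilityMeasure P] (h : Indep m1 m2 P) (h1 : m1 ≤ mΩ)
    (h2 : m2 ≤ mΩ) {X Y : Ω → EuclideanSpace ℝ (Fin n)} (hX : Measurable[m2] X)
    (hY : Measurable[m1] Y) {G : Ω → ℝ≥0∞} (hG : Measurable[m1] G) {R : ℝ} {c : ℝ≥0∞}
    (hc : ∀ y, P {ω | ‖X ω + y‖ ≤ R} ≤ c) :
    ∫⁻ ω, {ω | ‖X ω + Y ω‖ ≤ R}.indicator (fun _ => 1) ω * G ω ∂P ≤ c * ∫⁻ ω, G ω ∂P := by
  have hX' : Measurable X := hX.mono h2 le_rfl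
  have hY' : Measurable Y := hY.mono h1 le_rfl
  have hG' : Measurable G := hG.mono h1 le_rfl
  have hYG : Measurable[m1] fun ω => (Y ω, G ω) := hY.prodMk hG
  have hYG' : Measurable fun ω => (Y ω, G ω) := hY'.prodMk hG'
  have hind : IndepFun X (fun ω => (Y ω, G ω)) P :=
    indep_of_indep_of_le_left (indep_of_indep_of_le_right h.symm hYG.comap_le) hX.comap_le
  have hmap := (indepFun_iff_map_prod_eq_prod_map_map hX'.aemeasurable hYG'.aemeasurable).1 hind
  set S : Set (EuclideanSpace ℝ (Fin n) × EuclideanSpace ℝ (Fin n) × ℝ≥0∞) :=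
    {p | ‖p.1 + p.2.1‖ ≤ R} with hS
  have hSm : MeasurableSet S :=
    measurableSet_le (measurable_fst.add (measurable_fst.comp measurable_snd)).norm measurable_const
  have hF : Measurable fun p : EuclideanSpace ℝ (Fin n) × EuclideanSpace ℝ (Fin n) × ℝ≥0∞ =>
      S.indicator (fun _ => (1 : ℝ≥0∞)) p * p.2.2 :=
    (measurable_const.indicator hSm).mul (measurable_snd.comp measurable_snd)
  have hjoint : Measurable fun ω => (X ω, (Y ω, G ω)) := hX'.prodMk hYG'
  have e1 : ∫⁻ ω, {ω | ‖X ω + Y ω‖ ≤ R}.indicator (fun _ => 1) ω * G ω ∂P =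
      ∫⁻ p, S.indicator (fun _ => (1 : ℝ≥0∞)) p * p.2.2 ∂(P.map fun ω => (X ω, (Y ω, G ω))) := by
    rw [lintegral_map hF hjoint]
    rfl
  have hpX : IsProbabilityMeasure (P.map X) := Measure.isProbabilityMeasure_map hX'.aemeasurable
  have hpY : IsProbabilityMeasure (P.map fun ω => (Y ω, G ω)) :=
    Measure.isProbabilityMeasure_map hYG'.aemeasurable
  rw [e1, hmap, lintegral_prod_symm _ hF.aemeasurable]
  calc ∫⁻ q, ∫⁻ x, S.indicator (fun _ => (1 : ℝ≥0∞)) (x, q) * q.2 ∂(P.map X)
        ∂(P.map fun ω => (Y ω, G ω))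
      ≤ ∫⁻ q, c * q.2 ∂(P.map fun ω => (Y ω, G ω)) := by
        refine lintegral_mono fun q => ?_
        have hs : MeasurableSet {x : EuclideanSpace ℝ (Fin n) | ‖x + q.1‖ ≤ R} :=
          measurableSet_le (measurable_id.add_const _).norm measurable_const
        have hi : Measurable fun x : EuclideanSpace ℝ (Fin n) =>
            S.indicator (fun _ => (1 : ℝ≥0∞)) (x, q) := by
          exact (measurable_const.indicator hSm).comp (measurable_id.prodMk measurable_const)
        rw [lintegral_mul_const _ hi]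
        gcongr
        have e2 : (fun x : EuclideanSpace ℝ (Fin n) => S.indicator (fun _ => (1 : ℝ≥0∞)) (x, q)) =
            {x : EuclideanSpace ℝ (Fin n) | ‖x + q.1‖ ≤ R}.indicator fun _ => 1 := rfl
        rw [e2, lintegral_indicator hs, setLIntegral_one, Measure.map_apply hX' hs]
        exact hc q.1
    _ = c * ∫⁻ q, q.2 ∂(P.map fun ω => (Y ω, G ω)) := by
        rw [lintegral_const_mul _ measurable_snd]
    _ = c * ∫⁻ ω, G ω ∂P := by rw [lintegral_map measurable_snd hYG']

end K

end Pool.Agent.Helper83.ConfDim
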