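import Pool.Agent.Helper83.ConfDim.Prob3

open MeasureTheory ProbabilityTheory Filter
open scoped ENNReal NNReal Topology

namespace Pool.Agent.Helper83.ConfDim

variable {Ω : Type*} [mΩ : MeasurableSpace Ω] {n : ℕ} {P : Measure Ω}
  {B : ℝ≥0 → Ω → EuclideanSpace ℝ (Fin n)}

/-- path after time `c` -/
def pls {Ω : Type*} (B : ℝ≥0 → Ω → EuclideanSpace ℝ (Fin n)) (c x : ℝ≥0) (ω : Ω) :
    EuclideanSpace ℝ (Fin n) := B (c + x) ω - B c ω

/-- path before time `c`, run backwards -/
def mns {Ω : Type*} (B : ℝ≥0 → Ω → EuclideanSpace ℝ (Fin n)) (c x : ℝ≥0) (ω : Ω) :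
    EuclideanSpace ℝ (Fin n) := B (c - x) ω - B c ω

lemma side_pls [IsProbabilityMeasure P] (hB : IsBrownian n P B) (hn : 60 ≤ n) (c V : ℝ≥0) :
    Side n P V (pls B c) where
  meas v := (hB.measurable _).sub (hB.measurable _)
  tail := by
    intro s t hst h l hh hl q
    have h1 := bm_tail hB (by omega) (s := c + s) (t := c + t) (by gcongr) (h := h) (l := l)
      (by push_cast; linarith) hl q
    have h2 : ∀ ω, pls B c t ω - pls B c s ω = B (c + t) ω - B (c + s) ω := fun ω => by
      unfold pls; abel
    simp only [h2]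
    exact h1
  ball := by
    intro s t hst _ y R hR
    have h1 := bm_ball hB hn (s := c + s) (t := c + t) (by gcongr) y hR
    have h2 : ∀ ω, pls B c t ω - pls B c s ω = B (c + t) ω - B (c + s) ω := fun ω => by
      unfold pls; abel
    simp only [h2]
    push_cast at h1
    have h3 : (c : ℝ) + t - (c + s) = t - s := by ring
    rwa [h3] at h1
  indep := by
    intro m t ht
    have h1 := hB.indep m (fun i => c + t i) (fun i j hij => by
      have := ht hij
      show c + t i ≤ c + t j
      gcongr)
    have h2 : (fun (i : Fin m) ω => pls B c (t i.succ) ω - pls B c (t i.castSucc) ω) =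
        fun (i : Fin m) ω => B (c + t i.succ) ω - B (c + t i.castSucc) ω := by
      funext i ω
      unfold pls; abel
    rw [h2]
    exact h1

lemma side_mns [IsProbabilityMeasure P] (hB : IsBrownian n P B) (hn : 60 ≤ n) (c : ℝ≥0) :
    Side n P c (mns B c) where
  meas v := (hB.measurable _).sub (hB.measurable _)
  tail := by
    intro s t hst h l hh hl q
    have hle : c - t ≤ c - s := by gcongr
    have hreal : ((c - s : ℝ≥0) : ℝ) - ((c - t : ℝ≥0) : ℝ) ≤ h := by
      refine le_trans ?_ hh
      rw [NNReal.coe_sub_def, NNReal.coe_sub_def]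
      have hst' : (s : ℝ) ≤ t := by exact_mod_cast hst
      rcases le_total ((c : ℝ) - s) 0 with h1 | h1
      · rw [max_eq_right h1]
        have := le_max_right ((c : ℝ) - t) 0
        linarith
      · rw [max_eq_left h1]
        have := le_max_left ((c : ℝ) - t) 0
        linarith
    have h1 := bm_tail hB (by omega) hle hreal hl q
    have h2 : ∀ ω, ‖mns B c t ω - mns B c s ω‖ = ‖B (c - s) ω - B (c - t) ω‖ := fun ω => by
      unfold mns
      rw [show B (c - t) ω - B c ω - (B (c - s) ω - B c ω) = -(B (c - s) ω - B (c - t) ω) by abel,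
        norm_neg]
    simp only [h2]
    exact h1
  ball := by
    intro s t hst htV y R hR
    have hlt : c - t < c - s := by
      rw [tsub_lt_tsub_iff_left_of_le htV]
      exact hst
    have h1 := bm_ball hB hn hlt (-y) hR
    have h2 : ∀ ω, ‖mns B c t ω - mns B c s ω - y‖ = ‖B (c - s) ω - B (c - t) ω - -y‖ := fun ω => by
      unfold mns
      rw [show B (c - t) ω - B c ω - (B (c - s) ω - B c ω) - y =
        -(B (c - s) ω - B (c - t) ω - -y) by abel, norm_neg]
    simp only [h2]
    rw [NNReal.coe_sub htV, NNReal.coe_sub (hst.le.trans htV)] at h1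
    have h3 : (c : ℝ) - s - (c - t) = t - s := by ring
    rwa [h3] at h1
  indep := by
    intro m t ht
    have h1 := hB.indep m (fun i => c - t (Fin.rev i)) (fun i j hij => by
      have := ht (Fin.rev_le_rev.2 hij)
      show c - t (Fin.rev i) ≤ c - t (Fin.rev j)
      gcongr)
    have h2 := h1.precomp (g := Fin.rev) Fin.rev_injective
    have h3 := h2.comp (fun _ x => -x) (fun _ => measurable_neg)
    refine h3.congr fun i => ae_of_all _ fun ω => ?_
    simp only [Function.comp]
    unfold mns
    rw [Fin.rev_succ, Fin.rev_castSucc, Fin.rev_rev]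
    abel

end Pool.Agent.Helper83.ConfDim
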