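import Pool.Agent.Helper83.ConfDim.Det5

open MeasureTheory ProbabilityTheory Filter
open scoped ENNReal NNReal Topology

namespace Pool.Agent.Helper83.ConfDim

/-! conditional bounds -/

/-- the conditional probability of `e` given `m1` is at most `c` -/
def CB {Ω : Type*} [mΩ : MeasurableSpace Ω] (P : Measure Ω) (m1 : MeasurableSpace Ω) (e : Set Ω)
    (c : ℝ≥0∞) : Prop :=
  ∀ G : Ω → ℝ≥0∞, Measurable[m1] G →
    ∫⁻ ω, e.indicator (fun _ => 1) ω * G ω ∂P ≤ c * ∫⁻ ω, G ω ∂P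

section CBs
variable {Ω : Type*} {m1 m2 : MeasurableSpace Ω} [mΩ : MeasurableSpace Ω] {n : ℕ} {P : Measure Ω}

lemma CB.mono {e e' : Set Ω} {c c' : ℝ≥0∞} (h : CB P m1 e c) (he : e' ⊆ e) (hc : c ≤ c') :
    CB P m1 e' c' := by
  intro G hG
  refine le_trans ?_ ((h G hG).trans (by gcongr))
  refine lintegral_mono fun ω => ?_
  exact mul_le_mul_left (Set.indicator_le_indicator_of_subset he (fun _ => zero_le) ω) _

lemma CB.mono_alg {e : Set Ω} {c : ℝ≥0∞} (h : CB P m1 e c) (hm : m2 ≤ m1) : CB P m2 e c :=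
  fun G hG => h G (hG.mono hm le_rfl)

lemma CB.empty {c : ℝ≥0∞} : CB P m1 (∅ : Set Ω) c := by
  intro G _
  simp

lemma CB.union {e e' : Set Ω} {c c' : ℝ≥0∞} (h : CB P m1 e c) (h' : CB P m1 e' c')
    (hm : m1 ≤ mΩ) (he : MeasurableSet e) : CB P m1 (e ∪ e') (c + c') := by
  intro G hG
  have hG' : Measurable G := hG.mono hm le_rfl
  calc ∫⁻ ω, (e ∪ e').indicator (fun _ => 1) ω * G ω ∂P
      ≤ ∫⁻ ω, (e.indicator (fun _ => 1) ω * G ω + e'.indicator (fun _ => 1) ω * G ω) ∂P := by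
        refine lintegral_mono fun ω => ?_
        rw [← add_mul]
        refine mul_le_mul_left ?_ _
        by_cases h1 : ω ∈ e <;> by_cases h2 : ω ∈ e' <;> simp [h1, h2]
    _ = ∫⁻ ω, e.indicator (fun _ => 1) ω * G ω ∂P + ∫⁻ ω, e'.indicator (fun _ => 1) ω * G ω ∂P :=
        lintegral_add_left ((measurable_const.indicator he).mul hG') _
    _ ≤ c * ∫⁻ ω, G ω ∂P + c' * ∫⁻ ω, G ω ∂P := add_le_add (h G hG) (h' G hG)
    _ = (c + c') * ∫⁻ ω, G ω ∂P := by rw [add_mul]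

lemma CB.exists_lt {N : ℕ} {p : ℕ → Ω → Prop} {c : ℝ≥0∞} (hm : m1 ≤ mΩ)
    (h : ∀ k < N, CB P m1 {ω | p k ω} c) (he : ∀ k < N, MeasurableSet {ω | p k ω}) :
    CB P m1 {ω | ∃ k < N, p k ω} (N * c) := by
  induction N with
  | zero =>
    have : {ω | ∃ k < 0, p k ω} = ∅ := by ext ω; simp
    rw [this]; exact CB.empty
  | succ N ih =>
    have h1 := ih (fun k hk => h k (by omega)) (fun k hk => he k (by omega))
    have h2 := h N (by omega)
    have h3 : {ω | ∃ k < N + 1, p k ω} = {ω | p N ω} ∪ {ω | ∃ k < N, p k ω} := by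
      ext ω
      simp only [Set.mem_ofPred_eq, Set.mem_union]
      constructor
      · rintro ⟨k, hk, hp⟩
        rcases Nat.lt_succ_iff_lt_or_eq.1 hk with h | h
        · exact Or.inr ⟨k, h, hp⟩
        · subst h; exact Or.inl hp
      · rintro (hp | ⟨k, hk, hp⟩)
        · exact ⟨N, by omega, hp⟩
        · exact ⟨k, by omega, hp⟩
    rw [h3]
    refine (h2.union h1 hm (he N (by omega))).mono le_rfl (le_of_eq ?_)
    push_cast
    ring

lemma CB.of_outer (h : Indep m1 m2 P) (h1 : m1 ≤ mΩ) (h2 : m2 ≤ mΩ) {e : Set Ω}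
    (he : MeasurableSet[m2] e) {c : ℝ≥0∞} (hc : P e ≤ c) : CB P m1 e c := by
  intro G hG
  rw [K1 h h1 h2 he hG]
  gcongr

lemma CB.of_ball [IsProbabilityMeasure P] (h : Indep m1 m2 P) (h1 : m1 ≤ mΩ)
    (h2 : m2 ≤ mΩ) {X Y : Ω → EuclideanSpace ℝ (Fin n)} (hX : Measurable[m2] X)
    (hY : Measurable[m1] Y) {R : ℝ} {c : ℝ≥0∞}
    (hc : ∀ y, P {ω | ‖X ω + y‖ ≤ R} ≤ c) : CB P m1 {ω | ‖X ω + Y ω‖ ≤ R} c := by
  intro G hG
  have hK := K2 (G := G) (R := R) (c := c) h h1 h2 hX hY hG hc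
  exact hK

end CBs

/-! measurability of the local events -/

section meas
variable {Ω : Type*} {m : MeasurableSpace Ω} {n : ℕ} {B : ℝ≥0 → Ω → EuclideanSpace ℝ (Fin n)}
  {A E : ℕ} {g V V' W : ℝ≥0} {rr : ℝ}

lemma meas_one {γ : ℝ≥0 → Ω → EuclideanSpace ℝ (Fin n)} (hE : 2 ≤ E)
    (hm : ∀ s t, s ≤ W → t ≤ W → Measurable[m] fun ω => γ s ω - γ t ω)
    (hW : A ^ (3 * E + 1) * g ≤ W) : MeasurableSet[m] {ω | One A E g rr V (fun v => γ v ω)} :=
  (meas_osc hm hW).union ((meas_mc hm hW).union ((meas_lr hm hW).union (meas_poor hE hm hW)))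

lemma meas_loc (hE : 2 ≤ E) {c c' : ℝ≥0}
    (hp : ∀ s t, c ≤ s → s ≤ c + W → c ≤ t → t ≤ c + W → Measurable[m] fun ω => B s ω - B t ω)
    (hq : ∀ s t, c' - W ≤ s → s ≤ c' → c' - W ≤ t → t ≤ c' → Measurable[m] fun ω => B s ω - B t ω)
    (hW : A ^ (3 * E + 1) * g ≤ W) :
    MeasurableSet[m] {ω | LocE A E g rr (fun s => B s ω) c c'} := by
  have h1 : ∀ s t, s ≤ W → t ≤ W → Measurable[m] fun ω => pls B c s ω - pls B c t ω := by
    intro s t hs ht
    have e : (fun ω => pls B c s ω - pls B c t ω) = fun ω => B (c + s) ω - B (c + t) ω := by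
      funext ω; unfold pls; abel
    rw [e]
    exact hp _ _ le_self_add (by gcongr) le_self_add (by gcongr)
  have h2 : ∀ s t, s ≤ W → t ≤ W → Measurable[m] fun ω => mns B c' s ω - mns B c' t ω := by
    intro s t hs ht
    have e : (fun ω => mns B c' s ω - mns B c' t ω) = fun ω => B (c' - s) ω - B (c' - t) ω := by
      funext ω; unfold mns; abel
    rw [e]
    exact hq _ _ (by gcongr) tsub_le_self (by gcongr) tsub_le_self
  have h3 : ∀ s ≤ W, Measurable[m] (pls B c s) := by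
    intro s hs
    unfold pls
    exact hp _ _ le_self_add (by gcongr) le_rfl le_self_add
  have h4 : ∀ s ≤ W, Measurable[m] (mns B c' s) := by
    intro s hs
    unfold mns
    exact hq _ _ (by gcongr) tsub_le_self tsub_le_self le_rfl
  have e1 : MeasurableSet[m] {ω | One A E g rr (A ^ (3 * E + 1) * g) (pl (fun s => B s ω) c)} :=
    meas_one (γ := pls B c) hE h1 hW
  have e2 : MeasurableSet[m] {ω | One A E g rr c' (mn (fun s => B s ω) c')} :=
    meas_one (γ := mns B c') hE h2 hW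
  have e3 : MeasurableSet[m] {ω | Lrx A E g rr (A ^ (3 * E + 1) * g) c' (pl (fun s => B s ω) c)
      (mn (fun s => B s ω) c')} := meas_lrx (γ := pls B c) (γ' := mns B c') h3 h4 hW
  have e4 : {ω | LocE A E g rr (fun s => B s ω) c c'} =
      {ω | One A E g rr (A ^ (3 * E + 1) * g) (pl (fun s => B s ω) c)} ∪
      ({ω | One A E g rr c' (mn (fun s => B s ω) c')} ∪
      {ω | Lrx A E g rr (A ^ (3 * E + 1) * g) c' (pl (fun s => B s ω) c)
        (mn (fun s => B s ω) c')}) := by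
    ext ω
    simp only [LocE, Set.mem_ofPred_eq, Set.mem_union]
  rw [e4]
  exact e1.union (e2.union e3)

lemma meas_chb_pl {c u H : ℝ≥0} {l : ℝ}
    (hp : ∀ s t, c ≤ s → s ≤ c + (u + H) → c ≤ t → t ≤ c + (u + H) →
      Measurable[m] fun ω => B s ω - B t ω) :
    MeasurableSet[m] {ω | Chb (pl (fun s => B s ω) c) u H l} := by
  refine meas_chb (γ := pls B c) (V := u + H) le_rfl (fun s t hs ht => ?_) l
  have e : (fun ω => pls B c s ω - pls B c t ω) = fun ω => B (c + s) ω - B (c + t) ω := by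
    funext ω; unfold pls; abel
  rw [e]
  exact hp _ _ le_self_add (by gcongr) le_self_add (by gcongr)

lemma meas_chb_mn {c u H : ℝ≥0} {l : ℝ}
    (hq : ∀ s t, c - (u + H) ≤ s → s ≤ c → c - (u + H) ≤ t → t ≤ c →
      Measurable[m] fun ω => B s ω - B t ω) :
    MeasurableSet[m] {ω | Chb (mn (fun s => B s ω) c) u H l} := by
  refine meas_chb (γ := mns B c) (V := u + H) le_rfl (fun s t hs ht => ?_) l
  have e : (fun ω => mns B c s ω - mns B c t ω) = fun ω => B (c - s) ω - B (c - t) ω := by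
    funext ω; unfold mns; abel
  rw [e]
  exact hq _ _ (by gcongr) tsub_le_self (by gcongr) tsub_le_self

end meas

end Pool.Agent.Helper83.ConfDim
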