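import Pool.Agent.Helper83.ConfDim.Prob5

open MeasureTheory ProbabilityTheory Filter
open scoped ENNReal NNReal Topology

namespace Pool.Agent.Helper83.ConfDim

/-- the filtration -/
@[instance_reducible] noncomputable def Fl {Ω : Type*} {n : ℕ} (A E k : ℕ)
    (B : ℝ≥0 → Ω → EuclideanSpace ℝ (Fin n)) (t : ℝ≥0) (l : ℕ) : MeasurableSpace Ω :=
  mIn B (t - Us A E k l) (t + Us A E k l)

section meas
variable {Ω : Type*} {n : ℕ} {B : ℝ≥0 → Ω → EuclideanSpace ℝ (Fin n)} {A E k : ℕ} {t : ℝ≥0}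

lemma Fl_anti (hA : 4 ≤ A) (hE : 1 ≤ E) {l l' : ℕ} (h : l ≤ l') :
    Fl A E k B t l' ≤ Fl A E k B t l := by
  have := Us_anti hA hE k h
  exact mIn_mono (tsub_le_tsub_left this t) (tsub_le_self.trans le_self_add) (by gcongr)

lemma meas_wev (hA : 4 ≤ A) (hE : 1 ≤ E) {l j : ℕ} :
    MeasurableSet[Fl A E k B t l] {ω | Wev A E k l j (fun s => B s ω) t} := by
  have hU := Us_succ_le hA hE k l
  have e1 : MeasurableSet[Fl A E k B t l] {ω | Chb (pl (fun s => B s ω) (t + Us A E k (l + 1))) 0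
      (Us A E k l - Us A E k (l + 1)) (ls A E l j)} := by
    refine meas_chb_pl fun s s' h1 h2 h3 h4 => ?_
    have e : t + Us A E k (l + 1) + (0 + (Us A E k l - Us A E k (l + 1))) = t + Us A E k l := by
      rw [zero_add, add_assoc, add_tsub_cancel_of_le hU]
    rw [e] at h2 h4
    have e' : t - Us A E k l ≤ t + Us A E k (l + 1) := tsub_le_self.trans le_self_add
    exact meas_in (e'.trans h1) h2 (e'.trans h3) h4
  have e2 : MeasurableSet[Fl A E k B t l] {ω | Chb (mn (fun s => B s ω) (t - Us A E k (l + 1))) 0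
      (Us A E k l - Us A E k (l + 1)) (ls A E l j)} := by
    refine meas_chb_mn fun s s' h1 h2 h3 h4 => ?_
    have e : t - Us A E k (l + 1) - (0 + (Us A E k l - Us A E k (l + 1))) = t - Us A E k l := by
      rw [zero_add, tsub_tsub, add_tsub_cancel_of_le hU]
    rw [e] at h1 h3
    have e' : t - Us A E k (l + 1) ≤ t + Us A E k l := tsub_le_self.trans le_self_add
    exact meas_in h1 (h2.trans e') h3 (h4.trans e')
  exact e1.union e2

lemma meas_wev_out {l j : ℕ} :
    MeasurableSet[mOut B (t - Us A E k (l + 1)) (t + Us A E k (l + 1))]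
      {ω | Wev A E k l j (fun s => B s ω) t} := by
  have e1 : MeasurableSet[mOut B (t - Us A E k (l + 1)) (t + Us A E k (l + 1))]
      {ω | Chb (pl (fun s => B s ω) (t + Us A E k (l + 1))) 0
      (Us A E k l - Us A E k (l + 1)) (ls A E l j)} :=
    meas_chb_pl fun s s' h1 _ h3 _ => meas_out_plus h1 h3
  have e2 : MeasurableSet[mOut B (t - Us A E k (l + 1)) (t + Us A E k (l + 1))]
      {ω | Chb (mn (fun s => B s ω) (t - Us A E k (l + 1))) 0
      (Us A E k l - Us A E k (l + 1)) (ls A E l j)} :=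
    meas_chb_mn fun s s' _ h2 _ h4 => meas_out_minus h2 h4
  exact e1.union e2

/-- cells of a far return event lie in the window -/
lemma cell_le (hA : 4 ≤ A) (hE : 1 ≤ E) {l j : ℕ} (hlj : l < j) (hl : l ≤ k + 1) {m : ℕ}
    (hm : m < Ms A E l j) :
    Ts A E (l + 1) + (m * cs A E l j + cs A E l j) ≤ Us A E k l := by
  rw [Us_of_le hl]
  have h1 : (m : ℝ≥0) * cs A E l j + cs A E l j ≤ Ts A E l := by
    rw [← Ms_hs (by omega : 0 < A) hlj.le]
    have h2 : ((m + 1 : ℕ) : ℝ≥0) ≤ (Ms A E l j : ℝ≥0) := by exact_mod_cast hm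
    calc (m : ℝ≥0) * cs A E l j + cs A E l j = ((m + 1 : ℕ) : ℝ≥0) * cs A E l j := by
          push_cast; ring
      _ ≤ _ := by gcongr
  have h3 : Ts A E (l + 1) ≤ Ts A E l :=
    (le_mul_of_one_le_left' (by norm_num : (1 : ℝ≥0) ≤ 4)).trans (four_Ts_succ hA hE l)
  calc Ts A E (l + 1) + (m * cs A E l j + cs A E l j) ≤ Ts A E l + Ts A E l := by gcongr
    _ = 2 * Ts A E l := by ring

lemma meas_frp (hA : 4 ≤ A) (hE : 1 ≤ E) {l j : ℕ} (hlj : l < j) (hl : l ≤ k + 1) :
    MeasurableSet[Fl A E k B t l] {ω | FRp A E l j (fun s => B s ω) t} := by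
  refine meas_exists_lt fun m hm => ?_
  have hc := cell_le (k := k) hA hE hlj hl hm
  have e1 : MeasurableSet[Fl A E k B t l] {ω | Chb (pl (fun s => B s ω) (t + Ts A E (l + 1)))
      (m * cs A E l j) (cs A E l j) (Rs A E j)} := by
    refine meas_chb_pl fun s s' h1 h2 h3 h4 => ?_
    have e : t + Ts A E (l + 1) + (m * cs A E l j + cs A E l j) ≤ t + Us A E k l := by
      rw [add_assoc]; gcongr
    have e' : t - Us A E k l ≤ t + Ts A E (l + 1) := tsub_le_self.trans le_self_add
    exact meas_in (e'.trans h1) (h2.trans e) (e'.trans h3) (h4.trans e)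
  have e2 : MeasurableSet[Fl A E k B t l] {ω | ‖B (t + Ts A E (l + 1) + m * cs A E l j) ω -
      B t ω‖ ≤ 5 * Rs A E j} := by
    have h0 : Measurable[Fl A E k B t l] fun ω => B (t + Ts A E (l + 1) + m * cs A E l j) ω -
        B t ω := by
      refine meas_in ?_ ?_ tsub_le_self le_self_add
      · exact tsub_le_self.trans (le_self_add.trans le_self_add)
      · rw [add_assoc]
        gcongr
        refine le_trans ?_ hc
        gcongr
        exact le_self_add
    have h1 : Measurable[Fl A E k B t l] fun ω => ‖B (t + Ts A E (l + 1) + m * cs A E l j) ω -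
        B t ω‖ := measurable_norm.comp h0
    exact h1 measurableSet_Iic
  exact e1.union e2

lemma meas_frm (hA : 4 ≤ A) (hE : 1 ≤ E) {l j : ℕ} (hlj : l < j) (hl : l ≤ k + 1) :
    MeasurableSet[Fl A E k B t l] {ω | FRm A E l j (fun s => B s ω) t} := by
  refine meas_exists_lt fun m hm => ?_
  have hc := cell_le (k := k) hA hE hlj hl hm
  have e1 : MeasurableSet[Fl A E k B t l] {ω | Chb (mn (fun s => B s ω) (t - Ts A E (l + 1)))
      (m * cs A E l j) (cs A E l j) (Rs A E j)} := by
    refine meas_chb_mn fun s s' h1 h2 h3 h4 => ?_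
    have e : t - Us A E k l ≤ t - Ts A E (l + 1) - (m * cs A E l j + cs A E l j) := by
      rw [tsub_tsub]; exact tsub_le_tsub_left hc t
    have e' : t - Ts A E (l + 1) ≤ t + Us A E k l := tsub_le_self.trans le_self_add
    exact meas_in (e.trans h1) (h2.trans e') (e.trans h3) (h4.trans e')
  have e2 : MeasurableSet[Fl A E k B t l] {ω | Ts A E (l + 1) + m * cs A E l j ≤ t ∧
      ‖B (t - Ts A E (l + 1) - m * cs A E l j) ω - B t ω‖ ≤ 5 * Rs A E j} := by
    refine meas_and_const fun _ => ?_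
    have h0 : Measurable[Fl A E k B t l] fun ω => B (t - Ts A E (l + 1) - m * cs A E l j) ω -
        B t ω := by
      refine meas_in ?_ ?_ tsub_le_self le_self_add
      · rw [tsub_tsub]
        refine tsub_le_tsub_left ?_ t
        refine le_trans ?_ hc
        gcongr
        exact le_self_add
      · exact tsub_le_self.trans (tsub_le_self.trans le_self_add)
    have h1 : Measurable[Fl A E k B t l] fun ω => ‖B (t - Ts A E (l + 1) - m * cs A E l j) ω -
        B t ω‖ := measurable_norm.comp h0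
    exact h1 measurableSet_Iic
  exact e1.union e2

lemma meas_loc_in (hA : 4 ≤ A) (hE : 2 ≤ E) {j : ℕ} (hj : j ≤ k + 1) :
    MeasurableSet[Fl A E k B t j] {ω | LocE A E (gs A E j) (Rs A E (j + 1)) (fun s => B s ω)
      (t + Us A E k (j + 2)) (t - Us A E k (j + 2))} := by
  have h1 : Us A E k (j + 2) + Ts A E j ≤ Us A E k j := by
    have h2 : Us A E k (j + 2) ≤ Us A E k (j + 1) := Us_succ_le hA (by omega) k (j + 1)
    have h3 : Us A E k (j + 1) ≤ 2 * Ts A E (j + 1) := by
      unfold Us; split_ifs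
      · exact le_rfl
      · exact zero_le
    have h4 := four_Ts_succ hA (by omega : 1 ≤ E) j
    have h5 : 2 * Ts A E (j + 1) ≤ 4 * Ts A E (j + 1) := by gcongr; norm_num
    rw [Us_of_le hj]
    calc Us A E k (j + 2) + Ts A E j ≤ Ts A E j + Ts A E j := by
          gcongr
          exact h2.trans (h3.trans (h5.trans h4))
      _ = 2 * Ts A E j := by ring
  refine meas_loc (W := Ts A E j) hE ?_ ?_ (T_eq (by omega) j).le
  · intro s s' h2 h3 h4 h5
    have e : t + Us A E k (j + 2) + Ts A E j ≤ t + Us A E k j := by rw [add_assoc]; gcongr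
    have e' : t - Us A E k j ≤ t + Us A E k (j + 2) := tsub_le_self.trans le_self_add
    exact meas_in (e'.trans h2) (h3.trans e) (e'.trans h4) (h5.trans e)
  · intro s s' h2 h3 h4 h5
    have e : t - Us A E k j ≤ t - Us A E k (j + 2) - Ts A E j := by
      rw [tsub_tsub]; exact tsub_le_tsub_left h1 t
    have e' : t - Us A E k (j + 2) ≤ t + Us A E k j := tsub_le_self.trans le_self_add
    exact meas_in (e.trans h2) (h3.trans e') (e.trans h4) (h5.trans e')

lemma meas_loc_out (hA : 4 ≤ A) (hE : 2 ≤ E) {j : ℕ} :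
    MeasurableSet[mOut B (t - Us A E k (j + 2)) (t + Us A E k (j + 2))]
      {ω | LocE A E (gs A E j) (Rs A E (j + 1)) (fun s => B s ω)
      (t + Us A E k (j + 2)) (t - Us A E k (j + 2))} :=
  meas_loc (W := Ts A E j) hE (fun _ _ h1 _ h3 _ => meas_out_plus h1 h3)
    (fun _ _ _ h2 _ h4 => meas_out_minus h2 h4) (T_eq (by omega) j).le

lemma meas_dev (hA : 4 ≤ A) (hE : 2 ≤ E) {l j : ℕ} (hl : l ≤ k + 1) :
    MeasurableSet[Fl A E k B t l] {ω | Dev A E k l j (fun s => B s ω) t} := by
  have e1 : MeasurableSet[Fl A E k B t l] {ω | l < j ∧ (FRp A E l j (fun s => B s ω) t ∨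
      FRm A E l j (fun s => B s ω) t)} :=
    meas_and_const fun h => (meas_frp hA (by omega) h hl).union (meas_frm hA (by omega) h hl)
  have e2 : MeasurableSet[Fl A E k B t l] {ω | l = j ∧ LocE A E (gs A E j) (Rs A E (j + 1))
      (fun s => B s ω) (t + Us A E k (j + 2)) (t - Us A E k (j + 2))} :=
    meas_and_const fun h => by subst h; exact meas_loc_in hA hE hl
  have e3 : MeasurableSet[Fl A E k B t l] {ω | j + 2 ≤ l ∧ Wev A E k l j (fun s => B s ω) t} :=
    meas_and_const fun h => meas_wev hA (by omega)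
  have e4 : {ω | Dev A E k l j (fun s => B s ω) t} =
      {ω | l < j ∧ (FRp A E l j (fun s => B s ω) t ∨ FRm A E l j (fun s => B s ω) t)} ∪
      ({ω | l = j ∧ LocE A E (gs A E j) (Rs A E (j + 1))
      (fun s => B s ω) (t + Us A E k (j + 2)) (t - Us A E k (j + 2))} ∪
      {ω | j + 2 ≤ l ∧ Wev A E k l j (fun s => B s ω) t}) := by
    ext ω
    simp only [Dev, Set.mem_ofPred_eq, Set.mem_union]
  rw [e4]
  exact e1.union (e2.union e3)

end meas

end Pool.Agent.Helper83.ConfDim
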