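import Pool.Agent.Helper83.ConfDim.Num1

open MeasureTheory ProbabilityTheory Filter
open scoped ENNReal NNReal Topology

namespace Pool.Agent.Helper83.ConfDim

variable {Ω : Type*} [mΩ : MeasurableSpace Ω] {n : ℕ} {P : Measure Ω}
  {B : ℝ≥0 → Ω → EuclideanSpace ℝ (Fin n)} {A E k : ℕ} {t : ℝ≥0}

lemma prob_chb_pl [IsProbabilityMeasure P] (hB : IsBrownian n P B) (hn : 60 ≤ n) (c u H : ℝ≥0)
    {l : ℝ} (hl : 0 < l) {q : ℕ} (hq : 12 ≤ q) :
    P {ω | Chb (pl (fun s => B s ω) c) u H l} ≤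
      ENNReal.ofReal (2 * Ct n q * (64 * (H / l ^ 2)) ^ q) :=
  (side_pls hB hn c 0).chb u H hl hq

lemma prob_chb_mn [IsProbabilityMeasure P] (hB : IsBrownian n P B) (hn : 60 ≤ n) (c u H : ℝ≥0)
    {l : ℝ} (hl : 0 < l) {q : ℕ} (hq : 12 ≤ q) :
    P {ω | Chb (mn (fun s => B s ω) c) u H l} ≤
      ENNReal.ofReal (2 * Ct n q * (64 * (H / l ^ 2)) ^ q) :=
  (side_mns hB hn c).chb u H hl hq

/-- the basic small parameter -/
noncomputable def be (A E : ℕ) : ℝ := ((A : ℝ)⁻¹) ^ (11 * E)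

lemma be_nonneg : 0 ≤ be A E := by unfold be; positivity

section scales

lemma inv_facts (hA : 1 ≤ A) : 0 < (A : ℝ)⁻¹ ∧ (A : ℝ)⁻¹ ≤ 1 ∧ (A : ℝ) * (A : ℝ)⁻¹ = 1 := by
  have h1 : (1 : ℝ) ≤ A := by exact_mod_cast hA
  refine ⟨by positivity, inv_le_one_of_one_le₀ h1, mul_inv_cancel₀ (by positivity)⟩

lemma Ts_eq_w (hA : 1 ≤ A) {l j d : ℕ} (hd : 2 ≤ d) (hl : l = j + d) :
    (Ts A E l : ℝ) = Rs A E (j + 1) ^ 2 * ((A : ℝ)⁻¹) ^ (E * (2 * d - 3)) := by
  obtain ⟨h1, h2, h3⟩ := inv_facts hA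
  unfold Ts Rs
  push_cast
  obtain ⟨e, rfl⟩ := Nat.exists_eq_add_of_le hd
  subst hl
  rw [show 2 * (2 + e) - 3 = 2 * e + 1 by omega]
  have e1 : ((A : ℝ)⁻¹) ^ (2 * E * (j + (2 + e))) =
      ((A : ℝ)⁻¹) ^ E * (((A : ℝ)⁻¹ ^ (E * (j + 1))) ^ 2 * (A : ℝ)⁻¹ ^ (E * (2 * e + 1))) := by
    rw [← pow_mul, ← pow_add, ← pow_add]; congr 1; ring
  rw [e1, ← mul_assoc, ← mul_pow, h3, one_pow, one_mul]

lemma Rs_eq_f (hA : 1 ≤ A) {l j d : ℕ} (hd : 1 ≤ d) (hl : j = l + d) :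
    Rs A E j ^ 2 = (Ts A E (l + 1) : ℝ) * ((A : ℝ)⁻¹) ^ (E * (2 * d - 1)) := by
  obtain ⟨h1, h2, h3⟩ := inv_facts hA
  unfold Ts Rs
  push_cast
  obtain ⟨e, rfl⟩ := Nat.exists_eq_add_of_le hd
  subst hl
  rw [show 2 * (1 + e) - 1 = 2 * e + 1 by omega]
  have e1 : ((A : ℝ)⁻¹ ^ (E * (l + (1 + e)))) ^ 2 =
      (A : ℝ)⁻¹ ^ (2 * E * (l + 1)) * (A : ℝ)⁻¹ ^ (E * (2 * e)) := by
    rw [← pow_mul, ← pow_add]; congr 1; ring
  have e2 : (A : ℝ)⁻¹ ^ (E * (2 * e + 1)) = (A : ℝ)⁻¹ ^ (E * (2 * e)) * (A : ℝ)⁻¹ ^ E := by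
    rw [← pow_add]; congr 1
  rw [e1, e2]
  have h4 : (A : ℝ) ^ E * (A : ℝ)⁻¹ ^ E = 1 := by rw [← mul_pow, h3, one_pow]
  calc (A : ℝ)⁻¹ ^ (2 * E * (l + 1)) * (A : ℝ)⁻¹ ^ (E * (2 * e))
      = ((A : ℝ) ^ E * (A : ℝ)⁻¹ ^ E) * ((A : ℝ)⁻¹ ^ (2 * E * (l + 1)) *
          (A : ℝ)⁻¹ ^ (E * (2 * e))) := by rw [h4, one_mul]
    _ = _ := by ring

lemma cs_div (hA : 1 ≤ A) {l j : ℕ} :
    (cs A E l j : ℝ) / Rs A E j ^ 2 = ((A : ℝ)⁻¹) ^ (j - l + 1) := by
  obtain ⟨h1, h2, h3⟩ := inv_facts hA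
  unfold cs Rs
  push_cast
  rw [← pow_mul, show E * j * 2 = 2 * E * j by ring, pow_add _ (2 * E * j),
    mul_div_assoc, mul_comm, div_mul_cancel₀]
  positivity

end scales

/-- inner oscillation: conditional bound -/
lemma cb_wev [IsProbabilityMeasure P] (hB : IsBrownian n P B) (hn : 60 ≤ n) (hN : Num n E A)
    {l j : ℕ} (hlj : j + 2 ≤ l) :
    CB P (Fl A E k B t (l + 2)) {ω | Wev A E k l j (fun s => B s ω) t}
      (ENNReal.ofReal (be A E ^ (l - j + 1))) := by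
  have hA := hN.hA
  have hE := hN.hE
  obtain ⟨h1, h2, h3⟩ := inv_facts (A := A) (by omega)
  have hle : t - Us A E k (l + 1) ≤ t + Us A E k (l + 1) := tsub_le_self.trans le_self_add
  have hind := indep_mIn_mOut hB.measurable hB.indep hle
  refine CB.mono_alg ?_ (Fl_anti (by omega) (by omega) (show l + 1 ≤ l + 2 by omega))
  refine CB.of_outer hind (mIn_le hB.measurable _ _) (mOut_le hB.measurable _ _) meas_wev_out ?_
  have hR := Rs_pos (A := A) (E := E) (by omega) (j + 1)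
  have hls : 0 < ls A E l j := by unfold ls; positivity
  set H : ℝ≥0 := Us A E k l - Us A E k (l + 1) with hH
  have hH2 : (H : ℝ) ≤ 2 * Ts A E l := by
    have h4 : H ≤ 2 * Ts A E l := by
      refine tsub_le_self.trans ?_
      unfold Us; split_ifs
      · exact le_rfl
      · exact zero_le
    exact_mod_cast h4
  have hC := Ct_nonneg n 36
  have hbound : 64 * ((H : ℝ) / ls A E l j ^ 2) ≤
      128 * 4 ^ (l - j) * ((A : ℝ)⁻¹) ^ (E * (2 * (l - j) - 3)) := by
    have e1 := Ts_eq_w (A := A) (E := E) (by omega) (show 2 ≤ l - j by omega)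
      (show l = j + (l - j) by omega)
    have e2 : ls A E l j ^ 2 = Rs A E (j + 1) ^ 2 / 4 ^ (l - j) := by
      unfold ls
      rw [div_pow, ← pow_mul, mul_comm (l - j) 2, pow_mul]; norm_num
    rw [e2]
    rw [e1] at hH2
    have h5 : (0 : ℝ) < Rs A E (j + 1) ^ 2 := by positivity
    rw [div_div_eq_mul_div, mul_div_assoc', div_le_iff₀ h5]
    calc 64 * ((H : ℝ) * 4 ^ (l - j))
        ≤ 64 * ((2 * (Rs A E (j + 1) ^ 2 * ((A : ℝ)⁻¹) ^ (E * (2 * (l - j) - 3)))) *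
            4 ^ (l - j)) := by gcongr
      _ = _ := by ring
  have hP : ∀ e : Set Ω, P e ≤ ENNReal.ofReal (2 * Ct n 36 * (64 * (H / ls A E l j ^ 2)) ^ 36) →
      P e ≤ ENNReal.ofReal (be A E ^ (l - j + 1) / 2) := by
    intro e he
    refine he.trans (ENNReal.ofReal_le_ofReal ?_)
    have h6 := num_w (x := (A : ℝ)⁻¹) (C := 4 * Ct n 36) (E := E) (d := l - j) (q := 36) h1 h2
      (by positivity) (by omega) le_rfl (by omega) hN.hw
    have h7 : (64 * ((H : ℝ) / ls A E l j ^ 2)) ^ 36 ≤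
        (128 * 4 ^ (l - j) * ((A : ℝ)⁻¹) ^ (E * (2 * (l - j) - 3))) ^ 36 :=
      pow_le_pow_left₀ (by positivity) hbound 36
    unfold be
    have h8 : 2 * Ct n 36 * (64 * ((H : ℝ) / ls A E l j ^ 2)) ^ 36 ≤
        2 * Ct n 36 * (128 * 4 ^ (l - j) * ((A : ℝ)⁻¹) ^ (E * (2 * (l - j) - 3))) ^ 36 :=
      mul_le_mul_of_nonneg_left h7 (by positivity)
    linarith
  have hp := hP _ (prob_chb_pl hB hn (t + Us A E k (l + 1)) 0 H hls (by norm_num : 12 ≤ 36))
  have hm := hP _ (prob_chb_mn hB hn (t - Us A E k (l + 1)) 0 H hls (by norm_num : 12 ≤ 36))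
  have hsub : {ω | Wev A E k l j (fun s => B s ω) t} =
      {ω | Chb (pl (fun s => B s ω) (t + Us A E k (l + 1))) 0 H (ls A E l j)} ∪
      {ω | Chb (mn (fun s => B s ω) (t - Us A E k (l + 1))) 0 H (ls A E l j)} := by
    ext ω
    simp only [Wev, Set.mem_ofPred_eq, Set.mem_union, hH]
  rw [hsub]
  refine (measure_union_le _ _).trans ((add_le_add hp hm).trans (le_of_eq ?_))
  have hbe := be_nonneg (A := A) (E := E)
  rw [← ENNReal.ofReal_add (by positivity) (by positivity)]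
  congr 1
  ring

/-- far returns, after: conditional bound -/
lemma cb_frp [IsProbabilityMeasure P] (hB : IsBrownian n P B) (hn : 60 ≤ n) (hN : Num n E A)
    {l j : ℕ} (hlj : l < j) (hjk : j < k) :
    CB P (Fl A E k B t (l + 2)) {ω | FRp A E l j (fun s => B s ω) t}
      (ENNReal.ofReal (be A E ^ (j - l + 1) / 2)) := by
  have hA := hN.hA
  have hE := hN.hE
  obtain ⟨h1, h2, h3⟩ := inv_facts (A := A) (by omega)
  have hbe := be_nonneg (A := A) (E := E)
  have hle : t - Us A E k (l + 2) ≤ t + Us A E k (l + 2) := tsub_le_self.trans le_self_add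
  have hind := indep_mIn_mOut hB.measurable hB.indep hle
  have hU : Us A E k (l + 2) = 2 * Ts A E (l + 2) := Us_of_le (by omega)
  have hT := four_Ts_succ (A := A) (E := E) (by omega) (by omega) (l + 1)
  have hTpos := Ts_pos (A := A) (E := E) (by omega) (l + 1)
  have hUT : Us A E k (l + 2) ≤ Ts A E (l + 1) := by
    rw [hU]
    refine le_trans ?_ hT
    gcongr
    norm_num
  have hUT' : (Ts A E (l + 1) : ℝ) / 2 ≤ (Ts A E (l + 1) : ℝ) - Us A E k (l + 2) := by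
    have h4 : 4 * (Ts A E (l + 2) : ℝ) ≤ Ts A E (l + 1) := by exact_mod_cast hT
    rw [hU]
    push_cast
    linarith
  have hR := Rs_pos (A := A) (E := E) (by omega) j
  have hTposR : (0 : ℝ) < Ts A E (l + 1) := by exact_mod_cast hTpos
  have hcell : ∀ m < Ms A E l j, CB P (Fl A E k B t (l + 2))
      {ω | Chb (pl (fun s => B s ω) (t + Ts A E (l + 1))) (m * cs A E l j) (cs A E l j) (Rs A E j) ∨
        ‖B (t + Ts A E (l + 1) + m * cs A E l j) ω - B t ω‖ ≤ 5 * Rs A E j}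
      (ENNReal.ofReal (2 * Ct n (14 * E + 2) * (64 * ((A : ℝ)⁻¹) ^ (j - l + 1)) ^ (14 * E + 2)) +
        ENNReal.ofReal ((50 * ((A : ℝ)⁻¹) ^ (E * (2 * (j - l) - 1))) ^ 30)) := by
    intro m _
    have e1 : MeasurableSet[mOut B (t - Us A E k (l + 2)) (t + Us A E k (l + 2))]
        {ω | Chb (pl (fun s => B s ω) (t + Ts A E (l + 1))) (m * cs A E l j) (cs A E l j)
          (Rs A E j)} :=
      meas_chb_pl fun s s' h1 _ h3 _ => meas_out_plus (le_trans (by gcongr) h1)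
        (le_trans (by gcongr) h3)
    refine CB.union (e := {ω | Chb (pl (fun s => B s ω) (t + Ts A E (l + 1))) (m * cs A E l j)
      (cs A E l j) (Rs A E j)}) (e' := {ω | ‖B (t + Ts A E (l + 1) + m * cs A E l j) ω -
      B t ω‖ ≤ 5 * Rs A E j}) ?_ ?_ (mIn_le hB.measurable _ _) (mOut_le hB.measurable _ _ _ e1)
    · refine CB.of_outer hind (mIn_le hB.measurable _ _) (mOut_le hB.measurable _ _) e1 ?_
      refine (prob_chb_pl hB hn _ _ _ hR (show 12 ≤ 14 * E + 2 by omega)).trans (le_of_eq ?_)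
      rw [cs_div (by omega)]
    · have hX : Measurable[mOut B (t - Us A E k (l + 2)) (t + Us A E k (l + 2))] fun ω =>
          B (t + Ts A E (l + 1) + m * cs A E l j) ω - B (t + Us A E k (l + 2)) ω := by
        refine meas_out_plus ?_ le_rfl
        rw [add_assoc]
        gcongr
        exact hUT.trans le_self_add
      have hY : Measurable[mIn B (t - Us A E k (l + 2)) (t + Us A E k (l + 2))] fun ω =>
          B (t + Us A E k (l + 2)) ω - B t ω :=
        meas_in hle le_rfl tsub_le_self le_self_add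
      have hCB := CB.of_ball (R := 5 * Rs A E j)
        (c := ENNReal.ofReal ((50 * ((A : ℝ)⁻¹) ^ (E * (2 * (j - l) - 1))) ^ 30)) hind
        (mIn_le hB.measurable _ _) (mOut_le hB.measurable _ _) hX hY ?_
      · have e2 : {ω | ‖B (t + Ts A E (l + 1) + m * cs A E l j) ω - B t ω‖ ≤ 5 * Rs A E j} =
            {ω | ‖(B (t + Ts A E (l + 1) + m * cs A E l j) ω - B (t + Us A E k (l + 2)) ω) +
              (B (t + Us A E k (l + 2)) ω - B t ω)‖ ≤ 5 * Rs A E j} := by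
          ext ω
          simp only [Set.mem_ofPred_eq, sub_add_sub_cancel]
        rw [e2]
        exact hCB
      · intro y
        have hlt : t + Us A E k (l + 2) < t + Ts A E (l + 1) + m * cs A E l j := by
          rw [add_assoc]
          gcongr
          refine lt_of_lt_of_le ?_ le_self_add
          have h4 : (Us A E k (l + 2) : ℝ) < Ts A E (l + 1) := by linarith
          exact_mod_cast h4
        have h5 := bm_ball hB hn hlt (-y) (R := 5 * Rs A E j) (by positivity)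
        simp only [sub_neg_eq_add] at h5
        refine h5.trans (ENNReal.ofReal_le_ofReal ?_)
        have h6 := Rs_eq_f (A := A) (E := E) (by omega) (show 1 ≤ j - l by omega)
          (show j = l + (j - l) by omega)
        have h7 : (Ts A E (l + 1) : ℝ) / 2 ≤ ((t + Ts A E (l + 1) + m * cs A E l j : ℝ≥0) : ℝ) -
            ((t + Us A E k (l + 2) : ℝ≥0) : ℝ) := by
          push_cast
          have : (0 : ℝ) ≤ m * cs A E l j := by positivity
          linarith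
        have h8 : (5 * Rs A E j) ^ 2 / (((t + Ts A E (l + 1) + m * cs A E l j : ℝ≥0) : ℝ) -
            ((t + Us A E k (l + 2) : ℝ≥0) : ℝ)) ≤
            50 * ((A : ℝ)⁻¹) ^ (E * (2 * (j - l) - 1)) := by
          rw [div_le_iff₀ (lt_of_lt_of_le (by positivity) h7), mul_pow, h6]
          have h9 : 0 ≤ 50 * ((A : ℝ)⁻¹) ^ (E * (2 * (j - l) - 1)) := by positivity
          nlinarith
        have h9 : 0 ≤ (5 * Rs A E j) ^ 2 / (((t + Ts A E (l + 1) + m * cs A E l j : ℝ≥0) : ℝ) -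
            ((t + Us A E k (l + 2) : ℝ≥0) : ℝ)) :=
          div_nonneg (by positivity) (le_trans (by positivity) h7)
        exact pow_le_pow_left₀ h9 h8 30
  have hcellm : ∀ m < Ms A E l j, MeasurableSet
      {ω | Chb (pl (fun s => B s ω) (t + Ts A E (l + 1))) (m * cs A E l j) (cs A E l j) (Rs A E j) ∨
        ‖B (t + Ts A E (l + 1) + m * cs A E l j) ω - B t ω‖ ≤ 5 * Rs A E j} := by
    intro m _
    have e1 : MeasurableSet {ω | Chb (pl (fun s => B s ω) (t + Ts A E (l + 1))) (m * cs A E l j)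
        (cs A E l j) (Rs A E j)} :=
      meas_chb_pl fun s s' _ _ _ _ => (hB.measurable s).sub (hB.measurable s')
    have e2 : MeasurableSet {ω | ‖B (t + Ts A E (l + 1) + m * cs A E l j) ω - B t ω‖ ≤
        5 * Rs A E j} := by
      have h4 : Measurable fun ω => ‖B (t + Ts A E (l + 1) + m * cs A E l j) ω - B t ω‖ :=
        ((hB.measurable _).sub (hB.measurable _)).norm
      exact h4 measurableSet_Iic
    exact e1.union e2
  refine (CB.exists_lt (mIn_le hB.measurable _ _) hcell hcellm).mono (le_of_eq rfl) ?_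
  have hC := Ct_nonneg n (14 * E + 2)
  rw [← ENNReal.ofReal_add (by positivity) (by positivity), ← ENNReal.ofReal_natCast,
    ← ENNReal.ofReal_mul (by positivity)]
  apply ENNReal.ofReal_le_ofReal
  have hMs : (Ms A E l j : ℝ) = (A : ℝ) ^ (E + 2 * E * (j - l) + (j - l + 1)) := by
    unfold Ms; push_cast; rfl
  rw [hMs, mul_add]
  have e1 := num_f1 (x := (A : ℝ)⁻¹) (A := (A : ℝ)) (C := Ct n (14 * E + 2))
    (K := 64 ^ (14 * E + 2)) (E := E) (d := j - l) h1 h2 h3 hC rfl hN.hf1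
  have e2 := num_f2 (x := (A : ℝ)⁻¹) (A := (A : ℝ)) (E := E) (d := j - l) h1 h2 h3 (by omega)
    (by omega) hN.hf2
  unfold be
  linarith

end Pool.Agent.Helper83.ConfDim
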