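import Pool.Agent.Helper83.ConfDim.Prob7

open MeasureTheory ProbabilityTheory Filter
open scoped ENNReal NNReal Topology

namespace Pool.Agent.Helper83.ConfDim

variable {Ω : Type*} [mΩ : MeasurableSpace Ω] {n : ℕ} {P : Measure Ω}
  {B : ℝ≥0 → Ω → EuclideanSpace ℝ (Fin n)} {A E k : ℕ} {t : ℝ≥0}

/-- far returns, before: conditional bound -/
lemma cb_frm [IsProbabilityMeasure P] (hB : IsBrownian n P B) (hn : 60 ≤ n) (hN : Num n E A)
    {l j : ℕ} (hlj : l < j) (hjk : j < k) :
    CB P (Fl A E k B t (l + 2)) {ω | FRm A E l j (fun s => B s ω) t}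
      (ENNReal.ofReal (be A E ^ (j - l + 1) / 2)) := by
  have hA := hN.hA
  have hE := hN.hE
  obtain ⟨h1, h2, h3⟩ := inv_facts (A := A) (by omega)
  have hbe := be_nonneg (A := A) (E := E)
  have hle : t - Us A E k (l + 2) ≤ t + Us A E k (l + 2) := tsub_le_self.trans le_self_add
  have hind := indep_mIn_mOut hB.measurable hB.indep hle
  have hU : Us A E k (l + 2) = 2 * Ts A E (l + 2) := Us_of_le (by omega)
  have hT := four_Ts_succ (A := A) (E := E) (by omega) (by omega) (l + 1)
  have hTpos := Ts_pos (A := A) (E := E) (by omega) (l + 1)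
  have hUT : Us A E k (l + 2) ≤ Ts A E (l + 1) := by
    rw [hU]
    refine le_trans ?_ hT
    gcongr
    norm_num
  have hUT' : (Ts A E (l + 1) : ℝ) / 2 ≤ (Ts A E (l + 1) : ℝ) - Us A E k (l + 2) := by
    have h4 : 4 * (Ts A E (l + 2) : ℝ) ≤ Ts A E (l + 1) := by exact_mod_cast hT
    rw [hU]
    push_cast
    linarith
  have hR := Rs_pos (A := A) (E := E) (by omega) j
  have hTposR : (0 : ℝ) < Ts A E (l + 1) := by exact_mod_cast hTpos
  have hcell : ∀ m < Ms A E l j, CB P (Fl A E k B t (l + 2))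
      {ω | Chb (mn (fun s => B s ω) (t - Ts A E (l + 1))) (m * cs A E l j) (cs A E l j) (Rs A E j) ∨
        (Ts A E (l + 1) + m * cs A E l j ≤ t ∧
        ‖B (t - Ts A E (l + 1) - m * cs A E l j) ω - B t ω‖ ≤ 5 * Rs A E j)}
      (ENNReal.ofReal (2 * Ct n (14 * E + 2) * (64 * ((A : ℝ)⁻¹) ^ (j - l + 1)) ^ (14 * E + 2)) +
        ENNReal.ofReal ((50 * ((A : ℝ)⁻¹) ^ (E * (2 * (j - l) - 1))) ^ 30)) := by
    intro m _
    have e1 : MeasurableSet[mOut B (t - Us A E k (l + 2)) (t + Us A E k (l + 2))]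
        {ω | Chb (mn (fun s => B s ω) (t - Ts A E (l + 1))) (m * cs A E l j) (cs A E l j)
          (Rs A E j)} :=
      meas_chb_mn fun s s' _ h2 _ h4 => meas_out_minus (h2.trans (tsub_le_tsub_left hUT t))
        (h4.trans (tsub_le_tsub_left hUT t))
    refine CB.union (e := {ω | Chb (mn (fun s => B s ω) (t - Ts A E (l + 1))) (m * cs A E l j)
      (cs A E l j) (Rs A E j)}) (e' := {ω | Ts A E (l + 1) + m * cs A E l j ≤ t ∧
      ‖B (t - Ts A E (l + 1) - m * cs A E l j) ω -
      B t ω‖ ≤ 5 * Rs A E j}) ?_ ?_ (mIn_le hB.measurable _ _) (mOut_le hB.measurable _ _ _ e1)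
    · refine CB.of_outer hind (mIn_le hB.measurable _ _) (mOut_le hB.measurable _ _) e1 ?_
      refine (prob_chb_mn hB hn _ _ _ hR (show 12 ≤ 14 * E + 2 by omega)).trans (le_of_eq ?_)
      rw [cs_div (by omega)]
    · by_cases hmt : Ts A E (l + 1) + m * cs A E l j ≤ t
      swap
      · have e0 : {ω | Ts A E (l + 1) + m * cs A E l j ≤ t ∧
            ‖B (t - Ts A E (l + 1) - m * cs A E l j) ω - B t ω‖ ≤ 5 * Rs A E j} = ∅ := by
          ext ω; simp [hmt]
        rw [e0]; exact CB.empty
      have hX : Measurable[mOut B (t - Us A E k (l + 2)) (t + Us A E k (l + 2))] fun ω =>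
          B (t - Ts A E (l + 1) - m * cs A E l j) ω - B (t - Us A E k (l + 2)) ω := by
        refine meas_out_minus ?_ le_rfl
        exact tsub_le_self.trans (tsub_le_tsub_left hUT t)
      have hY : Measurable[mIn B (t - Us A E k (l + 2)) (t + Us A E k (l + 2))] fun ω =>
          B (t - Us A E k (l + 2)) ω - B t ω :=
        meas_in le_rfl hle tsub_le_self le_self_add
      have hCB := CB.of_ball (R := 5 * Rs A E j)
        (c := ENNReal.ofReal ((50 * ((A : ℝ)⁻¹) ^ (E * (2 * (j - l) - 1))) ^ 30)) hind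
        (mIn_le hB.measurable _ _) (mOut_le hB.measurable _ _) hX hY ?_
      · have e2 : {ω | Ts A E (l + 1) + m * cs A E l j ≤ t ∧
            ‖B (t - Ts A E (l + 1) - m * cs A E l j) ω - B t ω‖ ≤ 5 * Rs A E j} =
            {ω | ‖(B (t - Ts A E (l + 1) - m * cs A E l j) ω - B (t - Us A E k (l + 2)) ω) +
              (B (t - Us A E k (l + 2)) ω - B t ω)‖ ≤ 5 * Rs A E j} := by
          ext ω
          simp only [Set.mem_ofPred_eq, sub_add_sub_cancel, hmt, true_and]
        rw [e2]
        exact hCB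
      · intro y
        have hmr : (Ts A E (l + 1) : ℝ) + m * cs A E l j ≤ t := by exact_mod_cast hmt
        have hUt : Us A E k (l + 2) ≤ t := hUT.trans (le_trans le_self_add hmt)
        have hc : (0 : ℝ) ≤ m * cs A E l j := by positivity
        have hr1 : ((t - Ts A E (l + 1) - m * cs A E l j : ℝ≥0) : ℝ) =
            t - Ts A E (l + 1) - m * cs A E l j := by
          rw [tsub_tsub, NNReal.coe_sub hmt]; push_cast; ring
        have hr2 : ((t - Us A E k (l + 2) : ℝ≥0) : ℝ) = t - Us A E k (l + 2) := NNReal.coe_sub hUt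
        have hlt : t - Ts A E (l + 1) - m * cs A E l j < t - Us A E k (l + 2) := by
          rw [← NNReal.coe_lt_coe, hr1, hr2]
          linarith
        have h5 := bm_ball hB hn hlt y (R := 5 * Rs A E j) (by positivity)
        have h50 : ∀ ω, ‖B (t - Ts A E (l + 1) - m * cs A E l j) ω - B (t - Us A E k (l + 2)) ω +
            y‖ = ‖B (t - Us A E k (l + 2)) ω - B (t - Ts A E (l + 1) - m * cs A E l j) ω - y‖ := by
          intro ω
          rw [← norm_neg]; congr 1; abel
        simp only [h50]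
        refine h5.trans (ENNReal.ofReal_le_ofReal ?_)
        have h6 := Rs_eq_f (A := A) (E := E) (by omega) (show 1 ≤ j - l by omega)
          (show j = l + (j - l) by omega)
        have h7 : (Ts A E (l + 1) : ℝ) / 2 ≤ ((t - Us A E k (l + 2) : ℝ≥0) : ℝ) -
            ((t - Ts A E (l + 1) - m * cs A E l j : ℝ≥0) : ℝ) := by
          rw [hr1, hr2]
          linarith
        have h8 : (5 * Rs A E j) ^ 2 / (((t - Us A E k (l + 2) : ℝ≥0) : ℝ) -
            ((t - Ts A E (l + 1) - m * cs A E l j : ℝ≥0) : ℝ)) ≤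
            50 * ((A : ℝ)⁻¹) ^ (E * (2 * (j - l) - 1)) := by
          rw [div_le_iff₀ (lt_of_lt_of_le (by positivity) h7), mul_pow, h6]
          have h9 : 0 ≤ 50 * ((A : ℝ)⁻¹) ^ (E * (2 * (j - l) - 1)) := by positivity
          nlinarith
        have h9 : 0 ≤ (5 * Rs A E j) ^ 2 / (((t - Us A E k (l + 2) : ℝ≥0) : ℝ) -
            ((t - Ts A E (l + 1) - m * cs A E l j : ℝ≥0) : ℝ)) :=
          div_nonneg (by positivity) (le_trans (by positivity) h7)
        exact pow_le_pow_left₀ h9 h8 30
  have hcellm : ∀ m < Ms A E l j, MeasurableSet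
      {ω | Chb (mn (fun s => B s ω) (t - Ts A E (l + 1))) (m * cs A E l j) (cs A E l j) (Rs A E j) ∨
        (Ts A E (l + 1) + m * cs A E l j ≤ t ∧
        ‖B (t - Ts A E (l + 1) - m * cs A E l j) ω - B t ω‖ ≤ 5 * Rs A E j)} := by
    intro m _
    have e1 : MeasurableSet {ω | Chb (mn (fun s => B s ω) (t - Ts A E (l + 1))) (m * cs A E l j)
        (cs A E l j) (Rs A E j)} :=
      meas_chb_mn fun s s' _ _ _ _ => (hB.measurable s).sub (hB.measurable s')
    have e2 : MeasurableSet {ω | Ts A E (l + 1) + m * cs A E l j ≤ t ∧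
        ‖B (t - Ts A E (l + 1) - m * cs A E l j) ω - B t ω‖ ≤ 5 * Rs A E j} := by
      refine meas_and_const fun _ => ?_
      have h4 : Measurable fun ω => ‖B (t - Ts A E (l + 1) - m * cs A E l j) ω - B t ω‖ :=
        ((hB.measurable _).sub (hB.measurable _)).norm
      exact h4 measurableSet_Iic
    exact e1.union e2
  refine (CB.exists_lt (mIn_le hB.measurable _ _) hcell hcellm).mono (le_of_eq rfl) ?_
  have hC := Ct_nonneg n (14 * E + 2)
  rw [← ENNReal.ofReal_add (by positivity) (by positivity), ← ENNReal.ofReal_natCast,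
    ← ENNReal.ofReal_mul (by positivity)]
  apply ENNReal.ofReal_le_ofReal
  have hMs : (Ms A E l j : ℝ) = (A : ℝ) ^ (E + 2 * E * (j - l) + (j - l + 1)) := by
    unfold Ms; push_cast; rfl
  rw [hMs, mul_add]
  have e1 := num_f1 (x := (A : ℝ)⁻¹) (A := (A : ℝ)) (C := Ct n (14 * E + 2))
    (K := 64 ^ (14 * E + 2)) (E := E) (d := j - l) h1 h2 h3 hC rfl hN.hf1
  have e2 := num_f2 (x := (A : ℝ)⁻¹) (A := (A : ℝ)) (E := E) (d := j - l) h1 h2 h3 (by omega)
    (by omega) hN.hf2
  unfold be
  linarith

/-- one-sided events are rare -/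
lemma prob_one [IsProbabilityMeasure P] {V g : ℝ≥0} {rr : ℝ}
    {γ : ℝ≥0 → Ω → EuclideanSpace ℝ (Fin n)} (hγ : Side n P V γ) (hN : Num n E A)
    (hrr : 0 < rr) (hg : rr ^ 2 = A * g) :
    P {ω | One A E g rr V (fun v => γ v ω)} ≤
      ENNReal.ofReal ((A : ℝ) ^ (3 * E + 1) * (2 * Ct n (14 * E + 2) * (64 / A) ^ (14 * E + 2)) +
      (A : ℝ) ^ (E + 1) * (2 * Ct n (14 * E + 2) * (65536 / A) ^ (14 * E + 2)) +
      ((A : ℝ) ^ (3 * E + 1) + 1) ^ 2 * (36 / (A : ℝ) ^ E) ^ 30 +
      (A : ℝ) ^ (E + 1) * (1 / 4) ^ Nw A E) := by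
  have hA := hN.hA
  have hE := hN.hE
  have hC := Ct_nonneg n (14 * E + 2)
  have e1 := prob_osc (E := E) hγ (by omega) hrr hg (q := 14 * E + 2) (by omega)
  have e2 := prob_mc (E := E) hγ (by omega) hrr hg (q := 14 * E + 2) (by omega)
  have e3 := prob_lr (E := E) hγ (by omega) hrr hg
  have e4 := prob_poor (E := E) hγ (by omega) (by omega) hrr hg hN.hpj
  have hsub : {ω | One A E g rr V (fun v => γ v ω)} =
      ((({ω | Osc A E g rr (fun v => γ v ω)} ∪ {ω | Mc A E g rr (fun v => γ v ω)}) ∪
      {ω | Lr A E g rr V (fun v => γ v ω)}) ∪ {ω | Poor A E g rr V (fun v => γ v ω)}) := by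
    ext ω
    simp only [One, Set.mem_ofPred_eq, Set.mem_union, or_assoc]
  rw [hsub, ENNReal.ofReal_add (by positivity) (by positivity),
    ENNReal.ofReal_add (by positivity) (by positivity),
    ENNReal.ofReal_add (by positivity) (by positivity)]
  refine (measure_union_le _ _).trans (add_le_add ?_ e4)
  refine (measure_union_le _ _).trans (add_le_add ?_ e3)
  exact (measure_union_le _ _).trans (add_le_add e1 e2)

/-- local events: conditional bound -/
lemma cb_loc [IsProbabilityMeasure P] (hB : IsBrownian n P B) (hn : 60 ≤ n) (hN : Num n E A)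
    {j : ℕ} :
    CB P (Fl A E k B t (j + 2)) {ω | LocE A E (gs A E j) (Rs A E (j + 1)) (fun s => B s ω)
      (t + Us A E k (j + 2)) (t - Us A E k (j + 2))} (ENNReal.ofReal (be A E)) := by
  have hA := hN.hA
  have hE := hN.hE
  have hle : t - Us A E k (j + 2) ≤ t + Us A E k (j + 2) := tsub_le_self.trans le_self_add
  have hind := indep_mIn_mOut hB.measurable hB.indep hle
  refine CB.of_outer hind (mIn_le hB.measurable _ _) (mOut_le hB.measurable _ _)
    (meas_loc_out (by omega) (by omega)) ?_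
  have hR := Rs_pos (A := A) (E := E) (by omega) (j + 1)
  have hg := Rs_sq (A := A) (E := E) (by omega) j
  have hC := Ct_nonneg n (14 * E + 2)
  set g := gs A E j with hgdef
  set rr := Rs A E (j + 1) with hrrdef
  set c := t + Us A E k (j + 2) with hc
  set c' := t - Us A E k (j + 2) with hc'
  have e1 := prob_one (side_pls hB hn c (A ^ (3 * E + 1) * g)) hN hR hg
  have e2 := prob_one (side_mns hB hn c') hN hR hg
  have e3 := prob_lrx (A := A) (E := E) (V := A ^ (3 * E + 1) * g) hB hn (by omega) hR hg hle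
  have hsub : {ω | LocE A E g rr (fun s => B s ω) c c'} =
      (({ω | One A E g rr (A ^ (3 * E + 1) * g) (fun v => pls B c v ω)} ∪
      {ω | One A E g rr c' (fun v => mns B c' v ω)}) ∪
      {ω | Lrx A E g rr (A ^ (3 * E + 1) * g) c' (fun v => pls B c v ω)
        (fun v => mns B c' v ω)}) := by
    ext ω
    simp only [LocE, Set.mem_ofPred_eq, Set.mem_union, or_assoc]
    exact Iff.rfl
  rw [hsub]
  refine (measure_union_le _ _).trans ((add_le_add ((measure_union_le _ _).trans
    (add_le_add e1 e2)) e3).trans ?_)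
  rw [← ENNReal.ofReal_add (by positivity) (by positivity),
    ← ENNReal.ofReal_add (by positivity) (by positivity)]
  apply ENNReal.ofReal_le_ofReal
  have := hN.hloc
  unfold be
  linarith

/-- **conditional bound for all events** -/
lemma cb_dev [IsProbabilityMeasure P] (hB : IsBrownian n P B) (hn : 60 ≤ n) (hN : Num n E A)
    {l j : ℕ} (hjk : j < k) :
    CB P (Fl A E k B t (l + 2)) {ω | Dev A E k l j (fun s => B s ω) t}
      (ENNReal.ofReal (be A E ^ ((l - j) + (j - l) + 1))) := by
  have hbe := be_nonneg (A := A) (E := E)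
  rcases lt_trichotomy l j with h | h | h
  · have e1 : {ω | Dev A E k l j (fun s => B s ω) t} =
        {ω | FRp A E l j (fun s => B s ω) t} ∪ {ω | FRm A E l j (fun s => B s ω) t} := by
      ext ω
      simp only [Dev, Set.mem_ofPred_eq, Set.mem_union, h, true_and, h.ne, false_and, false_or,
        show ¬ j + 2 ≤ l by omega, or_false]
    rw [e1, show l - j = 0 by omega, zero_add]
    have hm : MeasurableSet {ω | FRp A E l j (fun s => B s ω) t} :=
      mIn_le hB.measurable _ _ _ (meas_frp (k := k) (t := t) (by have := hN.hA; omega)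
        (by have := hN.hE; omega) h (by omega))
    refine ((cb_frp hB hn hN h hjk).union (cb_frm hB hn hN h hjk) (mIn_le hB.measurable _ _)
      hm).mono le_rfl (le_of_eq ?_)
    rw [← ENNReal.ofReal_add (by positivity) (by positivity)]
    congr 1; ring
  · subst h
    have e1 : {ω | Dev A E k l l (fun s => B s ω) t} = {ω | LocE A E (gs A E l) (Rs A E (l + 1))
        (fun s => B s ω) (t + Us A E k (l + 2)) (t - Us A E k (l + 2))} := by
      ext ω
      simp only [Dev, Set.mem_ofPred_eq, lt_irrefl, false_and, true_and, false_or,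
        show ¬ l + 2 ≤ l by omega, or_false]
    rw [e1]
    refine (cb_loc hB hn hN).mono le_rfl (le_of_eq ?_)
    congr 1
    rw [Nat.sub_self]; simp
  · rcases Nat.lt_or_ge l (j + 2) with h2 | h2
    · have e1 : {ω | Dev A E k l j (fun s => B s ω) t} = ∅ := by
        ext ω
        simp only [Dev, Set.mem_ofPred_eq, show ¬ l < j by omega, show ¬ l = j by omega,
          show ¬ j + 2 ≤ l by omega, false_and, false_or, Set.mem_empty_iff_false]
      rw [e1]; exact CB.empty
    · have e1 : {ω | Dev A E k l j (fun s => B s ω) t} =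
          {ω | Wev A E k l j (fun s => B s ω) t} := by
        ext ω
        simp only [Dev, Set.mem_ofPred_eq, show ¬ l < j by omega, show ¬ l = j by omega, h2,
          false_and, false_or, true_and]
      rw [e1, show j - l = 0 by omega, add_zero]
      exact cb_wev hB hn hN h2

end Pool.Agent.Helper83.ConfDim
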