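import Pool.Agent.Helper83.ConfDim.Prob8

open MeasureTheory ProbabilityTheory Filter
open scoped ENNReal NNReal Topology

namespace Pool.Agent.Helper83.ConfDim

/-- distance of indices -/
def dl (l j : ℕ) : ℕ := (l - j) + (j - l)

lemma sum_quarter (l k : ℕ) : ∑ j ∈ Finset.range k, (1 / 4 : ℝ) ^ (dl l j + 1) ≤ 1 / 2 := by
  have h1 : ∀ k ≤ l + 1, ∑ j ∈ Finset.range k, (1 / 4 : ℝ) ^ (dl l j + 1) ≤
      1 / 3 * (1 / 4) ^ (l + 1 - k) := by
    intro k
    induction k with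
    | zero => intro _; rw [Finset.sum_range_zero]; positivity
    | succ k ih =>
      intro hk
      rw [Finset.sum_range_succ]
      have h2 := ih (by omega)
      have h3 : dl l k + 1 = l + 1 - k := by unfold dl; omega
      have h4 : l + 1 - k = (l + 1 - (k + 1)) + 1 := by omega
      rw [h3]
      rw [h4, pow_succ] at h2 ⊢
      linarith
  have h2 : ∀ d, ∑ j ∈ Finset.range (l + 1 + d), (1 / 4 : ℝ) ^ (dl l j + 1) ≤
      1 / 2 - 1 / 3 * (1 / 4) ^ (d + 1) := by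
    intro d
    induction d with
    | zero =>
      have := h1 (l + 1) le_rfl
      rw [Nat.sub_self] at this
      rw [add_zero]
      norm_num at this ⊢
      linarith
    | succ d ih =>
      rw [← add_assoc, Finset.sum_range_succ]
      have h3 : dl l (l + 1 + d) + 1 = d + 1 + 1 := by unfold dl; omega
      rw [h3, pow_succ _ (d + 1)]
      linarith
  have h3 : ∑ j ∈ Finset.range k, (1 / 4 : ℝ) ^ (dl l j + 1) ≤
      ∑ j ∈ Finset.range (l + 1 + k), (1 / 4 : ℝ) ^ (dl l j + 1) :=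
    Finset.sum_le_sum_of_subset_of_nonneg (Finset.range_mono (by omega)) fun _ _ _ => by positivity
  have h4 := h2 k
  have h5 : (0 : ℝ) ≤ 1 / 3 * (1 / 4) ^ (k + 1) := by positivity
  linarith

section gen
variable {Ω : Type*} {m : MeasurableSpace Ω}

lemma meas_ff_gen {k : ℕ} {S : ℕ → Set Ω} (hS : ∀ j < k, MeasurableSet[m] (S j)) (c : ℕ → ℝ≥0∞) :
    Measurable[m] fun ω => 1 + ∑ j ∈ Finset.range k, (S j).indicator (fun _ => c j) ω := by
  refine Measurable.const_add ?_ 1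
  refine Finset.measurable_fun_sum _ fun j hj => ?_
  exact (@measurable_const _ _ _ m (c j)).indicator (hS j (Finset.mem_range.1 hj))

lemma meas_mul_gen {f g : Ω → ℝ≥0∞} (hf : Measurable[m] f) (hg : Measurable[m] g) :
    Measurable[m] fun ω => f ω * g ω := hf.mul hg

end gen

/-- the growth constant -/
noncomputable def Zc (A E : ℕ) : ℝ≥0∞ := (A : ℝ≥0∞) ^ (2 * E)

lemma one_le_Zc {A E : ℕ} (hA : 1 ≤ A) : 1 ≤ Zc A E := by
  unfold Zc
  exact one_le_pow₀ (by exact_mod_cast hA)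

variable {Ω : Type*} {n : ℕ} {B : ℝ≥0 → Ω → EuclideanSpace ℝ (Fin n)} {A E k : ℕ} {t : ℝ≥0}

/-- event at a pair of scales, as a set -/
def DS (A E k : ℕ) (B : ℝ≥0 → Ω → EuclideanSpace ℝ (Fin n)) (t : ℝ≥0) (l j : ℕ) : Set Ω :=
  {ω | l ≤ k + 1 ∧ Dev A E k l j (fun s => B s ω) t}

/-- the majorant of one scale -/
noncomputable def ff (A E k : ℕ) (B : ℝ≥0 → Ω → EuclideanSpace ℝ (Fin n)) (t : ℝ≥0) (l : ℕ)
    (ω : Ω) : ℝ≥0∞ :=
  1 + ∑ j ∈ Finset.range k, (DS A E k B t l j).indicator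
    (fun _ => Zc A E ^ (4 * (dl l j + 1))) ω

lemma meas_DS (hA : 4 ≤ A) (hE : 2 ≤ E) (l j : ℕ) :
    MeasurableSet[Fl A E k B t l] (DS A E k B t l j) :=
  meas_and_const fun h => meas_dev hA hE h

lemma meas_ff (hA : 4 ≤ A) (hE : 2 ≤ E) (l : ℕ) :
    Measurable[Fl A E k B t l] (ff A E k B t l) :=
  meas_ff_gen (fun j _ => meas_DS hA hE l j) _

/-- products of majorants -/
noncomputable def PF (A E k : ℕ) (B : ℝ≥0 → Ω → EuclideanSpace ℝ (Fin n)) (t : ℝ≥0) (r l : ℕ)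
    (ω : Ω) : ℝ≥0∞ := ∏ i ∈ Finset.range r, ff A E k B t (l + 2 * i) ω

lemma PF_succ (r l : ℕ) (ω : Ω) :
    PF A E k B t (r + 1) l ω = ff A E k B t l ω * PF A E k B t r (l + 2) ω := by
  unfold PF
  rw [Finset.prod_range_succ', mul_comm]
  congr 1
  refine Finset.prod_congr rfl fun i _ => ?_
  congr 1
  ring

lemma meas_PF (hA : 4 ≤ A) (hE : 2 ≤ E) (r : ℕ) : ∀ l,
    Measurable[Fl A E k B t l] (PF A E k B t r l) := by
  induction r with
  | zero =>
    intro l
    have : PF A E k B t 0 l = fun _ => 1 := by funext ω; unfold PF; simp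
    rw [this]
    exact @measurable_const _ _ _ (Fl A E k B t l) (1 : ℝ≥0∞)
  | succ r ih =>
    intro l
    have e : PF A E k B t (r + 1) l = fun ω => ff A E k B t l ω * PF A E k B t r (l + 2) ω := by
      funext ω; exact PF_succ r l ω
    rw [e]
    exact meas_mul_gen (meas_ff hA hE l) ((ih (l + 2)).mono (Fl_anti hA (by omega) (by omega)) le_rfl)

lemma Zc_be {A E : ℕ} (hA : 4 ≤ A) (hE : 1 ≤ E) (d : ℕ) :
    Zc A E ^ (4 * (d + 1)) * ENNReal.ofReal (be A E ^ (d + 1)) ≤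
      ENNReal.ofReal ((1 / 4) ^ (d + 1)) := by
  have hA0 : (4 : ℝ) ≤ A := by exact_mod_cast hA
  have e1 : Zc A E ^ (4 * (d + 1)) = ENNReal.ofReal (((A : ℝ) ^ (8 * E)) ^ (d + 1)) := by
    unfold Zc
    rw [← pow_mul, ← pow_mul, ENNReal.ofReal_pow (by positivity), ENNReal.ofReal_natCast]
    congr 1; ring
  rw [e1, ← ENNReal.ofReal_mul (by positivity), ← mul_pow]
  apply ENNReal.ofReal_le_ofReal
  have hbe := be_nonneg (A := A) (E := E)
  refine pow_le_pow_left₀ (by positivity) ?_ _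
  unfold be
  have h1 : (A : ℝ)⁻¹ ≤ 1 / 4 := by
    rw [inv_eq_one_div]
    exact one_div_le_one_div_of_le (by norm_num) hA0
  have h2 : (A : ℝ) ^ (8 * E) * (A : ℝ)⁻¹ ^ (11 * E) = (A : ℝ)⁻¹ ^ (3 * E) := by
    rw [show 11 * E = 8 * E + 3 * E by ring, pow_add, ← mul_assoc, ← mul_pow,
      mul_inv_cancel₀ (by positivity), one_pow, one_mul]
  rw [h2]
  calc (A : ℝ)⁻¹ ^ (3 * E) ≤ (A : ℝ)⁻¹ ^ 1 :=
        pow_le_pow_of_le_one (by positivity) (by linarith) (by omega)
    _ ≤ 1 / 4 := by rw [pow_one]; exact h1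

/-- one step of the recursion -/
lemma ff_step [mΩ : MeasurableSpace Ω] {P : Measure Ω} [IsProbabilityMeasure P]
    (hB : IsBrownian n P B) (hn : 60 ≤ n) (hN : Num n E A) (l : ℕ) {G : Ω → ℝ≥0∞}
    (hG : Measurable[Fl A E k B t (l + 2)] G) :
    ∫⁻ ω, ff A E k B t l ω * G ω ∂P ≤ 2 * ∫⁻ ω, G ω ∂P := by
  have hA := hN.hA
  have hE := hN.hE
  have hG' : Measurable G := hG.mono (mIn_le hB.measurable _ _) le_rfl
  have hD : ∀ j, MeasurableSet (DS A E k B t l j) := fun j =>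
    mIn_le hB.measurable _ _ _ (meas_DS (by omega) (by omega) l j)
  have h1 : ∀ ω, ff A E k B t l ω * G ω = G ω + ∑ j ∈ Finset.range k,
      Zc A E ^ (4 * (dl l j + 1)) * ((DS A E k B t l j).indicator (fun _ => 1) ω * G ω) := by
    intro ω
    unfold ff
    rw [add_mul, one_mul, Finset.sum_mul]
    congr 1
    refine Finset.sum_congr rfl fun j _ => ?_
    by_cases h : ω ∈ DS A E k B t l j
    · rw [Set.indicator_of_mem h, Set.indicator_of_mem h, one_mul]
    · rw [Set.indicator_of_notMem h, Set.indicator_of_notMem h, zero_mul, mul_zero]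
  have hm : ∀ j, Measurable fun ω => Zc A E ^ (4 * (dl l j + 1)) *
      ((DS A E k B t l j).indicator (fun _ => (1 : ℝ≥0∞)) ω * G ω) := fun j =>
    ((measurable_const.indicator (hD j)).mul hG').const_mul _
  simp only [h1]
  rw [lintegral_add_left hG', lintegral_finsetSum _ fun j _ => hm j]
  have h2 : ∀ j ∈ Finset.range k, ∫⁻ ω, Zc A E ^ (4 * (dl l j + 1)) *
      ((DS A E k B t l j).indicator (fun _ => (1 : ℝ≥0∞)) ω * G ω) ∂P ≤
      ENNReal.ofReal ((1 / 4) ^ (dl l j + 1)) * ∫⁻ ω, G ω ∂P := by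
    intro j hj
    have e0 : Measurable fun ω => (DS A E k B t l j).indicator (fun _ => (1 : ℝ≥0∞)) ω * G ω :=
      (measurable_const.indicator (hD j)).mul hG'
    rw [lintegral_const_mul _ e0]
    have h3 := (cb_dev (t := t) hB hn hN (l := l) (Finset.mem_range.1 hj)).mono
      (e' := DS A E k B t l j) (fun ω hω => hω.2) le_rfl G hG
    calc Zc A E ^ (4 * (dl l j + 1)) *
          ∫⁻ ω, (DS A E k B t l j).indicator (fun _ => (1 : ℝ≥0∞)) ω * G ω ∂P
        ≤ Zc A E ^ (4 * (dl l j + 1)) * (ENNReal.ofReal (be A E ^ (dl l j + 1)) *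
            ∫⁻ ω, G ω ∂P) := by
          gcongr
          exact h3
      _ = (Zc A E ^ (4 * (dl l j + 1)) * ENNReal.ofReal (be A E ^ (dl l j + 1))) *
            ∫⁻ ω, G ω ∂P := by rw [mul_assoc]
      _ ≤ _ := by
          gcongr
          exact Zc_be (by omega) (by omega) _
  calc ∫⁻ ω, G ω ∂P + ∑ j ∈ Finset.range k, ∫⁻ ω, Zc A E ^ (4 * (dl l j + 1)) *
      ((DS A E k B t l j).indicator (fun _ => (1 : ℝ≥0∞)) ω * G ω) ∂P
      ≤ ∫⁻ ω, G ω ∂P + ∑ j ∈ Finset.range k, ENNReal.ofReal ((1 / 4) ^ (dl l j + 1)) *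
          ∫⁻ ω, G ω ∂P := by
        gcongr with j hj
        exact h2 j hj
    _ = (1 + ENNReal.ofReal (∑ j ∈ Finset.range k, (1 / 4) ^ (dl l j + 1))) *
          ∫⁻ ω, G ω ∂P := by
        rw [← Finset.sum_mul, ENNReal.ofReal_sum_of_nonneg fun _ _ => by positivity, add_mul,
          one_mul]
    _ ≤ (1 + 1) * ∫⁻ ω, G ω ∂P := by
        gcongr
        rw [← ENNReal.ofReal_one]
        apply ENNReal.ofReal_le_ofReal
        have := sum_quarter l k
        linarith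
    _ = 2 * ∫⁻ ω, G ω ∂P := by rw [one_add_one_eq_two]

lemma PF_le [mΩ : MeasurableSpace Ω] {P : Measure Ω} [IsProbabilityMeasure P]
    (hB : IsBrownian n P B) (hn : 60 ≤ n) (hN : Num n E A) (r : ℕ) : ∀ l,
    ∫⁻ ω, PF A E k B t r l ω ∂P ≤ 2 ^ r := by
  have hA := hN.hA
  have hE := hN.hE
  induction r with
  | zero =>
    intro l
    have : PF A E k B t 0 l = fun _ => 1 := by funext ω; unfold PF; simp
    rw [this]; simp
  | succ r ih =>
    intro l
    simp only [PF_succ]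
    refine (ff_step hB hn hN l (meas_PF (by omega) (by omega) r (l + 2))).trans ?_
    rw [pow_succ, mul_comm]
    gcongr
    exact ih (l + 2)

end Pool.Agent.Helper83.ConfDim
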